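import Pool.Agent.N879.QM.Avg
import Pool.Agent.N879.QM.Uni
import Pool.Agent.H38R2.CG.PV

set_option autoImplicit false

/-! # Averages of the real primitive characters at integers which are neither a square nor twice a square
(helper61 for helper6): Pólya–Vinogradov gives the error `√X n^{3/8}` -/

namespace Pool.Agent.V8H6.CB

namespace Av

open Finset Filter Topology
open Pool.Agent.N879.QM Pool.Agent.N879.QM.Avg
open Pool.Agent.Y293.SF (mu abs_mu_le mu_zero indic_eq)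
open Pool.Agent.W406.TW (jz jz_cast jz_mul sum_jz jac_abs exists_neg)
open Pool.Agent.H306R2.RG (FD F8 F4 F1 Fam cf jo)
open Pool.Agent.H306R2.RZ (js)

/-- the Jacobi symbol as a Dirichlet character -/
noncomputable def jchar (n : ℕ) [NeZero n] : DirichletCharacter ℂ n where
  toFun x := ((jz n x : ℤ) : ℂ)
  map_one' := by
    have h := jz_cast n 1
    rw [jacobiSym.one_left, Int.cast_one] at h
    rw [h, Int.cast_one]
  map_mul' x y := by
    show ((jz n (x * y) : ℤ) : ℂ) = ((jz n x : ℤ) : ℂ) * ((jz n y : ℤ) : ℂ)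
    rw [jz_mul]
    push_cast
    rfl
  map_nonunit' x hx := by
    show ((jz n x : ℤ) : ℂ) = 0
    have h1 : jz n x = 0 := by
      unfold jz
      rw [jacobiSym.eq_zero_iff_not_coprime]
      intro hc
      apply hx
      rw [← ZMod.natCast_zmod_val x, ZMod.isUnit_iff_coprime]
      rw [Int.gcd_natCast_natCast] at hc
      exact hc
    rw [h1, Int.cast_zero]

lemma jchar_nat (n : ℕ) [NeZero n] (k : ℕ) : jchar n (k : ZMod n) = ((jacobiSym (k : ℤ) n : ℤ) : ℂ) := by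
  show ((jz n (k : ZMod n) : ℤ) : ℂ) = _
  have h := jz_cast n (k : ℤ)
  rw [Int.cast_natCast] at h
  rw [h]

lemma jchar_ne {n : ℕ} [NeZero n] (hn : Odd n) (h : ¬ IsSquare n) : jchar n ≠ 1 := by
  intro h1
  obtain ⟨a, ha⟩ := exists_neg hn h
  have h2 : jchar n ((a : ZMod n)) = -1 := by
    show ((jz n (a : ZMod n) : ℤ) : ℂ) = _
    rw [jz_cast, ha]
    norm_num
  rw [h1] at h2
  by_cases hu : IsUnit (a : ZMod n)
  · rw [MulChar.one_apply hu] at h2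
    norm_num at h2
  · rw [MulChar.map_nonunit _ hu] at h2
    norm_num at h2

/-- Pólya–Vinogradov for shifted sums of Jacobi symbols -/
lemma pv : ∃ K : ℝ, 1 ≤ K ∧ ∀ n : ℕ, Odd n → ¬ IsSquare n → ∀ b L : ℕ,
    |∑ l ∈ range L, ((jacobiSym ((l + b : ℕ) : ℤ) n : ℤ) : ℝ)| ≤ K * (n : ℝ) ^ (3 / 4 : ℝ) := by
  obtain ⟨C, hC, hPV⟩ := Pool.Agent.H38R2.CG.T_PV
  refine ⟨4 * C + 1, by linarith, ?_⟩
  intro n hn hsq b L
  have hn0 : n ≠ 0 := by rintro rfl; exact absurd hn (by decide)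
  haveI : NeZero n := ⟨hn0⟩
  have hn1 : n ≠ 1 := by rintro rfl; exact hsq ⟨1, rfl⟩
  have hn2 : 2 ≤ n := by omega
  have hnR : (0 : ℝ) < n := by exact_mod_cast Nat.pos_of_ne_zero hn0
  have hnR1 : (1 : ℝ) ≤ n := by exact_mod_cast Nat.one_le_iff_ne_zero.2 hn0
  -- write the sum as a sum over `Ioc`
  have h1 : ∑ l ∈ range L, ((jacobiSym ((l + b : ℕ) : ℤ) n : ℤ) : ℝ) =
      ∑ l ∈ range L, ((jacobiSym ((l + (b + n) : ℕ) : ℤ) n : ℤ) : ℝ) := by
    refine sum_congr rfl fun l _ => ?_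
    congr 1
    apply jacobiSym.mod_left'
    push_cast
    rw [← add_assoc, Int.add_emod_right]
  have h2 : (∑ l ∈ range L, ((jacobiSym ((l + (b + n) : ℕ) : ℤ) n : ℤ) : ℝ) : ℝ) =
      ∑ k ∈ Ioc (b + n - 1) (b + n - 1 + L), ((jacobiSym (k : ℤ) n : ℤ) : ℝ) := by
    refine sum_nbij' (fun l => l + (b + n)) (fun k => k - (b + n)) ?_ ?_ ?_ ?_ ?_
    · intro l hl
      rw [mem_range] at hl
      rw [mem_Ioc]
      omega
    · intro k hk
      rw [mem_Ioc] at hk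
      rw [mem_range]
      omega
    · intro l _
      simp
    · intro k hk
      rw [mem_Ioc] at hk
      show k - (b + n) + (b + n) = k
      omega
    · intro l _
      rfl
  have h3 : ‖∑ k ∈ Ioc (b + n - 1) (b + n - 1 + L), jchar n (k : ZMod n)‖ =
      |∑ k ∈ Ioc (b + n - 1) (b + n - 1 + L), ((jacobiSym (k : ℤ) n : ℤ) : ℝ)| := by
    rw [← Real.norm_eq_abs, ← Complex.norm_real]
    congr 1
    push_cast
    exact sum_congr rfl fun k _ => jchar_nat n k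
  rw [h1, h2, ← h3]
  refine (hPV n (jchar n) hn2 (jchar_ne hn hsq) _ _).trans ?_
  have hlog : Real.log n ≤ (n : ℝ) ^ (1 / 4 : ℝ) / (1 / 4) := Real.log_le_rpow_div hnR.le (by norm_num)
  have hsqr : √(n : ℝ) = (n : ℝ) ^ (1 / 2 : ℝ) := Real.sqrt_eq_rpow _
  have hpos : 0 ≤ (n : ℝ) ^ (1 / 2 : ℝ) := by positivity
  have hpos2 : 0 ≤ (n : ℝ) ^ (3 / 4 : ℝ) := by positivity
  calc C * √(n : ℝ) * Real.log n ≤ C * (n : ℝ) ^ (1 / 2 : ℝ) * ((n : ℝ) ^ (1 / 4 : ℝ) / (1 / 4)) := by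
        rw [hsqr]
        exact mul_le_mul_of_nonneg_left hlog (by positivity)
    _ = 4 * C * ((n : ℝ) ^ (1 / 2 : ℝ) * (n : ℝ) ^ (1 / 4 : ℝ)) := by ring
    _ = 4 * C * (n : ℝ) ^ (3 / 4 : ℝ) := by
        rw [← Real.rpow_add hnR]
        norm_num
    _ ≤ (4 * C + 1) * (n : ℝ) ^ (3 / 4 : ℝ) := by linarith

/-- the inner sums -/
lemma inner_pv {K : ℝ} (hK : ∀ n : ℕ, Odd n → ¬ IsSquare n → ∀ b L : ℕ,
    |∑ l ∈ range L, ((jacobiSym ((l + b : ℕ) : ℤ) n : ℤ) : ℝ)| ≤ K * (n : ℝ) ^ (3 / 4 : ℝ))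
    {c n : ℕ} (hn : Odd n) (hsq : ¬ IsSquare n) (hc : c < 8) (M : ℕ) :
    |∑ m ∈ range M, fc c n m| ≤ K * (n : ℝ) ^ (3 / 4 : ℝ) := by
  have hn0 : n ≠ 0 := by rintro rfl; exact absurd hn (by decide)
  have : NeZero n := ⟨hn0⟩
  set L := (M - c + 7) / 8 with hL
  have h1 : ∑ m ∈ range M, fc c n m =
      ∑ l ∈ range L, ((jacobiSym (8 * (l : ℤ) + c) n : ℤ) : ℝ) := by
    unfold fc
    rw [← sum_filter]
    refine sum_nbij' (fun m => m / 8) (fun l => 8 * l + c) ?_ ?_ ?_ ?_ ?_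
    · intro m hm
      rw [mem_filter, mem_range] at hm
      rw [mem_range]
      omega
    · intro l hl
      rw [mem_range] at hl
      rw [mem_filter, mem_range]
      omega
    · intro m hm
      rw [mem_filter, mem_range] at hm
      omega
    · intro l hl
      rw [mem_range] at hl
      omega
    · intro m hm
      rw [mem_filter, mem_range] at hm
      have h2 : ((m : ℕ) : ℤ) = 8 * ((m / 8 : ℕ) : ℤ) + c := by
        omega
      rw [← h2]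
  -- an inverse of `8`
  have h8 : Nat.Coprime 8 n := by
    have h3 : Nat.Coprime 2 n := (Nat.coprime_two_left).2 hn
    exact Nat.Coprime.pow_left 3 h3
  obtain ⟨b, hb⟩ : ∃ b : ℕ, ((8 * b : ℕ) : ℤ) % n = (c : ℤ) % n := by
    have hu8 : IsUnit (8 : ZMod n) := by
      have : IsUnit ((8 : ℕ) : ZMod n) := by
        rw [ZMod.isUnit_iff_coprime]
        exact h8
      simpa using this
    obtain ⟨u, hu⟩ := hu8
    refine ⟨((u⁻¹ : (ZMod n)ˣ) * (c : ZMod n) : ZMod n).val, ?_⟩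
    have h4 : ((8 * (((u⁻¹ : (ZMod n)ˣ) : ZMod n) * (c : ZMod n)).val : ℕ) : ZMod n) = (c : ZMod n) := by
      push_cast
      rw [ZMod.natCast_zmod_val, ← mul_assoc, ← hu, Units.mul_inv, one_mul]
    have h5 := (ZMod.natCast_eq_natCast_iff _ _ _).1 h4
    unfold Nat.ModEq at h5
    exact_mod_cast h5
  have h6 : ∀ l : ℕ, jacobiSym (8 * (l : ℤ) + c) n = jacobiSym 8 n * jacobiSym ((l + b : ℕ) : ℤ) n := by
    intro l
    rw [← jacobiSym.mul_left]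
    apply jacobiSym.mod_left'
    have h7 : (8 : ℤ) * ((l + b : ℕ) : ℤ) = 8 * (l : ℤ) + ((8 * b : ℕ) : ℤ) := by
      push_cast
      ring
    rw [h7, Int.add_emod (8 * (l : ℤ)) ((8 * b : ℕ) : ℤ), hb, ← Int.add_emod]
  have h8' : ∑ l ∈ range L, ((jacobiSym (8 * (l : ℤ) + c) n : ℤ) : ℝ) =
      ((jacobiSym 8 n : ℤ) : ℝ) * ∑ l ∈ range L, ((jacobiSym ((l + b : ℕ) : ℤ) n : ℤ) : ℝ) := by
    rw [mul_sum]
    refine sum_congr rfl fun l _ => ?_
    rw [h6 l, Int.cast_mul]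
  rw [h1, h8', abs_mul]
  have h9 := hK n hn hsq b L
  have h10 : |((jacobiSym 8 n : ℤ) : ℝ)| ≤ 1 := jac_absR 8 n
  calc _ ≤ 1 * (K * (n : ℝ) ^ (3 / 4 : ℝ)) := mul_le_mul h10 h9 (abs_nonneg _) zero_le_one
    _ = _ := one_mul _

/-- squarefree integers in a class -/
lemma SC_bd {K : ℝ} (hK1 : 1 ≤ K) (hK : ∀ n : ℕ, Odd n → ¬ IsSquare n → ∀ b L : ℕ,
    |∑ l ∈ range L, ((jacobiSym ((l + b : ℕ) : ℤ) n : ℤ) : ℝ)| ≤ K * (n : ℝ) ^ (3 / 4 : ℝ))
    {c n : ℕ} (hn : Odd n) (hsq : ¬ IsSquare n) (hco : Odd c) (hc : c < 8) (Y : ℝ) (hY : 0 < Y) :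
    |SC c Y n| ≤ 6 * √K * (√Y * (n : ℝ) ^ (3 / 8 : ℝ)) := by
  have hn0 : 0 < n := Nat.pos_of_ne_zero (by rintro rfl; exact absurd hn (by decide))
  have hnR : (0 : ℝ) < n := by exact_mod_cast hn0
  have hsY : 0 < √Y := Real.sqrt_pos.2 hY
  rw [SC_eq hn hco Y]
  set R := ⌊√Y⌋₊ with hR
  have hR1 : (R : ℝ) ≤ √Y := Nat.floor_le hsY.le
  set T := K * (n : ℝ) ^ (3 / 4 : ℝ) with hT
  have hT0 : 0 < T := by positivity
  calc |∑ a ∈ Icc 1 R, mu a *
        (if a.Coprime (2 * n) then ∑ m ∈ range ⌈Y / (a : ℝ) ^ 2⌉₊, fc c n m else 0)|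
      ≤ ∑ a ∈ Icc 1 R, |mu a *
        (if a.Coprime (2 * n) then ∑ m ∈ range ⌈Y / (a : ℝ) ^ 2⌉₊, fc c n m else 0)| :=
          abs_sum_le_sum_abs _ _
    _ ≤ ∑ a ∈ Icc 1 R, 2 * min (Y / (a : ℝ) ^ 2) T := by
        refine sum_le_sum fun a ha => ?_
        rw [mem_Icc] at ha
        have haR : (1 : ℝ) ≤ a := by exact_mod_cast ha.1
        have ha2 : (a : ℝ) ≤ √Y := le_trans (by exact_mod_cast ha.2) hR1
        have hZ : 1 ≤ Y / (a : ℝ) ^ 2 := by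
          rw [le_div_iff₀ (by positivity), one_mul]
          calc (a : ℝ) ^ 2 ≤ √Y ^ 2 := pow_le_pow_left₀ (by linarith) ha2 2
            _ = Y := Real.sq_sqrt hY.le
        have hmin0 : 0 ≤ min (Y / (a : ℝ) ^ 2) T := le_min (by positivity) hT0.le
        rw [abs_mul]
        have h1 : |(if a.Coprime (2 * n) then ∑ m ∈ range ⌈Y / (a : ℝ) ^ 2⌉₊, fc c n m else 0)| ≤
            2 * min (Y / (a : ℝ) ^ 2) T := by
          split_ifs with hcop
          · rw [mul_min_of_nonneg _ _ (by norm_num : (0 : ℝ) ≤ 2)]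
            refine le_min ?_ ?_
            · refine (sum_fc_abs c n _).trans ?_
              have h2 : (⌈Y / (a : ℝ) ^ 2⌉₊ : ℝ) < Y / (a : ℝ) ^ 2 + 1 := Nat.ceil_lt_add_one (by linarith)
              linarith
            · refine (inner_pv hK hn hsq hc _).trans ?_
              linarith
          · rw [abs_zero]
            linarith
        calc _ ≤ 1 * (2 * min (Y / (a : ℝ) ^ 2) T) :=
              mul_le_mul (abs_mu_le a) h1 (abs_nonneg _) zero_le_one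
          _ = _ := one_mul _
    _ = 2 * ∑ a ∈ Icc 1 R, min (Y / (a : ℝ) ^ 2) T := by rw [mul_sum]
    _ ≤ 2 * (3 * (√Y * √T)) := mul_le_mul_of_nonneg_left (min_sum Y hY T hT0 R) (by norm_num)
    _ = 6 * √K * (√Y * (n : ℝ) ^ (3 / 8 : ℝ)) := by
        rw [hT, Real.sqrt_mul (by linarith)]
        have h3 : √((n : ℝ) ^ (3 / 4 : ℝ)) = (n : ℝ) ^ (3 / 8 : ℝ) := by
          rw [Real.sqrt_eq_rpow, ← Real.rpow_mul hnR.le]
          norm_num
        rw [h3]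
        ring

lemma SR_bd {K : ℝ} (hK1 : 1 ≤ K) (hK : ∀ n : ℕ, Odd n → ¬ IsSquare n → ∀ b L : ℕ,
    |∑ l ∈ range L, ((jacobiSym ((l + b : ℕ) : ℤ) n : ℤ) : ℝ)| ≤ K * (n : ℝ) ^ (3 / 4 : ℝ))
    {n : ℕ} (hn : Odd n) (hsq : ¬ IsSquare n) (R : Finset ℕ) (hR : ∀ c ∈ R, Odd c ∧ c < 8)
    (hR4 : R.card ≤ 4) (Y : ℝ) (hY : 0 < Y) :
    |SR R Y n| ≤ 24 * √K * (√Y * (n : ℝ) ^ (3 / 8 : ℝ)) := by
  rw [SR_eq]
  have h4 : (R.card : ℝ) ≤ 4 := by exact_mod_cast hR4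
  calc |∑ c ∈ R, SC c Y n| ≤ ∑ c ∈ R, |SC c Y n| := abs_sum_le_sum_abs _ _
    _ ≤ ∑ c ∈ R, 6 * √K * (√Y * (n : ℝ) ^ (3 / 8 : ℝ)) := sum_le_sum fun c hc =>
        SC_bd hK1 hK hn hsq (hR c hc).1 (hR c hc).2 Y hY
    _ = R.card * (6 * √K * (√Y * (n : ℝ) ^ (3 / 8 : ℝ))) := by rw [sum_const, nsmul_eq_mul]
    _ ≤ 4 * (6 * √K * (√Y * (n : ℝ) ^ (3 / 8 : ℝ))) := mul_le_mul_of_nonneg_right h4 (by positivity)
    _ = 24 * √K * (√Y * (n : ℝ) ^ (3 / 8 : ℝ)) := by ring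

lemma one_fam' {K : ℝ} (hK1 : 1 ≤ K) (hK : ∀ n : ℕ, Odd n → ¬ IsSquare n → ∀ b L : ℕ,
    |∑ l ∈ range L, ((jacobiSym ((l + b : ℕ) : ℤ) n : ℤ) : ℝ)| ≤ K * (n : ℝ) ^ (3 / 4 : ℝ))
    (φ : FD) (R : Finset ℕ) (hr : 1 ≤ φ.r) (h1 : ∀ d, φ.A d → d % 8 ∈ R)
    (h2 : ∀ d, d % 8 ∈ R → Squarefree d → ¬ φ.A d → d = 1) (hη : |φ.η| ≤ 1)
    (hR : ∀ c ∈ R, Odd c ∧ c < 8) (hR4 : R.card ≤ 4) (X : ℝ)
    (hX : 1 ≤ X) (n : ℕ) (hn : n ≠ 0) (hm2 : ¬ IsSquare (n / 2 ^ (n.factorization 2))) :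
    |∑ d ∈ DF φ X, cf φ d n| ≤ (1 + 24 * √K) * (√X * (n : ℝ) ^ (3 / 8 : ℝ)) := by
  have ho := odd_part hn
  have a1 := fam_bound φ R hr h1 h2 hη X n hn
  have hrR : (1 : ℝ) ≤ φ.r := by exact_mod_cast hr
  have hY : 0 < X / φ.r := by positivity
  have a2 := SR_bd hK1 hK ho hm2 R hR hR4 (X / φ.r) hY
  set b := n.factorization 2 with hb
  set m := n / 2 ^ b with hm
  have hmn : (m : ℝ) ≤ n := by exact_mod_cast Nat.div_le_self n (2 ^ b)
  have hn1 : (1 : ℝ) ≤ n := by exact_mod_cast Nat.one_le_iff_ne_zero.2 hn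
  have hs1 : √(X / φ.r) * (m : ℝ) ^ (3 / 8 : ℝ) ≤ √X * (n : ℝ) ^ (3 / 8 : ℝ) := by
    refine mul_le_mul (Real.sqrt_le_sqrt ?_) (Real.rpow_le_rpow (by positivity) hmn (by norm_num))
      (by positivity) (Real.sqrt_nonneg _)
    exact div_le_self (by linarith) hrR
  have hs2 : 1 ≤ √X * (n : ℝ) ^ (3 / 8 : ℝ) := by
    have b1 : 1 ≤ √X := by
      rw [Real.le_sqrt (by norm_num) (by linarith)]
      simpa using hX
    have b2 : 1 ≤ (n : ℝ) ^ (3 / 8 : ℝ) := Real.one_le_rpow hn1 (by norm_num)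
    nlinarith
  have h3 : |φ.η ^ b * js φ.e m| ≤ 1 := by
    rw [abs_mul, abs_pow]
    calc _ ≤ 1 * (1 : ℝ) :=
          mul_le_mul (pow_le_one₀ (abs_nonneg _) hη) (js_abs _ _) (abs_nonneg _) zero_le_one
      _ = 1 := one_mul _
  have a3 : |φ.η ^ b * js φ.e m * SR R (X / φ.r) m| ≤ 24 * √K * (√X * (n : ℝ) ^ (3 / 8 : ℝ)) := by
    rw [abs_mul]
    calc _ ≤ 1 * (24 * √K * (√(X / φ.r) * (m : ℝ) ^ (3 / 8 : ℝ))) :=
          mul_le_mul h3 a2 (abs_nonneg _) zero_le_one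
      _ = 24 * √K * (√(X / φ.r) * (m : ℝ) ^ (3 / 8 : ℝ)) := one_mul _
      _ ≤ _ := mul_le_mul_of_nonneg_left hs1 (by positivity)
  have a4 := abs_sub_abs_le_abs_sub (∑ d ∈ DF φ X, cf φ d n) (φ.η ^ b * js φ.e m * SR R (X / φ.r) m)
  calc |∑ d ∈ DF φ X, cf φ d n| ≤ 1 + 24 * √K * (√X * (n : ℝ) ^ (3 / 8 : ℝ)) := by linarith
    _ ≤ (1 + 24 * √K) * (√X * (n : ℝ) ^ (3 / 8 : ℝ)) := by linarith

lemma fam_bd {K : ℝ} (hK1 : 1 ≤ K) (hK : ∀ n : ℕ, Odd n → ¬ IsSquare n → ∀ b L : ℕ,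
    |∑ l ∈ range L, ((jacobiSym ((l + b : ℕ) : ℤ) n : ℤ) : ℝ)| ≤ K * (n : ℝ) ^ (3 / 4 : ℝ))
    (s : ℤ) (hs : s = 1 ∨ s = -1) (X : ℝ) (hX : 1 ≤ X) (n : ℕ) (hn : n ≠ 0)
    (hm2 : ¬ IsSquare (n / 2 ^ (n.factorization 2))) (i : Fin 4) :
    |∑ d ∈ DF (fam s i) X, cf (fam s i) d n| ≤ (1 + 24 * √K) * (√X * (n : ℝ) ^ (3 / 8 : ℝ)) := by
  have key : ∀ φ : FD, (∃ R : Finset ℕ, 1 ≤ φ.r ∧ (∀ d, φ.A d → d % 8 ∈ R) ∧
      (∀ d, d % 8 ∈ R → Squarefree d → ¬ φ.A d → d = 1) ∧ |φ.η| ≤ 1 ∧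
      (∀ c ∈ R, Odd c ∧ c < 8) ∧ R.card ≤ 4) →
      |∑ d ∈ DF φ X, cf φ d n| ≤ (1 + 24 * √K) * (√X * (n : ℝ) ^ (3 / 8 : ℝ)) := by
    rintro φ ⟨R, h0, h1, h2, h3, h4, h5⟩
    exact one_fam' hK1 hK φ R h0 h1 h2 h3 h4 h5 X hX n hn hm2
  have hη : ∀ s : ℤ, (F1 s 5).η = -1 := fun s => by
    show (if (5 : ℤ) = 1 then (1 : ℝ) else -1) = -1
    norm_num
  apply key
  fin_cases i
  · show ∃ R : Finset ℕ, 1 ≤ (F8 s).r ∧ (∀ d, (F8 s).A d → d % 8 ∈ R) ∧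
      (∀ d, d % 8 ∈ R → Squarefree d → ¬ (F8 s).A d → d = 1) ∧ |(F8 s).η| ≤ 1 ∧
      (∀ c ∈ R, Odd c ∧ c < 8) ∧ R.card ≤ 4
    refine ⟨{1, 3, 5, 7}, by simp [F8], ?_, ?_, by simp [F8], ?_, by decide⟩
    · intro d hd
      have h1 : Odd d := hd
      obtain ⟨k, hk⟩ := h1
      simp only [mem_insert, mem_singleton]
      omega
    · intro d hd _ hA
      exfalso
      apply hA
      simp only [mem_insert, mem_singleton] at hd
      show Odd d
      rw [Nat.odd_iff]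
      omega
    · intro c hc
      simp only [mem_insert, mem_singleton] at hc
      rcases hc with rfl | rfl | rfl | rfl <;> decide
  · show ∃ R : Finset ℕ, 1 ≤ (F4 s).r ∧ (∀ d, (F4 s).A d → d % 8 ∈ R) ∧
      (∀ d, d % 8 ∈ R → Squarefree d → ¬ (F4 s).A d → d = 1) ∧ |(F4 s).η| ≤ 1 ∧
      (∀ c ∈ R, Odd c ∧ c < 8) ∧ R.card ≤ 4
    rcases hs with rfl | rfl
    · refine ⟨{3, 7}, by simp [F4], ?_, ?_, by simp [F4], ?_, by decide⟩
      · intro d hd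
        have h1 : ((1 : ℤ) * (d : ℤ)) % 4 = 3 := hd
        simp only [mem_insert, mem_singleton]
        omega
      · intro d hd _ hA
        exfalso
        apply hA
        simp only [mem_insert, mem_singleton] at hd
        show ((1 : ℤ) * (d : ℤ)) % 4 = 3
        omega
      · intro c hc
        simp only [mem_insert, mem_singleton] at hc
        rcases hc with rfl | rfl <;> decide
    · refine ⟨{1, 5}, by simp [F4], ?_, ?_, by simp [F4], ?_, by decide⟩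
      · intro d hd
        have h1 : ((-1 : ℤ) * (d : ℤ)) % 4 = 3 := hd
        simp only [mem_insert, mem_singleton]
        omega
      · intro d hd _ hA
        exfalso
        apply hA
        simp only [mem_insert, mem_singleton] at hd
        show ((-1 : ℤ) * (d : ℤ)) % 4 = 3
        omega
      · intro c hc
        simp only [mem_insert, mem_singleton] at hc
        rcases hc with rfl | rfl <;> decide
  · show ∃ R : Finset ℕ, 1 ≤ (F1 s 1).r ∧ (∀ d, (F1 s 1).A d → d % 8 ∈ R) ∧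
      (∀ d, d % 8 ∈ R → Squarefree d → ¬ (F1 s 1).A d → d = 1) ∧ |(F1 s 1).η| ≤ 1 ∧
      (∀ c ∈ R, Odd c ∧ c < 8) ∧ R.card ≤ 4
    rcases hs with rfl | rfl
    · refine ⟨{1}, by simp [F1], ?_, ?_, by simp [F1], ?_, by decide⟩
      · intro d hd
        have h1 : ((1 : ℤ) * (d : ℤ)) % 8 = 1 := hd.1
        simp only [mem_singleton]
        omega
      · intro d hd hsq hA
        simp only [mem_singleton] at hd
        by_contra hd1
        apply hA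
        show ((1 : ℤ) * (d : ℤ)) % 8 = 1 ∧ ¬ IsSquare ((1 : ℤ) * (d : ℤ))
        exact ⟨by omega, fun h => hd1 (sqf_one hsq h)⟩
      · intro c hc
        simp only [mem_singleton] at hc
        rcases hc with rfl
        decide
    · refine ⟨{7}, by simp [F1], ?_, ?_, by simp [F1], ?_, by decide⟩
      · intro d hd
        have h1 : ((-1 : ℤ) * (d : ℤ)) % 8 = 1 := hd.1
        simp only [mem_singleton]
        omega
      · intro d hd hsq hA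
        simp only [mem_singleton] at hd
        exfalso
        apply hA
        show ((-1 : ℤ) * (d : ℤ)) % 8 = 1 ∧ ¬ IsSquare ((-1 : ℤ) * (d : ℤ))
        exact ⟨by omega, fun h => neg_sq (by omega) h⟩
      · intro c hc
        simp only [mem_singleton] at hc
        rcases hc with rfl
        decide
  · show ∃ R : Finset ℕ, 1 ≤ (F1 s 5).r ∧ (∀ d, (F1 s 5).A d → d % 8 ∈ R) ∧
      (∀ d, d % 8 ∈ R → Squarefree d → ¬ (F1 s 5).A d → d = 1) ∧ |(F1 s 5).η| ≤ 1 ∧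
      (∀ c ∈ R, Odd c ∧ c < 8) ∧ R.card ≤ 4
    rcases hs with rfl | rfl
    · refine ⟨{5}, by simp [F1], ?_, ?_, by rw [hη]; simp, ?_, by decide⟩
      · intro d hd
        have h1 : ((1 : ℤ) * (d : ℤ)) % 8 = 5 := hd.1
        simp only [mem_singleton]
        omega
      · intro d hd hsq hA
        simp only [mem_singleton] at hd
        by_contra hd1
        apply hA
        show ((1 : ℤ) * (d : ℤ)) % 8 = 5 ∧ ¬ IsSquare ((1 : ℤ) * (d : ℤ))
        exact ⟨by omega, fun h => hd1 (sqf_one hsq h)⟩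
      · intro c hc
        simp only [mem_singleton] at hc
        rcases hc with rfl
        decide
    · refine ⟨{3}, by simp [F1], ?_, ?_, by rw [hη]; simp, ?_, by decide⟩
      · intro d hd
        have h1 : ((-1 : ℤ) * (d : ℤ)) % 8 = 5 := hd.1
        simp only [mem_singleton]
        omega
      · intro d hd hsq hA
        simp only [mem_singleton] at hd
        exfalso
        apply hA
        show ((-1 : ℤ) * (d : ℤ)) % 8 = 5 ∧ ¬ IsSquare ((-1 : ℤ) * (d : ℤ))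
        exact ⟨by omega, fun h => neg_sq (by omega) h⟩
      · intro c hc
        simp only [mem_singleton] at hc
        rcases hc with rfl
        decide

/-- the odd part of an integer which is neither a square nor twice a square is not a square -/
lemma odd_part_nsq {n : ℕ} (hn : n ≠ 0) (h1 : ¬ IsSquare n) (h2 : ¬ IsSquare (2 * n)) :
    ¬ IsSquare (n / 2 ^ (n.factorization 2)) := by
  intro h
  obtain ⟨r, hr⟩ := h
  have h3 : 2 ^ (n.factorization 2) * (n / 2 ^ (n.factorization 2)) = n :=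
    Nat.ordProj_mul_ordCompl_eq_self n 2
  rw [hr] at h3
  rcases Nat.even_or_odd (n.factorization 2) with ⟨k, hk⟩ | ⟨k, hk⟩
  · apply h1
    refine ⟨2 ^ k * r, ?_⟩
    rw [← h3, hk]
    ring
  · apply h2
    refine ⟨2 ^ (k + 1) * r, ?_⟩
    rw [← h3, hk]
    ring

end Av

open Pool.Agent.N879.QM in
open Pool.Agent.N879.QM.Avg in
/-- **Averages of `χ(n)` over the real primitive characters**, `n` neither a square nor twice a square -/
theorem t_AV : ∃ C : ℝ, 0 < C ∧ ∀ (s : ℤ) (X : ℝ) (n : ℕ), s = 1 ∨ s = -1 → 1 ≤ X → 1 ≤ n →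
    ¬ IsSquare n → ¬ IsSquare (2 * n) →
    ‖∑ q ∈ Q s X, vl s q n‖ ≤ C * √X * (n : ℝ) ^ (3 / 8 : ℝ) := by
  obtain ⟨K, hK1, hK⟩ := Av.pv
  refine ⟨4 * (1 + 24 * √K), by positivity, ?_⟩
  intro s X n hs hX hn h1 h2
  have hn0 : n ≠ 0 := by omega
  have hm2 := Av.odd_part_nsq hn0 h1 h2
  rw [class_sum t_UNI s hs X n hn, Complex.norm_real, Real.norm_eq_abs]
  calc |∑ i : Fin 4, ∑ d ∈ DF (fam s i) X, Pool.Agent.H306R2.RG.cf (fam s i) d n|
      ≤ ∑ i : Fin 4, |∑ d ∈ DF (fam s i) X, Pool.Agent.H306R2.RG.cf (fam s i) d n| :=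
        Finset.abs_sum_le_sum_abs _ _
    _ ≤ ∑ i : Fin 4, (1 + 24 * √K) * (√X * (n : ℝ) ^ (3 / 8 : ℝ)) :=
        Finset.sum_le_sum fun i _ => Av.fam_bd hK1 hK s hs X hX n hn0 hm2 i
    _ = 4 * (1 + 24 * √K) * √X * (n : ℝ) ^ (3 / 8 : ℝ) := by
        rw [Finset.sum_const, Finset.card_univ, Fintype.card_fin, nsmul_eq_mul]
        push_cast
        ring

end Pool.Agent.V8H6.CB
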