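import Mathlib

set_option autoImplicit false

/-! A function vanishing at the centre is small near the centre if its mean square on a circle is small. -/

namespace Pool.Agent.V8H6.CB

open Complex Filter Topology MeasureTheory Set Metric

noncomputable section

/-- Cauchy-Schwarz -/
lemma cs_mu {Ω : Type} [MeasurableSpace Ω] {μ : Measure Ω} [IsFiniteMeasure μ] {M : Ω → ℝ} (h1 : Integrable M μ)
    (h2 : Integrable (fun y => M y ^ 2) μ) : (∫ y, M y ∂μ) ^ 2 ≤ μ.real univ * ∫ y, M y ^ 2 ∂μ := by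
  have key : ∀ t : ℝ, 0 ≤ μ.real univ * (t * t) + (-2 * ∫ y, M y ∂μ) * t + ∫ y, M y ^ 2 ∂μ := by
    intro t
    have h3 : 0 ≤ ∫ y, (M y - t) ^ 2 ∂μ := integral_nonneg fun y => sq_nonneg _
    have h4 : ∀ y, (M y - t) ^ 2 = M y ^ 2 + ((-2 * t) * M y + t * t) := by
      intro y; ring
    simp only [h4] at h3
    have h5 : ∫ y, (M y ^ 2 + ((-2 * t) * M y + t * t)) ∂μ =
        (∫ y, M y ^ 2 ∂μ) + ∫ y, ((-2 * t) * M y + t * t) ∂μ :=
      integral_add h2 ((h1.const_mul _).add (integrable_const _))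
    have h6 : ∫ y, ((-2 * t) * M y + t * t) ∂μ =
        (∫ y, (-2 * t) * M y ∂μ) + ∫ _y, t * t ∂μ := integral_add (h1.const_mul _) (integrable_const _)
    rw [h5, h6, integral_const_mul, integral_const, smul_eq_mul] at h3
    linarith
  have hd := discrim_le_zero key
  unfold discrim at hd
  nlinarith

lemma circ {f : ℂ → ℂ} {r : ℝ} (hr : 0 < r) (hd : DifferentiableOn ℂ f (closedBall 0 r)) {w : ℂ} (hw : ‖w‖ ≤ r / 2) :
    ‖f w‖ ^ 2 ≤ ∫ φ in (0 : ℝ)..(2 * Real.pi), ‖f (circleMap 0 r φ)‖ ^ 2 := by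
  have hpi := Real.pi_pos
  have hcl : DiffContOnCl ℂ f (ball 0 r) := hd.diffContOnCl_ball (le_refl _)
  have hwb : w ∈ ball (0 : ℂ) r := by
    rw [mem_ball_zero_iff]
    linarith
  have h1 := hcl.two_pi_i_inv_smul_circleIntegral_sub_inv_smul hwb
  have hc : Continuous fun φ : ℝ => f (circleMap 0 r φ) :=
    hd.continuousOn.comp_continuous (continuous_circleMap 0 r) (fun φ => circleMap_mem_closedBall 0 hr.le φ)
  have hb : ∀ φ : ℝ, ‖deriv (circleMap 0 r) φ • ((circleMap 0 r φ - w)⁻¹ • f (circleMap 0 r φ))‖ ≤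
      2 * ‖f (circleMap 0 r φ)‖ := by
    intro φ
    rw [norm_smul, norm_smul, deriv_circleMap, norm_mul, Complex.norm_I, mul_one, norm_circleMap_zero, abs_of_pos hr,
      norm_inv]
    have h2 : r / 2 ≤ ‖circleMap 0 r φ - w‖ := by
      have h3 := norm_sub_norm_le (circleMap 0 r φ) w
      rw [norm_circleMap_zero, abs_of_pos hr] at h3
      linarith
    have h4 : r * ‖circleMap 0 r φ - w‖⁻¹ ≤ 2 := by
      rw [← div_eq_mul_inv, div_le_iff₀ (by linarith)]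
      linarith
    rw [← mul_assoc]
    exact mul_le_mul_of_nonneg_right h4 (norm_nonneg _)
  have h5 : ‖∮ z in C(0, r), (z - w)⁻¹ • f z‖ ≤ ∫ φ in (0 : ℝ)..(2 * Real.pi), 2 * ‖f (circleMap 0 r φ)‖ := by
    unfold circleIntegral
    refine intervalIntegral.norm_integral_le_of_norm_le (by positivity) (Eventually.of_forall fun φ _ => hb φ) ?_
    exact (continuous_const.mul hc.norm).intervalIntegrable _ _
  have h6 : ‖f w‖ ≤ (1 / Real.pi) * ∫ φ in (0 : ℝ)..(2 * Real.pi), ‖f (circleMap 0 r φ)‖ := by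
    rw [← h1, norm_smul, norm_inv]
    have e : ‖(2 * Real.pi * I : ℂ)‖ = 2 * Real.pi := by
      rw [norm_mul, norm_mul, Complex.norm_I, mul_one, Complex.norm_real, Real.norm_of_nonneg hpi.le,
        RCLike.norm_ofNat]
    rw [e]
    rw [intervalIntegral.integral_const_mul] at h5
    calc (2 * Real.pi)⁻¹ * ‖∮ z in C(0, r), (z - w)⁻¹ • f z‖
        ≤ (2 * Real.pi)⁻¹ * (2 * ∫ φ in (0 : ℝ)..(2 * Real.pi), ‖f (circleMap 0 r φ)‖) :=
          mul_le_mul_of_nonneg_left h5 (by positivity)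
      _ = _ := by field_simp
  have h0 : (0 : ℝ) ≤ 2 * Real.pi := by positivity
  have h7 : (∫ φ in (0 : ℝ)..(2 * Real.pi), ‖f (circleMap 0 r φ)‖) ^ 2 ≤
      (2 * Real.pi) * ∫ φ in (0 : ℝ)..(2 * Real.pi), ‖f (circleMap 0 r φ)‖ ^ 2 := by
    rw [intervalIntegral.integral_of_le h0, intervalIntegral.integral_of_le h0]
    have h8 := cs_mu (μ := volume.restrict (Ioc (0 : ℝ) (2 * Real.pi))) (M := fun φ => ‖f (circleMap 0 r φ)‖)
      (hc.norm.integrableOn_Ioc) ((hc.norm.pow 2).integrableOn_Ioc)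
    refine h8.trans (le_of_eq ?_)
    congr 1
    rw [measureReal_restrict_apply_univ, Real.volume_real_Ioc_of_le h0, sub_zero]
  have h9 : 0 ≤ ∫ φ in (0 : ℝ)..(2 * Real.pi), ‖f (circleMap 0 r φ)‖ ^ 2 :=
    intervalIntegral.integral_nonneg h0 fun _ _ => sq_nonneg _
  calc ‖f w‖ ^ 2 ≤ ((1 / Real.pi) * ∫ φ in (0 : ℝ)..(2 * Real.pi), ‖f (circleMap 0 r φ)‖) ^ 2 :=
        pow_le_pow_left₀ (norm_nonneg _) h6 2
    _ = (1 / Real.pi) ^ 2 * (∫ φ in (0 : ℝ)..(2 * Real.pi), ‖f (circleMap 0 r φ)‖) ^ 2 := mul_pow _ _ _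
    _ ≤ (1 / Real.pi) ^ 2 * ((2 * Real.pi) * ∫ φ in (0 : ℝ)..(2 * Real.pi), ‖f (circleMap 0 r φ)‖ ^ 2) :=
        mul_le_mul_of_nonneg_left h7 (by positivity)
    _ = (2 / Real.pi) * ∫ φ in (0 : ℝ)..(2 * Real.pi), ‖f (circleMap 0 r φ)‖ ^ 2 := by field_simp
    _ ≤ 1 * ∫ φ in (0 : ℝ)..(2 * Real.pi), ‖f (circleMap 0 r φ)‖ ^ 2 := by
        apply mul_le_mul_of_nonneg_right _ h9
        rw [div_le_one hpi]
        linarith [Real.pi_gt_three]
    _ = _ := one_mul _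

lemma schw {f : ℂ → ℂ} {r M : ℝ} (hr : 0 < r) (hM : 0 < M) (hd : DifferentiableOn ℂ f (closedBall 0 r))
    (h0 : f 0 = 0) (hJ : ∫ φ in (0 : ℝ)..(2 * Real.pi), ‖f (circleMap 0 r φ)‖ ^ 2 ≤ M ^ 2) {w : ℂ}
    (hw : ‖w‖ < r / 2) : ‖f w‖ ≤ 2 * M / r * ‖w‖ := by
  have h1 : ∀ v : ℂ, ‖v‖ ≤ r / 2 → ‖f v‖ ≤ M := fun v hv =>
    le_of_sq_le_sq ((circ hr hd hv).trans hJ) hM.le
  have hsub : ball (0 : ℂ) (r / 2) ⊆ closedBall 0 r := by
    intro v hv
    rw [mem_ball_zero_iff] at hv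
    rw [mem_closedBall_zero_iff]
    linarith
  have h2 := Complex.dist_le_div_mul_dist_of_mapsTo_ball (f := f) (c := 0) (R₁ := r / 2) (R₂ := M) (z := w)
    (hd.mono hsub) (by
      intro v hv
      rw [mem_ball_zero_iff] at hv
      rw [h0, mem_closedBall_zero_iff]
      exact h1 v hv.le) (by rwa [mem_ball_zero_iff])
  rw [h0, dist_zero_right, dist_zero_right] at h2
  refine h2.trans (le_of_eq ?_)
  field_simp

end

end Pool.Agent.V8H6.CB
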