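import Pool.Agent.V8H6.CB.Rl
import Pool.Agent.W215.QP.Fe
import Pool.Agent.H491R3.Gam

set_option autoImplicit false

/-! The functional equation of the `L`-functions of the family. -/

namespace Pool.Agent.V8H6.CB

open Complex hiding im
open Filter Topology MeasureTheory Set
open Pool.Agent.N879.QM Pool.Agent.V8H6.RW
open scoped BigOperators

noncomputable section

/-- the shift of the gamma factor -/
def aa (s : ℤ) : ℂ := if s = 1 then 0 else 1

/-- the quotient of the gamma factors -/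
def Yf (s : ℤ) (z : ℂ) : ℂ := Gammaℝ (1 / 2 - z + aa s) / Gammaℝ (1 / 2 + z + aa s)

lemma gf {s : ℤ} {q : ℕ} (hs : s = 1 ∨ s = -1) (h : Is s q) (w : ℂ) :
    (ch s q).gammaFactor w = Gammaℝ (w + aa s) := by
  have h1 := (Is_ch h).2.2.2
  rcases hs with rfl | rfl
  · have he : (ch 1 q).Even := by
      show ch 1 q (-1) = 1
      rw [h1]; norm_num
    rw [he.gammaFactor_def, aa, if_pos rfl, add_zero]
  · have ho : (ch (-1) q).Odd := by
      show ch (-1) q (-1) = -1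
      rw [h1]; norm_num
    rw [ho.gammaFactor_def, aa, if_neg (by norm_num)]

theorem rn {s : ℤ} {q : ℕ} [NeZero q] (h : Is s q) : DirichletCharacter.rootNumber (ch s q) = 1 := by
  obtain ⟨h1, h2, h3, -⟩ := Is_ch h
  obtain ⟨-, hsym, hpos⟩ := Pool.Agent.W215.QP.fe q inferInstance (ch s q) h1 h2 h3
  have hinv : (ch s q)⁻¹ = ch s q := by
    have : ch s q * ch s q = 1 := by rw [← pow_two]; exact h2
    exact inv_eq_of_mul_eq_one_left this
  have hq0 : (0 : ℝ) < q := by exact_mod_cast Nat.pos_of_ne_zero (NeZero.ne q)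
  have hqc : (q : ℂ) ≠ 0 := by exact_mod_cast NeZero.ne q
  obtain ⟨Λ, hΛ⟩ : ∃ f : ℂ → ℂ, f = DirichletCharacter.completedLFunction (ch s q) := ⟨_, rfl⟩
  have hFE : ∀ w : ℂ, Λ (1 - w) = (q : ℂ) ^ (w - 1 / 2) * DirichletCharacter.rootNumber (ch s q) * Λ w := by
    intro w
    have e1 := h1.completedLFunction_one_sub w
    rw [hinv] at e1
    rw [hΛ]
    exact e1
  have e1 := hFE 2
  have e2 := hFE (-1)
  have n1 : (1 : ℂ) - 2 = -1 := by norm_num
  have n2 : (1 : ℂ) - -1 = 2 := by norm_num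
  rw [n1] at e1
  rw [n2] at e2
  have p2 := hpos 2 (by norm_num)
  have s2 := hsym 2
  unfold Pool.Agent.W169.QP.Lam at p2 s2
  rw [← hΛ] at p2 s2
  have c1 : (((1 : ℝ) - 2 : ℝ) : ℂ) = -1 := by push_cast; norm_num
  have c2 : ((2 : ℝ) : ℂ) = 2 := by norm_num
  rw [c1, c2] at s2
  rw [c2] at p2
  have hre2 : 0 < (Λ 2).re := by
    by_contra hc
    have : (q : ℝ) ^ ((2 : ℝ) / 2) * (Λ 2).re ≤ 0 :=
      mul_nonpos_of_nonneg_of_nonpos (by positivity) (not_lt.1 hc)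
    linarith
  have hre1 : 0 < (Λ (-1)).re := by
    by_contra hc
    have : (q : ℝ) ^ (((1 : ℝ) - 2) / 2) * (Λ (-1)).re ≤ 0 :=
      mul_nonpos_of_nonneg_of_nonpos (by positivity) (not_lt.1 hc)
    linarith
  obtain ⟨W, hW⟩ : ∃ W : ℂ, W = DirichletCharacter.rootNumber (ch s q) := ⟨_, rfl⟩
  rw [← hW] at e1 e2 ⊢
  have hL2 : Λ 2 ≠ 0 := by
    intro h0
    rw [h0] at hre2
    simp at hre2
  have hpw : (q : ℂ) ^ ((-1 : ℂ) - 1 / 2) * (q : ℂ) ^ ((2 : ℂ) - 1 / 2) = 1 := by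
    rw [← Complex.cpow_add _ _ hqc]
    norm_num
  have hW2 : W * W = 1 := by
    have e3 : Λ 2 * (W * W - 1) = 0 := by
      rw [e1] at e2
      linear_combination -(W * W * Λ 2) * hpw - e2
    rcases mul_eq_zero.1 e3 with h0 | h0
    · exact absurd h0 hL2
    · linear_combination h0
  rcases mul_self_eq_one_iff.1 hW2 with h0 | h0
  · exact h0
  · exfalso
    rw [h0] at e1
    have e4 : Λ (-1) = -(((q : ℝ) ^ (3 / 2 : ℝ) : ℝ) : ℂ) * Λ 2 := by
      rw [e1, Complex.ofReal_cpow hq0.le]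
      push_cast
      have : ((2 : ℂ) - 1 / 2) = 3 / 2 := by norm_num
      rw [this]
      ring
    rw [e4, ← Complex.ofReal_neg, Complex.re_ofReal_mul] at hre1
    have : 0 < (q : ℝ) ^ (3 / 2 : ℝ) * (Λ 2).re := by positivity
    linarith

lemma gam_ne {s : ℤ} {w : ℂ} (hw : 0 < w.re) : Gammaℝ (w + aa s) ≠ 0 := by
  apply Gammaℝ_ne_zero_of_re_pos
  unfold aa
  split_ifs
  · simpa using hw
  · simp; linarith

/-- the functional equation -/
theorem fe {s : ℤ} {q : ℕ} (hs : s = 1 ∨ s = -1) (h : Is s q) {z : ℂ} (hz : |z.re| < 1 / 2) :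
    LL s q (1 / 2 + z) = (q : ℂ) ^ (-z) * Yf s z * LL s q (1 / 2 - z) := by
  have : NeZero q := ⟨by have := h.1; omega⟩
  obtain ⟨h1, h2, h3, -⟩ := Is_ch h
  have hinv : (ch s q)⁻¹ = ch s q := by
    have : ch s q * ch s q = 1 := by rw [← pow_two]; exact h2
    exact inv_eq_of_mul_eq_one_left this
  have hq1 : q ≠ 1 := by have := h.1; omega
  rw [abs_lt] at hz
  have g1 : Gammaℝ (1 / 2 + z + aa s) ≠ 0 := gam_ne (by simp; linarith)
  have g2 : Gammaℝ (1 / 2 - z + aa s) ≠ 0 := gam_ne (by simp; linarith)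
  have e1 := h1.completedLFunction_one_sub (1 / 2 - z)
  rw [hinv, rn h, mul_one] at e1
  have n1 : (1 : ℂ) - (1 / 2 - z) = 1 / 2 + z := by ring
  have n2 : (1 / 2 - z : ℂ) - 1 / 2 = -z := by ring
  rw [n1, n2] at e1
  have e2 := DirichletCharacter.LFunction_eq_completed_div_gammaFactor (ch s q) (1 / 2 + z) (Or.inr hq1)
  have e3 := DirichletCharacter.LFunction_eq_completed_div_gammaFactor (ch s q) (1 / 2 - z) (Or.inr hq1)
  rw [gf hs h] at e2 e3
  rw [LL_eq, LL_eq, e2, e3, e1]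
  unfold Yf
  revert g1 g2
  generalize Gammaℝ (1 / 2 + z + aa s) = G1
  generalize Gammaℝ (1 / 2 - z + aa s) = G2
  generalize DirichletCharacter.completedLFunction (ch s q) (1 / 2 - z) = G3
  intro g1 g2
  field_simp

lemma LL_diff {s : ℤ} {q : ℕ} (h : Is s q) : Differentiable ℂ (LL s q) := by
  have : NeZero q := ⟨by have := h.1; omega⟩
  have e : LL s q = (ch s q).LFunction := by
    funext z
    exact LL_eq s z
  rw [e]
  exact DirichletCharacter.differentiable_LFunction (Is_ch h).2.2.1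

/-- bounds of quotients of values of the gamma function -/
lemma gb : ∃ C : ℝ, 0 < C ∧ ∀ u v : ℝ, 1 / 8 ≤ u → u ≤ 2 → 1 / 8 ≤ v → v ≤ 2 →
    Real.Gamma u / Real.Gamma v ≤ C := by
  have hne : ∀ x : ℝ, 0 < x → ∀ m : ℕ, x ≠ -m := by
    intro x hx m h
    have : (0 : ℝ) ≤ m := Nat.cast_nonneg m
    linarith
  have hc : ContinuousOn Real.Gamma (Icc (1 / 8) 2) := fun x hx =>
    (Real.differentiableAt_Gamma (hne x (by linarith [hx.1]))).continuousAt.continuousWithinAt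
  obtain ⟨M, hM⟩ := isCompact_Icc.exists_bound_of_continuousOn hc
  have hc2 : ContinuousOn (fun x => (Real.Gamma x)⁻¹) (Icc (1 / 8) 2) := hc.inv₀ fun x hx =>
    (Real.Gamma_pos_of_pos (by linarith [hx.1])).ne'
  obtain ⟨M', hM'⟩ := isCompact_Icc.exists_bound_of_continuousOn hc2
  refine ⟨|M| * |M'| + 1, by positivity, fun u v h1 h2 h3 h4 => ?_⟩
  have k1 := (le_abs_self _).trans ((hM u ⟨h1, h2⟩).trans (le_abs_self M))
  have k2 := (le_abs_self _).trans ((hM' v ⟨h3, h4⟩).trans (le_abs_self M'))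
  rw [div_eq_mul_inv]
  have k3 : 0 ≤ (Real.Gamma v)⁻¹ := inv_nonneg.2 (Real.Gamma_pos_of_pos (by linarith)).le
  calc Real.Gamma u * (Real.Gamma v)⁻¹ ≤ |M| * |M'| := mul_le_mul k1 k2 k3 (abs_nonneg _)
    _ ≤ _ := by linarith

lemma gq : ∃ C : ℝ, 0 < C ∧ ∀ a x y : ℝ, (a = 1 / 4 ∨ a = 3 / 4) → |x| ≤ 1 / 8 →
    ‖Gamma ((a : ℂ) - ((x : ℂ) + y * I) / 2) / Gamma ((a : ℂ) + ((x : ℂ) + y * I) / 2)‖ ≤ C * (1 + |y|) := by
  obtain ⟨C, hC, h⟩ := gb
  refine ⟨2 * C, by positivity, fun a x y ha hx => ?_⟩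
  rw [abs_le] at hx
  have ha1 : 1 / 4 ≤ a := by rcases ha with rfl | rfl <;> norm_num
  have ha2 : a ≤ 3 / 4 := by rcases ha with rfl | rfl <;> norm_num
  have e1 : (a : ℂ) - ((x : ℂ) + y * I) / 2 = (starRingEnd ℂ) (((a - x / 2 : ℝ) : ℂ) +
      ((y / 2 : ℝ) : ℂ) * I) := by
    rw [map_add, map_mul, conj_ofReal, conj_ofReal, conj_I]
    push_cast
    ring
  have e2 : (a : ℂ) + ((x : ℂ) + y * I) / 2 = ((a + x / 2 : ℝ) : ℂ) + ((y / 2 : ℝ) : ℂ) * I := by
    push_cast; ring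
  rw [e1, e2, Gamma_conj, norm_div, RCLike.norm_conj]
  have hG : 0 < ‖Gamma (((a + x / 2 : ℝ) : ℂ) + ((y / 2 : ℝ) : ℂ) * I)‖ := by
    rw [norm_pos_iff]
    apply Gamma_ne_zero_of_re_pos
    simp
    linarith
  rw [div_le_iff₀ hG]
  rcases le_total 0 x with h0 | h0
  · have h1 := Pool.Agent.H491R3.gamma_mono (x := a - x / 2) (y := a + x / 2) (t := y / 2) (by linarith) (by linarith)
    have hGy := Real.Gamma_pos_of_pos (show 0 < a + x / 2 by linarith)
    have h2 := h (a - x / 2) (a + x / 2) (by linarith) (by linarith) (by linarith) (by linarith)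
    calc ‖Gamma (((a - x / 2 : ℝ) : ℂ) + ((y / 2 : ℝ) : ℂ) * I)‖
        ≤ ‖Gamma (((a + x / 2 : ℝ) : ℂ) + ((y / 2 : ℝ) : ℂ) * I)‖ * Real.Gamma (a - x / 2) / Real.Gamma (a + x / 2) := by
          rw [le_div_iff₀ hGy]; exact h1
      _ = (Real.Gamma (a - x / 2) / Real.Gamma (a + x / 2)) *
            ‖Gamma (((a + x / 2 : ℝ) : ℂ) + ((y / 2 : ℝ) : ℂ) * I)‖ := by ring
      _ ≤ (2 * C * (1 + |y|)) * ‖Gamma (((a + x / 2 : ℝ) : ℂ) + ((y / 2 : ℝ) : ℂ) * I)‖ := by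
          apply mul_le_mul_of_nonneg_right _ (norm_nonneg _)
          refine h2.trans ?_
          nlinarith [abs_nonneg y]
  · have h1 := Pool.Agent.H491R3.gamma_mono (x := a - x / 2) (y := a + x / 2 + 1) (t := y / 2) (by linarith) (by linarith)
    have hGy := Real.Gamma_pos_of_pos (show 0 < a + x / 2 + 1 by linarith)
    have h2 := h (a - x / 2) (a + x / 2 + 1) (by linarith) (by linarith) (by linarith) (by linarith)
    obtain ⟨v, hv⟩ : ∃ v : ℂ, v = ((a + x / 2 : ℝ) : ℂ) + ((y / 2 : ℝ) : ℂ) * I := ⟨_, rfl⟩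
    have hv0 : v ≠ 0 := by
      intro h0
      rw [hv] at h0
      have := congrArg Complex.re h0
      simp at this
      linarith
    have e3 : (((a + x / 2 + 1 : ℝ) : ℂ) + ((y / 2 : ℝ) : ℂ) * I) = v + 1 := by
      rw [hv]; push_cast; ring
    rw [e3, Gamma_add_one v hv0, norm_mul] at h1
    rw [← hv] at hG ⊢
    have hvn : ‖v‖ ≤ 2 * (1 + |y|) := by
      rw [hv]
      refine (norm_add_le _ _).trans ?_
      rw [norm_mul, norm_I, mul_one, Complex.norm_real, Complex.norm_real, Real.norm_eq_abs, Real.norm_eq_abs,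
        abs_div, abs_of_pos (show 0 < a + x / 2 by linarith)]
      norm_num
      linarith [abs_nonneg y]
    calc ‖Gamma (((a - x / 2 : ℝ) : ℂ) + ((y / 2 : ℝ) : ℂ) * I)‖
        ≤ ‖v‖ * ‖Gamma v‖ * Real.Gamma (a - x / 2) / Real.Gamma (a + x / 2 + 1) := by
          rw [le_div_iff₀ hGy]; exact h1
      _ = (Real.Gamma (a - x / 2) / Real.Gamma (a + x / 2 + 1)) * ‖v‖ * ‖Gamma v‖ := by ring
      _ ≤ C * (2 * (1 + |y|)) * ‖Gamma v‖ := by
          apply mul_le_mul_of_nonneg_right _ (norm_nonneg _)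
          exact mul_le_mul h2 hvn (norm_nonneg _) hC.le
      _ = _ := by ring

lemma Yf_bd : ∃ C : ℝ, 0 < C ∧ ∀ (s : ℤ) (z : ℂ), |z.re| ≤ 1 / 8 → ‖Yf s z‖ ≤ C * (1 + |z.im|) := by
  obtain ⟨C, hC, h⟩ := gq
  refine ⟨Real.pi * C, by positivity, fun s z hz => ?_⟩
  have hpi : (Real.pi : ℂ) ≠ 0 := by exact_mod_cast Real.pi_ne_zero
  obtain ⟨a, ha, ha2⟩ : ∃ a : ℝ, (a = 1 / 4 ∨ a = 3 / 4) ∧ (2 * a : ℂ) = 1 / 2 + aa s := by
    unfold aa
    split_ifs
    · exact ⟨1 / 4, Or.inl rfl, by push_cast; norm_num⟩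
    · exact ⟨3 / 4, Or.inr rfl, by push_cast; norm_num⟩
  have hz2 : (z.re : ℂ) + z.im * I = z := re_add_im z
  have e1 : (1 / 2 - z + aa s) / 2 = (a : ℂ) - ((z.re : ℂ) + z.im * I) / 2 := by
    rw [hz2]; linear_combination -ha2 / 2
  have e2 : (1 / 2 + z + aa s) / 2 = (a : ℂ) + ((z.re : ℂ) + z.im * I) / 2 := by
    rw [hz2]; linear_combination -ha2 / 2
  have e3 : Yf s z = (Real.pi : ℂ) ^ z * (Gamma ((a : ℂ) - ((z.re : ℂ) + z.im * I) / 2) /
      Gamma ((a : ℂ) + ((z.re : ℂ) + z.im * I) / 2)) := by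
    unfold Yf
    rw [Gammaℝ_def, Gammaℝ_def, e1, e2]
    have e4 : (Real.pi : ℂ) ^ (-(1 / 2 - z + aa s) / 2) = (Real.pi : ℂ) ^ z * (Real.pi : ℂ) ^ (-(1 / 2 + z + aa s) / 2) := by
      rw [← Complex.cpow_add _ _ hpi]
      congr 1
      ring
    rw [e4]
    have e5 : (Real.pi : ℂ) ^ (-(1 / 2 + z + aa s) / 2) ≠ 0 := by
      rw [Complex.cpow_def_of_ne_zero hpi]
      exact Complex.exp_ne_zero _
    field_simp
  rw [e3, norm_mul, Complex.norm_cpow_eq_rpow_re_of_pos Real.pi_pos]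
  have h1 := h a z.re z.im ha hz
  have h2 : Real.pi ^ z.re ≤ Real.pi := by
    calc Real.pi ^ z.re ≤ Real.pi ^ (1 : ℝ) := Real.rpow_le_rpow_of_exponent_le (by linarith [Real.pi_gt_three])
          (by linarith [(abs_le.1 hz).2])
      _ = Real.pi := Real.rpow_one _
  calc Real.pi ^ z.re * ‖Gamma ((a : ℂ) - ((z.re : ℂ) + z.im * I) / 2) /
        Gamma ((a : ℂ) + ((z.re : ℂ) + z.im * I) / 2)‖ ≤ Real.pi * (C * (1 + |z.im|)) :=
        mul_le_mul h2 h1 (norm_nonneg _) Real.pi_pos.le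
    _ = _ := by ring

lemma Yf_diff (s : ℤ) {z : ℂ} (hz : |z.re| < 1 / 2) : DifferentiableAt ℂ (Yf s) z := by
  rw [abs_lt] at hz
  have hg : ∀ w : ℂ, 0 < w.re → DifferentiableAt ℂ Gammaℝ w := by
    intro w hw
    have e : Gammaℝ = fun w : ℂ => (Real.pi : ℂ) ^ (-w / 2) * Gamma (w / 2) := by
      funext w
      exact Gammaℝ_def w
    rw [e]
    refine DifferentiableAt.mul ?_ ?_
    · exact DifferentiableAt.const_cpow (by fun_prop) (Or.inl (by exact_mod_cast Real.pi_ne_zero))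
    · have h1 : DifferentiableAt ℂ Gamma (w / 2) := by
        apply differentiableAt_Gamma
        intro m hm
        have h2 := congrArg Complex.re hm
        simp at h2
        have : (0 : ℝ) ≤ m := Nat.cast_nonneg m
        linarith
      exact DifferentiableAt.comp (f := fun w : ℂ => w / 2) w h1 (by fun_prop)
  have hre : 0 ≤ (aa s).re := by
    unfold aa
    split_ifs <;> simp
  unfold Yf
  refine DifferentiableAt.div ?_ ?_ (gam_ne (by simp; linarith))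
  · exact DifferentiableAt.comp (f := fun z : ℂ => 1 / 2 - z + aa s) z (hg _ (by simp; linarith)) (by fun_prop)
  · exact DifferentiableAt.comp (f := fun z : ℂ => 1 / 2 + z + aa s) z (hg _ (by simp; linarith)) (by fun_prop)

/-- growth in the strip -/
lemma LL_gr : ∃ C : ℝ, 0 < C ∧ ∀ (s : ℤ) (q : ℕ) (z : ℂ), s = 1 ∨ s = -1 → Is s q → |z.re| ≤ 1 / 8 →
    ‖LL s q (1 / 2 + z)‖ ≤ C * q ^ 2 * (1 + |z.im|) ^ 2 := by
  obtain ⟨C1, hC1, h1⟩ := pv_approx
  obtain ⟨C2, hC2, h2⟩ := Yf_bd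
  have key : ∀ (s : ℤ) (q : ℕ) (z : ℂ), Is s q → 0 ≤ z.re → z.re ≤ 1 / 8 →
      ‖LL s q (1 / 2 + z)‖ ≤ (1 + 2 * C1) * (q * √q) * (1 + |z.im|) := by
    intro s q z h hz hz1
    have hq : (2 : ℝ) ≤ q := by exact_mod_cast h.1
    have k1 := h1 s q 1 (1 / 2 + z) h le_rfl (by simp; linarith)
    rw [Finset.Icc_self, Finset.sum_singleton, Nat.cast_one, Complex.one_cpow, Nat.cast_one, Real.one_rpow,
      mul_one, mul_one, vl_one] at k1
    have k2 : ‖LL s q (1 / 2 + z)‖ ≤ 1 + ‖LL s q (1 / 2 + z) - 1‖ := by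
      have := norm_add_le (LL s q (1 / 2 + z) - 1) 1
      rw [sub_add_cancel, norm_one] at this
      linarith
    have k3 := norm_w (z := z) (by linarith) (by linarith)
    have k4 : Real.log q ≤ q := (Real.log_le_sub_one_of_pos (by linarith)).trans (by linarith)
    have k5 : 0 ≤ Real.log q := Real.log_nonneg (by linarith)
    have k6 : (1 : ℝ) ≤ q * √q := by
      have : 1 ≤ √(q : ℝ) := by
        rw [Real.one_le_sqrt]; linarith
      nlinarith
    have k7 := abs_nonneg z.im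
    calc ‖LL s q (1 / 2 + z)‖ ≤ 1 + C1 * ‖(1 / 2 + z : ℂ)‖ * (√q * Real.log q) := by linarith
      _ ≤ (q * √q) * (1 + |z.im|) + C1 * (2 * (1 + |z.im|)) * (√q * q) := by
          apply add_le_add
          · exact one_le_mul_of_one_le_of_one_le k6 (by linarith)
          · gcongr
            linarith
      _ = _ := by ring
  refine ⟨(1 + 2 * C1) * (1 + C2), by positivity, ?_⟩
  intro s q z hs h hz
  have hz' := abs_le.1 hz
  have hq : (2 : ℝ) ≤ q := by exact_mod_cast h.1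
  have hq0 : (0 : ℝ) < q := by linarith
  have hsq : √(q : ℝ) ≤ q := by
    rw [Real.sqrt_le_left (by linarith)]
    nlinarith
  have k7 := abs_nonneg z.im
  have hqq : (q : ℝ) * √q ≤ q ^ 2 := by rw [sq]; exact mul_le_mul_of_nonneg_left hsq hq0.le
  rcases le_total 0 z.re with h0 | h0
  · calc ‖LL s q (1 / 2 + z)‖ ≤ (1 + 2 * C1) * (q * √q) * (1 + |z.im|) := key s q z h h0 hz'.2
      _ ≤ ((1 + 2 * C1) * (1 + C2)) * q ^ 2 * (1 + |z.im|) ^ 2 := by
          have e1 : (1 + |z.im|) ≤ (1 + |z.im|) ^ 2 := by nlinarith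
          have e2 : (1 + 2 * C1) ≤ (1 + 2 * C1) * (1 + C2) := le_mul_of_one_le_right (by positivity) (by linarith)
          gcongr
  · have k1 := key s q (-z) h (by simpa using h0) (by rw [neg_re]; linarith)
    rw [neg_im, abs_neg, ← sub_eq_add_neg] at k1
    rw [fe hs h (by rw [abs_lt]; constructor <;> linarith), norm_mul, norm_mul,
      Complex.norm_natCast_cpow_of_pos (by have := h.1; omega), neg_re]
    have k2 := h2 s z hz
    have k3 : (q : ℝ) ^ (-z.re) ≤ √q := by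
      rw [Real.sqrt_eq_rpow]
      exact Real.rpow_le_rpow_of_exponent_le (by linarith) (by linarith)
    calc (q : ℝ) ^ (-z.re) * ‖Yf s z‖ * ‖LL s q (1 / 2 - z)‖
        ≤ √q * (C2 * (1 + |z.im|)) * ((1 + 2 * C1) * (q * √q) * (1 + |z.im|)) := by gcongr
      _ = ((1 + 2 * C1) * C2) * (q * (√q * √q)) * (1 + |z.im|) ^ 2 := by ring
      _ = ((1 + 2 * C1) * C2) * q ^ 2 * (1 + |z.im|) ^ 2 := by
          rw [Real.mul_self_sqrt hq0.le]; ring
      _ ≤ ((1 + 2 * C1) * (1 + C2)) * q ^ 2 * (1 + |z.im|) ^ 2 := by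
          gcongr
          linarith

end

end Pool.Agent.V8H6.CB
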