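import Pool.Agent.V8H6.CB.Up

set_option autoImplicit false

/-! The main term at the centre. -/

namespace Pool.Agent.V8H6.CB

open Complex hiding im
open Filter Topology MeasureTheory Set
open Pool.Agent.N879.QM Pool.Agent.V8H6.RW
open Pool.Agent.H306R2 (Zt Zt_norm_le zeta_eq_pos Zt_differentiableAt)
open scoped BigOperators

noncomputable section

variable {k : ℕ}

/-- the logarithmic derivative of the archimedean factor at the centre -/
def Gl (s : ℤ) : ℂ := deriv Gammaℝ (1 / 2 + aa s) / Gammaℝ (1 / 2 + aa s)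

/-- the main term at the centre -/
def M0 (s : ℤ) (X : ℝ) (β : Fin k → ℝ) : ℂ :=
  (c0 : ℂ) * X * (1 / 2 * (((Real.log X : ℂ) + 4 * Real.eulerMascheroniConstant - 1 + 2 * Gl s) * B0 0 β +
    2 * deriv (fun z => B0 z β) 0))

lemma Zt_one : Zt 1 = 1 := by
  unfold Zt
  simp

lemma Zt_deriv : HasDerivAt Zt (Real.eulerMascheroniConstant : ℂ) 1 := by
  rw [hasDerivAt_iff_tendsto_slope]
  refine tendsto_riemannZeta_sub_one_div.congr' ?_
  have h1 : {s : ℂ | 0 < s.re} ∈ 𝓝 (1 : ℂ) := (isOpen_lt continuous_const Complex.continuous_re).mem_nhds (by simp)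
  filter_upwards [mem_nhdsWithin_of_mem_nhds h1, self_mem_nhdsWithin] with s hs1 hs2
  have hs3 : s ≠ 1 := hs2
  rw [slope_def_field, Zt_one, ← zeta_eq_pos hs1 hs3]
  have : s - 1 ≠ 0 := sub_ne_zero.2 hs3
  field_simp

lemma gr_diff {w : ℂ} (hw : 0 < w.re) : DifferentiableAt ℂ Gammaℝ w := by
  have e : Gammaℝ = fun w : ℂ => (Real.pi : ℂ) ^ (-w / 2) * Gamma (w / 2) := by
    funext w
    exact Gammaℝ_def w
  rw [e]
  refine DifferentiableAt.mul ?_ ?_
  · exact DifferentiableAt.const_cpow (by fun_prop) (Or.inl (by exact_mod_cast Real.pi_ne_zero))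
  · have h1 : DifferentiableAt ℂ Gamma (w / 2) := by
      apply differentiableAt_Gamma
      intro m hm
      have h2 := congrArg Complex.re hm
      simp at h2
      have : (0 : ℝ) ≤ m := Nat.cast_nonneg m
      linarith
    exact DifferentiableAt.comp (f := fun w : ℂ => w / 2) w h1 (by fun_prop)

lemma aa_re (s : ℤ) : 0 ≤ (aa s).re := by
  unfold aa
  split_ifs <;> simp

lemma Yf_deriv (s : ℤ) : HasDerivAt (Yf s) (-(2 * Gl s)) 0 := by
  have hre := aa_re s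
  have hne : Gammaℝ (1 / 2 + aa s) ≠ 0 := gam_ne (by norm_num)
  have h0 : HasDerivAt Gammaℝ (deriv Gammaℝ (1 / 2 + aa s)) (1 / 2 + aa s) :=
    (gr_diff (by simp; linarith)).hasDerivAt
  have h1 : HasDerivAt (fun z : ℂ => Gammaℝ (1 / 2 - z + aa s)) (deriv Gammaℝ (1 / 2 + aa s) * -1) 0 := by
    refine HasDerivAt.comp (h₂ := Gammaℝ) (h := fun z : ℂ => 1 / 2 - z + aa s) 0 ?_ ?_
    · simpa using h0
    · exact ((hasDerivAt_id (0 : ℂ)).const_sub (1 / 2)).add_const (aa s)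
  have h2 : HasDerivAt (fun z : ℂ => Gammaℝ (1 / 2 + z + aa s)) (deriv Gammaℝ (1 / 2 + aa s) * 1) 0 := by
    refine HasDerivAt.comp (h₂ := Gammaℝ) (h := fun z : ℂ => 1 / 2 + z + aa s) 0 ?_ ?_
    · simpa using h0
    · exact ((hasDerivAt_id (0 : ℂ)).const_add (1 / 2)).add_const (aa s)
  have h3 := h1.div h2 (by simpa using hne)
  refine HasDerivAt.congr_deriv (f := Yf s) h3 ?_
  unfold Gl
  simp only [sub_zero, add_zero]
  field_simp
  ring

lemma YX_deriv (s : ℤ) {X : ℝ} (hX : 0 < X) :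
    HasDerivAt (YX s X) (X * (-(2 * Gl s) - Real.log X + 1)) 0 := by
  have hXc : (X : ℂ) ≠ 0 := by exact_mod_cast hX.ne'
  have h1 : HasDerivAt (fun z : ℂ => (X : ℂ) ^ (1 - z)) ((X : ℂ) ^ (1 - (0 : ℂ)) * Complex.log X * -1) 0 := by
    refine HasDerivAt.const_cpow ?_ (Or.inl hXc)
    exact (hasDerivAt_id (0 : ℂ)).const_sub 1
  have h2 : HasDerivAt (fun z : ℂ => 1 - z) (-1) 0 := (hasDerivAt_id (0 : ℂ)).const_sub 1
  have h3 := ((Yf_deriv s).mul h1).div h2 (by norm_num)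
  refine HasDerivAt.congr_deriv (f := YX s X) h3 ?_
  simp only [sub_zero, Complex.cpow_one, Yf_zero, Pi.mul_apply]
  rw [← Complex.ofReal_log hX.le]
  ring

lemma B0_diff0 {A : ℝ} (hA : 16 ≤ A) {β : Fin k → ℝ} (hβ : β ∈ Gd k A) :
    DifferentiableAt ℂ (fun z => B0 z β) 0 := by
  obtain ⟨h1, h2, h3⟩ := small_pt hA hβ (z := 0) (by rw [norm_zero]; norm_num)
  exact B0_diff (by norm_num) h3

lemma Rz_deriv {A : ℝ} (hA : 16 ≤ A) {β : Fin k → ℝ} (hβ : β ∈ Gd k A) :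
    HasDerivAt (fun z => Rz z β) (Real.eulerMascheroniConstant * B0 0 β + 1 / 2 * deriv (fun z => B0 z β) 0) 0 := by
  have h1 : HasDerivAt (fun z : ℂ => Zt (1 + 2 * z)) (Real.eulerMascheroniConstant * 2) 0 := by
    refine HasDerivAt.comp (h₂ := Zt) (h := fun z : ℂ => 1 + 2 * z) 0 ?_ ?_
    · simpa using Zt_deriv
    · simpa using ((hasDerivAt_id (0 : ℂ)).const_mul 2).const_add 1
  have h2 := ((h1.mul (B0_diff0 hA hβ).hasDerivAt).const_mul (1 / 2 : ℂ))
  refine HasDerivAt.congr_deriv (f := fun z => Rz z β) h2 ?_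
  simp only [mul_zero, add_zero, Zt_one]
  ring

lemma Hm_deriv (s : ℤ) {X A : ℝ} (hX : 0 < X) (hA : 16 ≤ A) {β : Fin k → ℝ} (hβ : β ∈ Gd k A) :
    HasDerivAt (fun z => Hm s X z β) (M0 s X β) 0 := by
  have h1 := Rz_deriv hA hβ
  have h2 : HasDerivAt (fun z : ℂ => Rz (-z) β)
      ((Real.eulerMascheroniConstant * B0 0 β + 1 / 2 * deriv (fun z => B0 z β) 0) * -1) 0 := by
    refine HasDerivAt.comp (h₂ := fun z => Rz z β) (h := fun z : ℂ => -z) 0 ?_ ?_
    · simpa using h1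
    · exact (hasDerivAt_id (0 : ℂ)).neg
  have h3 := ((h1.const_mul (X : ℂ)).sub ((YX_deriv s hX).mul h2)).const_mul (c0 : ℂ)
  have h0 : Rz 0 β = 1 / 2 * B0 0 β := by
    unfold Rz
    rw [mul_zero, add_zero, Zt_one, one_mul]
  refine HasDerivAt.congr_deriv (f := fun z => Hm s X z β) h3 ?_
  unfold M0
  rw [YX_zero, neg_zero, h0]
  ring

end

end Pool.Agent.V8H6.CB
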