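import Pool.Agent.V8H6.CB.Ms
import Pool.Agent.V8H6.CB.Mf

set_option autoImplicit false

/-! The theorem. -/

namespace Pool.Agent.V8H6.CB

open Complex hiding im
open Filter Topology MeasureTheory Set
open Pool.Agent.N879.QM Pool.Agent.V8H6.RW
open Pool.Agent.H306R2 (Zt Zt_norm_le zeta_eq_pos Zt_differentiableAt)
open scoped BigOperators

noncomputable section

variable {k : ℕ}

lemma MT_cn (z : ℂ) (β : Fin k → ℝ) : MT (cn z β) = riemannZeta (1 + 2 * z) * B0 z β := by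
  unfold MT B0 ZP
  rw [prod_Pr_succ (fun i j => riemannZeta (1 + cn z β i + cn z β j))]
  simp only [cn_zero, cn_succ]
  rw [show 1 + z + z = 1 + 2 * z by ring]
  ring

lemma Rz_eq {z : ℂ} (hz : z ≠ 0) (hzr : -1 / 2 < z.re) (β : Fin k → ℝ) : Rz z β = z * MT (cn z β) := by
  unfold Rz
  rw [MT_cn, ← zeta_eq_pos (s := 1 + 2 * z) (by simp; linarith) (by
    intro h
    apply hz
    linear_combination h / 2)]
  ring

lemma Hm_eq (s : ℤ) (X : ℝ) {z : ℂ} (hz : z ≠ 0) (hzr : |z.re| < 1 / 2) (β : Fin k → ℝ) :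
    Hm s X z β = z * ((c0 : ℂ) * (X * MT (cn z β) + YX s X z * MT (cn (-z) β))) := by
  rw [abs_lt] at hzr
  unfold Hm
  rw [Rz_eq hz (by linarith), Rz_eq (neg_ne_zero.2 hz) (by rw [neg_re]; linarith)]
  ring

/-- from the mean square on the circle to all points of a disc -/
lemma good_pt {s : ℤ} {X A r M : ℝ} (hX : 0 < X) (hA : 16 ≤ A) {D : Finset ℕ} (hD : D ⊆ Q s X)
    {β : Fin k → ℝ} (hβ : β ∈ Gd k A) (hr : 0 < r) (hr1 : r ≤ 1 / 64) (hM : 0 < M)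
    (hJ : ∫⁻ φ in Ioc (0 : ℝ) (2 * Real.pi), ENNReal.ofReal (‖Up s X D β (circleMap 0 r φ)‖ ^ 2) ≤
      ENNReal.ofReal (M ^ 2)) :
    (∀ z : ℂ, z ≠ 0 → ‖z‖ < r / 2 → ‖LD s D z β - (c0 : ℂ) * (X * MT (cn z β) + YX s X z * MT (cn (-z) β))‖ ≤
      2 * M / r) ∧ ‖LD s D 0 β - M0 s X β‖ ≤ 2 * M / r := by
  have hd := Up_diff s hX hA hD hβ hr1
  have h0 : (0 : ℝ) ≤ 2 * Real.pi := by positivity
  have hc : Continuous fun φ : ℝ => Up s X D β (circleMap 0 r φ) :=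
    hd.continuousOn.comp_continuous (continuous_circleMap 0 r) (fun φ => circleMap_mem_closedBall 0 hr.le φ)
  have h1 : ∫ φ in (0 : ℝ)..(2 * Real.pi), ‖Up s X D β (circleMap 0 r φ)‖ ^ 2 ≤ M ^ 2 := by
    rw [intervalIntegral.integral_of_le h0]
    have hc2 : Continuous fun φ : ℝ => ‖Up s X D β (circleMap 0 r φ)‖ ^ 2 := hc.norm.pow 2
    have hc3 : IntegrableOn (fun φ : ℝ => ‖Up s X D β (circleMap 0 r φ)‖ ^ 2) (Ioc (0 : ℝ) (2 * Real.pi)) volume :=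
      hc2.integrableOn_Ioc
    have h2 := ofReal_integral_eq_lintegral_ofReal (μ := volume.restrict (Ioc (0 : ℝ) (2 * Real.pi)))
      (f := fun φ => ‖Up s X D β (circleMap 0 r φ)‖ ^ 2) hc3
      (Eventually.of_forall fun φ => sq_nonneg _)
    rw [← h2] at hJ
    exact (ENNReal.ofReal_le_ofReal_iff (sq_nonneg M)).1 hJ
  have h2 : ∀ w : ℂ, ‖w‖ < r / 2 → ‖Up s X D β w‖ ≤ 2 * M / r * ‖w‖ := fun w hw =>
    schw hr hM hd (Up_zero s X D β) h1 hw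
  refine ⟨fun z hz hz2 => ?_, ?_⟩
  · have h3 := h2 z hz2
    have hre : |z.re| < 1 / 2 := by
      have := Complex.abs_re_le_norm z
      linarith
    have e : Up s X D β z = z * (LD s D z β - (c0 : ℂ) * (X * MT (cn z β) + YX s X z * MT (cn (-z) β))) := by
      unfold Up
      rw [Hm_eq s X hz hre]
      ring
    rw [e, norm_mul, mul_comm] at h3
    exact le_of_mul_le_mul_right h3 (norm_pos_iff.2 hz)
  · have h3 : HasDerivAt (Up s X D β) (LD s D 0 β - M0 s X β) 0 := by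
      have h4 := ((hasDerivAt_id (0 : ℂ)).mul (LD_diff s hD β 0).hasDerivAt).sub (Hm_deriv s hX hA hβ)
      refine HasDerivAt.congr_deriv (f := Up s X D β) h4 ?_
      simp
    refine h3.le_of_lip' (by positivity) ?_
    have h5 : Metric.ball (0 : ℂ) (r / 2) ∈ 𝓝 (0 : ℂ) := Metric.ball_mem_nhds _ (by linarith)
    filter_upwards [h5] with w hw
    rw [mem_ball_zero_iff] at hw
    rw [Up_zero, sub_zero, sub_zero]
    exact h2 w hw

theorem central (k : ℕ) (hk : 1 ≤ k) (s : ℤ) (hs : s = 1 ∨ s = -1) {θ : ℝ} (hθ : 0 < θ) (hθ1 : θ ≤ 1) :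
    ∃ δ X₀ : ℝ, 0 < δ ∧ ∀ X : ℝ, X₀ ≤ X → ∃ E : Finset ℕ, E ⊆ Q s X ∧ (E.card : ℝ) ≤ X ^ (1 - δ) ∧
      mS k (X ^ θ) {β | ¬ ((∀ z : ℂ, z ≠ 0 → ‖z‖ ≤ δ →
        ‖LD s (Q s X \ E) z β - (c0 : ℂ) * (X * MT (cn z β) + YX s X z * MT (cn (-z) β))‖ ≤ X ^ (1 - δ)) ∧
        ‖LD s (Q s X \ E) 0 β - M0 s X β‖ ≤ X ^ (1 - δ))} ≤ ENNReal.ofReal (X ^ (k * θ - δ)) := by
  classical
  obtain ⟨η, C, CE, X1, hη0, hηθ, hηk, hC, hCE, hms⟩ := ms_circle k hk s hs hθ hθ1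
  obtain ⟨CN, hCN, hNS⟩ := t_NS k
  have hk0 : (0 : ℝ) < k := by exact_mod_cast hk
  have hk1 : (1 : ℝ) ≤ k := by exact_mod_cast hk
  obtain ⟨δ, hδ⟩ : ∃ δ : ℝ, δ = η / (32768 * k) := ⟨_, rfl⟩
  have hδ0 : 0 < δ := by rw [hδ]; positivity
  have er : η / (8192 * k) = 4 * δ := by rw [hδ]; field_simp; norm_num
  have eκ : η / (4096 * k) = 8 * δ := by rw [hδ]; field_simp; norm_num
  have eρ : η / (8 * k) / 2 = 2048 * δ := by rw [hδ]; field_simp; norm_num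
  have hδη : 32768 * δ ≤ η := by
    rw [hδ, mul_div_assoc', div_le_iff₀ (by positivity)]
    nlinarith
  have hη1 : η ≤ 1 / 4 := by linarith
  have ev1 : ∀ᶠ X : ℝ in atTop, CE ≤ X ^ (2047 * δ) :=
    (tendsto_rpow_atTop (by linarith)).eventually_ge_atTop _
  have ev2 : ∀ᶠ X : ℝ in atTop, 2 / (4 * δ) ≤ X ^ δ := (tendsto_rpow_atTop hδ0).eventually_ge_atTop _
  have ev3 : ∀ᶠ X : ℝ in atTop, CN + 2 * Real.pi * C ≤ X ^ δ := (tendsto_rpow_atTop hδ0).eventually_ge_atTop _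
  obtain ⟨X₀, hX₀⟩ := eventually_atTop.1 ((ev1.and ev2).and (ev3.and (eventually_ge_atTop X1)))
  refine ⟨δ, X₀, hδ0, fun X hX => ?_⟩
  obtain ⟨⟨v1, v2⟩, v3, v4⟩ := hX₀ X hX
  obtain ⟨hX1, hA16, hEc, hcir⟩ := hms X v4
  have hX0 : 0 < X := by linarith
  rw [eρ] at hEc
  rw [er, eκ] at hcir
  obtain ⟨E, hE⟩ : ∃ E : Finset ℕ, E = Ex s X (X ^ θ) (η / (8 * k)) := ⟨_, rfl⟩
  have hEQ : E ⊆ Q s X := by rw [hE]; exact Ex_sub _ _ _ _
  rw [← hE] at hEc hcir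
  refine ⟨E, hEQ, ?_, ?_⟩
  · calc (E.card : ℝ) ≤ CE * X ^ (1 - 2048 * δ) := hEc
      _ ≤ X ^ (2047 * δ) * X ^ (1 - 2048 * δ) := by gcongr
      _ = X ^ (1 - δ) := by rw [← Real.rpow_add hX0]; congr 1; ring
  obtain ⟨A, hA⟩ : ∃ A : ℝ, A = X ^ θ := ⟨_, rfl⟩
  rw [← hA] at hA16 hcir ⊢
  have hA1 : 1 ≤ A := by linarith
  obtain ⟨D, hD⟩ : ∃ D : Finset ℕ, D = Q s X \ E := ⟨_, rfl⟩
  have hDQ : D ⊆ Q s X := by rw [hD]; exact Finset.sdiff_subset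
  rw [← hD] at hcir ⊢
  have hr0 : 0 < 4 * δ := by linarith
  have hr1 : 4 * δ ≤ 1 / 64 := by linarith
  -- the mean value over the circle
  obtain ⟨J, hJ⟩ : ∃ J : (Fin k → ℝ) → ENNReal, J = fun β =>
    ∫⁻ φ in Ioc (0 : ℝ) (2 * Real.pi), ENNReal.ofReal (‖Up s X D β (circleMap 0 (4 * δ) φ)‖ ^ 2) := ⟨_, rfl⟩
  have hcm : ∀ φ : ℝ, ‖circleMap 0 (4 * δ) φ‖ = 4 * δ := fun φ => by
    rw [norm_circleMap_zero, abs_of_pos hr0]
  have hmeas : Measurable fun w : (Fin k → ℝ) × ℝ => ENNReal.ofReal (‖Up s X D w.1 (circleMap 0 (4 * δ) w.2)‖ ^ 2) := by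
    refine ENNReal.measurable_ofReal.comp ((Up_meas s hX0 hDQ (circleMap 0 (4 * δ)) (continuous_circleMap 0 _)
      fun φ => ?_).norm.pow_const 2)
    exact ((Complex.abs_re_le_norm _).trans (hcm φ).le).trans hr1
  have hJm : Measurable J := by
    rw [hJ]
    exact hmeas.lintegral_prod_right' (ν := volume.restrict (Ioc (0 : ℝ) (2 * Real.pi)))
  have hfin := fin_mS' k A
  have hJint : ∫⁻ β in Gd k A, J β ∂(mS k A) ≤ ENNReal.ofReal (2 * Real.pi * C * X ^ (k * θ + 2 - 8 * δ)) := by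
    rw [hJ]
    rw [lintegral_lintegral_swap hmeas.aemeasurable]
    calc ∫⁻ φ in Ioc (0 : ℝ) (2 * Real.pi), ∫⁻ β in Gd k A,
          ENNReal.ofReal (‖Up s X D β (circleMap 0 (4 * δ) φ)‖ ^ 2) ∂(mS k A)
        ≤ ∫⁻ _φ in Ioc (0 : ℝ) (2 * Real.pi), ENNReal.ofReal (C * X ^ (k * θ + 2 - 8 * δ)) :=
          lintegral_mono fun φ => hcir _ (hcm φ).le
      _ = _ := by
          rw [lintegral_const, Measure.restrict_apply MeasurableSet.univ, univ_inter, Real.volume_Ioc, sub_zero,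
            ← ENNReal.ofReal_mul (by positivity)]
          congr 1
          ring
  obtain ⟨M, hM⟩ : ∃ M : ℝ, M = X ^ (1 - 2 * δ) := ⟨_, rfl⟩
  have hM0 : 0 < M := by rw [hM]; positivity
  have hM2 : M ^ 2 = X ^ (2 - 4 * δ) := by
    rw [hM, ← Real.rpow_natCast, ← Real.rpow_mul hX0.le]
    congr 1
    push_cast
    ring
  have hMr : 2 * M / (4 * δ) ≤ X ^ (1 - δ) := by
    calc 2 * M / (4 * δ) = (2 / (4 * δ)) * M := by ring
      _ ≤ X ^ δ * M := by gcongr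
      _ = X ^ (1 - δ) := by
          rw [hM, ← Real.rpow_add hX0]
          congr 1
          ring
  have hsub : {β : Fin k → ℝ | ¬ ((∀ z : ℂ, z ≠ 0 → ‖z‖ ≤ δ →
        ‖LD s D z β - (c0 : ℂ) * (X * MT (cn z β) + YX s X z * MT (cn (-z) β))‖ ≤ X ^ (1 - δ)) ∧
        ‖LD s D 0 β - M0 s X β‖ ≤ X ^ (1 - δ))} ⊆
      (Gd k A)ᶜ ∪ ({β | ENNReal.ofReal (M ^ 2) ≤ J β} ∩ Gd k A) := by
    intro β hβ
    by_contra hcon
    simp only [mem_union, mem_compl_iff, mem_inter_iff, mem_ofPred_eq, not_or, not_and, not_not] at hcon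
    obtain ⟨h1, h2⟩ := hcon
    have h3 : J β ≤ ENNReal.ofReal (M ^ 2) := by
      by_contra h4
      exact h2 (le_of_lt (not_le.1 h4)) h1
    rw [hJ] at h3
    obtain ⟨h5, h6⟩ := good_pt hX0 hA16 hDQ h1 hr0 hr1 hM0 h3
    apply hβ
    exact ⟨fun z hz hz2 => (h5 z hz (by linarith)).trans hMr, h6.trans hMr⟩
  refine (measure_mono hsub).trans ((measure_union_le _ _).trans ?_)
  have m1 : mS k A (Gd k A)ᶜ ≤ ENNReal.ofReal (CN * X ^ (k * θ - 2 * δ)) := by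
    refine (hNS A hA1).trans (ENNReal.ofReal_le_ofReal ?_)
    apply mul_le_mul_of_nonneg_left _ hCN.le
    rw [hA, ← Real.rpow_mul hX0.le]
    apply Real.rpow_le_rpow_of_exponent_le hX1
    nlinarith
  have m2 : mS k A ({β | ENNReal.ofReal (M ^ 2) ≤ J β} ∩ Gd k A) ≤
      ENNReal.ofReal (2 * Real.pi * C * X ^ (k * θ - 2 * δ)) := by
    rw [← Measure.restrict_apply' (Gd_meas k A)]
    refine (meas_ge_le_lintegral_div hJm.aemeasurable (by
      rw [Ne, ENNReal.ofReal_eq_zero, not_le]; positivity) ENNReal.ofReal_ne_top).trans ?_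
    refine (ENNReal.div_le_div_right hJint _).trans ?_
    rw [← ENNReal.ofReal_div_of_pos (by positivity)]
    apply ENNReal.ofReal_le_ofReal
    rw [hM2, div_le_iff₀ (by positivity), mul_assoc (2 * Real.pi * C), ← Real.rpow_add hX0]
    apply mul_le_mul_of_nonneg_left _ (by positivity)
    apply Real.rpow_le_rpow_of_exponent_le hX1
    linarith
  refine (add_le_add m1 m2).trans ?_
  have hP : 0 ≤ X ^ (k * θ - 2 * δ) := Real.rpow_nonneg hX0.le _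
  rw [← ENNReal.ofReal_add (by positivity) (by positivity)]
  apply ENNReal.ofReal_le_ofReal
  calc CN * X ^ (k * θ - 2 * δ) + 2 * Real.pi * C * X ^ (k * θ - 2 * δ)
      = (CN + 2 * Real.pi * C) * X ^ (k * θ - 2 * δ) := by ring
    _ ≤ X ^ δ * X ^ (k * θ - 2 * δ) := by gcongr
    _ = X ^ (k * θ - δ) := by rw [← Real.rpow_add hX0]; congr 1; ring

end

end Pool.Agent.V8H6.CB
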