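import Pool.Agent.V8H6.CB.Ln
import Pool.Agent.V8H6.RW.Main
import Pool.Agent.H306R2.ZetaGrowth

set_option autoImplicit false

/-! The arithmetic factor of the twisted first moment. -/

namespace Pool.Agent.V8H6.CB

open Complex hiding im
open Filter Topology MeasureTheory Set
open Pool.Agent.N879.QM
open scoped BigOperators

noncomputable section

/-- squarefree part -/
def sp (m : ℕ) : ℕ := (Nat.sq_mul_squarefree m).choose

lemma sp_spec (m : ℕ) : ∃ b : ℕ, b ^ 2 * sp m = m ∧ Squarefree (sp m) :=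
  (Nat.sq_mul_squarefree m).choose_spec

lemma sp_pos {m : ℕ} (hm : 1 ≤ m) : 1 ≤ sp m := by
  obtain ⟨b, hb, -⟩ := sp_spec m
  rcases Nat.eq_zero_or_pos (sp m) with h | h
  · rw [h, mul_zero] at hb
    omega
  · exact h

lemma sp_dvd (m : ℕ) : sp m ∣ m := by
  obtain ⟨b, hb, -⟩ := sp_spec m
  exact ⟨b ^ 2, by rw [mul_comm]; exact hb.symm⟩

lemma sq_iff_sp {m l : ℕ} (hm : 1 ≤ m) (hl : 1 ≤ l) : IsSquare (l * m) ↔ ∃ t : ℕ, 1 ≤ t ∧ l = sp m * t ^ 2 := by
  obtain ⟨b, hb, hsf⟩ := sp_spec m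
  have hb0 : b ≠ 0 := by
    rintro rfl
    simp at hb
    omega
  have hs0 : sp m ≠ 0 := by have := sp_pos hm; omega
  constructor
  · rintro ⟨c, hc⟩
    rw [← sq] at hc
    nth_rewrite 1 [← hb] at hc
    have h1 : b ^ 2 ∣ c ^ 2 := ⟨l * sp m, by rw [← hc]; ring⟩
    obtain ⟨d, rfl⟩ := (Nat.pow_dvd_pow_iff two_ne_zero).1 h1
    have h3 : l * sp m = d ^ 2 := by
      have h4 : b ^ 2 * (l * sp m) = b ^ 2 * d ^ 2 := by
        calc b ^ 2 * (l * sp m) = l * (b ^ 2 * sp m) := by ring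
          _ = (b * d) ^ 2 := hc
          _ = b ^ 2 * d ^ 2 := by ring
      exact Nat.eq_of_mul_eq_mul_left (by positivity) h4
    have h5 : sp m ∣ d := by
      have : sp m ∣ d ^ 2 := ⟨l, by rw [← h3]; ring⟩
      exact (hsf.dvd_pow_iff_dvd two_ne_zero).1 this
    obtain ⟨t, rfl⟩ := h5
    have h6 : l = sp m * t ^ 2 := by
      have : sp m * l = sp m * (sp m * t ^ 2) := by
        calc sp m * l = l * sp m := by ring
          _ = (sp m * t) ^ 2 := h3
          _ = _ := by ring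
      exact Nat.eq_of_mul_eq_mul_left (by omega) this
    refine ⟨t, ?_, h6⟩
    rcases Nat.eq_zero_or_pos t with h7 | h7
    · rw [h7] at h6
      simp at h6
      omega
    · exact h7
  · rintro ⟨t, -, rfl⟩
    refine ⟨sp m * t * b, ?_⟩
    nth_rewrite 2 [← hb]
    ring

/-- the values at primes -/
def kp (m p : ℕ) : ℂ := if p ∣ m then 0 else -1 / ((p : ℂ) + 1)

/-- the coefficients -/
def kA (m : ℕ) : ArithmeticFunction ℂ :=
  ⟨fun d => if Squarefree d then ∏ p ∈ d.primeFactors, kp m p else 0, by simp⟩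

lemma kA_apply (m d : ℕ) : kA m d = if Squarefree d then ∏ p ∈ d.primeFactors, kp m p else 0 := rfl

lemma kp_norm (m : ℕ) {p : ℕ} (hp : 0 < p) : ‖kp m p‖ ≤ (p : ℝ)⁻¹ := by
  unfold kp
  have hp0 : (0 : ℝ) < p := by exact_mod_cast hp
  split_ifs
  · rw [norm_zero]; positivity
  · rw [norm_div, norm_neg, norm_one, one_div]
    apply inv_anti₀ hp0
    have : ‖((p : ℂ) + 1)‖ = p + 1 := by
      rw [show ((p : ℂ) + 1) = (((p + 1 : ℕ) : ℝ) : ℂ) by push_cast; ring, Complex.norm_real]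
      rw [Real.norm_of_nonneg (by positivity)]
      push_cast
      ring
    rw [this]
    linarith

lemma kA_norm (m : ℕ) {d : ℕ} (hd : d ≠ 0) : ‖kA m d‖ ≤ (d : ℝ)⁻¹ := by
  rw [kA_apply]
  split_ifs with h
  · rw [norm_prod]
    calc ∏ p ∈ d.primeFactors, ‖kp m p‖ ≤ ∏ p ∈ d.primeFactors, (p : ℝ)⁻¹ :=
          Finset.prod_le_prod (fun _ _ => norm_nonneg _) fun p hp =>
            kp_norm m (Nat.prime_of_mem_primeFactors hp).pos
      _ = (d : ℝ)⁻¹ := by
          rw [Finset.prod_inv_distrib]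
          congr 1
          rw [← Nat.cast_prod, Nat.prod_primeFactors_of_squarefree h]
  · rw [norm_zero]
    positivity

lemma kA_sum {m t : ℕ} (hm : m ≠ 0) (ht : t ≠ 0) :
    ∑ d ∈ t.divisors, kA m d = (af (t * m) : ℂ) / (af m : ℂ) := by
  classical
  have h1 : ∑ d ∈ t.divisors, kA m d = ∑ d ∈ t.divisors.filter Squarefree, ∏ p ∈ d.primeFactors, kp m p := by
    rw [Finset.sum_filter]
    rfl
  have h2 : ∑ d ∈ t.divisors.filter Squarefree, ∏ p ∈ d.primeFactors, kp m p =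
      ∑ T ∈ t.primeFactors.powerset, ∏ p ∈ T, kp m p := by
    symm
    refine Finset.sum_nbij' (fun T => ∏ p ∈ T, p) (fun d => d.primeFactors) ?_ ?_ ?_ ?_ ?_
    · intro T hT
      rw [Finset.mem_powerset] at hT
      rw [Finset.mem_filter, Nat.mem_divisors]
      have hsub : ∏ p ∈ T, p ∣ ∏ p ∈ t.primeFactors, p := Finset.prod_dvd_prod_of_subset _ _ _ hT
      have hsf : Squarefree (∏ p ∈ t.primeFactors, p) := by
        refine Finset.squarefree_prod_of_pairwise_isCoprime (fun p hp q hq hpq => ?_)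
          (fun p hp => (Nat.prime_of_mem_primeFactors hp).squarefree)
        exact Nat.coprime_iff_isRelPrime.1 ((Nat.coprime_primes (Nat.prime_of_mem_primeFactors hp)
          (Nat.prime_of_mem_primeFactors hq)).2 hpq)
      exact ⟨⟨hsub.trans (Nat.prod_primeFactors_dvd t), ht⟩, hsf.squarefree_of_dvd hsub⟩
    · intro d hd
      rw [Finset.mem_filter, Nat.mem_divisors] at hd
      rw [Finset.mem_powerset]
      exact Nat.primeFactors_mono hd.1.1 ht
    · intro T hT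
      rw [Finset.mem_powerset] at hT
      exact Nat.primeFactors_prod fun p hp => Nat.prime_of_mem_primeFactors (hT hp)
    · intro d hd
      rw [Finset.mem_filter] at hd
      exact Nat.prod_primeFactors_of_squarefree hd.2
    · intro T hT
      rw [Finset.mem_powerset] at hT
      rw [Nat.primeFactors_prod fun p hp => Nat.prime_of_mem_primeFactors (hT hp)]
  rw [h1, h2, ← Finset.prod_one_add]
  have h3 : (af (t * m) : ℂ) = (af m : ℂ) * ∏ p ∈ t.primeFactors \ m.primeFactors, ((p : ℂ) / (p + 1)) := by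
    unfold af
    rw [Nat.primeFactors_mul ht hm, ← Finset.sdiff_union_self_eq_union, Finset.prod_union Finset.sdiff_disjoint]
    push_cast
    ring
  have h4 : ∏ p ∈ t.primeFactors, (1 + kp m p) = ∏ p ∈ t.primeFactors \ m.primeFactors, ((p : ℂ) / (p + 1)) := by
    rw [← Finset.prod_subset (Finset.sdiff_subset (s := t.primeFactors) (t := m.primeFactors))]
    · refine Finset.prod_congr rfl fun p hp => ?_
      rw [Finset.mem_sdiff] at hp
      have hpp := Nat.prime_of_mem_primeFactors hp.1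
      have hnd : ¬ p ∣ m := fun h => hp.2 (Nat.mem_primeFactors.2 ⟨hpp, h, hm⟩)
      unfold kp
      rw [if_neg hnd]
      have : (p : ℂ) + 1 ≠ 0 := by exact_mod_cast Nat.succ_ne_zero p
      field_simp
      ring
    · intro p hp hp2
      rw [Finset.mem_sdiff, not_and, not_not] at hp2
      have := hp2 hp
      unfold kp
      rw [if_pos (Nat.dvd_of_mem_primeFactors this), add_zero]
  rw [h4, h3]
  have h5 : (af m : ℂ) ≠ 0 := by exact_mod_cast (Avg.af_pos m).ne'
  field_simp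

/-- the Dirichlet series of the coefficients -/
def JJ (m : ℕ) (z : ℂ) : ℂ := LSeries (fun d => kA m d) (1 + 2 * z)

/-- the factor without its pole -/
def Fz (m : ℕ) (z : ℂ) : ℂ := (sp m : ℂ) ^ (-(1 / 2 + z)) * (af m : ℂ) * JJ m z

/-- the sum over `l` with `l m` a square -/
def hz (m : ℕ) (z : ℂ) : ℂ := riemannZeta (1 + 2 * z) * Fz m z

lemma kA_norm' (m : ℕ) {d : ℕ} (hd : d ≠ 0) : ‖kA m d‖ ≤ 1 * (d : ℝ) ^ ((0 : ℝ) - 1) := by
  rw [zero_sub, Real.rpow_neg_one, one_mul]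
  exact kA_norm m hd

lemma kA_absc (m : ℕ) : LSeries.abscissaOfAbsConv (fun d => kA m d) ≤ 0 := by
  have h := LSeries.abscissaOfAbsConv_le_of_le_const_mul_rpow (f := fun d => kA m d) (x := -1)
    ⟨1, fun d hd => by simpa using kA_norm' m hd⟩
  refine h.trans (le_of_eq ?_)
  rw [← EReal.coe_one, ← EReal.coe_add, neg_add_cancel, EReal.coe_zero]

lemma JJ_diff (m : ℕ) {z : ℂ} (hz : -1 / 2 < z.re) : DifferentiableAt ℂ (JJ m) z := by
  have h1 : LSeries.abscissaOfAbsConv (fun d => kA m d) < ((1 + 2 * z : ℂ).re : EReal) := by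
    refine lt_of_le_of_lt (kA_absc m) ?_
    have : (0 : ℝ) < (1 + 2 * z : ℂ).re := by
      simp
      linarith
    exact_mod_cast this
  have h2 := (LSeries_hasDerivAt h1).differentiableAt
  exact DifferentiableAt.comp (f := fun z : ℂ => 1 + 2 * z) z h2 (by fun_prop)

lemma JJ_bd : ∃ C : ℝ, 0 < C ∧ ∀ (m : ℕ) (z : ℂ), -1 / 4 ≤ z.re → ‖JJ m z‖ ≤ C := by
  have hs : Summable (fun d : ℕ => (d : ℝ) ^ (-(3 / 2) : ℝ)) := Real.summable_nat_rpow.2 (by norm_num)
  refine ⟨(∑' d : ℕ, (d : ℝ) ^ (-(3 / 2) : ℝ)) + 1, ?_, fun m z hz => ?_⟩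
  · have : 0 ≤ ∑' d : ℕ, (d : ℝ) ^ (-(3 / 2) : ℝ) := tsum_nonneg fun d => by positivity
    positivity
  refine le_trans ?_ (le_add_of_nonneg_right zero_le_one)
  refine tsum_of_norm_bounded hs.hasSum fun d => ?_
  rcases Nat.eq_zero_or_pos d with h | h
  · subst h
    rw [LSeries.term_zero, norm_zero]
    positivity
  · have hd : (1 : ℝ) ≤ d := by exact_mod_cast h
    have hd0 : (0 : ℝ) < d := by linarith
    rw [LSeries.term_of_ne_zero (by omega), norm_div, Complex.norm_natCast_cpow_of_pos h,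
      div_le_iff₀ (by positivity), ← Real.rpow_add hd0]
    refine (kA_norm m (by omega)).trans ?_
    rw [← Real.rpow_neg_one]
    apply Real.rpow_le_rpow_of_exponent_le hd
    simp
    linarith

lemma Fz_diff {m : ℕ} (hm : 1 ≤ m) {z : ℂ} (hz : -1 / 2 < z.re) : DifferentiableAt ℂ (Fz m) z := by
  have h0 : (sp m : ℂ) ≠ 0 := by exact_mod_cast (Nat.one_le_iff_ne_zero.1 (sp_pos hm))
  unfold Fz
  refine DifferentiableAt.mul (DifferentiableAt.mul ?_ (differentiableAt_const _)) (JJ_diff m hz)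
  exact DifferentiableAt.const_cpow (by fun_prop) (Or.inl h0)

lemma sp_pow {m : ℕ} (hm : 1 ≤ m) {z : ℂ} (hz : -1 / 2 ≤ z.re) : ‖(sp m : ℂ) ^ (-(1 / 2 + z))‖ ≤ 1 := by
  rw [Complex.norm_natCast_cpow_of_pos (sp_pos hm)]
  apply Real.rpow_le_one_of_one_le_of_nonpos (by exact_mod_cast sp_pos hm)
  simp
  linarith

lemma Fz_bd : ∃ C : ℝ, 0 < C ∧ ∀ (m : ℕ) (z : ℂ), 1 ≤ m → -1 / 4 ≤ z.re → ‖Fz m z‖ ≤ C := by
  obtain ⟨C, hC, h⟩ := JJ_bd
  refine ⟨C, hC, fun m z hm hz => ?_⟩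
  unfold Fz
  rw [norm_mul, norm_mul, Complex.norm_real, Real.norm_of_nonneg (Avg.af_pos m).le]
  calc ‖(sp m : ℂ) ^ (-(1 / 2 + z))‖ * af m * ‖JJ m z‖ ≤ 1 * 1 * C :=
        mul_le_mul (mul_le_mul (sp_pow hm (by linarith)) (Avg.af_le m) (Avg.af_pos m).le zero_le_one) (h m z hz)
          (norm_nonneg _) (by norm_num)
    _ = C := by ring

/-- the series over all `t` -/
lemma hz_hasSum {m : ℕ} (hm : 1 ≤ m) {z : ℂ} (hz0 : 0 < z.re) :
    HasSum (fun t : ℕ => if t = 0 then 0 else (af (t * m) : ℂ) * ((sp m * t ^ 2 : ℕ) : ℂ) ^ (-(1 / 2 + z)))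
      (hz m z) := by
  have hw : 1 < (1 + 2 * z : ℂ).re := by simp; linarith
  have h1 : LSeriesHasSum (fun n => (ArithmeticFunction.zeta : ArithmeticFunction ℂ) n) (1 + 2 * z)
      (riemannZeta (1 + 2 * z)) := by
    have := (ArithmeticFunction.LSeriesSummable_zeta_iff.2 hw).LSeriesHasSum
    rw [ArithmeticFunction.LSeries_zeta_eq_riemannZeta hw] at this
    exact this
  have h2s : LSeriesSummable (fun d => kA m d) (1 + 2 * z) :=
    LSeriesSummable_of_le_const_mul_rpow (x := 0) (by linarith) ⟨1, fun n hn => kA_norm' m hn⟩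
  have h2 : LSeriesHasSum (fun d => kA m d) (1 + 2 * z) (JJ m z) := h2s.LSeriesHasSum
  have h3 := ArithmeticFunction.LSeriesHasSum_mul (f := (ArithmeticFunction.zeta : ArithmeticFunction ℂ)) (g := kA m) h1 h2
  have h4 := h3.mul_left ((sp m : ℂ) ^ (-(1 / 2 + z)) * (af m : ℂ))
  have e : (sp m : ℂ) ^ (-(1 / 2 + z)) * (af m : ℂ) * (riemannZeta (1 + 2 * z) * JJ m z) = hz m z := by
    unfold hz Fz
    ring
  rw [e] at h4
  have e2 : (fun t : ℕ => if t = 0 then 0 else (af (t * m) : ℂ) * ((sp m * t ^ 2 : ℕ) : ℂ) ^ (-(1 / 2 + z))) =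
      fun i => (sp m : ℂ) ^ (-(1 / 2 + z)) * (af m : ℂ) *
        LSeries.term (fun n => ((ArithmeticFunction.zeta : ArithmeticFunction ℂ) * kA m) n) (1 + 2 * z) i := ?_
  · rw [e2]
    exact h4
  funext t
  rcases Nat.eq_zero_or_pos t with h | h
  · subst h
    rw [if_pos rfl, LSeries.term_zero, mul_zero]
  · have ht : t ≠ 0 := by omega
    have hm0 : m ≠ 0 := by omega
    rw [if_neg ht, LSeries.term_of_ne_zero ht, ArithmeticFunction.coe_zeta_mul_apply, kA_sum hm0 ht]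
    have h5 : (af m : ℂ) ≠ 0 := by exact_mod_cast (Avg.af_pos m).ne'
    have h6 : ((sp m * t ^ 2 : ℕ) : ℂ) ^ (-(1 / 2 + z)) =
        (sp m : ℂ) ^ (-(1 / 2 + z)) * (t : ℂ) ^ (-(1 + 2 * z)) := by
      rw [Nat.cast_mul, Complex.natCast_mul_natCast_cpow, Nat.cast_pow, ← Complex.natCast_cpow_natCast_mul]
      congr 2
      push_cast
      ring
    rw [h6, Complex.cpow_neg (t : ℂ) (1 + 2 * z)]
    field_simp

lemma af_sp {m t : ℕ} (hm : m ≠ 0) (ht : t ≠ 0) : af (sp m * t ^ 2 * m) = af (t * m) := by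
  unfold af
  congr 1
  have h1 : sp m ≠ 0 := by
    have := sp_pos (Nat.one_le_iff_ne_zero.2 hm)
    omega
  rw [Nat.primeFactors_mul (by positivity) hm, Nat.primeFactors_mul h1 (by positivity),
    Nat.primeFactors_pow _ two_ne_zero, Nat.primeFactors_mul ht hm]
  have h2 : (sp m).primeFactors ⊆ m.primeFactors := Nat.primeFactors_mono (sp_dvd m) hm
  ext p
  simp only [Finset.mem_union]
  constructor
  · rintro ((h | h) | h)
    · exact Or.inr (h2 h)
    · exact Or.inl h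
    · exact Or.inr h
  · rintro (h | h)
    · exact Or.inl (Or.inr h)
    · exact Or.inr h

/-- truncation of the sum -/
theorem trunc {τ : ℝ} (hτ : 0 < τ) : ∃ C : ℝ, 0 < C ∧ ∀ (m L : ℕ) (z : ℂ), 1 ≤ m → 1 ≤ L → τ ≤ z.re →
    ‖(∑ l ∈ (Finset.Icc 1 L).filter (fun l => IsSquare (l * m)), (af (l * m) : ℂ) * (l : ℂ) ^ (-(1 / 2 + z))) -
      hz m z‖ ≤ C * (L : ℝ) ^ (-(z.re - τ)) := by
  classical
  have hs : Summable (fun t : ℕ => (t : ℝ) ^ (-(1 + 2 * τ))) := Real.summable_nat_rpow.2 (by linarith)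
  have h0 : 0 ≤ ∑' t : ℕ, (t : ℝ) ^ (-(1 + 2 * τ)) := tsum_nonneg fun d => by positivity
  refine ⟨(∑' t : ℕ, (t : ℝ) ^ (-(1 + 2 * τ))) + 1, by positivity, fun m L z hm hL hz0 => ?_⟩
  have hm0 : m ≠ 0 := by omega
  have hL0 : (0 : ℝ) < L := by exact_mod_cast hL
  have hsp := sp_pos hm
  obtain ⟨g, hg⟩ : ∃ g : ℕ → ℂ, g = fun t : ℕ => if t = 0 then 0 else
    (af (t * m) : ℂ) * ((sp m * t ^ 2 : ℕ) : ℂ) ^ (-(1 / 2 + z)) := ⟨_, rfl⟩
  have hS := hz_hasSum hm (z := z) (by linarith)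
  rw [← hg] at hS
  obtain ⟨F, hF⟩ : ∃ F : Finset ℕ, F = (Finset.Icc 1 L).filter (fun t => sp m * t ^ 2 ≤ L) := ⟨_, rfl⟩
  have h1 : ∑ l ∈ (Finset.Icc 1 L).filter (fun l => IsSquare (l * m)), (af (l * m) : ℂ) * (l : ℂ) ^ (-(1 / 2 + z)) =
      ∑ t ∈ F, g t := by
    symm
    refine Finset.sum_bij (fun t _ => sp m * t ^ 2) ?_ ?_ ?_ ?_
    · intro t ht
      rw [hF, Finset.mem_filter, Finset.mem_Icc] at ht
      rw [Finset.mem_filter, Finset.mem_Icc]
      have h2 : 1 ≤ sp m * t ^ 2 := Nat.mul_pos hsp (pow_pos ht.1.1 2)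
      exact ⟨⟨h2, ht.2⟩, (sq_iff_sp hm h2).2 ⟨t, ht.1.1, rfl⟩⟩
    · intro a ha b hb hab
      have h2 : a ^ 2 = b ^ 2 := Nat.eq_of_mul_eq_mul_left hsp hab
      exact Nat.pow_left_injective two_ne_zero h2
    · intro l hl
      rw [Finset.mem_filter, Finset.mem_Icc] at hl
      obtain ⟨t, ht, hlt⟩ := (sq_iff_sp hm hl.1.1).1 hl.2
      refine ⟨t, ?_, hlt.symm⟩
      rw [hF, Finset.mem_filter, Finset.mem_Icc]
      refine ⟨⟨ht, ?_⟩, by rw [← hlt]; exact hl.1.2⟩
      calc t ≤ t ^ 2 := Nat.le_self_pow two_ne_zero t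
        _ ≤ sp m * t ^ 2 := Nat.le_mul_of_pos_left _ hsp
        _ = l := hlt.symm
        _ ≤ L := hl.1.2
    · intro t ht
      rw [hF, Finset.mem_filter, Finset.mem_Icc] at ht
      have ht0 : t ≠ 0 := by have := ht.1.1; omega
      rw [hg]
      simp only
      rw [if_neg ht0, af_sp hm0 ht0]
  have h2 : HasSum (fun t => if t ∈ F then g t else 0) (∑ t ∈ F, g t) := by
    have h3 : ∑ t ∈ F, g t = ∑ t ∈ F, (if t ∈ F then g t else 0) :=
      Finset.sum_congr rfl fun t ht => by rw [if_pos ht]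
    rw [h3]
    exact hasSum_sum_of_ne_finset_zero fun t ht => by rw [if_neg ht]
  have h3 := h2.sub hS
  rw [h1]
  have h4 := hs.hasSum.mul_left ((L : ℝ) ^ (-(z.re - τ)))
  have h5 : ‖(∑ t ∈ F, g t) - hz m z‖ ≤ (L : ℝ) ^ (-(z.re - τ)) * ∑' t : ℕ, (t : ℝ) ^ (-(1 + 2 * τ)) := by
    refine h3.norm_le_of_bounded h4 fun t => ?_
    by_cases ht : t ∈ F
    · rw [if_pos ht, sub_self, norm_zero]
      positivity
    · rw [if_neg ht, zero_sub, norm_neg, hg]
      simp only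
      split_ifs with ht0
      · rw [norm_zero]; positivity
      · have ht1 : 1 ≤ t := by omega
        have h6 : (L : ℝ) ≤ ((sp m * t ^ 2 : ℕ) : ℝ) := by
          by_contra hc
          push Not at hc
          have hc' : sp m * t ^ 2 < L := by exact_mod_cast hc
          apply ht
          rw [hF, Finset.mem_filter, Finset.mem_Icc]
          refine ⟨⟨ht1, ?_⟩, hc'.le⟩
          calc t ≤ t ^ 2 := Nat.le_self_pow two_ne_zero t
            _ ≤ sp m * t ^ 2 := Nat.le_mul_of_pos_left _ hsp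
            _ ≤ L := hc'.le
        have h7 : (t : ℝ) ^ 2 ≤ ((sp m * t ^ 2 : ℕ) : ℝ) := by
          exact_mod_cast Nat.le_mul_of_pos_left _ hsp
        have htR : (0 : ℝ) < t := by exact_mod_cast ht1
        have hpos : 0 < sp m * t ^ 2 := Nat.mul_pos hsp (pow_pos ht1 2)
        have hposR : (0 : ℝ) < ((sp m * t ^ 2 : ℕ) : ℝ) := by exact_mod_cast hpos
        rw [norm_mul, Complex.norm_real, Real.norm_of_nonneg (Avg.af_pos _).le,
          Complex.norm_natCast_cpow_of_pos hpos]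
        calc af (t * m) * ((sp m * t ^ 2 : ℕ) : ℝ) ^ (-(1 / 2 + z)).re
            ≤ 1 * ((sp m * t ^ 2 : ℕ) : ℝ) ^ (-(1 / 2 + z)).re :=
              mul_le_mul_of_nonneg_right (Avg.af_le _) (by positivity)
          _ = ((sp m * t ^ 2 : ℕ) : ℝ) ^ (-(z.re - τ)) * ((sp m * t ^ 2 : ℕ) : ℝ) ^ (-(1 / 2 + τ)) := by
              rw [← Real.rpow_add hposR, one_mul]
              congr 1
              simp
              ring
          _ ≤ (L : ℝ) ^ (-(z.re - τ)) * ((t : ℝ) ^ 2) ^ (-(1 / 2 + τ)) := by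
              apply mul_le_mul
              · exact Real.rpow_le_rpow_of_nonpos hL0 h6 (by linarith)
              · exact Real.rpow_le_rpow_of_nonpos (by positivity) h7 (by linarith)
              · positivity
              · positivity
          _ = (L : ℝ) ^ (-(z.re - τ)) * (t : ℝ) ^ (-(1 + 2 * τ)) := by
              rw [← Real.rpow_natCast, ← Real.rpow_mul htR.le]
              congr 2
              push_cast
              ring
  refine h5.trans ?_
  rw [mul_comm]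
  exact mul_le_mul_of_nonneg_right (by linarith) (by positivity)

end

end Pool.Agent.V8H6.CB
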