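import Pool.Agent.V8H6.CB.Tw

set_option autoImplicit false

/-! Interpolation in mean square between two vertical lines. -/

namespace Pool.Agent.V8H6.CB

open Complex hiding im
open Filter Topology MeasureTheory Set
open Pool.Agent.N879.QM Pool.Agent.V8H6.RW
open Pool.Agent.H306R2 (Zt Zt_norm_le zeta_eq_pos Zt_differentiableAt)
open scoped BigOperators

noncomputable section

lemma Gr.prod {ι : Type} {a b : ℝ} (s : Finset ι) (F : ι → ℂ → ℂ) (h : ∀ i, Gr (F i) a b) :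
    Gr (fun z => ∏ i ∈ s, F i z) a b := by
  classical
  induction s using Finset.induction_on with
  | empty => simpa using Gr.const 1 a b
  | insert i s hi ih =>
    have := (h i).mul ih
    simpa only [Finset.prod_insert hi] using this

lemma Gr.of_norm {F : ℂ → ℂ} {a b C : ℝ} {K : ℕ} (hC : 0 ≤ C)
    (h : ∀ z : ℂ, a ≤ z.re → z.re ≤ b → ‖F z‖ ≤ C * (1 + ‖z‖) ^ K) : Gr F a b := by
  refine ⟨C * (1 + |a| + |b|) ^ K, K, by positivity, fun z h1 h2 => (h z h1 h2).trans ?_⟩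
  rw [mul_assoc, ← mul_pow]
  have h3 : |z.re| ≤ |a| + |b| := by
    rw [abs_le]
    constructor
    · linarith [neg_abs_le a, abs_nonneg b]
    · linarith [le_abs_self b, abs_nonneg a]
  have h4 : ‖z‖ ≤ (|a| + |b|) + |z.im| := (Complex.norm_le_abs_re_add_abs_im z).trans (by linarith)
  have h5 : 1 + ‖z‖ ≤ (1 + |a| + |b|) * (1 + |z.im|) := by
    nlinarith [abs_nonneg a, abs_nonneg b, abs_nonneg z.im, mul_nonneg (abs_nonneg a) (abs_nonneg z.im),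
      mul_nonneg (abs_nonneg b) (abs_nonneg z.im)]
  gcongr

lemma Gr.sub {F G : ℂ → ℂ} {a b : ℝ} (hF : Gr F a b) (hG : Gr G a b) : Gr (fun z => F z - G z) a b := by
  have := hF.add ((Gr.const (-1) a b).mul hG)
  refine (by simpa [sub_eq_add_neg] using this)

lemma Gr.line_int {F : ℂ → ℂ} {a b x : ℝ} (h : Gr F a b) (hax : a ≤ x) (hxb : x ≤ b)
    (hd : ∀ z : ℂ, a ≤ z.re → z.re ≤ b → DifferentiableAt ℂ F z) (e : ℕ) :
    Integrable fun y : ℝ => Real.exp (-(y ^ 2) / 2) * ‖F (x + y * I)‖ ^ e := by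
  obtain ⟨C, K, hC, h⟩ := h
  have hc : Continuous fun y : ℝ => F (x + y * I) := by
    rw [continuous_iff_continuousAt]
    intro y
    refine ContinuousAt.comp (g := F) (f := fun y : ℝ => (x : ℂ) + y * I) ?_ (by fun_prop)
    exact (hd _ (by simpa using hax) (by simpa using hxb)).continuousAt
  refine ((int_poly (K * e)).const_mul (C ^ e)).mono' ?_ ?_
  · exact (Continuous.mul (by fun_prop) ((hc.norm).pow e)).aestronglyMeasurable
  · filter_upwards with y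
    rw [Real.norm_of_nonneg (by positivity)]
    have h1 := h (x + y * I) (by simpa using hax) (by simpa using hxb)
    have h2 : ((x : ℂ) + y * I).im = y := by simp
    rw [h2] at h1
    have h3 : ‖F (x + y * I)‖ ^ e ≤ C ^ e * (2 + |y|) ^ (K * e) := by
      calc ‖F (x + y * I)‖ ^ e ≤ (C * (1 + |y|) ^ K) ^ e := pow_le_pow_left₀ (norm_nonneg _) h1 e
        _ = C ^ e * (1 + |y|) ^ (K * e) := by rw [mul_pow, ← pow_mul]
        _ ≤ _ := by
            gcongr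
            norm_num
    calc Real.exp (-(y ^ 2) / 2) * ‖F (x + y * I)‖ ^ e ≤ Real.exp (-(y ^ 2) / 2) * (C ^ e * (2 + |y|) ^ (K * e)) := by
          gcongr
      _ = _ := by ring

/-- Cauchy-Schwarz for nonnegative functions -/
lemma cs_int {w M : ℝ → ℝ} (h0 : Integrable w) (h1 : Integrable fun y => w y * M y)
    (h2 : Integrable fun y => w y * M y ^ 2) (hw : ∀ y, 0 ≤ w y) :
    (∫ y, w y * M y) ^ 2 ≤ (∫ y, w y) * ∫ y, w y * M y ^ 2 := by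
  have key : ∀ t : ℝ, 0 ≤ (∫ y, w y) * (t * t) + (-2 * ∫ y, w y * M y) * t + ∫ y, w y * M y ^ 2 := by
    intro t
    have h3 : 0 ≤ ∫ y, w y * (M y - t) ^ 2 := integral_nonneg fun y => mul_nonneg (hw y) (sq_nonneg _)
    have h4 : ∀ y, w y * (M y - t) ^ 2 = w y * M y ^ 2 + ((-2 * t) * (w y * M y) + (t * t) * w y) := by
      intro y; ring
    simp only [h4] at h3
    have h5 : ∫ y, (w y * M y ^ 2 + ((-2 * t) * (w y * M y) + (t * t) * w y)) =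
        (∫ y, w y * M y ^ 2) + ∫ y, ((-2 * t) * (w y * M y) + (t * t) * w y) :=
      integral_add h2 ((h1.const_mul _).add (h0.const_mul _))
    have h6 : ∫ y, ((-2 * t) * (w y * M y) + (t * t) * w y) =
        (∫ y, (-2 * t) * (w y * M y)) + ∫ y, (t * t) * w y := integral_add (h1.const_mul _) (h0.const_mul _)
    rw [h5, h6, integral_const_mul, integral_const_mul] at h3
    linarith
  have hd := discrim_le_zero key
  unfold discrim at hd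
  nlinarith

lemma gauss_int : ∫ y : ℝ, Real.exp (-(y ^ 2) / 2) ≤ 3 := by
  have h : ∫ y : ℝ, Real.exp (-(y ^ 2) / 2) = √(Real.pi / (1 / 2)) := by
    rw [← integral_gaussian (1 / 2)]
    refine integral_congr_ae (Eventually.of_forall fun y => ?_)
    simp only
    congr 1
    ring
  rw [h, Real.sqrt_le_left (by norm_num)]
  nlinarith [Real.pi_lt_d2]

/-- the pointwise inequality -/
lemma pw_sq {F : ℂ → ℂ} (hd : ∀ z : ℂ, -1 / 32 ≤ z.re → z.re ≤ 1 / 4 → DifferentiableAt ℂ F z)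
    (hg : Gr F (-1 / 32) (1 / 4)) {K : ℝ} (hK : 1 ≤ K) {p : ℂ} (hp : |p.re| ≤ 1 / 64) (hp' : |p.im| ≤ 1) :
    ‖F p‖ ^ 2 ≤ 6 * (64 * Real.exp 2) ^ 2 *
      (K * (∫ y : ℝ, Real.exp (-(y ^ 2) / 2) * ‖F ((1 / 4 : ℝ) + y * I)‖ ^ 2) +
        K ^ (-(1 / 32) : ℝ) * ∫ y : ℝ, Real.exp (-(y ^ 2) / 2) * ‖F ((-1 / 32 : ℝ) + y * I)‖ ^ 2) := by
  have hK0 : 0 < K := by linarith
  have hKc : (K : ℂ) ≠ 0 := by exact_mod_cast hK0.ne'
  have hp1 := abs_le.1 hp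
  have i1 := hg.line_int (x := 1 / 4) (by norm_num) le_rfl hd 1
  have i2 := hg.line_int (x := -1 / 32) le_rfl (by norm_num) hd 1
  have j1 := hg.line_int (x := 1 / 4) (by norm_num) le_rfl hd 2
  have j2 := hg.line_int (x := -1 / 32) le_rfl (by norm_num) hd 2
  simp only [pow_one] at i1 i2
  -- the twisted function
  have hKn : ∀ z : ℂ, ‖(K : ℂ) ^ z‖ = K ^ z.re := fun z => Complex.norm_cpow_eq_rpow_re_of_pos hK0 z
  have hgK : Gr (fun z => (K : ℂ) ^ z * F z) (-1 / 32) (1 / 4) := by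
    refine Gr.mul (Gr.of_bd (C := K ^ (1 / 4 : ℝ)) (by positivity) fun z _ h2 => ?_) hg
    rw [hKn]
    exact Real.rpow_le_rpow_of_exponent_le hK h2
  have hre : ∀ x y : ℝ, ((x : ℂ) + y * I).re = x := fun x y => by simp
  have two := two_lines (F := fun z => (K : ℂ) ^ z * F z) (a := -1 / 32) (b := 1 / 4) p (by linarith)
    (by linarith) (fun z h1 h2 => DifferentiableAt.mul (DifferentiableAt.const_cpow differentiableAt_id (Or.inl hKc))
      (hd z h1 h2)) hgK (fun y => K ^ (1 / 4 : ℝ) * ‖F ((1 / 4 : ℝ) + y * I)‖)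
    (fun y => K ^ (-1 / 32 : ℝ) * ‖F ((-1 / 32 : ℝ) + y * I)‖)
    (fun y => by rw [norm_mul, hKn, hre]) (fun y => by rw [norm_mul, hKn, hre])
    ((i1.const_mul (K ^ (1 / 4 : ℝ))).congr (Eventually.of_forall fun y => by simp only; ring))
    ((i2.const_mul (K ^ (-1 / 32 : ℝ))).congr (Eventually.of_forall fun y => by simp only; ring))
  set I1 := ∫ y : ℝ, Real.exp (-(y ^ 2) / 2) * ‖F ((1 / 4 : ℝ) + y * I)‖ with hI1
  set I2 := ∫ y : ℝ, Real.exp (-(y ^ 2) / 2) * ‖F ((-1 / 32 : ℝ) + y * I)‖ with hI2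
  set J1 := ∫ y : ℝ, Real.exp (-(y ^ 2) / 2) * ‖F ((1 / 4 : ℝ) + y * I)‖ ^ 2 with hJ1
  set J2 := ∫ y : ℝ, Real.exp (-(y ^ 2) / 2) * ‖F ((-1 / 32 : ℝ) + y * I)‖ ^ 2 with hJ2
  have e1 : (∫ y : ℝ, Real.exp (-(y ^ 2) / 2) * (K ^ (1 / 4 : ℝ) * ‖F ((1 / 4 : ℝ) + y * I)‖)) =
      K ^ (1 / 4 : ℝ) * I1 := by
    rw [hI1, ← integral_const_mul]
    congr 1
    funext y
    ring
  have e2 : (∫ y : ℝ, Real.exp (-(y ^ 2) / 2) * (K ^ (-1 / 32 : ℝ) * ‖F ((-1 / 32 : ℝ) + y * I)‖)) =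
      K ^ (-1 / 32 : ℝ) * I2 := by
    rw [hI2, ← integral_const_mul]
    congr 1
    funext y
    ring
  rw [e1, e2, norm_mul, hKn] at two
  have g0 : Integrable fun y : ℝ => Real.exp (-(y ^ 2) / 2) := by
    have := int_poly 0
    simpa using this
  have c1 : I1 ^ 2 ≤ 3 * J1 := by
    refine (cs_int g0 i1 j1 fun y => (Real.exp_pos _).le).trans ?_
    exact mul_le_mul_of_nonneg_right gauss_int (integral_nonneg fun y => by positivity)
  have c2 : I2 ^ 2 ≤ 3 * J2 := by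
    refine (cs_int g0 i2 j2 fun y => (Real.exp_pos _).le).trans ?_
    exact mul_le_mul_of_nonneg_right gauss_int (integral_nonneg fun y => by positivity)
  have p1 : 0 ≤ I1 := integral_nonneg fun y => by positivity
  have p2 : 0 ≤ I2 := integral_nonneg fun y => by positivity
  have q1 : 0 ≤ J1 := integral_nonneg fun y => by positivity
  have q2 : 0 ≤ J2 := integral_nonneg fun y => by positivity
  -- numbers
  have hexp : Real.exp ((1 / 4 - -1 / 32) ^ 2 + p.im ^ 2) ≤ Real.exp 2 := by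
    apply Real.exp_le_exp.2
    have : p.im ^ 2 ≤ 1 := by
      rw [← sq_abs]
      nlinarith [abs_nonneg p.im]
    norm_num
    linarith
  have d1 : K ^ (1 / 4 : ℝ) * I1 / (1 / 4 - p.re) ≤ 64 * (K ^ (1 / 4 : ℝ) * I1) := by
    rw [div_le_iff₀ (by linarith)]
    have : 0 ≤ K ^ (1 / 4 : ℝ) * I1 := by positivity
    nlinarith
  have d2 : K ^ (-1 / 32 : ℝ) * I2 / (p.re - -1 / 32) ≤ 64 * (K ^ (-1 / 32 : ℝ) * I2) := by
    rw [div_le_iff₀ (by linarith)]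
    have : 0 ≤ K ^ (-1 / 32 : ℝ) * I2 := by positivity
    nlinarith
  have main : K ^ p.re * ‖F p‖ ≤ 64 * Real.exp 2 * (K ^ (1 / 4 : ℝ) * I1 + K ^ (-1 / 32 : ℝ) * I2) := by
    refine two.trans ?_
    calc Real.exp ((1 / 4 - -1 / 32) ^ 2 + p.im ^ 2) * (K ^ (1 / 4 : ℝ) * I1 / (1 / 4 - p.re) +
          K ^ (-1 / 32 : ℝ) * I2 / (p.re - -1 / 32))
        ≤ Real.exp 2 * (64 * (K ^ (1 / 4 : ℝ) * I1) + 64 * (K ^ (-1 / 32 : ℝ) * I2)) := by
          apply mul_le_mul hexp (add_le_add d1 d2) _ (Real.exp_pos _).le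
          have t1 : 0 < 1 / 4 - p.re := by linarith
          have t2 : 0 < p.re - -1 / 32 := by linarith
          positivity
      _ = _ := by ring
  have main2 : ‖F p‖ ≤ 64 * Real.exp 2 * (K ^ (1 / 2 : ℝ) * I1 + K ^ (-1 / 64 : ℝ) * I2) := by
    have hKp : 0 < K ^ p.re := by positivity
    have h5 : K ^ (1 / 4 : ℝ) ≤ K ^ p.re * K ^ (1 / 2 : ℝ) := by
      rw [← Real.rpow_add hK0]
      exact Real.rpow_le_rpow_of_exponent_le hK (by linarith)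
    have h6 : K ^ (-1 / 32 : ℝ) ≤ K ^ p.re * K ^ (-1 / 64 : ℝ) := by
      rw [← Real.rpow_add hK0]
      exact Real.rpow_le_rpow_of_exponent_le hK (by linarith)
    have h7 : K ^ p.re * ‖F p‖ ≤ K ^ p.re * (64 * Real.exp 2 * (K ^ (1 / 2 : ℝ) * I1 + K ^ (-1 / 64 : ℝ) * I2)) := by
      refine main.trans ?_
      calc 64 * Real.exp 2 * (K ^ (1 / 4 : ℝ) * I1 + K ^ (-1 / 32 : ℝ) * I2) ≤
          64 * Real.exp 2 * ((K ^ p.re * K ^ (1 / 2 : ℝ)) * I1 + (K ^ p.re * K ^ (-1 / 64 : ℝ)) * I2) := by gcongr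
        _ = _ := by ring
    exact le_of_mul_le_mul_left h7 hKp
  have s1 : (K ^ (1 / 2 : ℝ)) ^ 2 = K := by
    rw [← Real.rpow_natCast, ← Real.rpow_mul hK0.le]
    norm_num
  have s2 : (K ^ (-1 / 64 : ℝ)) ^ 2 = K ^ (-(1 / 32) : ℝ) := by
    rw [← Real.rpow_natCast, ← Real.rpow_mul hK0.le]
    norm_num
  calc ‖F p‖ ^ 2 ≤ (64 * Real.exp 2 * (K ^ (1 / 2 : ℝ) * I1 + K ^ (-1 / 64 : ℝ) * I2)) ^ 2 :=
        pow_le_pow_left₀ (norm_nonneg _) main2 2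
    _ = (64 * Real.exp 2) ^ 2 * (K ^ (1 / 2 : ℝ) * I1 + K ^ (-1 / 64 : ℝ) * I2) ^ 2 := by ring
    _ ≤ (64 * Real.exp 2) ^ 2 * (2 * ((K ^ (1 / 2 : ℝ) * I1) ^ 2 + (K ^ (-1 / 64 : ℝ) * I2) ^ 2)) := by
        gcongr
        nlinarith [sq_nonneg (K ^ (1 / 2 : ℝ) * I1 - K ^ (-1 / 64 : ℝ) * I2)]
    _ = (64 * Real.exp 2) ^ 2 * (2 * (K * I1 ^ 2 + K ^ (-(1 / 32) : ℝ) * I2 ^ 2)) := by
        rw [mul_pow (K ^ (1 / 2 : ℝ)) I1, mul_pow (K ^ (-1 / 64 : ℝ)) I2, s1, s2]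
    _ ≤ (64 * Real.exp 2) ^ 2 * (2 * (K * (3 * J1) + K ^ (-(1 / 32) : ℝ) * (3 * J2))) := by gcongr
    _ = _ := by ring

/-- interpolation in mean square -/
theorem interp (c : ℕ) : ∃ C : ℝ, 0 < C ∧ ∀ {Ω : Type} [MeasurableSpace Ω] (μ : Measure Ω) [SFinite μ]
    (Φ : Ω → ℂ → ℂ), (∀ ω, ∀ z : ℂ, -1 / 32 ≤ z.re → z.re ≤ 1 / 4 → DifferentiableAt ℂ (Φ ω) z) →
    (∀ ω, Gr (Φ ω) (-1 / 32) (1 / 4)) →
    (Measurable fun x : Ω × ℝ => Φ x.1 ((1 / 4 : ℝ) + x.2 * I)) →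
    (Measurable fun x : Ω × ℝ => Φ x.1 ((-1 / 32 : ℝ) + x.2 * I)) →
    ∀ Eb Ea : ℝ, 0 ≤ Eb → 0 ≤ Ea →
    (∀ y : ℝ, ∫⁻ ω, ENNReal.ofReal (‖Φ ω ((1 / 4 : ℝ) + y * I)‖ ^ 2) ∂μ ≤ ENNReal.ofReal (Eb * (2 + |y|) ^ c)) →
    (∀ y : ℝ, ∫⁻ ω, ENNReal.ofReal (‖Φ ω ((-1 / 32 : ℝ) + y * I)‖ ^ 2) ∂μ ≤ ENNReal.ofReal (Ea * (2 + |y|) ^ c)) →
    ∀ (K : ℝ) (p : ℂ), 1 ≤ K → |p.re| ≤ 1 / 64 → |p.im| ≤ 1 →
    ∫⁻ ω, ENNReal.ofReal (‖Φ ω p‖ ^ 2) ∂μ ≤ ENNReal.ofReal (C * (K * Eb + K ^ (-(1 / 32) : ℝ) * Ea)) := by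
  set G : ℝ := ∫ y : ℝ, Real.exp (-(y ^ 2) / 2) * (2 + |y|) ^ c with hG
  have hG0 : 0 ≤ G := integral_nonneg fun y => by positivity
  refine ⟨6 * (64 * Real.exp 2) ^ 2 * (G + 1), by positivity, ?_⟩
  intro Ω _ μ _ Φ hd hg hm1 hm2 Eb Ea hEb hEa hb ha K p hK hp hp'
  have hK0 : 0 < K := by linarith
  set c0 : ℝ := 6 * (64 * Real.exp 2) ^ 2 with hc0
  have hc00 : 0 ≤ c0 := by positivity
  have step : ∀ (x : ℝ) (E : ℝ), -1 / 32 ≤ x → x ≤ 1 / 4 → 0 ≤ E →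
      (Measurable fun w : Ω × ℝ => Φ w.1 ((x : ℝ) + w.2 * I)) →
      (∀ y : ℝ, ∫⁻ ω, ENNReal.ofReal (‖Φ ω ((x : ℝ) + y * I)‖ ^ 2) ∂μ ≤ ENNReal.ofReal (E * (2 + |y|) ^ c)) →
      ∫⁻ ω, ENNReal.ofReal (∫ y : ℝ, Real.exp (-(y ^ 2) / 2) * ‖Φ ω ((x : ℝ) + y * I)‖ ^ 2) ∂μ ≤
        ENNReal.ofReal (E * G) := by
    intro x E hx1 hx2 hE hm h
    have e1 : ∀ ω, ENNReal.ofReal (∫ y : ℝ, Real.exp (-(y ^ 2) / 2) * ‖Φ ω ((x : ℝ) + y * I)‖ ^ 2) =
        ∫⁻ y : ℝ, ENNReal.ofReal (Real.exp (-(y ^ 2) / 2)) * ENNReal.ofReal (‖Φ ω ((x : ℝ) + y * I)‖ ^ 2) := by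
      intro ω
      rw [ofReal_integral_eq_lintegral_ofReal ((hg ω).line_int hx1 hx2 (hd ω) 2)
        (Eventually.of_forall fun y => by positivity)]
      refine lintegral_congr fun y => ?_
      rw [ENNReal.ofReal_mul (Real.exp_pos _).le]
    simp only [e1]
    have hmm : Measurable fun w : Ω × ℝ => ENNReal.ofReal (Real.exp (-(w.2 ^ 2) / 2)) *
        ENNReal.ofReal (‖Φ w.1 ((x : ℝ) + w.2 * I)‖ ^ 2) := by
      have m5 : Measurable fun w : Ω × ℝ => Real.exp (-(w.2 ^ 2) / 2) := by fun_prop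
      exact (ENNReal.measurable_ofReal.comp m5).mul (ENNReal.measurable_ofReal.comp (hm.norm.pow_const 2))
    rw [lintegral_lintegral_swap hmm.aemeasurable]
    calc ∫⁻ y : ℝ, ∫⁻ ω, ENNReal.ofReal (Real.exp (-(y ^ 2) / 2)) * ENNReal.ofReal (‖Φ ω ((x : ℝ) + y * I)‖ ^ 2) ∂μ
        ≤ ∫⁻ y : ℝ, ENNReal.ofReal (Real.exp (-(y ^ 2) / 2) * (E * (2 + |y|) ^ c)) := by
          refine lintegral_mono fun y => ?_
          rw [lintegral_const_mul' _ _ ENNReal.ofReal_ne_top, ENNReal.ofReal_mul (Real.exp_pos _).le]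
          exact mul_le_mul_right (h y) _
      _ = ENNReal.ofReal (∫ y : ℝ, Real.exp (-(y ^ 2) / 2) * (E * (2 + |y|) ^ c)) := by
          rw [ofReal_integral_eq_lintegral_ofReal _ (Eventually.of_forall fun y => by positivity)]
          refine ((int_poly c).const_mul E).congr (Eventually.of_forall fun y => ?_)
          simp only
          ring
      _ = ENNReal.ofReal (E * G) := by
          rw [hG, ← integral_const_mul]
          congr 2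
          funext y
          ring
  have s1 := step (1 / 4) Eb (by norm_num) le_rfl hEb hm1 hb
  have s2 := step (-1 / 32) Ea le_rfl (by norm_num) hEa hm2 ha
  have hpt : ∀ ω, ENNReal.ofReal (‖Φ ω p‖ ^ 2) ≤
      ENNReal.ofReal (c0 * K) * ENNReal.ofReal (∫ y : ℝ, Real.exp (-(y ^ 2) / 2) * ‖Φ ω ((1 / 4 : ℝ) + y * I)‖ ^ 2) +
      ENNReal.ofReal (c0 * K ^ (-(1 / 32) : ℝ)) *
        ENNReal.ofReal (∫ y : ℝ, Real.exp (-(y ^ 2) / 2) * ‖Φ ω ((-1 / 32 : ℝ) + y * I)‖ ^ 2) := by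
    intro ω
    rw [← ENNReal.ofReal_mul (by positivity), ← ENNReal.ofReal_mul (by positivity), ← ENNReal.ofReal_add
      (mul_nonneg (by positivity) (integral_nonneg fun y => by positivity))
      (mul_nonneg (by positivity) (integral_nonneg fun y => by positivity))]
    refine ENNReal.ofReal_le_ofReal ((pw_sq (hd ω) (hg ω) hK hp hp').trans (le_of_eq ?_))
    rw [← hc0]
    ring
  refine (lintegral_mono hpt).trans ?_
  have m1 : Measurable fun ω => ENNReal.ofReal (c0 * K) *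
      ENNReal.ofReal (∫ y : ℝ, Real.exp (-(y ^ 2) / 2) * ‖Φ ω ((1 / 4 : ℝ) + y * I)‖ ^ 2) := by
    refine Measurable.const_mul (ENNReal.measurable_ofReal.comp ?_) _
    have h5 : Measurable fun w : Ω × ℝ => Real.exp (-(w.2 ^ 2) / 2) * ‖Φ w.1 ((1 / 4 : ℝ) + w.2 * I)‖ ^ 2 :=
      (by fun_prop : Measurable fun w : Ω × ℝ => Real.exp (-(w.2 ^ 2) / 2)).mul (hm1.norm.pow_const 2)
    exact (h5.stronglyMeasurable.integral_prod_right').measurable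
  rw [lintegral_add_left m1, lintegral_const_mul' _ _ ENNReal.ofReal_ne_top,
    lintegral_const_mul' _ _ ENNReal.ofReal_ne_top]
  calc ENNReal.ofReal (c0 * K) * ∫⁻ ω, ENNReal.ofReal (∫ y : ℝ, Real.exp (-(y ^ 2) / 2) *
        ‖Φ ω ((1 / 4 : ℝ) + y * I)‖ ^ 2) ∂μ +
        ENNReal.ofReal (c0 * K ^ (-(1 / 32) : ℝ)) * ∫⁻ ω, ENNReal.ofReal (∫ y : ℝ, Real.exp (-(y ^ 2) / 2) *
        ‖Φ ω ((-1 / 32 : ℝ) + y * I)‖ ^ 2) ∂μ
      ≤ ENNReal.ofReal (c0 * K) * ENNReal.ofReal (Eb * G) +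
        ENNReal.ofReal (c0 * K ^ (-(1 / 32) : ℝ)) * ENNReal.ofReal (Ea * G) := by gcongr
    _ = ENNReal.ofReal (c0 * G * (K * Eb + K ^ (-(1 / 32) : ℝ) * Ea)) := by
        rw [← ENNReal.ofReal_mul (by positivity), ← ENNReal.ofReal_mul (by positivity), ← ENNReal.ofReal_add
          (by positivity) (by positivity)]
        congr 1
        ring
    _ ≤ _ := by
        apply ENNReal.ofReal_le_ofReal
        have : 0 ≤ K * Eb + K ^ (-(1 / 32) : ℝ) * Ea := by positivity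
        have h6 : c0 * G ≤ c0 * (G + 1) := by nlinarith
        exact mul_le_mul_of_nonneg_right h6 this

end

end Pool.Agent.V8H6.CB
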