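import Pool.Agent.V8H6.CB.Hz

set_option autoImplicit false

/-! The Euler product `A_{k+1}` with one free variable: bounds near the 1-line. -/

namespace Pool.Agent.V8H6.CB

open Complex hiding im
open Filter Topology MeasureTheory Set
open Pool.Agent.N879.QM
open scoped BigOperators

noncomputable section

lemma prod_exp {ι : Type} [DecidableEq ι] (s : Finset ι) (y : ι → ℂ) {r : ℝ} (hr0 : 0 ≤ r) (hr1 : r ≤ 1)
    (hy : ∀ i, ‖y i‖ ≤ r) :
    ‖∏ i ∈ s, (1 + y i) - 1‖ ≤ (2 ^ s.card - 1) * r ∧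
    ‖∏ i ∈ s, (1 + y i) - 1 - ∑ i ∈ s, y i‖ ≤ 4 ^ s.card * r ^ 2 := by
  induction s using Finset.induction_on with
  | empty =>
    simp only [Finset.prod_empty, Finset.sum_empty, sub_self, norm_zero, Finset.card_empty, pow_zero,
      zero_mul, one_mul, le_refl, true_and]
    exact sq_nonneg r
  | insert a s ha ih =>
    obtain ⟨h1, h2⟩ := ih
    rw [Finset.prod_insert ha, Finset.sum_insert ha, Finset.card_insert_of_notMem ha]
    have hy1 := hy a
    have hp : (1 : ℝ) ≤ 2 ^ s.card := one_le_pow₀ (by norm_num)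
    have hp4 : (2 : ℝ) ^ s.card ≤ 4 ^ s.card := pow_le_pow_left₀ (by norm_num) (by norm_num) _
    have h0 : ‖y a * (∏ i ∈ s, (1 + y i) - 1)‖ ≤ r * ((2 ^ s.card - 1) * r) := by
      rw [norm_mul]
      exact mul_le_mul hy1 h1 (norm_nonneg _) hr0
    have hr2 : r * r ≤ r := by nlinarith
    constructor
    · have e : (1 + y a) * ∏ i ∈ s, (1 + y i) - 1 = (∏ i ∈ s, (1 + y i) - 1) + y a * (∏ i ∈ s, (1 + y i) - 1) +
        y a := by ring
      rw [e]
      calc ‖(∏ i ∈ s, (1 + y i) - 1) + y a * (∏ i ∈ s, (1 + y i) - 1) + y a‖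
          ≤ (2 ^ s.card - 1) * r + r * ((2 ^ s.card - 1) * r) + r :=
            (norm_add_le _ _).trans (add_le_add ((norm_add_le _ _).trans (add_le_add h1 h0)) hy1)
        _ ≤ (2 ^ (s.card + 1) - 1) * r := by
            rw [pow_succ]
            nlinarith [mul_le_mul_of_nonneg_left hr2 (sub_nonneg.2 hp)]
    · have e : (1 + y a) * ∏ i ∈ s, (1 + y i) - 1 - (y a + ∑ i ∈ s, y i) =
        (∏ i ∈ s, (1 + y i) - 1 - ∑ i ∈ s, y i) + y a * (∏ i ∈ s, (1 + y i) - 1) := by ring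
      rw [e]
      calc ‖(∏ i ∈ s, (1 + y i) - 1 - ∑ i ∈ s, y i) + y a * (∏ i ∈ s, (1 + y i) - 1)‖
          ≤ 4 ^ s.card * r ^ 2 + r * ((2 ^ s.card - 1) * r) := (norm_add_le _ _).trans (add_le_add h2 h0)
        _ ≤ 4 ^ (s.card + 1) * r ^ 2 := by
            rw [pow_succ (4 : ℝ)]
            have : 0 ≤ r ^ 2 := sq_nonneg r
            nlinarith [mul_le_mul_of_nonneg_right hp4 this, mul_le_mul_of_nonneg_right hp this]

lemma prod_Pr {n : ℕ} (f : Fin n → Fin n → ℂ) :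
    ∏ r : Pr n, f r.1.1 r.1.2 = ∏ i, ∏ j, if i ≤ j then f i j else 1 := by
  rw [← Fintype.prod_prod_type' (f := fun i j => if i ≤ j then f i j else 1)]
  rw [← Finset.prod_filter]
  symm
  exact Finset.prod_subtype (p := fun p : Fin n × Fin n => p.1 ≤ p.2) _ (by intro x; simp)
    (fun p : Fin n × Fin n => f p.1 p.2)

lemma prod_Pr_succ {n : ℕ} (f : Fin (n + 1) → Fin (n + 1) → ℂ) :
    ∏ r : Pr (n + 1), f r.1.1 r.1.2 =
      f 0 0 * (∏ j : Fin n, f 0 j.succ) * ∏ r : Pr n, f r.1.1.succ r.1.2.succ := by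
  rw [prod_Pr, Fin.prod_univ_succ]
  congr 1
  · rw [Fin.prod_univ_succ]
    simp
  · rw [prod_Pr (fun i j => f i.succ j.succ)]
    refine Finset.prod_congr rfl fun i _ => ?_
    rw [Fin.prod_univ_succ]
    simp [Fin.succ_le_succ_iff]

/-- pieces -/
def Px {n : ℕ} (x : Fin n → ℂ) : ℂ := ∏ r : Pr n, (1 - x r.1.1 * x r.1.2)
def Fm {n : ℕ} (x : Fin n → ℂ) : ℂ := ∏ j, (1 - x j)⁻¹
def Fq {n : ℕ} (x : Fin n → ℂ) : ℂ := ∏ j, (1 + x j)⁻¹

lemma Px_bd (n : ℕ) {x : Fin n → ℂ} {ρ : ℝ} (h0 : 0 ≤ ρ) (h1 : ρ < 1) (hx : ∀ j, ‖x j‖ ≤ ρ) :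
    ‖Px x - 1‖ ≤ 2 ^ Fintype.card (Pr n) * ρ ^ 2 := by
  classical
  have h := (prod_exp (Finset.univ : Finset (Pr n)) (fun r => -(x r.1.1 * x r.1.2)) (r := ρ ^ 2) (by positivity)
    (by nlinarith) (fun r => by
      rw [norm_neg, norm_mul, sq]
      exact mul_le_mul (hx _) (hx _) (norm_nonneg _) h0)).1
  simp only [← sub_eq_add_neg] at h
  refine h.trans ?_
  rw [Finset.card_univ]
  nlinarith [sq_nonneg ρ]

lemma key (n : ℕ) : ∃ C : ℝ, 0 ≤ C ∧ ∀ (x : Fin n → ℂ) (ρ : ℝ), 0 ≤ ρ → ρ < 1 → (∀ j, ‖x j‖ ≤ ρ) →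
    ‖Px x * (1 / 2 * (Fm x + Fq x)) - 1‖ ≤ C * ρ ^ 4 ∧
    ‖Px x * (1 / 2 * (Fm x - Fq x)) - ∑ j, x j‖ ≤ C * ρ ^ 3 := by
  induction n with
  | zero =>
    refine ⟨0, le_rfl, fun x ρ _ _ _ => ?_⟩
    have h1 : Px x = 1 := by
      unfold Px
      rw [Finset.prod_of_isEmpty]
    have h2 : Fm x = 1 := by simp [Fm]
    have h3 : Fq x = 1 := by simp [Fq]
    rw [h1, h2, h3]
    norm_num
  | succ n ih =>
    obtain ⟨C, hC0, hC⟩ := ih
    set C' : ℝ := 4 ^ n with hC'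
    set C2 : ℝ := 2 ^ n with hC2
    have hC'0 : 0 ≤ C' := by positivity
    have hC20 : 0 ≤ C2 := by positivity
    refine ⟨(2 * C + n ^ 2 + 2 * n * C + C' * (1 + n + 2 * C)) + (2 * C + C2 * (1 + n + 2 * C)), by positivity,
      fun x ρ h0 h1 hx => ?_⟩
    set y : Fin n → ℂ := fun j => x j.succ with hy
    obtain ⟨ha, hb⟩ := hC y ρ h0 h1 (fun j => hx _)
    set a := Px y * (1 / 2 * (Fm y + Fq y)) with haa
    set b := Px y * (1 / 2 * (Fm y - Fq y)) with hbb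
    set S : ℂ := ∑ j, y j with hS
    set Qv : ℂ := ∏ j, (1 - x 0 * y j) with hQv
    have hρ1 : ρ ≤ 1 := h1.le
    have hx0 := hx 0
    -- recursion
    have hPx : Px x = (1 - x 0 * x 0) * Qv * Px y := prod_Pr_succ (fun i j => 1 - x i * x j)
    have hFm : Fm x = (1 - x 0)⁻¹ * Fm y := by unfold Fm; rw [Fin.prod_univ_succ]
    have hFq : Fq x = (1 + x 0)⁻¹ * Fq y := by unfold Fq; rw [Fin.prod_univ_succ]
    have hn1 : (1 - x 0) ≠ 0 := by
      intro h
      have : x 0 = 1 := (sub_eq_zero.1 h).symm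
      rw [this, norm_one] at hx0
      linarith
    have hn2 : (1 + x 0) ≠ 0 := by
      intro h
      have : x 0 = -1 := by linear_combination h
      rw [this, norm_neg, norm_one] at hx0
      linarith
    have e1 : Px x * (1 / 2 * (Fm x + Fq x)) = Qv * (a + x 0 * b) := by
      rw [hPx, hFm, hFq, haa, hbb]
      field_simp
      ring
    have e2 : Px x * (1 / 2 * (Fm x - Fq x)) = Qv * (b + x 0 * a) := by
      rw [hPx, hFm, hFq, haa, hbb]
      field_simp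
      ring
    -- bound for Q
    have hQ := prod_exp (Finset.univ : Finset (Fin n)) (fun j => -(x 0 * y j)) (r := ρ ^ 2) (by positivity)
      (by nlinarith) (fun r => by
        rw [norm_neg, norm_mul, sq]
        exact mul_le_mul (hx _) (hx _) (norm_nonneg _) h0)
    simp only [← sub_eq_add_neg, Finset.sum_neg_distrib, ← Finset.mul_sum, Finset.card_univ, Fintype.card_fin] at hQ
    rw [← hQv, ← hS] at hQ
    obtain ⟨hQ1, hQ2⟩ := hQ
    have hQ1' : ‖Qv - 1‖ ≤ C2 * ρ ^ 2 := hQ1.trans (by nlinarith [sq_nonneg ρ])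
    have hQ2' : ‖Qv - 1 + x 0 * S‖ ≤ C' * ρ ^ 4 := by
      have e : Qv - 1 - -(x 0 * S) = Qv - 1 + x 0 * S := by ring
      rw [e] at hQ2
      refine hQ2.trans (le_of_eq ?_)
      ring
    have hSn : ‖S‖ ≤ n * ρ := by
      rw [hS]
      refine (norm_sum_le _ _).trans ?_
      refine (Finset.sum_le_sum fun j _ => hx j.succ).trans ?_
      simp
    have hn0 : (0 : ℝ) ≤ n := Nat.cast_nonneg n
    have p2 : ρ ^ 2 ≤ 1 := by nlinarith
    have p4 : ρ ^ 4 ≤ 1 := by nlinarith [sq_nonneg (ρ ^ 2)]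
    have p40 : 0 ≤ ρ ^ 4 := by positivity
    have p30 : 0 ≤ ρ ^ 3 := by positivity
    have p43 : ρ ^ 4 ≤ ρ ^ 3 := by nlinarith
    constructor
    · rw [e1]
      set ε := (a - 1) + x 0 * (b - S) with hε
      set γ := Qv - 1 + x 0 * S with hγ
      have hε1 : ‖ε‖ ≤ 2 * C * ρ ^ 4 := by
        rw [hε]
        refine (norm_add_le _ _).trans ?_
        rw [norm_mul]
        have : ‖x 0‖ * ‖b - S‖ ≤ ρ * (C * ρ ^ 3) := mul_le_mul hx0 hb (norm_nonneg _) h0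
        nlinarith
      have e3 : Qv * (a + x 0 * b) - 1 = ε + -(x 0 * S) * (x 0 * S) + -(x 0 * S) * ε + γ * (1 + x 0 * S + ε) := by
        rw [hε, hγ]
        ring
      rw [e3]
      have hxS : ‖x 0 * S‖ ≤ n * ρ ^ 2 := by
        rw [norm_mul]
        calc ‖x 0‖ * ‖S‖ ≤ ρ * (n * ρ) := mul_le_mul hx0 hSn (norm_nonneg _) h0
          _ = n * ρ ^ 2 := by ring
      have t1 : ‖-(x 0 * S) * (x 0 * S)‖ ≤ n ^ 2 * ρ ^ 4 := by
        rw [norm_mul, norm_neg]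
        calc ‖x 0 * S‖ * ‖x 0 * S‖ ≤ (n * ρ ^ 2) * (n * ρ ^ 2) := mul_le_mul hxS hxS (norm_nonneg _) (by positivity)
          _ = n ^ 2 * ρ ^ 4 := by ring
      have t2 : ‖-(x 0 * S) * ε‖ ≤ 2 * n * C * ρ ^ 4 := by
        rw [norm_mul, norm_neg]
        calc ‖x 0 * S‖ * ‖ε‖ ≤ (n * ρ ^ 2) * (2 * C * ρ ^ 4) := mul_le_mul hxS hε1 (norm_nonneg _) (by positivity)
          _ ≤ (n * 1) * (2 * C * ρ ^ 4) := by gcongr
          _ = 2 * n * C * ρ ^ 4 := by ring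
      have t3 : ‖γ * (1 + x 0 * S + ε)‖ ≤ C' * (1 + n + 2 * C) * ρ ^ 4 := by
        rw [norm_mul]
        have : ‖1 + x 0 * S + ε‖ ≤ 1 + n + 2 * C := by
          refine (norm_add_le _ _).trans (add_le_add ((norm_add_le _ _).trans ?_) (hε1.trans ?_))
          · rw [norm_one]
            have := hxS.trans (mul_le_mul_of_nonneg_left p2 hn0)
            linarith
          · nlinarith
        calc ‖γ‖ * ‖1 + x 0 * S + ε‖ ≤ (C' * ρ ^ 4) * (1 + n + 2 * C) :=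
              mul_le_mul hQ2' this (norm_nonneg _) (by positivity)
          _ = _ := by ring
      have hnn : 0 ≤ (2 * C + C2 * (1 + n + 2 * C)) * ρ ^ 4 := by positivity
      calc ‖ε + -(x 0 * S) * (x 0 * S) + -(x 0 * S) * ε + γ * (1 + x 0 * S + ε)‖
          ≤ 2 * C * ρ ^ 4 + n ^ 2 * ρ ^ 4 + 2 * n * C * ρ ^ 4 + C' * (1 + n + 2 * C) * ρ ^ 4 :=
            (norm_add_le _ _).trans (add_le_add ((norm_add_le _ _).trans (add_le_add
              ((norm_add_le _ _).trans (add_le_add hε1 t1)) t2)) t3)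
        _ ≤ _ := by linarith
    · rw [e2, Fin.sum_univ_succ]
      have e3 : Qv * (b + x 0 * a) - (x 0 + ∑ i : Fin n, x i.succ) =
          (b - S) + x 0 * (a - 1) + (Qv - 1) * (x 0 + S + ((b - S) + x 0 * (a - 1))) := by
        have : ∑ i : Fin n, x i.succ = S := rfl
        rw [this]
        ring
      rw [e3]
      have t0 : ‖(b - S) + x 0 * (a - 1)‖ ≤ 2 * C * ρ ^ 3 := by
        refine (norm_add_le _ _).trans ?_
        rw [norm_mul]
        have : ‖x 0‖ * ‖a - 1‖ ≤ ρ * (C * ρ ^ 4) := mul_le_mul hx0 ha (norm_nonneg _) h0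
        have h5 : ρ * (C * ρ ^ 4) ≤ C * ρ ^ 3 := by
          have : ρ ^ 5 ≤ ρ ^ 3 := pow_le_pow_of_le_one h0 hρ1 (by norm_num)
          calc ρ * (C * ρ ^ 4) = C * ρ ^ 5 := by ring
            _ ≤ C * ρ ^ 3 := by gcongr
        linarith
      have t1 : ‖x 0 + S + ((b - S) + x 0 * (a - 1))‖ ≤ (1 + n + 2 * C) * ρ := by
        have h5 : 2 * C * ρ ^ 3 ≤ 2 * C * ρ := by
          have : ρ ^ 3 ≤ ρ := by
            calc ρ ^ 3 ≤ ρ ^ 1 := pow_le_pow_of_le_one h0 hρ1 (by norm_num)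
              _ = ρ := pow_one _
          gcongr
        calc ‖x 0 + S + ((b - S) + x 0 * (a - 1))‖ ≤ (ρ + n * ρ) + 2 * C * ρ ^ 3 :=
              (norm_add_le _ _).trans (add_le_add ((norm_add_le _ _).trans (add_le_add hx0 hSn)) t0)
          _ ≤ _ := by linarith
      have t2 : ‖(Qv - 1) * (x 0 + S + ((b - S) + x 0 * (a - 1)))‖ ≤ C2 * (1 + n + 2 * C) * ρ ^ 3 := by
        rw [norm_mul]
        calc ‖Qv - 1‖ * ‖x 0 + S + ((b - S) + x 0 * (a - 1))‖ ≤ (C2 * ρ ^ 2) * ((1 + n + 2 * C) * ρ) :=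
              mul_le_mul hQ1' t1 (norm_nonneg _) (by positivity)
          _ = _ := by ring
      have hnn : 0 ≤ (2 * C + n ^ 2 + 2 * n * C + C' * (1 + n + 2 * C)) * ρ ^ 3 := by positivity
      calc ‖(b - S) + x 0 * (a - 1) + (Qv - 1) * (x 0 + S + ((b - S) + x 0 * (a - 1)))‖
          ≤ 2 * C * ρ ^ 3 + C2 * (1 + n + 2 * C) * ρ ^ 3 := (norm_add_le _ _).trans (add_le_add t0 t2)
        _ ≤ _ := by linarith

/-- the shift vector `(z, iβ)` -/
def cn {k : ℕ} (z : ℂ) (β : Fin k → ℝ) : Fin (k + 1) → ℂ := Fin.cons z (im β)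

lemma cn_zero {k : ℕ} (z : ℂ) (β : Fin k → ℝ) : cn z β 0 = z := rfl

lemma cn_succ {k : ℕ} (z : ℂ) (β : Fin k → ℝ) (j : Fin k) : cn z β j.succ = im β j := rfl

/-- the powers -/
def xw {n : ℕ} (w : Fin n → ℂ) (p : ℕ) : Fin n → ℂ := fun j => (p : ℂ) ^ (-(1 / 2 + w j))

lemma loc_eq {n : ℕ} (w : Fin n → ℂ) {p : ℕ} (hp : 0 < p) :
    loc w p = Px (xw w p) * (1 / 2 * (Fm (xw w p) + Fq (xw w p)) + 1 / (p : ℂ)) * (1 + 1 / (p : ℂ))⁻¹ := by
  unfold loc Px Fm Fq xw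
  have hp0 : (p : ℂ) ≠ 0 := by exact_mod_cast hp.ne'
  congr 2
  refine Finset.prod_congr rfl fun r _ => ?_
  rw [← Complex.cpow_add _ _ hp0]
  ring_nf

lemma xw_norm {n : ℕ} {w : Fin n → ℂ} {p : ℕ} (hp : p.Prime) (hw : ∀ j, -1 / 16 ≤ (w j).re) (j : Fin n) :
    ‖xw w p j‖ ≤ (p : ℝ) ^ (-(7 / 16) : ℝ) := by
  unfold xw
  rw [Complex.norm_natCast_cpow_of_pos hp.pos]
  apply Real.rpow_le_rpow_of_exponent_le (by exact_mod_cast hp.one_lt.le)
  have := hw j
  simp only [Complex.neg_re, Complex.add_re, Complex.div_ofNat_re, Complex.one_re]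
  linarith

lemma rho_lt {p : ℕ} (hp : p.Prime) : (p : ℝ) ^ (-(7 / 16) : ℝ) < 1 :=
  Real.rpow_lt_one_of_one_lt_of_neg (by exact_mod_cast hp.one_lt) (by norm_num)

lemma loc_bd (n : ℕ) : ∃ C : ℝ, 0 ≤ C ∧ ∀ (w : Fin n → ℂ) (p : ℕ), p.Prime → (∀ j, -1 / 16 ≤ (w j).re) →
    ‖loc w p - 1‖ ≤ C * (p : ℝ) ^ (-(3 / 2) : ℝ) := by
  obtain ⟨C, hC0, hC⟩ := key n
  refine ⟨C + 2 ^ Fintype.card (Pr n), by positivity, fun w p hp hw => ?_⟩
  set ρ : ℝ := (p : ℝ) ^ (-(7 / 16) : ℝ) with hρ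
  have hp0 : (0 : ℝ) < p := by exact_mod_cast hp.pos
  have hp1 : (1 : ℝ) ≤ p := by exact_mod_cast hp.one_lt.le
  have hρ0 : 0 ≤ ρ := by positivity
  have hρ1 : ρ < 1 := rho_lt hp
  have hx := xw_norm hp hw
  obtain ⟨h1, -⟩ := hC (xw w p) ρ hρ0 hρ1 hx
  have h2 := Px_bd n hρ0 hρ1 hx
  rw [loc_eq w hp.pos]
  set P := Px (xw w p)
  set E := 1 / 2 * (Fm (xw w p) + Fq (xw w p))
  have hpc : (p : ℂ) ≠ 0 := by exact_mod_cast hp.pos.ne'
  have hpc1 : (1 + 1 / (p : ℂ)) ≠ 0 := by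
    have : (1 + 1 / (p : ℂ)) = ((1 + 1 / (p : ℝ) : ℝ) : ℂ) := by push_cast; ring
    rw [this]
    exact_mod_cast (by positivity : (1 + 1 / (p : ℝ)) ≠ 0)
  have e : P * (E + 1 / (p : ℂ)) * (1 + 1 / (p : ℂ))⁻¹ - 1 =
      ((P * E - 1) + (P - 1) * (1 / (p : ℂ))) * (1 + 1 / (p : ℂ))⁻¹ := by
    field_simp
    ring
  rw [e, norm_mul]
  have h3 : ‖(1 + 1 / (p : ℂ))⁻¹‖ ≤ 1 := by
    rw [norm_inv]
    apply inv_le_one_of_one_le₀
    have : (1 + 1 / (p : ℂ)) = ((1 + 1 / (p : ℝ) : ℝ) : ℂ) := by push_cast; ring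
    rw [this, Complex.norm_real, Real.norm_of_nonneg (by positivity)]
    have : 0 < 1 / (p : ℝ) := by positivity
    linarith
  have h4 : ρ ^ 4 ≤ (p : ℝ) ^ (-(3 / 2) : ℝ) := by
    rw [hρ, ← Real.rpow_natCast, ← Real.rpow_mul hp0.le]
    exact Real.rpow_le_rpow_of_exponent_le hp1 (by norm_num)
  have h5 : ρ ^ 2 * (1 / (p : ℝ)) ≤ (p : ℝ) ^ (-(3 / 2) : ℝ) := by
    rw [hρ, ← Real.rpow_natCast, ← Real.rpow_mul hp0.le, one_div, ← Real.rpow_neg_one, ← Real.rpow_add hp0]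
    exact Real.rpow_le_rpow_of_exponent_le hp1 (by norm_num)
  have h6 : ‖(P * E - 1) + (P - 1) * (1 / (p : ℂ))‖ ≤ C * ρ ^ 4 + 2 ^ Fintype.card (Pr n) * (ρ ^ 2 * (1 / (p : ℝ))) := by
    refine (norm_add_le _ _).trans (add_le_add h1 ?_)
    rw [norm_mul, norm_div, norm_one, Complex.norm_natCast, ← mul_assoc]
    exact mul_le_mul_of_nonneg_right h2 (by positivity)
  calc ‖(P * E - 1) + (P - 1) * (1 / (p : ℂ))‖ * ‖(1 + 1 / (p : ℂ))⁻¹‖
      ≤ (C * ρ ^ 4 + 2 ^ Fintype.card (Pr n) * (ρ ^ 2 * (1 / (p : ℝ)))) * 1 :=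
        mul_le_mul h6 h3 (norm_nonneg _) (by positivity)
    _ ≤ (C * (p : ℝ) ^ (-(3 / 2) : ℝ) + 2 ^ Fintype.card (Pr n) * (p : ℝ) ^ (-(3 / 2) : ℝ)) * 1 := by gcongr
    _ = _ := by ring

lemma summ_primes (C : ℝ) : Summable fun p : Nat.Primes => C * ((p : ℕ) : ℝ) ^ (-(3 / 2) : ℝ) := by
  apply Summable.mul_left
  exact Nat.Primes.summable_rpow.2 (by norm_num)

lemma Ak_mul {n : ℕ} {w : Fin n → ℂ} (hw : ∀ j, -1 / 16 ≤ (w j).re) :
    Multipliable fun p : Nat.Primes => loc w p := by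
  obtain ⟨C, hC0, hC⟩ := loc_bd n
  have h := multipliable_one_add_of_summable (f := fun p : Nat.Primes => loc w p - 1)
    ((summ_primes C).of_nonneg_of_le (fun _ => norm_nonneg _) (fun p => hC w p p.2 hw))
  simpa using h

lemma Ak_bd (n : ℕ) : ∃ C : ℝ, 0 < C ∧ ∀ w : Fin n → ℂ, (∀ j, -1 / 16 ≤ (w j).re) → ‖Ak w‖ ≤ C := by
  obtain ⟨C, hC0, hC⟩ := loc_bd n
  refine ⟨Real.exp (∑' p : Nat.Primes, C * ((p : ℕ) : ℝ) ^ (-(3 / 2) : ℝ)), Real.exp_pos _, fun w hw => ?_⟩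
  have hS := summ_primes C
  unfold Ak
  have h1 := (Ak_mul hw).hasProd
  refine le_of_tendsto h1.norm (Filter.Eventually.of_forall fun s => ?_)
  calc ∏ p ∈ s, ‖loc w p‖ ≤ ∏ p ∈ s, Real.exp (C * ((p : ℕ) : ℝ) ^ (-(3 / 2) : ℝ)) := by
        refine Finset.prod_le_prod (fun _ _ => norm_nonneg _) fun p _ => ?_
        have h2 := hC w p p.2 hw
        have h3 : ‖loc w p‖ ≤ ‖loc w p - 1‖ + 1 := by
          calc ‖loc w p‖ = ‖(loc w p - 1) + 1‖ := by rw [sub_add_cancel]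
            _ ≤ ‖loc w p - 1‖ + ‖(1 : ℂ)‖ := norm_add_le _ _
            _ = _ := by rw [norm_one]
        linarith [Real.add_one_le_exp (C * ((p : ℕ) : ℝ) ^ (-(3 / 2) : ℝ))]
    _ = Real.exp (∑ p ∈ s, C * ((p : ℕ) : ℝ) ^ (-(3 / 2) : ℝ)) := (Real.exp_sum _ _).symm
    _ ≤ _ := Real.exp_le_exp.2 (hS.sum_le_tsum s fun _ _ => by positivity)

lemma cn_re {k : ℕ} {z : ℂ} (hz : -1 / 16 ≤ z.re) (β : Fin k → ℝ) (j : Fin (k + 1)) : -1 / 16 ≤ (cn z β j).re := by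
  refine Fin.cases ?_ (fun i => ?_) j
  · exact hz
  · rw [cn_succ]
    simp [im]
    norm_num

lemma xw_ne {n : ℕ} {w : Fin n → ℂ} {p : ℕ} (hp : p.Prime) (hw : ∀ j, -1 / 16 ≤ (w j).re) (j : Fin n) :
    1 - xw w p j ≠ 0 ∧ 1 + xw w p j ≠ 0 := by
  have h := (xw_norm hp hw j).trans_lt (rho_lt hp)
  constructor
  · intro h1
    have : xw w p j = 1 := (sub_eq_zero.1 h1).symm
    rw [this, norm_one] at h
    exact lt_irrefl _ h
  · intro h1
    have : xw w p j = -1 := by linear_combination h1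
    rw [this, norm_neg, norm_one] at h
    exact lt_irrefl _ h

lemma loc_cont (k : ℕ) {p : ℕ} (hp : p.Prime) :
    ContinuousOn (fun x : ℂ × (Fin k → ℝ) => loc (cn x.1 x.2) p) {x | -1 / 16 < x.1.re} := by
  have hpc : (p : ℂ) ≠ 0 := by exact_mod_cast hp.pos.ne'
  have hcn : ∀ j : Fin (k + 1), Continuous fun x : ℂ × (Fin k → ℝ) => cn x.1 x.2 j := by
    intro j
    refine Fin.cases ?_ (fun i => ?_) j
    · exact continuous_fst
    · simp only [cn_succ, im]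
      fun_prop
  have hxw : ∀ j : Fin (k + 1), Continuous fun x : ℂ × (Fin k → ℝ) => xw (cn x.1 x.2) p j := by
    intro j
    unfold xw
    exact Continuous.const_cpow (by have := hcn j; fun_prop) (Or.inl hpc)
  have e : ∀ x : ℂ × (Fin k → ℝ), loc (cn x.1 x.2) p = Px (xw (cn x.1 x.2) p) *
    (1 / 2 * (Fm (xw (cn x.1 x.2) p) + Fq (xw (cn x.1 x.2) p)) + 1 / (p : ℂ)) * (1 + 1 / (p : ℂ))⁻¹ :=
    fun x => loc_eq _ hp.pos
  simp only [e]
  unfold Px Fm Fq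
  have hne := fun (x : ℂ × (Fin k → ℝ)) (hx : x ∈ {x : ℂ × (Fin k → ℝ) | -1 / 16 < x.1.re}) j =>
    xw_ne (w := cn x.1 x.2) hp (fun j => cn_re (le_of_lt hx) x.2 j) j
  refine ContinuousOn.mul (ContinuousOn.mul ?_ (ContinuousOn.add (ContinuousOn.mul continuousOn_const
    (ContinuousOn.add ?_ ?_)) continuousOn_const)) continuousOn_const
  · refine continuousOn_finsetProd _ fun r _ => Continuous.continuousOn ?_
    exact continuous_const.sub ((hxw _).mul (hxw _))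
  · refine continuousOn_finsetProd _ fun j _ => ContinuousOn.inv₀ ?_ fun x hx => (hne x hx j).1
    exact (continuous_const.sub (hxw j)).continuousOn
  · refine continuousOn_finsetProd _ fun j _ => ContinuousOn.inv₀ ?_ fun x hx => (hne x hx j).2
    exact (continuous_const.add (hxw j)).continuousOn

lemma loc_diff {k : ℕ} (β : Fin k → ℝ) {p : ℕ} (hp : p.Prime) :
    DifferentiableOn ℂ (fun z : ℂ => loc (cn z β) p) {z | -1 / 16 < z.re} := by
  have hpc : (p : ℂ) ≠ 0 := by exact_mod_cast hp.pos.ne'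
  have hcn : ∀ j : Fin (k + 1), Differentiable ℂ fun z : ℂ => cn z β j := by
    intro j
    refine Fin.cases ?_ (fun i => ?_) j
    · exact differentiable_id
    · simp only [cn_succ]
      fun_prop
  have hxw : ∀ j : Fin (k + 1), Differentiable ℂ fun z : ℂ => xw (cn z β) p j := by
    intro j
    unfold xw
    intro z
    exact DifferentiableAt.const_cpow (by have := hcn j; fun_prop) (Or.inl hpc)
  have e : ∀ z : ℂ, loc (cn z β) p = Px (xw (cn z β) p) *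
    (1 / 2 * (Fm (xw (cn z β) p) + Fq (xw (cn z β) p)) + 1 / (p : ℂ)) * (1 + 1 / (p : ℂ))⁻¹ :=
    fun x => loc_eq _ hp.pos
  simp only [e]
  unfold Px Fm Fq
  have hne := fun (z : ℂ) (hx : z ∈ {z : ℂ | -1 / 16 < z.re}) j =>
    xw_ne (w := cn z β) hp (fun j => cn_re (le_of_lt hx) β j) j
  refine DifferentiableOn.mul (DifferentiableOn.mul ?_ (DifferentiableOn.add (DifferentiableOn.mul
    (differentiableOn_const _) (DifferentiableOn.add ?_ ?_)) (differentiableOn_const _))) (differentiableOn_const _)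
  · refine DifferentiableOn.fun_finsetProd fun r _ => Differentiable.differentiableOn ?_
    exact (differentiable_const _).sub ((hxw _).mul (hxw _))
  · refine DifferentiableOn.fun_finsetProd fun j _ => DifferentiableOn.inv ?_ fun x hx => (hne x hx j).1
    exact ((differentiable_const _).sub (hxw j)).differentiableOn
  · refine DifferentiableOn.fun_finsetProd fun j _ => DifferentiableOn.inv ?_ fun x hx => (hne x hx j).2
    exact ((differentiable_const _).add (hxw j)).differentiableOn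

lemma Ak_cont (k : ℕ) :
    ContinuousOn (fun x : ℂ × (Fin k → ℝ) => Ak (cn x.1 x.2)) {x | -1 / 16 < x.1.re} := by
  obtain ⟨C, hC0, hC⟩ := loc_bd (k + 1)
  have hopen : IsOpen {x : ℂ × (Fin k → ℝ) | -1 / 16 < x.1.re} :=
    isOpen_lt continuous_const (Complex.continuous_re.comp continuous_fst)
  have h := Summable.hasProdLocallyUniformlyOn_one_add (ι := Nat.Primes)
    (f := fun p (x : ℂ × (Fin k → ℝ)) => loc (cn x.1 x.2) p - 1) hopen (summ_primes C)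
    (Filter.Eventually.of_forall fun p x hx => hC _ p p.2 (fun j => cn_re (le_of_lt hx) x.2 j))
    (fun p => (loc_cont k p.2).sub continuousOn_const)
  have h2 := h.continuousOn (Filter.Frequently.of_forall fun s => by
    simp only [add_sub_cancel]
    exact continuousOn_finsetProd _ fun p _ => loc_cont k p.2)
  refine h2.congr fun x _ => ?_
  simp only [add_sub_cancel]
  rfl

lemma Ak_diff {k : ℕ} (β : Fin k → ℝ) : DifferentiableOn ℂ (fun z => Ak (cn z β)) {z | -1 / 16 < z.re} := by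
  obtain ⟨C, hC0, hC⟩ := loc_bd (k + 1)
  have hopen : IsOpen {z : ℂ | -1 / 16 < z.re} := isOpen_lt continuous_const Complex.continuous_re
  have h := Summable.hasProdLocallyUniformlyOn_one_add (ι := Nat.Primes)
    (f := fun p (z : ℂ) => loc (cn z β) p - 1) hopen (summ_primes C)
    (Filter.Eventually.of_forall fun p x hx => hC _ p p.2 (fun j => cn_re (le_of_lt hx) β j))
    (fun p => ((loc_diff β p.2).continuousOn).sub continuousOn_const)
  have h2 := h.differentiableOn (Filter.Eventually.of_forall fun s => by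
    simp only [add_sub_cancel]
    exact DifferentiableOn.fun_finsetProd fun p _ => loc_diff β p.2) hopen
  refine h2.congr fun x _ => ?_
  simp only [add_sub_cancel]
  rfl

/-! ### The identity on `Re z > 0` -/

/-- the single additional factor -/
def u1 (z : ℂ) : Fin 1 → ℂ := fun _ => 1 / 2 + z

/-- no inverse factors -/
def v0 : Fin 0 → ℂ := fun i => i.elim0

lemma locW_eq {k : ℕ} (z : ℂ) (β : Fin k → ℝ) (p : ℕ) :
    loc (cn z β) p = RW.locW (im β) (u1 z) v0 p *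
      ((1 - (p : ℂ) ^ (-(1 + 2 * z))) * ∏ j, (1 - (p : ℂ) ^ (-(1 + z + im β j)))) := by
  unfold loc RW.locW u1
  rw [prod_Pr_succ (fun i j => 1 - (p : ℂ) ^ (-(1 + cn z β i + cn z β j))), Fin.prod_univ_succ, Fin.prod_univ_succ]
  simp only [cn_zero, cn_succ, Finset.univ_unique, Finset.prod_const, Finset.card_singleton, pow_one,
    Finset.univ_eq_empty, Finset.prod_empty, mul_one]
  rw [show -(1 + z + z) = -(1 + 2 * z) by ring]
  ring

lemma cpow_ne {s : ℂ} (hs : 1 < s.re) {p : ℕ} (hp : p.Prime) : 1 - (p : ℂ) ^ (-s) ≠ 0 := by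
  intro h
  have h1 : (p : ℂ) ^ (-s) = 1 := (sub_eq_zero.1 h).symm
  have h2 : ‖(p : ℂ) ^ (-s)‖ < 1 := by
    rw [Complex.norm_natCast_cpow_of_pos hp.pos]
    apply Real.rpow_lt_one_of_one_lt_of_neg (by exact_mod_cast hp.one_lt)
    rw [Complex.neg_re]
    linarith
  rw [h1, norm_one] at h2
  exact lt_irrefl _ h2

theorem MTW_eq {k : ℕ} {z : ℂ} (hz : 0 < z.re) (β : Fin k → ℝ) :
    RW.MTW (im β) (u1 z) v0 = Ak (cn z β) * riemannZeta (1 + 2 * z) * (∏ j, riemannZeta (1 + z + im β j)) *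
      ∏ r : Pr k, riemannZeta (1 + im β r.1.1 + im β r.1.2) := by
  unfold RW.MTW
  congr 1
  have h1 : 1 < (1 + 2 * z).re := by
    simp
    exact hz
  have h2 : ∀ j : Fin k, 1 < (1 + z + im β j).re := by
    intro j
    simp [im]
    exact hz
  have hA : HasProd (fun p : Nat.Primes => loc (cn z β) p) (Ak (cn z β)) :=
    (Ak_mul (fun j => cn_re (by linarith) β j)).hasProd
  have hB := (hA.mul (riemannZeta_eulerProduct_hasProd h1)).mul
    (hasProd_prod (s := (Finset.univ : Finset (Fin k))) fun j _ => riemannZeta_eulerProduct_hasProd (h2 j))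
  unfold RW.AkW
  rw [← hB.tprod_eq]
  refine tprod_congr fun p => ?_
  rw [locW_eq z β p]
  have e1 := cpow_ne h1 p.2
  have e2 : ∏ j, (1 - ((p : ℕ) : ℂ) ^ (-(1 + z + im β j))) ≠ 0 :=
    Finset.prod_ne_zero_iff.2 fun j _ => cpow_ne (h2 j) p.2
  rw [Finset.prod_inv_distrib]
  field_simp

end

end Pool.Agent.V8H6.CB
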