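import Pool.Agent.E8helper52.OR.Contour

set_option autoImplicit false

/-!
Line integrals with the kernel `exp (z ^ 2)`: shifting over simple poles.
-/

namespace Pool.Agent.V8H6.CB

open Complex Filter Topology MeasureTheory Set
open Pool.Agent.E8helper52.OR

noncomputable section

/-- moderate growth on a strip -/
def Gr (F : ℂ → ℂ) (a b : ℝ) : Prop :=
  ∃ (C : ℝ) (K : ℕ), 0 ≤ C ∧ ∀ z : ℂ, a ≤ z.re → z.re ≤ b → ‖F z‖ ≤ C * (1 + |z.im|) ^ K

lemma Gr.mono {F : ℂ → ℂ} {a b a' b' : ℝ} (h : Gr F a b) (ha : a ≤ a') (hb : b' ≤ b) : Gr F a' b' := by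
  obtain ⟨C, K, hC, h⟩ := h
  exact ⟨C, K, hC, fun z h1 h2 => h z (ha.trans h1) (h2.trans hb)⟩

lemma Gr.mul {F G : ℂ → ℂ} {a b : ℝ} (hF : Gr F a b) (hG : Gr G a b) : Gr (fun z => F z * G z) a b := by
  obtain ⟨C, K, hC, h⟩ := hF
  obtain ⟨C', K', hC', h'⟩ := hG
  refine ⟨C * C', K + K', mul_nonneg hC hC', fun z h1 h2 => ?_⟩
  rw [norm_mul]
  calc ‖F z‖ * ‖G z‖ ≤ (C * (1 + |z.im|) ^ K) * (C' * (1 + |z.im|) ^ K') :=
        mul_le_mul (h z h1 h2) (h' z h1 h2) (norm_nonneg _) (by positivity)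
    _ = _ := by ring

lemma Gr.add {F G : ℂ → ℂ} {a b : ℝ} (hF : Gr F a b) (hG : Gr G a b) : Gr (fun z => F z + G z) a b := by
  obtain ⟨C, K, hC, h⟩ := hF
  obtain ⟨C', K', hC', h'⟩ := hG
  refine ⟨C + C', K + K', by positivity, fun z h1 h2 => (norm_add_le _ _).trans ?_⟩
  have h0 : 1 ≤ 1 + |z.im| := by linarith [abs_nonneg z.im]
  have e1 : (1 + |z.im|) ^ K ≤ (1 + |z.im|) ^ (K + K') := pow_le_pow_right₀ h0 (by omega)
  have e2 : (1 + |z.im|) ^ K' ≤ (1 + |z.im|) ^ (K + K') := pow_le_pow_right₀ h0 (by omega)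
  calc ‖F z‖ + ‖G z‖ ≤ C * (1 + |z.im|) ^ K + C' * (1 + |z.im|) ^ K' := add_le_add (h z h1 h2) (h' z h1 h2)
    _ ≤ C * (1 + |z.im|) ^ (K + K') + C' * (1 + |z.im|) ^ (K + K') := by gcongr
    _ = _ := by ring

lemma Gr.of_bd {F : ℂ → ℂ} {a b C : ℝ} (hC : 0 ≤ C) (h : ∀ z : ℂ, a ≤ z.re → z.re ≤ b → ‖F z‖ ≤ C) :
    Gr F a b := ⟨C, 0, hC, fun z h1 h2 => by simpa using h z h1 h2⟩

lemma Gr.const (c : ℂ) (a b : ℝ) : Gr (fun _ => c) a b := Gr.of_bd (norm_nonneg c) fun _ _ _ => le_rfl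

lemma Gr.comp_add {F : ℂ → ℂ} {a b : ℝ} (w : ℂ) (h : Gr F (a + w.re) (b + w.re)) :
    Gr (fun z => F (z + w)) a b := by
  obtain ⟨C, K, hC, h⟩ := h
  refine ⟨C * (1 + |w.im|) ^ K, K, by positivity, fun z h1 h2 => ?_⟩
  refine (h (z + w) (by rw [add_re]; linarith) (by rw [add_re]; linarith)).trans ?_
  rw [mul_assoc, ← mul_pow]
  refine mul_le_mul_of_nonneg_left (pow_le_pow_left₀ (by positivity) ?_ _) hC
  rw [add_im]
  have := abs_add_le z.im w.im
  nlinarith [abs_nonneg z.im, abs_nonneg w.im, mul_nonneg (abs_nonneg w.im) (abs_nonneg z.im)]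

lemma norm_kern (z : ℂ) : ‖cexp (z ^ 2)‖ = Real.exp (z.re ^ 2 - z.im ^ 2) := by
  rw [Complex.norm_exp]
  congr 1
  rw [sq, mul_re]
  ring

lemma pow_gauss (K : ℕ) : ∃ C : ℝ, 0 < C ∧ ∀ y : ℝ, (1 + |y|) ^ K * Real.exp (-(y ^ 2)) ≤ C * (1 + y ^ 2)⁻¹ := by
  -- (1+|y|)^K (1+y^2) e^{-y^2} is bounded
  refine ⟨2 ^ K * ((K + 1).factorial * 4 + 4 + (K + 3).factorial * 4) , by positivity, fun y => ?_⟩
  rw [← div_eq_mul_inv, le_div_iff₀ (by positivity)]
  have hE : 0 < Real.exp (-(y ^ 2)) := Real.exp_pos _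
  rcases le_total |y| 1 with h | h
  · have h1 : (1 + |y|) ^ K ≤ 2 ^ K := pow_le_pow_left₀ (by positivity) (by linarith) _
    have h2 : Real.exp (-(y ^ 2)) ≤ 1 := Real.exp_le_one_iff.2 (by nlinarith [sq_nonneg y])
    have h3 : 1 + y ^ 2 ≤ 2 := by
      rw [← sq_abs]
      nlinarith [abs_nonneg y]
    calc (1 + |y|) ^ K * Real.exp (-(y ^ 2)) * (1 + y ^ 2) ≤ 2 ^ K * 1 * 2 := by gcongr
      _ ≤ _ := by
        have : (0 : ℝ) < 2 ^ K := by positivity
        have h4 : (0 : ℝ) ≤ ((K + 1).factorial : ℝ) := by positivity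
        have h5 : (0 : ℝ) ≤ ((K + 3).factorial : ℝ) := by positivity
        nlinarith
  · have h0 : 0 < |y| := by linarith
    have h1 : (1 + |y|) ^ K ≤ 2 ^ K * |y| ^ K := by
      rw [← mul_pow]
      exact pow_le_pow_left₀ (by positivity) (by linarith) _
    have h3 : 1 + y ^ 2 ≤ 2 * |y| ^ 2 := by
      rw [← sq_abs]
      nlinarith
    -- y^2 >= |y|, exp(-y^2) <= exp(-|y|)
    have h4 : Real.exp (-(y ^ 2)) ≤ Real.exp (-|y|) := by
      apply Real.exp_le_exp.2
      rw [← sq_abs]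
      nlinarith
    have h5 : |y| ^ (K + 2) / ((K + 2).factorial : ℝ) ≤ Real.exp |y| := Real.pow_div_factorial_le_exp _ h0.le _
    have h6 : |y| ^ (K + 2) * Real.exp (-|y|) ≤ (K + 2).factorial := by
      rw [Real.exp_neg, ← div_eq_mul_inv, div_le_iff₀ (Real.exp_pos _)]
      rw [div_le_iff₀ (by positivity)] at h5
      linarith
    have h7 : ((K + 2).factorial : ℝ) ≤ (K + 3).factorial := by
      exact_mod_cast Nat.factorial_le (by omega)
    calc (1 + |y|) ^ K * Real.exp (-(y ^ 2)) * (1 + y ^ 2)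
        ≤ (2 ^ K * |y| ^ K) * Real.exp (-|y|) * (2 * |y| ^ 2) := by gcongr
      _ = 2 ^ K * 2 * (|y| ^ (K + 2) * Real.exp (-|y|)) := by ring
      _ ≤ 2 ^ K * 2 * (K + 3).factorial := by
          refine mul_le_mul_of_nonneg_left (h6.trans h7) (by positivity)
      _ ≤ _ := by
        have : (0 : ℝ) < 2 ^ K := by positivity
        have h4 : (0 : ℝ) ≤ ((K + 1).factorial : ℝ) := by positivity
        have h5 : (0 : ℝ) ≤ ((K + 3).factorial : ℝ) := by positivity
        nlinarith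

/-- functions of moderate growth times the kernel -/
lemma Gr.kern {F : ℂ → ℂ} {a b : ℝ} (h : Gr F a b) : ∃ C : ℝ, 0 ≤ C ∧ ∀ z : ℂ, a ≤ z.re → z.re ≤ b →
    ‖cexp (z ^ 2) * F z‖ ≤ C * (1 + z.im ^ 2)⁻¹ := by
  obtain ⟨C, K, hC, h⟩ := h
  obtain ⟨C', hC', h'⟩ := pow_gauss K
  refine ⟨Real.exp (a ^ 2 + b ^ 2) * (C * C'), by positivity, fun z h1 h2 => ?_⟩
  rw [norm_mul, norm_kern, sub_eq_add_neg, Real.exp_add]
  have e1 : Real.exp (z.re ^ 2) ≤ Real.exp (a ^ 2 + b ^ 2) := by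
    apply Real.exp_le_exp.2
    rcases le_total 0 z.re with h3 | h3 <;> nlinarith [sq_nonneg a, sq_nonneg b]
  calc Real.exp (z.re ^ 2) * Real.exp (-(z.im ^ 2)) * ‖F z‖
      ≤ Real.exp (a ^ 2 + b ^ 2) * Real.exp (-(z.im ^ 2)) * (C * (1 + |z.im|) ^ K) := by
        gcongr
        exact h z h1 h2
    _ = Real.exp (a ^ 2 + b ^ 2) * (C * ((1 + |z.im|) ^ K * Real.exp (-(z.im ^ 2)))) := by ring
    _ ≤ Real.exp (a ^ 2 + b ^ 2) * (C * (C' * (1 + z.im ^ 2)⁻¹)) :=
        mul_le_mul_of_nonneg_left (mul_le_mul_of_nonneg_left (h' z.im) hC) (Real.exp_pos _).le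
    _ = _ := by ring

/-- the basic integral -/
lemma kap {x : ℝ} (hx : 0 < x) : ∫ y : ℝ, cexp ((x + y * I) ^ 2) / (x + y * I) = Real.pi := by
  have h1 : ∀ y : ℝ, cexp ((x + y * I) ^ 2) / (x + y * I) =
      ∫ t in Ioi (0 : ℝ), cexp ((x + y * I) ^ 2) * cexp (-((x + y * I) * t)) := by
    intro y
    rw [integral_const_mul]
    have h2 := integral_exp_mul_complex_Ioi (a := -(x + y * I)) (by simp [hx]) 0
    have h3 : ∫ t in Ioi (0 : ℝ), cexp (-((x + y * I) * t)) = 1 / (x + y * I) := by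
      have e : (fun t : ℝ => cexp (-((x + y * I) * t))) = fun t : ℝ => cexp (-(x + y * I) * t) := by
        funext t
        congr 1
        ring
      rw [e, h2]
      rw [ofReal_zero, mul_zero, Complex.exp_zero, neg_div_neg_eq]
    rw [h3]
    ring
  simp_rw [h1]
  rw [integral_integral_swap]
  · have h4 : ∀ t : ℝ, ∫ y : ℝ, cexp ((x + y * I) ^ 2) * cexp (-((x + y * I) * t)) =
        ((√Real.pi * Real.exp (-(1 / 4) * t ^ 2) : ℝ) : ℂ) := by
      intro t
      have h5 := GaussianFourier.integral_cexp_neg_mul_sq_add_real_mul_I (b := 1) (by simp) (-(x - t / 2))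
      have h6 : ∀ y : ℝ, cexp ((x + y * I) ^ 2) * cexp (-((x + y * I) * t)) =
          cexp (-(t ^ 2 / 4 : ℝ)) * cexp (-1 * (y + (-(x - t / 2) : ℝ) * I) ^ 2) := by
        intro y
        rw [← Complex.exp_add, ← Complex.exp_add]
        congr 1
        push_cast
        have hI : (I : ℂ) ^ 2 = -1 := I_sq
        linear_combination ((y : ℂ) ^ 2 + ((x : ℂ) - t / 2) ^ 2) * hI
      simp_rw [h6]
      rw [integral_const_mul, h5]
      push_cast
      have h7 : ((Real.pi : ℂ) / 1) ^ (1 / 2 : ℂ) = ((√Real.pi : ℝ) : ℂ) := by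
        rw [div_one, Real.sqrt_eq_rpow, Complex.ofReal_cpow Real.pi_pos.le]
        norm_num
      rw [h7, mul_comm]
      congr 2
      ring_nf
    simp_rw [h4]
    rw [integral_complex_ofReal]
    congr 1
    rw [integral_const_mul, integral_gaussian_Ioi]
    have h8 : √(Real.pi / (1 / 4)) = 2 * √Real.pi := by
      rw [show Real.pi / (1 / 4) = 2 ^ 2 * Real.pi by ring, Real.sqrt_mul (by norm_num),
        Real.sqrt_sq (by norm_num)]
    rw [h8]
    have := Real.mul_self_sqrt Real.pi_pos.le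
    linarith
  · -- integrability
    have hg1 : Integrable (fun y : ℝ => Real.exp (x ^ 2) * Real.exp (-1 * y ^ 2)) :=
      (integrable_exp_neg_mul_sq one_pos).const_mul _
    have hg2 : Integrable (fun t : ℝ => Real.exp (-x * t)) (volume.restrict (Ioi 0)) :=
      (integrableOn_exp_mul_Ioi (by linarith) 0)
    have hg := hg1.mul_prod hg2
    refine hg.mono' ?_ ?_
    · apply Continuous.aestronglyMeasurable
      unfold Function.uncurry
      fun_prop
    · filter_upwards with ⟨y, t⟩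
      simp only [Function.uncurry]
      rw [norm_mul, norm_kern, Complex.norm_exp]
      simp only [add_re, ofReal_re, mul_re, I_re, mul_zero, ofReal_im, I_im, mul_one, sub_self, add_zero,
        add_im, mul_im, zero_add, neg_re, sub_zero, zero_mul]
      rw [← Real.exp_add, ← Real.exp_add, ← Real.exp_add]
      apply Real.exp_le_exp.2
      linarith

lemma kap' {x : ℝ} (hx : x < 0) : ∫ y : ℝ, cexp ((x + y * I) ^ 2) / (x + y * I) = -Real.pi := by
  have h := kap (x := -x) (by linarith)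
  have h1 : ∫ y : ℝ, cexp ((x + y * I) ^ 2) / (x + y * I) =
      ∫ y : ℝ, -(cexp ((((-x : ℝ) : ℂ) + y * I) ^ 2) / (((-x : ℝ) : ℂ) + y * I)) := by
    rw [← integral_neg_eq_self]
    refine integral_congr_ae (Eventually.of_forall fun y => ?_)
    show cexp ((x + (-y : ℝ) * I) ^ 2) / (x + (-y : ℝ) * I) = _
    have e1 : (x + (-y : ℝ) * I : ℂ) = -(((-x : ℝ) : ℂ) + y * I) := by push_cast; ring
    rw [e1, neg_sq, div_neg]
  rw [h1, integral_neg, h]

/-- the same through a point -/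
lemma kapp {x : ℝ} (p : ℂ) (hx : p.re < x) :
    ∫ y : ℝ, cexp ((x + y * I - p) ^ 2) / (x + y * I - p) = Real.pi := by
  rw [← kap (x := x - p.re) (by linarith), ← integral_add_right_eq_self _ p.im]
  refine integral_congr_ae (Eventually.of_forall fun y => ?_)
  have e : (x + ((y + p.im : ℝ) : ℂ) * I - p : ℂ) = (((x - p.re : ℝ) : ℂ) + y * I) := by
    apply Complex.ext <;> simp
  simp only [e]

lemma kapm {x : ℝ} (p : ℂ) (hx : x < p.re) :
    ∫ y : ℝ, cexp ((x + y * I - p) ^ 2) / (x + y * I - p) = -Real.pi := by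
  rw [← kap' (x := x - p.re) (by linarith), ← integral_add_right_eq_self _ p.im]
  refine integral_congr_ae (Eventually.of_forall fun y => ?_)
  have e : (x + ((y + p.im : ℝ) : ℂ) * I - p : ℂ) = (((x - p.re : ℝ) : ℂ) + y * I) := by
    apply Complex.ext <;> simp
  simp only [e]

lemma Gr.shift {F : ℂ → ℂ} {a b : ℝ} (h : Gr F a b) (p : ℂ) : ∃ C : ℝ, 0 ≤ C ∧ ∀ z : ℂ, a ≤ z.re → z.re ≤ b →
    ‖cexp ((z - p) ^ 2) * F z‖ ≤ C * (1 + (z.im - p.im) ^ 2)⁻¹ := by
  have h1 : Gr (fun z => F (z + p)) (a - p.re) (b - p.re) := by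
    apply Gr.comp_add
    simpa using h
  obtain ⟨C, hC, h2⟩ := h1.kern
  refine ⟨C, hC, fun z h3 h4 => ?_⟩
  have := h2 (z - p) (by rw [sub_re]; linarith) (by rw [sub_re]; linarith)
  simpa using this

/-- integrability on a line -/
lemma line_int {F : ℂ → ℂ} {a b x : ℝ} (p : ℂ) (h : Gr F a b) (hax : a ≤ x) (hxb : x ≤ b) (hpx : x ≠ p.re)
    (hd : ∀ z : ℂ, z.re = x → DifferentiableAt ℂ F z) :
    Integrable fun y : ℝ => cexp ((x + y * I - p) ^ 2) * F (x + y * I) / (x + y * I - p) := by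
  have hne : ∀ y : ℝ, (x + y * I - p : ℂ) ≠ 0 := by
    intro y hy
    have := congrArg Complex.re hy
    simp at this
    exact hpx (by linarith)
  have hc : Continuous fun y : ℝ => cexp ((x + y * I - p) ^ 2) * F (x + y * I) / (x + y * I - p) := by
    refine Continuous.div ?_ (by fun_prop) hne
    exact Continuous.mul (by fun_prop) (cont_line hd)
  obtain ⟨C, hC, h1⟩ := h.shift p
  obtain ⟨C', -, h2⟩ := global_bd (g := fun y : ℝ => cexp ((x + y * I - p) ^ 2) * F (x + y * I) / (x + y * I - p))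
    hc (C := 4 * C) (T := 1 + 2 * |p.im|) (by positivity) (by linarith [abs_nonneg p.im]) (fun y hy => by
      have h3 := h1 (x + y * I) (by simpa using hax) (by simpa using hxb)
      rw [norm_div]
      have h4 : 1 ≤ |y| := by linarith [abs_nonneg p.im]
      have h5 : |y| / 2 ≤ |y - p.im| - 1 / 2 := by
        have := abs_sub_abs_le_abs_sub y p.im
        linarith
      have h6 : 1 ≤ |y - p.im| := by linarith
      have h7 : 1 ≤ ‖(x + y * I - p : ℂ)‖ := by
        refine h6.trans ?_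
        have := abs_im_le_norm (x + y * I - p : ℂ)
        simpa using this
      have h8 : y ^ 2 / 4 ≤ 1 + (y - p.im) ^ 2 := by
        rw [← sq_abs y, ← sq_abs (y - p.im)]
        nlinarith
      calc ‖cexp ((x + y * I - p) ^ 2) * F (x + y * I)‖ / ‖(x + y * I - p : ℂ)‖
          ≤ ‖cexp ((x + y * I - p) ^ 2) * F (x + y * I)‖ := div_le_self (norm_nonneg _) h7
        _ ≤ C * (1 + (y - p.im) ^ 2)⁻¹ := by simpa using h3
        _ ≤ C * (y ^ 2 / 4)⁻¹ := by
            apply mul_le_mul_of_nonneg_left _ hC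
            apply inv_anti₀ _ h8
            have : y ≠ 0 := by
              rintro rfl
              norm_num at h4
            positivity
        _ = 4 * C / y ^ 2 := by
            rw [inv_div]; ring)
  exact integrable_of_bd hc h2

/-- Cauchy formula between two vertical lines with the kernel -/
theorem pole_shift {F : ℂ → ℂ} {a b : ℝ} (p : ℂ) (hap : a < p.re) (hpb : p.re < b)
    (hd : ∀ z : ℂ, a ≤ z.re → z.re ≤ b → DifferentiableAt ℂ F z) (h : Gr F a b) :
    (∫ y : ℝ, cexp ((b + y * I - p) ^ 2) * F (b + y * I) / (b + y * I - p)) -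
      ∫ y : ℝ, cexp ((a + y * I - p) ^ 2) * F (a + y * I) / (a + y * I - p) = 2 * Real.pi * F p := by
  have hab : a ≤ b := (hap.trans hpb).le
  have hFp : Gr (fun _ => F p) a b := Gr.const _ _ _
  have hsub : Gr (fun z => F z + (-1) * F p) a b := h.add ((Gr.const (-1) a b).mul hFp)
  obtain ⟨C, hC, hC1⟩ := hsub.shift p
  have hd2 : ∀ z : ℂ, a ≤ z.re → z.re ≤ b → DifferentiableAt ℂ (fun z => cexp ((z - p) ^ 2) * dslope F p z) z := by
    intro z h1 h2
    refine DifferentiableAt.mul (by fun_prop) ?_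
    by_cases hz : z = p
    · subst hz
      have hopen : IsOpen {w : ℂ | a < w.re ∧ w.re < b} :=
        (isOpen_lt continuous_const continuous_re).inter (isOpen_lt continuous_re continuous_const)
      have hmem : {w : ℂ | a < w.re ∧ w.re < b} ∈ 𝓝 z := hopen.mem_nhds ⟨hap, hpb⟩
      have h3 : DifferentiableOn ℂ F {w : ℂ | a < w.re ∧ w.re < b} := fun w hw =>
        (hd w hw.1.le hw.2.le).differentiableWithinAt
      exact ((Complex.differentiableOn_dslope hmem).2 h3).differentiableAt hmem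
    · exact (differentiableAt_dslope_of_ne hz).2 (hd z h1 h2)
  have hs := strip_shift (f := fun z => cexp ((z - p) ^ 2) * dslope F p z) (a := a) (b := b) hab hd2
    (C := 4 * C) (T := 1 + 2 * |p.im|) (by positivity) (by linarith [abs_nonneg p.im]) (fun z h1 h2 h3 => by
      have h4 : 1 ≤ |z.im| := by linarith [abs_nonneg p.im]
      have h5 : |z.im| / 2 ≤ |z.im - p.im| - 1 / 2 := by
        have := abs_sub_abs_le_abs_sub z.im p.im
        linarith
      have h6 : 1 ≤ |z.im - p.im| := by linarith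
      have h7 : 1 ≤ ‖z - p‖ := by
        refine h6.trans ?_
        have := abs_im_le_norm (z - p)
        simpa using this
      have hzp : z ≠ p := by
        rintro rfl
        simp at h7
        linarith
      have h8 : z.im ^ 2 / 4 ≤ 1 + (z.im - p.im) ^ 2 := by
        rw [← sq_abs z.im, ← sq_abs (z.im - p.im)]
        nlinarith
      have h9 := hC1 z h1 h2
      have e1 : cexp ((z - p) ^ 2) * dslope F p z = cexp ((z - p) ^ 2) * (F z + (-1) * F p) / (z - p) := by
        rw [dslope_of_ne _ hzp, slope_def_field]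
        ring
      rw [e1, norm_div]
      calc ‖cexp ((z - p) ^ 2) * (F z + (-1) * F p)‖ / ‖z - p‖
          ≤ ‖cexp ((z - p) ^ 2) * (F z + (-1) * F p)‖ := div_le_self (norm_nonneg _) h7
        _ ≤ C * (1 + (z.im - p.im) ^ 2)⁻¹ := h9
        _ ≤ C * (z.im ^ 2 / 4)⁻¹ := by
            apply mul_le_mul_of_nonneg_left _ hC
            apply inv_anti₀ _ h8
            have : z.im ≠ 0 := by
              intro h0
              rw [h0] at h4
              norm_num at h4
            positivity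
        _ = 4 * C / z.im ^ 2 := by
            rw [inv_div]; ring)
  have key : ∀ x : ℝ, a ≤ x → x ≤ b → x ≠ p.re →
      ∫ y : ℝ, cexp (((x : ℂ) + y * I - p) ^ 2) * dslope F p (x + y * I) =
      (∫ y : ℝ, cexp ((x + y * I - p) ^ 2) * F (x + y * I) / (x + y * I - p)) -
        F p * ∫ y : ℝ, cexp ((x + y * I - p) ^ 2) / (x + y * I - p) := by
    intro x h1 h2 h3
    have i1 := line_int p h h1 h2 h3 (fun z hz => hd z (by rw [hz]; exact h1) (by rw [hz]; exact h2))
    have i2 := line_int p hFp h1 h2 h3 (fun z hz => differentiableAt_const _)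
    rw [← integral_const_mul]
    have e2 : ∀ y : ℝ, F p * (cexp ((x + y * I - p) ^ 2) / (x + y * I - p)) =
        cexp ((x + y * I - p) ^ 2) * F p / (x + y * I - p) := fun y => by ring
    simp_rw [e2]
    rw [← integral_sub i1 i2]
    refine integral_congr_ae (Eventually.of_forall fun y => ?_)
    have hne : (x + y * I : ℂ) ≠ p := by
      intro h4
      apply h3
      rw [← h4]
      simp
    simp only
    rw [dslope_of_ne _ hne, slope_def_field]
    ring
  rw [key a le_rfl hab hap.ne, key b hab le_rfl hpb.ne', kapp p hpb, kapm p hap] at hs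
  linear_combination -hs

/-- the resulting inequality -/
theorem two_lines {F : ℂ → ℂ} {a b : ℝ} (p : ℂ) (hap : a < p.re) (hpb : p.re < b)
    (hd : ∀ z : ℂ, a ≤ z.re → z.re ≤ b → DifferentiableAt ℂ F z) (h : Gr F a b) (M1 M2 : ℝ → ℝ)
    (h1 : ∀ y : ℝ, ‖F (b + y * I)‖ ≤ M1 y) (h2 : ∀ y : ℝ, ‖F (a + y * I)‖ ≤ M2 y)
    (i1 : Integrable fun y : ℝ => Real.exp (-(y ^ 2) / 2) * M1 y)
    (i2 : Integrable fun y : ℝ => Real.exp (-(y ^ 2) / 2) * M2 y) :
    ‖F p‖ ≤ Real.exp ((b - a) ^ 2 + p.im ^ 2) * ((∫ y : ℝ, Real.exp (-(y ^ 2) / 2) * M1 y) / (b - p.re) +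
      (∫ y : ℝ, Real.exp (-(y ^ 2) / 2) * M2 y) / (p.re - a)) := by
  have key : ∀ (x : ℝ) (M : ℝ → ℝ), a ≤ x → x ≤ b → x ≠ p.re → (∀ y : ℝ, ‖F (x + y * I)‖ ≤ M y) →
      (Integrable fun y : ℝ => Real.exp (-(y ^ 2) / 2) * M y) →
      ‖∫ y : ℝ, cexp ((x + y * I - p) ^ 2) * F (x + y * I) / (x + y * I - p)‖ ≤
        Real.exp ((b - a) ^ 2 + p.im ^ 2) * ((∫ y : ℝ, Real.exp (-(y ^ 2) / 2) * M y) / |x - p.re|) := by
    intro x M h3 h4 h5 h6 i
    have h7 : 0 < |x - p.re| := abs_pos.2 (sub_ne_zero.2 h5)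
    have e : Real.exp ((b - a) ^ 2 + p.im ^ 2) * ((∫ y : ℝ, Real.exp (-(y ^ 2) / 2) * M y) / |x - p.re|) =
        ∫ y : ℝ, (Real.exp ((b - a) ^ 2 + p.im ^ 2) / |x - p.re|) * (Real.exp (-(y ^ 2) / 2) * M y) := by
      rw [integral_const_mul]
      ring
    rw [e]
    refine (norm_integral_le_integral_norm _).trans ?_
    refine integral_mono_of_nonneg (Eventually.of_forall fun y => norm_nonneg _) (i.const_mul _)
      (Eventually.of_forall fun y => ?_)
    simp only
    rw [norm_div, norm_mul, norm_kern]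
    have h8 : |x - p.re| ≤ ‖(x + y * I - p : ℂ)‖ := by
      have := abs_re_le_norm (x + y * I - p : ℂ)
      simpa using this
    have h9 : Real.exp ((x + y * I - p : ℂ).re ^ 2 - (x + y * I - p : ℂ).im ^ 2) ≤
        Real.exp ((b - a) ^ 2 + p.im ^ 2) * Real.exp (-(y ^ 2) / 2) := by
      rw [← Real.exp_add]
      apply Real.exp_le_exp.2
      simp only [sub_re, add_re, ofReal_re, mul_re, I_re, mul_zero, ofReal_im, I_im, mul_one, sub_self, add_zero,
        sub_im, add_im, mul_im, zero_add]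
      have h10 : (x - p.re) ^ 2 ≤ (b - a) ^ 2 := by
        apply sq_le_sq'
        · linarith
        · linarith
      nlinarith [sq_nonneg (y - 2 * p.im)]
    have h11 : 0 ≤ M y := (norm_nonneg _).trans (h6 y)
    calc Real.exp ((x + y * I - p : ℂ).re ^ 2 - (x + y * I - p : ℂ).im ^ 2) * ‖F (x + y * I)‖ /
          ‖(x + y * I - p : ℂ)‖
        ≤ (Real.exp ((b - a) ^ 2 + p.im ^ 2) * Real.exp (-(y ^ 2) / 2)) * M y / |x - p.re| := by
          apply div_le_div₀ (by positivity) _ h7 h8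
          exact mul_le_mul h9 (h6 y) (norm_nonneg _) (by positivity)
      _ = _ := by ring
  have hab : a ≤ b := (hap.trans hpb).le
  have k1 := key b M1 hab le_rfl hpb.ne' h1 i1
  have k2 := key a M2 le_rfl hab hap.ne h2 i2
  rw [abs_of_pos (by linarith : 0 < b - p.re)] at k1
  rw [abs_sub_comm, abs_of_pos (by linarith : 0 < p.re - a)] at k2
  have k3 := pole_shift p hap hpb hd h
  have k4 : ‖2 * (Real.pi : ℂ) * F p‖ = 2 * Real.pi * ‖F p‖ := by
    rw [norm_mul, norm_mul, Complex.norm_real, Real.norm_of_nonneg Real.pi_pos.le]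
    norm_num
  have k5 : 2 * Real.pi * ‖F p‖ ≤ Real.exp ((b - a) ^ 2 + p.im ^ 2) *
      ((∫ y : ℝ, Real.exp (-(y ^ 2) / 2) * M1 y) / (b - p.re)) +
      Real.exp ((b - a) ^ 2 + p.im ^ 2) * ((∫ y : ℝ, Real.exp (-(y ^ 2) / 2) * M2 y) / (p.re - a)) := by
    rw [← k4, ← k3]
    exact (norm_sub_le _ _).trans (add_le_add k1 k2)
  have k6 : 1 ≤ 2 * Real.pi := by linarith [Real.pi_gt_three]
  calc ‖F p‖ ≤ 2 * Real.pi * ‖F p‖ := le_mul_of_one_le_left (norm_nonneg _) k6
    _ ≤ _ := by rw [mul_add]; exact k5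

end

end Pool.Agent.V8H6.CB
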