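import Pool.Agent.V8H6.CB.Tw

set_option autoImplicit false

/-! The second moment near the centre (weak upper bound). -/

namespace Pool.Agent.V8H6.CB

open Complex hiding im
open Filter Topology MeasureTheory Set
open Pool.Agent.N879.QM Pool.Agent.V8H6.RW
open scoped BigOperators

noncomputable section

lemma sm_right {ε : ℝ} (hε : 0 < ε) : ∃ C : ℝ, 0 < C ∧ ∀ (s : ℤ) (X : ℝ) (z : ℂ), s = 1 ∨ s = -1 → 1 ≤ X →
    ε / 4 ≤ z.re → z.re ≤ 1 → ∑ q ∈ Q s X, ‖LL s q (1 / 2 + z)‖ ^ 2 ≤ C * (2 + |z.im|) ^ 2 * X ^ (1 + ε / 2) := by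
  obtain ⟨C, hC, h⟩ := tail_ms (τ := ε / 2) (ε := ε / 2) (by positivity) (by positivity)
  refine ⟨2 * C + 2, by positivity, ?_⟩
  intro s X z hs hX hz hz1
  have hX0 : 0 < X := by linarith
  have k := h s X 1 z hs hX le_rfl (by simpa using hX) (by linarith) hz1
  rw [Nat.cast_one, Real.one_rpow, mul_one] at k
  have e : ∀ q, ∑ l ∈ Finset.Icc 1 1, vl s q l * (l : ℂ) ^ (-(1 / 2 + z)) = 1 := by
    intro q
    rw [Finset.Icc_self, Finset.sum_singleton, Nat.cast_one, Complex.one_cpow, mul_one, vl_one]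
  simp only [e] at k
  have h1 : ∀ q ∈ Q s X, ‖LL s q (1 / 2 + z)‖ ^ 2 ≤ 2 * ‖LL s q (1 / 2 + z) - 1‖ ^ 2 + 2 := by
    intro q _
    have h2 := norm_add_le (LL s q (1 / 2 + z) - 1) 1
    rw [sub_add_cancel, norm_one] at h2
    have h3 := pow_le_pow_left₀ (norm_nonneg _) h2 2
    nlinarith [sq_nonneg (‖LL s q (1 / 2 + z) - 1‖ - 1)]
  have h4 : 1 ≤ (2 + |z.im|) ^ 2 := one_le_pow₀ (by linarith [abs_nonneg z.im])
  have h5 : X ≤ X ^ (1 + ε / 2) := by
    calc X = X ^ (1 : ℝ) := (Real.rpow_one X).symm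
      _ ≤ _ := Real.rpow_le_rpow_of_exponent_le hX (by linarith)
  calc ∑ q ∈ Q s X, ‖LL s q (1 / 2 + z)‖ ^ 2 ≤ ∑ q ∈ Q s X, (2 * ‖LL s q (1 / 2 + z) - 1‖ ^ 2 + 2) :=
        Finset.sum_le_sum h1
    _ = 2 * ∑ q ∈ Q s X, ‖LL s q (1 / 2 + z) - 1‖ ^ 2 + (Q s X).card * 2 := by
        rw [Finset.sum_add_distrib, ← Finset.mul_sum, Finset.sum_const, nsmul_eq_mul]
    _ ≤ 2 * (C * (2 + |z.im|) ^ 2 * X ^ (1 + ε / 2)) + X * 2 := by
        have := Q_card (s := s) hX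
        gcongr
    _ ≤ 2 * (C * (2 + |z.im|) ^ 2 * X ^ (1 + ε / 2)) + ((2 + |z.im|) ^ 2 * X ^ (1 + ε / 2)) * 2 := by
        have : X ≤ (2 + |z.im|) ^ 2 * X ^ (1 + ε / 2) := h5.trans (le_mul_of_one_le_left (by positivity) h4)
        linarith
    _ = _ := by ring

theorem sm {ε : ℝ} (hε : 0 < ε) (hε1 : ε ≤ 1 / 2) : ∃ C : ℝ, 0 < C ∧ ∀ (s : ℤ) (X : ℝ) (z : ℂ),
    s = 1 ∨ s = -1 → 1 ≤ X → |z.re| ≤ ε / 8 → |z.im| ≤ 1 →
      ∑ q ∈ Q s X, ‖LL s q (1 / 2 + z)‖ ^ 2 ≤ C * X ^ (1 + ε) := by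
  obtain ⟨C1, hC1, h1⟩ := sm_right hε
  obtain ⟨C2, hC2, h2⟩ := Yf_bd
  obtain ⟨J0, hI⟩ : ∃ J0 : ℝ, J0 = ∫ y : ℝ, Real.exp (-(y ^ 2) / 2) * (2 + |y|) ^ 2 := ⟨_, rfl⟩
  have hI0 : 0 ≤ J0 := by rw [hI]; exact integral_nonneg fun y => by positivity
  obtain ⟨D, hD⟩ : ∃ D : ℝ, D = √C1 * (1 + C2) := ⟨_, rfl⟩
  have hD0 : 0 < D := by rw [hD]; positivity
  obtain ⟨B, hB⟩ : ∃ B : ℝ, B = Real.exp (2 ^ 2 + 1) * (D * J0 * (8 / ε) + D * J0 * (8 / ε)) := ⟨_, rfl⟩
  have hB0 : 0 ≤ B := by rw [hB]; positivity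
  refine ⟨B ^ 2 + 1, by positivity, ?_⟩
  intro s X p hs hX hp1 hp2
  have hX0 : 0 < X := by linarith
  have hp1' := abs_le.1 hp1
  obtain ⟨S, hS⟩ : ∃ S : ℝ, S = ∑ q ∈ Q s X, ‖LL s q (1 / 2 + p)‖ ^ 2 := ⟨_, rfl⟩
  have hS0 : 0 ≤ S := by rw [hS]; exact Finset.sum_nonneg fun _ _ => by positivity
  rw [← hS]
  obtain ⟨c, hc⟩ : ∃ c : ℕ → ℂ, c = fun q => (starRingEnd ℂ) (LL s q (1 / 2 + p)) := ⟨_, rfl⟩
  obtain ⟨F, hF⟩ : ∃ F : ℂ → ℂ, F = fun z => ∑ q ∈ Q s X, c q * LL s q (1 / 2 + z) := ⟨_, rfl⟩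
  have hFp : F p = (S : ℂ) := by
    rw [hF, hS, hc]
    simp only
    push_cast
    refine Finset.sum_congr rfl fun q _ => ?_
    rw [mul_comm, Complex.mul_conj, Complex.normSq_eq_norm_sq]
    push_cast
    rfl
  have hcs : ∀ z : ℂ, ‖F z‖ ≤ √S * √(∑ q ∈ Q s X, ‖LL s q (1 / 2 + z)‖ ^ 2) := by
    intro z
    rw [hF]
    simp only
    refine (norm_sum_le _ _).trans ?_
    simp only [norm_mul]
    refine (Real.sum_mul_le_sqrt_mul_sqrt _ _ _).trans (le_of_eq ?_)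
    congr 2
    rw [hS, hc]
    refine Finset.sum_congr rfl fun q _ => ?_
    rw [RCLike.norm_conj]
  obtain ⟨σ, hσ⟩ : ∃ σ : ℝ, σ = ε / 4 := ⟨_, rfl⟩
  have hσ0 : 0 < σ := by rw [hσ]; positivity
  have hσ8 : σ ≤ 1 / 8 := by rw [hσ]; linarith
  obtain ⟨E, hE⟩ : ∃ E : ℝ, E = √S * D * X ^ ((1 + ε) / 2) := ⟨_, rfl⟩
  have hE0 : 0 ≤ E := by rw [hE]; positivity
  have q1 : ∀ y : ℝ, ‖F (σ + y * I)‖ ≤ E * (2 + |y|) ^ 2 := by
    intro y
    have hy : 1 ≤ 2 + |y| := by linarith [abs_nonneg y]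
    have hre : ((σ : ℂ) + y * I).re = σ := by simp
    have him : ((σ : ℂ) + y * I).im = y := by simp
    have k := h1 s X (σ + y * I) hs hX (by rw [hre, hσ]) (by rw [hre]; linarith)
    rw [him] at k
    refine (hcs _).trans ?_
    have k2 : √(∑ q ∈ Q s X, ‖LL s q (1 / 2 + (σ + y * I))‖ ^ 2) ≤ D * X ^ ((1 + ε) / 2) * (2 + |y|) ^ 2 := by
      rw [Real.sqrt_le_left (by positivity)]
      refine k.trans ?_
      calc C1 * (2 + |y|) ^ 2 * X ^ (1 + ε / 2) ≤ D ^ 2 * (2 + |y|) ^ 4 * X ^ (1 + ε) := by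
            apply mul_le_mul
            · apply mul_le_mul
              · rw [hD, mul_pow, Real.sq_sqrt hC1.le]
                exact le_mul_of_one_le_right hC1.le (one_le_pow₀ (by linarith))
              · exact pow_le_pow_right₀ hy (by norm_num)
              · positivity
              · positivity
            · exact Real.rpow_le_rpow_of_exponent_le hX (by linarith)
            · positivity
            · positivity
        _ = (D * X ^ ((1 + ε) / 2) * (2 + |y|) ^ 2) ^ 2 := by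
            rw [mul_pow, mul_pow, ← Real.rpow_natCast (X ^ ((1 + ε) / 2)), ← Real.rpow_mul hX0.le]
            have : (1 + ε) / 2 * ((2 : ℕ) : ℝ) = 1 + ε := by push_cast; ring
            rw [this]
            ring
    calc √S * √(∑ q ∈ Q s X, ‖LL s q (1 / 2 + (σ + y * I))‖ ^ 2)
        ≤ √S * (D * X ^ ((1 + ε) / 2) * (2 + |y|) ^ 2) := mul_le_mul_of_nonneg_left k2 (by positivity)
      _ = _ := by rw [hE]; ring
  have q2 : ∀ y : ℝ, ‖F (((-σ : ℝ) : ℂ) + y * I)‖ ≤ E * (2 + |y|) ^ 2 := by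
    intro y
    obtain ⟨z, hzd⟩ : ∃ z : ℂ, z = ((-σ : ℝ) : ℂ) + y * I := ⟨_, rfl⟩
    have hre : z.re = -σ := by rw [hzd]; simp
    have him : z.im = y := by rw [hzd]; simp
    have hz8 : |z.re| ≤ 1 / 8 := by rw [hre, abs_neg, abs_of_pos hσ0]; exact hσ8
    have hy : 1 ≤ 2 + |y| := by linarith [abs_nonneg y]
    rw [← hzd]
    have k := h1 s X (-z) hs hX (by rw [neg_re, hre, neg_neg, hσ]) (by rw [neg_re, hre]; linarith)
    rw [neg_im, abs_neg, him] at k
    have k1 : ∑ q ∈ Q s X, ‖LL s q (1 / 2 + z)‖ ^ 2 ≤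
        (X ^ (2 * σ) * (C2 * (2 + |y|)) ^ 2) * (C1 * (2 + |y|) ^ 2 * X ^ (1 + ε / 2)) := by
      refine le_trans ?_ (mul_le_mul_of_nonneg_left k (by positivity))
      rw [Finset.mul_sum]
      refine Finset.sum_le_sum fun q hq => ?_
      obtain ⟨g1, g2⟩ := Q_is hq
      have hqR : (2 : ℝ) ≤ q := by exact_mod_cast g1.1
      rw [fe hs g1 (by linarith : |z.re| < 1 / 2), ← sub_eq_add_neg, norm_mul, norm_mul, mul_pow, mul_pow]
      apply mul_le_mul_of_nonneg_right _ (by positivity)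
      apply mul_le_mul
      · rw [Complex.norm_natCast_cpow_of_pos (by have := g1.1; omega), neg_re, hre, neg_neg, ← Real.rpow_natCast,
          ← Real.rpow_mul (by positivity)]
        calc (q : ℝ) ^ (σ * ((2 : ℕ) : ℝ)) ≤ X ^ (σ * ((2 : ℕ) : ℝ)) :=
              Real.rpow_le_rpow (by positivity) g2.le (by positivity)
          _ = _ := by congr 1; push_cast; ring
      · apply pow_le_pow_left₀ (norm_nonneg _)
        refine (h2 s z hz8).trans ?_
        rw [him]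
        nlinarith
      · positivity
      · positivity
    refine (hcs _).trans ?_
    have k2 : √(∑ q ∈ Q s X, ‖LL s q (1 / 2 + z)‖ ^ 2) ≤ D * X ^ ((1 + ε) / 2) * (2 + |y|) ^ 2 := by
      rw [Real.sqrt_le_left (by positivity)]
      refine k1.trans ?_
      calc (X ^ (2 * σ) * (C2 * (2 + |y|)) ^ 2) * (C1 * (2 + |y|) ^ 2 * X ^ (1 + ε / 2))
          = (C1 * C2 ^ 2) * (2 + |y|) ^ 4 * (X ^ (2 * σ) * X ^ (1 + ε / 2)) := by ring
        _ ≤ D ^ 2 * (2 + |y|) ^ 4 * X ^ (1 + ε) := by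
            rw [← Real.rpow_add hX0]
            apply mul_le_mul
            · apply mul_le_mul_of_nonneg_right _ (by positivity)
              rw [hD, mul_pow, Real.sq_sqrt hC1.le]
              apply mul_le_mul_of_nonneg_left _ hC1.le
              apply pow_le_pow_left₀ hC2.le
              linarith
            · apply Real.rpow_le_rpow_of_exponent_le hX
              rw [hσ]; linarith
            · positivity
            · positivity
        _ = (D * X ^ ((1 + ε) / 2) * (2 + |y|) ^ 2) ^ 2 := by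
            rw [mul_pow, mul_pow, ← Real.rpow_natCast (X ^ ((1 + ε) / 2)), ← Real.rpow_mul hX0.le]
            have : (1 + ε) / 2 * ((2 : ℕ) : ℝ) = 1 + ε := by push_cast; ring
            rw [this]
            ring
    calc √S * √(∑ q ∈ Q s X, ‖LL s q (1 / 2 + z)‖ ^ 2)
        ≤ √S * (D * X ^ ((1 + ε) / 2) * (2 + |y|) ^ 2) := mul_le_mul_of_nonneg_left k2 (by positivity)
      _ = _ := by rw [hE]; ring
  have hFd : ∀ z : ℂ, -σ ≤ z.re → z.re ≤ σ → DifferentiableAt ℂ F z := by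
    intro z _ _
    rw [hF]
    refine DifferentiableAt.fun_sum fun q hq => DifferentiableAt.mul (differentiableAt_const _) ?_
    exact DifferentiableAt.comp (f := fun z : ℂ => 1 / 2 + z) z ((LL_diff (Q_is hq).1) _) (by fun_prop)
  have hFg : Gr F (-σ) σ := by
    obtain ⟨C, hC, h⟩ := LL_gr
    refine ⟨∑ q ∈ Q s X, ‖c q‖ * (C * q ^ 2), 2, Finset.sum_nonneg fun _ _ => by positivity, fun z hz1 hz2 => ?_⟩
    rw [hF]
    simp only
    refine (norm_sum_le _ _).trans ?_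
    rw [Finset.sum_mul]
    refine Finset.sum_le_sum fun q hq => ?_
    rw [norm_mul, mul_assoc]
    exact mul_le_mul_of_nonneg_left (h s q z hs (Q_is hq).1 (by rw [abs_le]; constructor <;> linarith)) (norm_nonneg _)
  have ii : Integrable fun y : ℝ => Real.exp (-(y ^ 2) / 2) * (E * (2 + |y|) ^ 2) := by
    have := (int_poly 2).const_mul E
    refine this.congr (Eventually.of_forall fun y => ?_)
    simp only
    ring
  have q3 := two_lines (F := F) (a := -σ) (b := σ) p (by linarith) (by linarith) hFd hFg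
    (fun y => E * (2 + |y|) ^ 2) (fun y => E * (2 + |y|) ^ 2) q1 (fun y => q2 y) ii ii
  have q4 : ∫ y : ℝ, Real.exp (-(y ^ 2) / 2) * (E * (2 + |y|) ^ 2) = E * J0 := by
    rw [hI, ← integral_const_mul]
    refine integral_congr_ae (Eventually.of_forall fun y => ?_)
    simp only
    ring
  rw [q4, hFp, Complex.norm_real, Real.norm_of_nonneg hS0] at q3
  have q5 : E * J0 / (σ - p.re) ≤ E * J0 * (8 / ε) := by
    rw [div_eq_mul_inv]
    apply mul_le_mul_of_nonneg_left _ (by positivity)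
    rw [← one_div, div_le_div_iff₀ (by linarith) hε]
    linarith
  have q6 : E * J0 / (p.re - -σ) ≤ E * J0 * (8 / ε) := by
    rw [div_eq_mul_inv]
    apply mul_le_mul_of_nonneg_left _ (by positivity)
    rw [← one_div, div_le_div_iff₀ (by linarith) hε]
    linarith
  have q7 : Real.exp ((σ - -σ) ^ 2 + p.im ^ 2) ≤ Real.exp (2 ^ 2 + 1) := by
    apply Real.exp_le_exp.2
    have : p.im ^ 2 ≤ 1 := by rw [← sq_abs]; nlinarith [abs_nonneg p.im]
    nlinarith
  have q8 : S ≤ √S * (B * X ^ ((1 + ε) / 2)) := by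
    calc S ≤ Real.exp ((σ - -σ) ^ 2 + p.im ^ 2) * (E * J0 / (σ - p.re) + E * J0 / (p.re - -σ)) := q3
      _ ≤ Real.exp (2 ^ 2 + 1) * (E * J0 * (8 / ε) + E * J0 * (8 / ε)) := by
          apply mul_le_mul q7 (add_le_add q5 q6) _ (by positivity)
          have : 0 < σ - p.re := by linarith
          have : 0 < p.re - -σ := by linarith
          positivity
      _ = _ := by rw [hE, hB]; ring
  have q9 : √S ≤ B * X ^ ((1 + ε) / 2) := by
    rcases hS0.eq_or_lt with h0 | h0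
    · rw [← h0, Real.sqrt_zero]; positivity
    · have hs0 : 0 < √S := Real.sqrt_pos.2 h0
      have : √S * √S ≤ √S * (B * X ^ ((1 + ε) / 2)) := by rw [Real.mul_self_sqrt hS0]; exact q8
      exact le_of_mul_le_mul_left this hs0
  calc S = √S ^ 2 := (Real.sq_sqrt hS0).symm
    _ ≤ (B * X ^ ((1 + ε) / 2)) ^ 2 := pow_le_pow_left₀ (Real.sqrt_nonneg _) q9 2
    _ = B ^ 2 * X ^ (1 + ε) := by
        rw [mul_pow, ← Real.rpow_natCast (X ^ ((1 + ε) / 2)), ← Real.rpow_mul hX0.le]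
        congr 2
        push_cast
        ring
    _ ≤ _ := by
        apply mul_le_mul_of_nonneg_right _ (by positivity)
        linarith

end

end Pool.Agent.V8H6.CB
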