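import Pool.Agent.V8H6.CB.Up
import Pool.Agent.V8H6.CB.Sm
import Pool.Agent.V8H6.CB.Av

set_option autoImplicit false

/-! The mean square of the difference at points near the centre. -/

namespace Pool.Agent.V8H6.CB

open Complex hiding im
open Filter Topology MeasureTheory Set
open Pool.Agent.N879.QM Pool.Agent.V8H6.RW
open Pool.Agent.H306R2 (Zt Zt_norm_le zeta_eq_pos Zt_differentiableAt)
open scoped BigOperators

noncomputable section

variable {k : ℕ}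

lemma lint_cmul {Ω : Type} [MeasurableSpace Ω] {μ : Measure Ω} {f : Ω → ℂ} {c : ℂ} {K a : ℝ} (hc : ‖c‖ ^ 2 ≤ K)
    (h : ∫⁻ x, ENNReal.ofReal (‖f x‖ ^ 2) ∂μ ≤ ENNReal.ofReal a) :
    ∫⁻ x, ENNReal.ofReal (‖c * f x‖ ^ 2) ∂μ ≤ ENNReal.ofReal (K * a) := by
  have hK : 0 ≤ K := (sq_nonneg _).trans hc
  have h1 : ∀ x, ENNReal.ofReal (‖c * f x‖ ^ 2) ≤ ENNReal.ofReal K * ENNReal.ofReal (‖f x‖ ^ 2) := by
    intro x
    rw [← ENNReal.ofReal_mul hK]
    apply ENNReal.ofReal_le_ofReal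
    rw [norm_mul, mul_pow]
    exact mul_le_mul_of_nonneg_right hc (sq_nonneg _)
  refine (lintegral_mono h1).trans ?_
  rw [lintegral_const_mul' _ _ ENNReal.ofReal_ne_top, ENNReal.ofReal_mul hK]
  exact mul_le_mul_right h _

lemma lint_gd {A : ℝ} {f : (Fin k → ℝ) → ℂ} {a : ENNReal}
    (h : ∫⁻ x, ENNReal.ofReal (‖f x‖ ^ 2) ∂(mS k A) ≤ a) :
    ∫⁻ x in Gd k A, ENNReal.ofReal (‖f x‖ ^ 2) ∂(mS k A) ≤ a :=
  (lintegral_mono' Measure.restrict_le_self le_rfl).trans h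

lemma D1_meas (s : ℤ) {X : ℝ} {D : Finset ℕ} (hD : D ⊆ Q s X) (N : ℕ) (z : ℂ) :
    Measurable fun β : Fin k → ℝ => D1 s D N z β := by
  unfold D1
  refine Finset.measurable_sum _ fun q hq => measurable_const.mul (Measurable.sub ?_ ?_)
  · refine Finset.measurable_prod _ fun j _ => ?_
    exact ((t_CTS s q (Q_is (hD hq)).1).comp (continuous_apply j)).measurable
  · refine Finset.measurable_prod _ fun j _ => ?_
    exact ((PN_cont s q N).comp (continuous_apply j)).measurable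

lemma D3_meas (s : ℤ) (E : Finset ℕ) (N : ℕ) (z : ℂ) :
    Measurable fun β : Fin k → ℝ => D3 s E N z β := by
  unfold D3
  refine Finset.measurable_sum _ fun q hq => measurable_const.mul ?_
  refine Finset.measurable_prod _ fun j _ => ?_
  exact ((PN_cont s q N).comp (continuous_apply j)).measurable

lemma Gs_meas (s : ℤ) (X : ℝ) (N : ℕ) (z : ℂ) : Measurable fun β : Fin k → ℝ => Gs s X N z β := by
  unfold Gs
  exact Finset.measurable_sum _ fun n _ => measurable_const.mul (meas_cx n)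

lemma Df_meas (N : ℕ) {z : ℂ} (hz : -1 / 16 < z.re) : Measurable fun β : Fin k → ℝ => Df N z β := by
  unfold Df
  refine measurable_const.mul ((S0_meas N z).sub ?_)
  have h := B0_meas (k := k) (fun _ => z) continuous_const (fun _ => hz)
  have h2 : Measurable fun β : Fin k → ℝ => (β, (0 : ℝ)) := measurable_id.prodMk measurable_const
  have h3 := h.comp h2
  exact h3

lemma cx_le {N : ℕ} {n : Fin k → ℕ} (hn : n ∈ tup k N) (β : Fin k → ℝ) : ‖cx n β‖ ≤ 1 := by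
  unfold cx
  rw [norm_prod]
  refine Finset.prod_le_one (fun _ _ => norm_nonneg _) fun j _ => ?_
  have h1 := (Finset.mem_Icc.1 (Fintype.mem_piFinset.1 hn j)).1
  rw [Complex.norm_natCast_cpow_of_pos (by omega)]
  apply Real.rpow_le_one_of_one_le_of_nonpos (by exact_mod_cast h1)
  unfold pt
  simp

lemma tup_card (k N : ℕ) : (tup k N).card = N ^ k := by
  unfold tup
  rw [Fintype.card_piFinset, Finset.prod_const, Finset.card_univ, Fintype.card_fin, Nat.card_Icc]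
  simp

lemma tup_le {N : ℕ} {n : Fin k → ℕ} (hn : n ∈ tup k N) : ∏ j, n j ≤ N ^ k := by
  calc ∏ j, n j ≤ ∏ _j : Fin k, N := Finset.prod_le_prod' fun j _ =>
        (Finset.mem_Icc.1 (Fintype.mem_piFinset.1 hn j)).2
    _ = N ^ k := by rw [Finset.prod_const, Finset.card_univ, Fintype.card_fin]

lemma Gs_bd {s : ℤ} {X C B : ℝ} {N : ℕ} {z : ℂ} (hC : 0 ≤ C) (hB : 0 ≤ B)
    (h : ∀ m : ℕ, 1 ≤ m → ‖Gf s X m z‖ ≤ C * m * B) (β : Fin k → ℝ) :
    ‖Gs s X N z β‖ ≤ (N : ℝ) ^ (2 * k) * (C * B) := by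
  unfold Gs
  refine (norm_sum_le _ _).trans ?_
  calc ∑ n ∈ tup k N, ‖Gf s X (∏ j, n j) z * cx n β‖ ≤ ∑ n ∈ tup k N, C * (N : ℝ) ^ k * B := by
        refine Finset.sum_le_sum fun n hn => ?_
        rw [norm_mul]
        have h1 := h _ (tup_prod hn)
        have h2 : ((∏ j, n j : ℕ) : ℝ) ≤ (N : ℝ) ^ k := by exact_mod_cast tup_le hn
        have h3 : ‖Gf s X (∏ j, n j) z‖ ≤ C * (N : ℝ) ^ k * B := h1.trans (by gcongr)
        calc ‖Gf s X (∏ j, n j) z‖ * ‖cx n β‖ ≤ (C * (N : ℝ) ^ k * B) * 1 :=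
              mul_le_mul h3 (cx_le hn β) (norm_nonneg _) (by positivity)
          _ = _ := mul_one _
    _ = _ := by
        rw [Finset.sum_const, nsmul_eq_mul, tup_card]
        push_cast
        ring

lemma mS_univ (k : ℕ) {A : ℝ} (hA : 0 ≤ A) : mS k A univ = ENNReal.ofReal ((2 * A) ^ k) := by
  unfold mS
  rw [Measure.pi_univ]
  simp only [Measure.restrict_apply MeasurableSet.univ, univ_inter, Real.volume_Icc]
  rw [Finset.prod_const, Finset.card_univ, Fintype.card_fin, ENNReal.ofReal_pow (by positivity)]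
  congr 2
  ring

lemma lint_const {A : ℝ} (hA : 0 ≤ A) {f : (Fin k → ℝ) → ℂ} {B : ℝ} (h : ∀ β, ‖f β‖ ≤ B) :
    ∫⁻ x, ENNReal.ofReal (‖f x‖ ^ 2) ∂(mS k A) ≤ ENNReal.ofReal (B ^ 2 * (2 * A) ^ k) := by
  calc ∫⁻ x, ENNReal.ofReal (‖f x‖ ^ 2) ∂(mS k A) ≤ ∫⁻ _x, ENNReal.ofReal (B ^ 2) ∂(mS k A) :=
        lintegral_mono fun x => ENNReal.ofReal_le_ofReal (pow_le_pow_left₀ (norm_nonneg _) (h x) 2)
    _ = _ := by rw [lintegral_const, mS_univ k hA, ← ENNReal.ofReal_mul (by positivity)]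

theorem ms_circle (k : ℕ) (hk : 1 ≤ k) (s : ℤ) (hs : s = 1 ∨ s = -1) {θ : ℝ} (hθ : 0 < θ) (hθ1 : θ ≤ 1) :
    ∃ η C CE X₀ : ℝ, 0 < η ∧ η ≤ θ / 4 ∧ η ≤ 1 / (2000 * k) ∧ 0 < C ∧ 0 < CE ∧ ∀ X : ℝ, X₀ ≤ X → 1 ≤ X ∧ 16 ≤ X ^ θ ∧
      ((Ex s X (X ^ θ) (η / (8 * k))).card : ℝ) ≤ CE * X ^ (1 - η / (8 * k) / 2) ∧
      ∀ z : ℂ, ‖z‖ ≤ η / (8192 * k) →
      ∫⁻ β in Gd k (X ^ θ), ENNReal.ofReal (‖Up s X (Q s X \ Ex s X (X ^ θ) (η / (8 * k))) β z‖ ^ 2)
        ∂(mS k (X ^ θ)) ≤ ENNReal.ofReal (C * X ^ (k * θ + 2 - η / (4096 * k))) := by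
  classical
  have hO2 : S_MB := t_MB t_HBG (t_BIG1P (t_BLK t_MVG) t_ONE t_PVI) t_AFS t_CTS
  obtain ⟨m₀, hmsq⟩ := msq t_FL t_ZET k hk
  obtain ⟨m, hm⟩ : ∃ m : ℕ, m = m₀ + 2000 * k + 9 := ⟨_, rfl⟩
  have hm1 : 1 ≤ m := by omega
  have hm0 : (0 : ℝ) < m := by exact_mod_cast hm1
  obtain ⟨C4, A4, hC4, hA43, h4⟩ := hmsq m (by omega) hm1
  have hk0 : (0 : ℝ) < k := by exact_mod_cast hk
  have hk1 : (1 : ℝ) ≤ k := by exact_mod_cast hk
  have hm9 : (9 : ℝ) ≤ m := by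
    have : 9 ≤ m := by omega
    exact_mod_cast this
  have hm2000 : (2000 * k : ℝ) ≤ m := by
    have : 2000 * k ≤ m := by omega
    exact_mod_cast this
  obtain ⟨η, hη⟩ : ∃ η : ℝ, η = θ * (1 / m) := ⟨_, rfl⟩
  have hη0 : 0 < η := by rw [hη]; positivity
  have hηθ : η ≤ θ / 4 := by
    rw [hη, mul_one_div]
    exact div_le_div_of_nonneg_left hθ.le (by norm_num) (by linarith)
  have hη1 : η ≤ 1 / m := by
    rw [hη]
    have : 0 ≤ (1 / m : ℝ) := by positivity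
    nlinarith
  have hη2 : η ≤ 1 / (2000 * k) := hη1.trans (one_div_le_one_div_of_le (by positivity) hm2000)
  have hηk : k * η ≤ 1 / 2000 := by
    calc k * η ≤ k * (1 / (2000 * k)) := by gcongr
      _ = 1 / 2000 := by field_simp
  have hη3 : η ≤ 1 / 2000 := by nlinarith
  obtain ⟨ρ, hρ⟩ : ∃ ρ : ℝ, ρ = η / (8 * k) := ⟨_, rfl⟩
  have hρ0 : 0 < ρ := by rw [hρ]; positivity
  have hρη : ρ ≤ η / 8 := by
    rw [hρ]
    exact div_le_div_of_nonneg_left hη0.le (by norm_num) (by linarith)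
  obtain ⟨C1, X1, hC1, hE1⟩ := e1W (k := k) hk hθ hθ1 hη0 hηθ
  obtain ⟨C2, hC2, hE2⟩ := rmvW k
  obtain ⟨CE, hCE, hEx⟩ := Ex_card hO2 hρ0
  obtain ⟨CS, hCS, hSm⟩ := sm (ε := ρ / 8) (by positivity) (by linarith)
  obtain ⟨CT, hCT, hTw⟩ := tw t_AV (σ := 1 / 8) (by norm_num) le_rfl
  obtain ⟨CY, hCY, hYX⟩ := YX_bd
  have hc0 : 0 < c0 := by unfold c0; positivity
  obtain ⟨κ, hκ⟩ : ∃ κ : ℝ, κ = η / (4096 * k) := ⟨_, rfl⟩
  have hκρ : κ = ρ / 512 := by rw [hκ, hρ]; field_simp; norm_num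
  have hκ0 : 0 < κ := by rw [hκ]; positivity
  have ev4 : ∀ᶠ X : ℝ in atTop, max A4 16 ≤ X ^ θ :=
    (tendsto_rpow_atTop hθ).eventually_ge_atTop _
  have ev5 := log_small k hθ (show 0 < ρ / 8 by positivity)
  obtain ⟨X₀, hX₀⟩ := eventually_atTop.1 ((ev4.and ev5).and ((eventually_ge_atTop X1).and (eventually_ge_atTop 2)))
  obtain ⟨CC, hCC⟩ : ∃ CC : ℝ, CC = 16 * (C1 * CS) + 16 * (C2 * (CE * CS)) + 8 * (CT ^ 2 * 2 ^ k) +
    4 * ((c0 / 2) ^ 2 * C4) + 2 * ((c0 * (3 * CY) / 2) ^ 2 * C4) := ⟨_, rfl⟩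
  refine ⟨η, CC, CE, X₀, hη0, hηθ, hη2, by rw [hCC]; positivity, hCE, ?_⟩
  intro X hX
  obtain ⟨⟨v4, v8⟩, v5, v7⟩ := hX₀ X hX
  have hX0 : 0 < X := by linarith
  have hX1 : 1 ≤ X := by linarith
  obtain ⟨A, hA⟩ : ∃ A : ℝ, A = X ^ θ := ⟨_, rfl⟩
  have hAX : A ≤ X := by
    rw [hA]
    calc X ^ θ ≤ X ^ (1 : ℝ) := Real.rpow_le_rpow_of_exponent_le hX1 hθ1
      _ = X := Real.rpow_one X
  have hA16 : 16 ≤ A := by rw [hA]; exact (le_max_right _ _).trans v4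
  have hA4 : A4 ≤ A := by rw [hA]; exact (le_max_left _ _).trans v4
  have hA2 : 2 ≤ A := by linarith
  have hA1 : 1 ≤ A := by linarith
  have hA0 : 0 < A := by linarith
  have hAη : A ^ (1 / m : ℝ) = X ^ η := by
    rw [hA, hη, ← Real.rpow_mul hX0.le]
  have hAk : A ^ k = X ^ (k * θ) := by
    rw [hA, ← Real.rpow_natCast, ← Real.rpow_mul hX0.le]
    congr 1; ring
  have hlogA : Real.log A ^ k ≤ X ^ (ρ / 8) := by
    rw [hA, Real.log_rpow hX0]
    exact v8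
  have hlogA0 : 0 ≤ Real.log A := Real.log_nonneg hA1
  obtain ⟨N, hNd⟩ : ∃ N : ℕ, N = ⌊X ^ η⌋₊ := ⟨_, rfl⟩
  obtain ⟨f1, f2, f3⟩ := floor_half (Real.one_le_rpow hX1 hη0.le : 1 ≤ X ^ η)
  rw [← hNd] at f1 f2 f3
  have hN0 : (0 : ℝ) < N := by exact_mod_cast f3
  have hNA : (N : ℝ) ≤ A := by
    refine f2.trans ?_
    rw [hA]
    apply Real.rpow_le_rpow_of_exponent_le hX1
    linarith
  obtain ⟨E, hE⟩ : ∃ E : Finset ℕ, E = Ex s X A ρ := ⟨_, rfl⟩
  have hEQ : E ⊆ Q s X := by rw [hE]; exact Ex_sub _ _ _ _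
  have hEcard : (E.card : ℝ) ≤ CE * X ^ (1 - ρ / 2) := by
    rw [hE]
    exact hEx s X A hs hA2 hAX
  rw [← hρ, ← hA, ← hE]
  refine ⟨hX1, hA16, hEcard, fun z hz => ?_⟩
  have hr1 : η / (8192 * k) = ρ / 1024 := by rw [hρ]; field_simp; norm_num
  rw [hr1] at hz
  have hzre : |z.re| ≤ ρ / 1024 := (Complex.abs_re_le_norm z).trans hz
  have hzim : |z.im| ≤ ρ / 1024 := (Complex.abs_im_le_norm z).trans hz
  have hzre' := abs_le.1 hzre
  have hz1 : ‖z‖ ^ 2 ≤ 1 := pow_le_one₀ (norm_nonneg _) (by linarith)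
  have hz1' : ‖-z‖ ^ 2 ≤ 1 := by rwa [norm_neg]
  obtain ⟨D, hDd⟩ : ∃ D : Finset ℕ, D = Q s X \ E := ⟨_, rfl⟩
  have hDQ : D ⊆ Q s X := by rw [hDd]; exact Finset.sdiff_subset
  have hS := hSm s X z hs hX1 (by linarith) (by linarith)
  -- first term
  have g1 : ∫⁻ β in Gd k A, ENNReal.ofReal (‖z * D1 s D N z β‖ ^ 2) ∂(mS k A) ≤
      ENNReal.ofReal (C1 * CS * X ^ (k * θ + 2 - κ)) := by
    have h1 := hE1 s X N D (fun q => LL s q (1 / 2 + z)) hs v5 f1 f2 f3 (by rw [← hA, ← hρ, hDd, hE])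
    rw [← hA] at h1
    have h2 := lint_cmul (c := z) (K := 1) hz1 (lint_gd (A := A) h1)
    refine h2.trans (ENNReal.ofReal_le_ofReal ?_)
    rw [one_mul]
    have h3 : ∑ q ∈ D, ‖LL s q (1 / 2 + z)‖ ^ 2 ≤ CS * X ^ (1 + ρ / 8) :=
      (Finset.sum_le_sum_of_subset_of_nonneg hDQ fun _ _ _ => by positivity).trans hS
    calc C1 * X ^ (k * θ + 1 - η / 4) * ∑ q ∈ D, ‖LL s q (1 / 2 + z)‖ ^ 2
        ≤ C1 * X ^ (k * θ + 1 - η / 4) * (CS * X ^ (1 + ρ / 8)) := by gcongr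
      _ = C1 * CS * X ^ (k * θ + 1 - η / 4 + (1 + ρ / 8)) := by
          rw [Real.rpow_add hX0 (k * θ + 1 - η / 4) (1 + ρ / 8)]
          ring
      _ ≤ C1 * CS * X ^ (k * θ + 2 - κ) := by
          apply mul_le_mul_of_nonneg_left _ (by positivity)
          apply Real.rpow_le_rpow_of_exponent_le hX1
          rw [hκρ]
          linarith
  -- second term
  have g2 : ∫⁻ β in Gd k A, ENNReal.ofReal (‖(-z) * D3 s E N z β‖ ^ 2) ∂(mS k A) ≤
      ENNReal.ofReal (C2 * (CE * CS) * X ^ (k * θ + 2 - κ)) := by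
    have h1 := hE2 s A N E (fun q => LL s q (1 / 2 + z)) hA2 f3 hNA
    have h2 := lint_cmul (c := -z) (K := 1) hz1' (lint_gd (A := A) h1)
    refine h2.trans (ENNReal.ofReal_le_ofReal ?_)
    rw [one_mul]
    have h3 : ∑ q ∈ E, ‖LL s q (1 / 2 + z)‖ ^ 2 ≤ CS * X ^ (1 + ρ / 8) :=
      (Finset.sum_le_sum_of_subset_of_nonneg hEQ fun _ _ _ => by positivity).trans hS
    have h5 : (∑ q ∈ E, ‖LL s q (1 / 2 + z)‖) ^ 2 ≤ (E.card : ℝ) * ∑ q ∈ E, ‖LL s q (1 / 2 + z)‖ ^ 2 :=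
      sq_sum_le_card_mul_sum_sq
    have h6 : (∑ q ∈ E, ‖LL s q (1 / 2 + z)‖) ^ 2 ≤ (CE * X ^ (1 - ρ / 2)) * (CS * X ^ (1 + ρ / 8)) :=
      h5.trans (mul_le_mul hEcard h3 (Finset.sum_nonneg fun _ _ => by positivity) (by positivity))
    calc C2 * A ^ k * Real.log A ^ k * (∑ q ∈ E, ‖LL s q (1 / 2 + z)‖) ^ 2
        ≤ C2 * X ^ (k * θ) * X ^ (ρ / 8) * ((CE * X ^ (1 - ρ / 2)) * (CS * X ^ (1 + ρ / 8))) :=
          ar2 hC2.le hAk (Real.rpow_nonneg hX0.le _) hlogA (pow_nonneg hlogA0 _) (sq_nonneg _) h6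
      _ = C2 * (CE * CS) * (X ^ (k * θ) * X ^ (ρ / 8) * X ^ (1 - ρ / 2) * X ^ (1 + ρ / 8)) := by ring
      _ ≤ C2 * (CE * CS) * X ^ (k * θ + 2 - κ) := by
          apply mul_le_mul_of_nonneg_left _ (by positivity)
          rw [← Real.rpow_add hX0, ← Real.rpow_add hX0, ← Real.rpow_add hX0]
          apply Real.rpow_le_rpow_of_exponent_le hX1
          rw [hκρ]
          linarith
  -- third term
  have g3 : ∫⁻ β in Gd k A, ENNReal.ofReal (‖Gs s X N z β‖ ^ 2) ∂(mS k A) ≤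
      ENNReal.ofReal (CT ^ 2 * 2 ^ k * X ^ (k * θ + 2 - κ)) := by
    have h1 := lint_const (k := k) (A := A) hA0.le (f := fun β => Gs s X N z β)
      (Gs_bd (C := CT) (B := X ^ (1 - 3 / 100 * (1 / 8) : ℝ)) hCT.le (by positivity)
        (fun m hm => hTw s X m z hs hX1 hm (by linarith) (by linarith)))
    refine (lint_gd h1).trans (ENNReal.ofReal_le_ofReal ?_)
    have h2 : (N : ℝ) ^ (2 * k) ≤ X ^ (1 / 1000 : ℝ) := by
      calc (N : ℝ) ^ (2 * k) ≤ (X ^ η) ^ (2 * k) := pow_le_pow_left₀ hN0.le f2 _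
        _ = X ^ (η * (2 * k : ℕ)) := by rw [← Real.rpow_natCast, ← Real.rpow_mul hX0.le]
        _ ≤ X ^ (1 / 1000 : ℝ) := by
            apply Real.rpow_le_rpow_of_exponent_le hX1
            push_cast
            linarith
    calc ((N : ℝ) ^ (2 * k) * (CT * X ^ (1 - 3 / 100 * (1 / 8) : ℝ))) ^ 2 * (2 * A) ^ k
        ≤ (X ^ (1 / 1000 : ℝ) * (CT * X ^ (1 - 3 / 100 * (1 / 8) : ℝ))) ^ 2 * (2 * A) ^ k := by gcongr
      _ = CT ^ 2 * 2 ^ k * ((X ^ (1 / 1000 : ℝ)) ^ 2 * (X ^ (1 - 3 / 100 * (1 / 8) : ℝ)) ^ 2 * A ^ k) := by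
          rw [mul_pow 2 A]
          ring
      _ ≤ CT ^ 2 * 2 ^ k * X ^ (k * θ + 2 - κ) := by
          apply mul_le_mul_of_nonneg_left _ (by positivity)
          rw [hAk, ← Real.rpow_natCast, ← Real.rpow_natCast, ← Real.rpow_mul hX0.le, ← Real.rpow_mul hX0.le,
            ← Real.rpow_add hX0, ← Real.rpow_add hX0]
          apply Real.rpow_le_rpow_of_exponent_le hX1
          rw [hκρ]
          push_cast
          linarith
  -- closeness
  have hAm : A ^ (k - 1 / (1024 * m) : ℝ) = X ^ (k * θ - η / 1024) := by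
    rw [hA, ← Real.rpow_mul hX0.le]
    congr 1
    rw [hη]
    field_simp
  have g4 : ∫⁻ β in Gd k A, ENNReal.ofReal (‖(c0 * X / 2 : ℂ) * Df N z β‖ ^ 2) ∂(mS k A) ≤
      ENNReal.ofReal ((c0 / 2) ^ 2 * C4 * X ^ (k * θ + 2 - κ)) := by
    have h1 := h4 A N z hA4 (by rw [hAη]; exact f1) (by rw [hAη]; exact f2) f3 (by linarith) (by linarith)
    have h2 := lint_cmul (c := (c0 * X / 2 : ℂ)) (K := (c0 * X / 2) ^ 2) (by
      rw [show (c0 * X / 2 : ℂ) = ((c0 * X / 2 : ℝ) : ℂ) by push_cast; ring, Complex.norm_real,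
        Real.norm_of_nonneg (by positivity)]) h1
    refine h2.trans (ENNReal.ofReal_le_ofReal ?_)
    rw [hAm]
    calc (c0 * X / 2) ^ 2 * (C4 * X ^ (k * θ - η / 1024)) =
        (c0 / 2) ^ 2 * C4 * (X ^ (2 : ℝ) * X ^ (k * θ - η / 1024)) := by
          rw [Real.rpow_two]
          ring
      _ ≤ (c0 / 2) ^ 2 * C4 * X ^ (k * θ + 2 - κ) := by
          apply mul_le_mul_of_nonneg_left _ (by positivity)
          rw [← Real.rpow_add hX0]
          apply Real.rpow_le_rpow_of_exponent_le hX1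
          rw [hκρ]
          linarith
  have g5 : ∫⁻ β in Gd k A, ENNReal.ofReal (‖(-(c0 * YX s X z / 2) : ℂ) * Df N (-z) β‖ ^ 2) ∂(mS k A) ≤
      ENNReal.ofReal ((c0 * (3 * CY) / 2) ^ 2 * C4 * X ^ (k * θ + 2 - κ)) := by
    have h1 := h4 A N (-z) hA4 (by rw [hAη]; exact f1) (by rw [hAη]; exact f2) f3
      (by rw [neg_re, abs_neg]; linarith) (by rw [neg_im, abs_neg]; linarith)
    have h6 : ‖YX s X z‖ ≤ 3 * CY * X ^ (1 + ρ / 1024) := by
      refine (hYX s X z hX1 (by linarith)).trans ?_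
      have h7 : X ^ (1 - z.re) ≤ X ^ (1 + ρ / 1024) := by
        apply Real.rpow_le_rpow_of_exponent_le hX1
        linarith
      have h8 : 2 + |z.im| ≤ 3 := by linarith
      calc CY * (2 + |z.im|) * X ^ (1 - z.re) ≤ CY * 3 * X ^ (1 + ρ / 1024) := by gcongr
        _ = _ := by ring
    have h2 := lint_cmul (c := (-(c0 * YX s X z / 2) : ℂ)) (K := (c0 * (3 * CY * X ^ (1 + ρ / 1024)) / 2) ^ 2) (by
      rw [norm_neg, norm_div, norm_mul, Complex.norm_real, Real.norm_of_nonneg hc0.le, RCLike.norm_ofNat]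
      gcongr) h1
    refine h2.trans (ENNReal.ofReal_le_ofReal ?_)
    rw [hAm]
    calc (c0 * (3 * CY * X ^ (1 + ρ / 1024)) / 2) ^ 2 * (C4 * X ^ (k * θ - η / 1024)) =
        (c0 * (3 * CY) / 2) ^ 2 * C4 * ((X ^ (1 + ρ / 1024)) ^ 2 * X ^ (k * θ - η / 1024)) := by ring
      _ ≤ (c0 * (3 * CY) / 2) ^ 2 * C4 * X ^ (k * θ + 2 - κ) := by
          apply mul_le_mul_of_nonneg_left _ (by positivity)
          rw [← Real.rpow_natCast, ← Real.rpow_mul hX0.le, ← Real.rpow_add hX0]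
          apply Real.rpow_le_rpow_of_exponent_le hX1
          rw [hκρ]
          push_cast
          linarith
  -- together
  have hP : 0 ≤ X ^ (k * θ + 2 - κ) := Real.rpow_nonneg hX0.le _
  have m1 : Measurable fun β : Fin k → ℝ => z * D1 s D N z β := measurable_const.mul (D1_meas s hDQ N z)
  have m2 : Measurable fun β : Fin k → ℝ => (-z) * D3 s E N z β := measurable_const.mul (D3_meas s E N z)
  have m3 := Gs_meas (k := k) s X N z
  have m4 : Measurable fun β : Fin k → ℝ => (c0 * X / 2 : ℂ) * Df N z β :=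
    measurable_const.mul (Df_meas N (by linarith))
  have m5 : Measurable fun β : Fin k → ℝ => (-(c0 * YX s X z / 2) : ℂ) * Df N (-z) β :=
    measurable_const.mul (Df_meas N (by rw [neg_re]; linarith))
  have a1 := lint_add_sq (h := fun β => z * D1 s D N z β + (-z) * D3 s E N z β) m1 m2 (by positivity) (by positivity)
    g1 g2 (fun β => rfl)
  have a2 := lint_add_sq (h := fun β => (z * D1 s D N z β + (-z) * D3 s E N z β) + Gs s X N z β)
    (m1.add m2) m3 (by positivity) (by positivity) a1 g3 (fun β => rfl)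
  have a3 := lint_add_sq (h := fun β => ((z * D1 s D N z β + (-z) * D3 s E N z β) + Gs s X N z β) +
    (c0 * X / 2 : ℂ) * Df N z β)
    ((m1.add m2).add m3) m4 (by positivity) (by positivity) a2 g4 (fun β => rfl)
  have a4 := lint_add_sq (h := fun β => Up s X D β z)
    (((m1.add m2).add m3).add m4) m5 (by positivity) (by positivity) a3 g5 (fun β => by
      rw [hDd]
      exact Up_eq s X N hEQ z β)
  rw [← hDd, ← hκ]
  refine a4.trans (ENNReal.ofReal_le_ofReal (le_of_eq ?_))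
  rw [hCC]
  ring

end

end Pool.Agent.V8H6.CB
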