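import Pool.Agent.V8H6.CB.Pf

set_option autoImplicit false

/-! The diagonal sum and its limit are close in mean square for all points near the centre. -/

namespace Pool.Agent.V8H6.CB

open Complex hiding im
open Filter Topology MeasureTheory Set
open Pool.Agent.N879.QM Pool.Agent.V8H6.RW
open Pool.Agent.H306R2 (Zt Zt_norm_le zeta_eq_pos Zt_differentiableAt)
open scoped BigOperators

noncomputable section

variable {k : ℕ}

lemma S0_meas (N : ℕ) (z : ℂ) : Measurable fun β : Fin k → ℝ => S0 N z β := by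
  unfold S0
  exact Finset.measurable_sum _ fun n _ => measurable_const.mul (meas_cx n)

lemma zprod_meas (y : ℝ) : Measurable fun β : Fin k → ℝ =>
    ∏ j, riemannZeta (((31 / 32 : ℝ) : ℂ) + ((y + β j : ℝ) : ℂ) * Complex.I) := by
  refine Finset.measurable_prod _ fun j _ => meas_zeta.comp ?_
  fun_prop

lemma log_ge {A : ℝ} (hA : 3 ≤ A) : 1 ≤ Real.log A := by
  rw [Real.le_log_iff_exp_le (by linarith)]
  linarith [Real.exp_one_lt_d9]

/-- the left line -/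
lemma left_line (hfl : S_FL) (hz : S_ZET) (k : ℕ) : ∃ (C A₀ : ℝ) (B : ℕ), 0 < C ∧ 3 ≤ A₀ ∧
    ∀ (A : ℝ) (N : ℕ) (y : ℝ), A₀ ≤ A → 1 ≤ N → (N : ℝ) ^ (2 * k + 1) ≤ A →
    ∫⁻ β in Gd k A, ENNReal.ofReal (‖Ph N β ((-1 / 32 : ℝ) + y * I)‖ ^ 2) ∂(mS k A) ≤
      ENNReal.ofReal (C * Real.log A ^ B * A ^ k * (2 + |y|) ^ (k + 4)) := by
  obtain ⟨C1, A1, B1, hC1, hA1, h1⟩ := ZP_bd hz k
  obtain ⟨C2, hC2, h2⟩ := Ak_bd (k + 1)
  obtain ⟨C3, hC3, h3⟩ := zsk k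
  obtain ⟨C4, hC4, h4⟩ := Fz_bd
  refine ⟨288 * (3 * 2 ^ k * C4 ^ 2 * 2 ^ k) + 288 * C2 ^ 2 * C1 * C3, A1, k + B1, by positivity, hA1,
    fun A N y hA hN hNA => ?_⟩
  have hA3 : 3 ≤ A := hA1.trans hA
  have hA0 : 0 < A := by linarith
  have hlog := log_ge hA3
  have hN1 : (1 : ℝ) ≤ N := by exact_mod_cast hN
  have hNle : (N : ℝ) ≤ A := (le_self_pow₀ hN1 (by omega)).trans hNA
  have hlN : Real.log N ≤ Real.log A := Real.log_le_log (by linarith) hNle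
  have hlN0 : 0 ≤ Real.log N := Real.log_nonneg hN1
  set z : ℂ := ((-1 / 32 : ℝ) : ℂ) + y * I with hzdef
  have hzr : z.re = -1 / 32 := by rw [hzdef, re_line]
  have hzi : z.im = y := by simp [hzdef]
  set Y : ℝ := 2 + |y| with hY
  have hY2 : 2 ≤ Y := by rw [hY]; linarith [abs_nonneg y]
  have hZt : ‖Zt (1 + 2 * z)‖ ≤ 12 * Y ^ 2 := by
    have := zt_bd (z := z) (by rw [hzr, abs_le]; constructor <;> norm_num)
    rwa [hzi] at this
  have hne : ∀ (β : Fin k → ℝ) (j : Fin k), z + im β j ≠ 0 := by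
    intro β j h
    have := congrArg Complex.re h
    rw [add_re, im_re, hzr, zero_re] at this
    norm_num at this
  -- pointwise bound
  have hpt : ∀ β ∈ Gd k A, ENNReal.ofReal (‖Ph N β z‖ ^ 2) ≤
      ENNReal.ofReal (288 * Y ^ 4) * ENNReal.ofReal (‖S0 N z β‖ ^ 2) +
      ENNReal.ofReal (288 * Y ^ 4 * (C2 ^ 2 * (C1 * Real.log A ^ B1))) *
        ENNReal.ofReal (‖∏ j, riemannZeta (((31 / 32 : ℝ) : ℂ) + ((y + β j : ℝ) : ℂ) * Complex.I)‖ ^ 2) := by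
    intro β hβ
    have hZ := h1 A β hA hβ
    have hAk := h2 (cn z β) (fun j => cn_re (by rw [hzr]; norm_num) β j)
    have hw := ww_le (z := z) (by rw [hzr]; norm_num) β
    have e1 : ∀ j, riemannZeta (1 + z + im β j) =
        riemannZeta (((31 / 32 : ℝ) : ℂ) + ((y + β j : ℝ) : ℂ) * Complex.I) := by
      intro j
      congr 1
      rw [hzdef, im]
      push_cast
      ring
    set G := ∏ j, riemannZeta (((31 / 32 : ℝ) : ℂ) + ((y + β j : ℝ) : ℂ) * Complex.I) with hG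
    have e2 : Ph N β z = Zt (1 + 2 * z) * (S0 N z β * ww z β - Ak (cn z β) * (ww z β * G) * ZP β) := by
      unfold Ph
      rw [quot_eq (by rw [hzr]; norm_num) β (hne β), Finset.prod_congr rfl (fun j _ => e1 j)]
    rw [← ENNReal.ofReal_mul (by positivity), ← ENNReal.ofReal_mul (by positivity),
      ← ENNReal.ofReal_add (by positivity) (by positivity)]
    apply ENNReal.ofReal_le_ofReal
    rw [e2, norm_mul, mul_pow]
    have t1 : ‖Zt (1 + 2 * z)‖ ^ 2 ≤ 144 * Y ^ 4 := by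
      calc ‖Zt (1 + 2 * z)‖ ^ 2 ≤ (12 * Y ^ 2) ^ 2 := pow_le_pow_left₀ (norm_nonneg _) hZt 2
        _ = _ := by ring
    have t2 : ‖S0 N z β * ww z β‖ ≤ ‖S0 N z β‖ := by
      rw [norm_mul]
      exact mul_le_of_le_one_right (norm_nonneg _) hw
    have t3 : ‖Ak (cn z β) * (ww z β * G) * ZP β‖ ≤ C2 * ‖G‖ * ‖ZP β‖ := by
      rw [norm_mul, norm_mul, norm_mul]
      have : ‖ww z β‖ * ‖G‖ ≤ ‖G‖ := mul_le_of_le_one_left (norm_nonneg _) hw
      gcongr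
    have t4 : ‖S0 N z β * ww z β - Ak (cn z β) * (ww z β * G) * ZP β‖ ^ 2 ≤
        2 * ‖S0 N z β‖ ^ 2 + 2 * (C2 ^ 2 * ‖G‖ ^ 2 * ‖ZP β‖ ^ 2) := by
      have t5 : ‖S0 N z β * ww z β - Ak (cn z β) * (ww z β * G) * ZP β‖ ≤ ‖S0 N z β‖ + C2 * ‖G‖ * ‖ZP β‖ :=
        (norm_sub_le _ _).trans (add_le_add t2 t3)
      calc ‖S0 N z β * ww z β - Ak (cn z β) * (ww z β * G) * ZP β‖ ^ 2
          ≤ (‖S0 N z β‖ + C2 * ‖G‖ * ‖ZP β‖) ^ 2 := pow_le_pow_left₀ (norm_nonneg _) t5 2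
        _ ≤ _ := by nlinarith [sq_nonneg (‖S0 N z β‖ - C2 * ‖G‖ * ‖ZP β‖)]
    calc ‖Zt (1 + 2 * z)‖ ^ 2 * ‖S0 N z β * ww z β - Ak (cn z β) * (ww z β * G) * ZP β‖ ^ 2
        ≤ (144 * Y ^ 4) * (2 * ‖S0 N z β‖ ^ 2 + 2 * (C2 ^ 2 * ‖G‖ ^ 2 * ‖ZP β‖ ^ 2)) :=
          mul_le_mul t1 t4 (by positivity) (by positivity)
      _ ≤ (144 * Y ^ 4) * (2 * ‖S0 N z β‖ ^ 2 + 2 * (C2 ^ 2 * ‖G‖ ^ 2 * (C1 * Real.log A ^ B1))) := by
          gcongr
      _ = _ := by ring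
  have m1 : Measurable fun β : Fin k → ℝ => ENNReal.ofReal (288 * Y ^ 4) * ENNReal.ofReal (‖S0 N z β‖ ^ 2) :=
    (ENNReal.measurable_ofReal.comp ((S0_meas N z).norm.pow_const 2)).const_mul _
  refine (setLIntegral_mono' (Gd_meas k A) hpt).trans ?_
  rw [lintegral_add_left m1, lintegral_const_mul' _ _ ENNReal.ofReal_ne_top,
    lintegral_const_mul' _ _ ENNReal.ofReal_ne_top]
  have r1 : ∫⁻ β in Gd k A, ENNReal.ofReal (‖S0 N z β‖ ^ 2) ∂(mS k A) ≤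
      ENNReal.ofReal (3 * 2 ^ k * C4 ^ 2 * A ^ k * (1 + Real.log N) ^ k) := by
    refine (lintegral_mono' Measure.restrict_le_self le_rfl).trans ?_
    exact fl_bd hfl k A C4 N (fun n => Fz (∏ j, n j) z) (by linarith) hN hNA hC4.le
      (fun n hn => h4 _ z (tup_prod hn) (by rw [hzr]; norm_num))
  have r2 : ∫⁻ β in Gd k A, ENNReal.ofReal (‖∏ j, riemannZeta (((31 / 32 : ℝ) : ℂ) +
      ((y + β j : ℝ) : ℂ) * Complex.I)‖ ^ 2) ∂(mS k A) ≤ ENNReal.ofReal (C3 * (A + |y|) ^ k) :=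
    (lintegral_mono' Measure.restrict_le_self le_rfl).trans (h3 A y (by linarith))
  calc ENNReal.ofReal (288 * Y ^ 4) * ∫⁻ β in Gd k A, ENNReal.ofReal (‖S0 N z β‖ ^ 2) ∂(mS k A) +
      ENNReal.ofReal (288 * Y ^ 4 * (C2 ^ 2 * (C1 * Real.log A ^ B1))) *
        ∫⁻ β in Gd k A, ENNReal.ofReal (‖∏ j, riemannZeta (((31 / 32 : ℝ) : ℂ) +
          ((y + β j : ℝ) : ℂ) * Complex.I)‖ ^ 2) ∂(mS k A)
      ≤ ENNReal.ofReal (288 * Y ^ 4) * ENNReal.ofReal (3 * 2 ^ k * C4 ^ 2 * A ^ k * (1 + Real.log N) ^ k) +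
        ENNReal.ofReal (288 * Y ^ 4 * (C2 ^ 2 * (C1 * Real.log A ^ B1))) * ENNReal.ofReal (C3 * (A + |y|) ^ k) := by
        gcongr
    _ = ENNReal.ofReal (288 * Y ^ 4 * (3 * 2 ^ k * C4 ^ 2 * A ^ k * (1 + Real.log N) ^ k) +
        288 * Y ^ 4 * (C2 ^ 2 * (C1 * Real.log A ^ B1)) * (C3 * (A + |y|) ^ k)) := by
        rw [← ENNReal.ofReal_mul (by positivity), ← ENNReal.ofReal_mul (by positivity),
          ← ENNReal.ofReal_add (by positivity) (by positivity)]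
    _ ≤ _ := by
        apply ENNReal.ofReal_le_ofReal
        have u1 : (1 + Real.log N) ^ k ≤ 2 ^ k * Real.log A ^ (k + B1) := by
          calc (1 + Real.log N) ^ k ≤ (2 * Real.log A) ^ k := by
                apply pow_le_pow_left₀ (by linarith)
                linarith
            _ = 2 ^ k * Real.log A ^ k := mul_pow _ _ _
            _ ≤ 2 ^ k * Real.log A ^ (k + B1) := by
                apply mul_le_mul_of_nonneg_left _ (by positivity)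
                exact pow_le_pow_right₀ hlog (by omega)
        have u2 : Real.log A ^ B1 ≤ Real.log A ^ (k + B1) := pow_le_pow_right₀ hlog (by omega)
        have u3 : (A + |y|) ^ k ≤ A ^ k * Y ^ k := by
          rw [← mul_pow]
          apply pow_le_pow_left₀ (by positivity)
          rw [hY]
          nlinarith [abs_nonneg y]
        have u4 : Y ^ 4 ≤ Y ^ (k + 4) := pow_le_pow_right₀ (by linarith) (by omega)
        have u5 : Y ^ 4 * Y ^ k = Y ^ (k + 4) := by rw [pow_add]; ring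
        have hl0 : 0 ≤ Real.log A := by linarith
        calc 288 * Y ^ 4 * (3 * 2 ^ k * C4 ^ 2 * A ^ k * (1 + Real.log N) ^ k) +
            288 * Y ^ 4 * (C2 ^ 2 * (C1 * Real.log A ^ B1)) * (C3 * (A + |y|) ^ k)
            ≤ 288 * Y ^ (k + 4) * (3 * 2 ^ k * C4 ^ 2 * A ^ k * (2 ^ k * Real.log A ^ (k + B1))) +
              288 * Y ^ 4 * (C2 ^ 2 * (C1 * Real.log A ^ (k + B1))) * (C3 * (A ^ k * Y ^ k)) := by
              gcongr
          _ = 288 * Y ^ (k + 4) * (3 * 2 ^ k * C4 ^ 2 * A ^ k * (2 ^ k * Real.log A ^ (k + B1))) +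
              288 * (Y ^ 4 * Y ^ k) * (C2 ^ 2 * (C1 * Real.log A ^ (k + B1))) * (C3 * A ^ k) := by ring
          _ = _ := by rw [u5]; ring

/-- the right line -/
lemma right_line (hfl : S_FL) (k : ℕ) (hk : 1 ≤ k) : ∃ m₀ : ℕ, ∀ m : ℕ, m₀ ≤ m → 1 ≤ m → ∃ C A₀ : ℝ, 0 < C ∧ 3 ≤ A₀ ∧
    ∀ (A : ℝ) (N : ℕ) (y : ℝ), A₀ ≤ A → A ^ (1 / m : ℝ) / 2 ≤ N → (N : ℝ) ≤ A ^ (1 / m : ℝ) → 1 ≤ N →
    (N : ℝ) ^ (2 * k + 1) ≤ A →
    ∫⁻ β in Gd k A, ENNReal.ofReal (‖Ph N β ((1 / 4 : ℝ) + y * I)‖ ^ 2) ∂(mS k A) ≤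
      ENNReal.ofReal (C * Real.log A ^ k * A ^ (k - 1 / (8 * m) : ℝ) * (2 + |y|) ^ (k + 4)) := by
  obtain ⟨m₀, hm₀⟩ := e3G hfl k 1 0 hk (τ := 1 / 8) (by norm_num) le_rfl
  refine ⟨m₀, fun m hm hm1 => ?_⟩
  obtain ⟨C1, A1, hC1, h1⟩ := hm₀ m hm hm1
  obtain ⟨C2, hC2, h2⟩ := trunc (τ := 1 / 8) (by norm_num)
  refine ⟨4 * (2 * (3 * 2 ^ k * (C2 ^ 2 * 2) * 2 ^ k) + 2 * C1), max A1 3, by positivity, le_max_right _ _,
    fun A N y hA hN1 hN2 hN hNA => ?_⟩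
  have hA3 : 3 ≤ A := (le_max_right _ _).trans hA
  have hAA : A1 ≤ A := (le_max_left _ _).trans hA
  have hA0 : 0 < A := by linarith
  have hA1' : 1 ≤ A := by linarith
  have hm0 : (0 : ℝ) < m := by exact_mod_cast hm1
  have hlog := log_ge hA3
  have hN1' : (1 : ℝ) ≤ N := by exact_mod_cast hN
  have hN0 : (0 : ℝ) < N := by linarith
  have hNle : (N : ℝ) ≤ A := (le_self_pow₀ hN1' (by omega)).trans hNA
  have hlN : Real.log N ≤ Real.log A := Real.log_le_log (by linarith) hNle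
  have hlN0 : 0 ≤ Real.log N := Real.log_nonneg hN1'
  set z : ℂ := ((1 / 4 : ℝ) : ℂ) + y * I with hzdef
  have hzr : z.re = 1 / 4 := by rw [hzdef, re_line]
  set Y : ℝ := 2 + |y| with hY
  have hY2 : 2 ≤ Y := by rw [hY]; linarith [abs_nonneg y]
  have hu : ∀ i : Fin 1, 1 / 2 + 2 * (1 / 8 : ℝ) ≤ (u1 z i).re := by
    intro i
    simp only [u1, add_re, div_ofNat_re, one_re]
    rw [hzr]
    norm_num
  have hv : ∀ i : Fin 0, 1 / 2 + 2 * (1 / 8 : ℝ) ≤ (v0 i).re := fun i => i.elim0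
  have hne : ∀ (β : Fin k → ℝ) (j : Fin k), z + im β j ≠ 0 := by
    intro β j h
    have := congrArg Complex.re h
    rw [add_re, im_re, hzr, zero_re] at this
    norm_num at this
  have hz1 : (1 : ℂ) + 2 * z ≠ 1 := by
    intro h
    have := congrArg Complex.re h
    simp [hzr] at this
  set Sh : (Fin k → ℝ) → ℂ := fun β => ∑ n ∈ tup k N, hz (∏ j, n j) z * cx n β with hSh
  set D : (Fin k → ℝ) → ℂ := fun β => (Sh β - SG (gW (u1 z) v0) N β) +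
    (SG (gW (u1 z) v0) N β - MTW (im β) (u1 z) v0) with hD
  have hPh : ∀ β, Ph N β z = ww z β * (2 * z * D β) := by
    intro β
    rw [Ph_eq N (by rw [hzr]; norm_num) β (hne β)]
    congr 1
    have e1 : Zt (1 + 2 * z) = 2 * z * riemannZeta (1 + 2 * z) := by
      rw [← zeta_eq_pos (s := 1 + 2 * z) (by simp [hzr]; norm_num) hz1]
      ring
    have e2 : riemannZeta (1 + 2 * z) * S0 N z β = Sh β := by
      rw [hSh, S0, Finset.mul_sum]
      refine Finset.sum_congr rfl fun n _ => ?_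
      unfold hz
      ring
    have e3 : riemannZeta (1 + 2 * z) * B0 z β = MTW (im β) (u1 z) v0 := by
      rw [MTW_eq (by rw [hzr]; norm_num) β]
      unfold B0 ZP
      ring
    rw [e1, hD]
    simp only
    rw [← e2, ← e3]
    ring
  have hzn : ‖2 * z‖ ^ 2 ≤ 4 * Y ^ 2 := by
    have h5 : ‖z‖ ≤ Y := by
      refine (Complex.norm_le_abs_re_add_abs_im z).trans ?_
      have : z.im = y := by simp [hzdef]
      rw [hzr, this, hY, abs_of_pos (by norm_num : (0 : ℝ) < 1 / 4)]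
      linarith
    rw [norm_mul, RCLike.norm_ofNat, mul_pow]
    nlinarith [pow_le_pow_left₀ (norm_nonneg z) h5 2]
  have mSh : Measurable Sh := by
    rw [hSh]
    exact Finset.measurable_sum _ fun n _ => measurable_const.mul (meas_cx n)
  have mf : Measurable fun β : Fin k → ℝ => Sh β - SG (gW (u1 z) v0) N β := mSh.sub (meas_SG _ N)
  have mg : Measurable fun β : Fin k → ℝ => SG (gW (u1 z) v0) N β - MTW (im β) (u1 z) v0 :=
    (meas_SG _ N).sub (meas_MTW (τ := 1 / 8) (by norm_num) le_rfl hu hv)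
  -- first error
  have hδN : (N : ℝ) ^ (-(1 / 4) : ℝ) ≤ 2 * A ^ (-(1 / (8 * m)) : ℝ) := by
    have h5 : (N : ℝ) ^ (-(1 / 4) : ℝ) ≤ (A ^ (1 / m : ℝ) / 2) ^ (-(1 / 4) : ℝ) :=
      Real.rpow_le_rpow_of_nonpos (by positivity) hN1 (by norm_num)
    refine h5.trans ?_
    rw [Real.div_rpow (by positivity) (by norm_num), ← Real.rpow_mul hA0.le, div_eq_mul_inv,
      ← Real.rpow_neg (by norm_num), neg_neg, mul_comm]
    have h6 : (2 : ℝ) ^ (1 / 4 : ℝ) ≤ 2 := by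
      calc (2 : ℝ) ^ (1 / 4 : ℝ) ≤ 2 ^ (1 : ℝ) := Real.rpow_le_rpow_of_exponent_le (by norm_num) (by norm_num)
        _ = 2 := Real.rpow_one 2
    have h7 : A ^ (1 / (m : ℝ) * -(1 / 4)) ≤ A ^ (-(1 / (8 * m)) : ℝ) := by
      apply Real.rpow_le_rpow_of_exponent_le hA1'
      have : 0 < 1 / (m : ℝ) := by positivity
      have e : 1 / (8 * (m : ℝ)) = 1 / m * (1 / 8) := by field_simp
      rw [e]
      nlinarith
    exact mul_le_mul h6 h7 (by positivity) (by norm_num)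
  have a1 : ∫⁻ β in Gd k A, ENNReal.ofReal (‖Sh β - SG (gW (u1 z) v0) N β‖ ^ 2) ∂(mS k A) ≤
      ENNReal.ofReal (3 * 2 ^ k * (C2 ^ 2 * 2) * 2 ^ k * Real.log A ^ k * A ^ (k - 1 / (8 * m) : ℝ)) := by
    refine (lintegral_mono' Measure.restrict_le_self le_rfl).trans ?_
    set e : (Fin k → ℕ) → ℂ := fun n => hz (∏ j, n j) z -
      ∑ l ∈ (Finset.Icc 1 N).filter (fun l => IsSquare (l * ∏ j, n j)),
        (af (l * ∏ j, n j) : ℂ) * (l : ℂ) ^ (-(1 / 2 + z)) with he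
    have e1 : ∀ β : Fin k → ℝ, Sh β - SG (gW (u1 z) v0) N β = ∑ n ∈ tup k N, e n * cx n β := by
      intro β
      rw [hSh, sg_eq, ← Finset.sum_sub_distrib]
      refine Finset.sum_congr rfl fun n _ => ?_
      rw [he]
      ring
    simp only [e1]
    refine (fl_bd hfl k A (C2 * (N : ℝ) ^ (-(1 / 8) : ℝ)) N e (by linarith) hN hNA (by positivity)
      (fun n hn => ?_)).trans (ENNReal.ofReal_le_ofReal ?_)
    · have h5 := h2 (∏ j, n j) N z (tup_prod hn) hN (by rw [hzr]; norm_num)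
      rw [norm_sub_rev] at h5
      rw [he]
      refine h5.trans (le_of_eq ?_)
      rw [hzr]
      norm_num
    · have e3 : (C2 * (N : ℝ) ^ (-(1 / 8) : ℝ)) ^ 2 = C2 ^ 2 * (N : ℝ) ^ (-(1 / 4) : ℝ) := by
        rw [mul_pow, ← Real.rpow_natCast ((N : ℝ) ^ (-(1 / 8) : ℝ)), ← Real.rpow_mul hN0.le]
        norm_num
      rw [e3]
      have e4 : (1 + Real.log N) ^ k ≤ 2 ^ k * Real.log A ^ k := by
        rw [← mul_pow]
        apply pow_le_pow_left₀ (by linarith)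
        linarith
      have e5 : A ^ (k - 1 / (8 * m) : ℝ) = A ^ (-(1 / (8 * m)) : ℝ) * A ^ k := by
        rw [← Real.rpow_natCast A k, ← Real.rpow_add hA0]
        congr 1
        ring
      calc 3 * 2 ^ k * (C2 ^ 2 * (N : ℝ) ^ (-(1 / 4) : ℝ)) * A ^ k * (1 + Real.log N) ^ k
          ≤ 3 * 2 ^ k * (C2 ^ 2 * (2 * A ^ (-(1 / (8 * m)) : ℝ))) * A ^ k * (2 ^ k * Real.log A ^ k) := by
            gcongr
        _ = _ := by rw [e5]; ring
  have a2 : ∫⁻ β in Gd k A, ENNReal.ofReal (‖SG (gW (u1 z) v0) N β - MTW (im β) (u1 z) v0‖ ^ 2) ∂(mS k A) ≤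
      ENNReal.ofReal (C1 * Real.log A ^ k * A ^ (k - 1 / (8 * m) : ℝ)) := by
    refine (h1 (u1 z) v0 hu hv A N hAA (by linarith) hN1 hN2 hN).trans (ENNReal.ofReal_le_ofReal ?_)
    have e1 : (1 / 8 : ℝ) / m = 1 / (8 * m) := by field_simp
    rw [e1]
    have e2 : (1 : ℝ) ≤ Real.log A ^ k := one_le_pow₀ hlog
    have e3 : 0 ≤ A ^ (k - 1 / (8 * m) : ℝ) := by positivity
    nlinarith [mul_le_mul_of_nonneg_left e2 (mul_nonneg hC1.le e3)]
  have key := lint_add_sq (μ := (mS k A).restrict (Gd k A)) mf mg (by positivity) (by positivity) a1 a2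
    (h := D) (fun β => rfl)
  have hlast : ∀ β, ENNReal.ofReal (‖Ph N β z‖ ^ 2) ≤
      ENNReal.ofReal (4 * Y ^ 2) * ENNReal.ofReal (‖D β‖ ^ 2) := by
    intro β
    rw [← ENNReal.ofReal_mul (by positivity)]
    apply ENNReal.ofReal_le_ofReal
    rw [hPh, norm_mul, norm_mul, mul_pow, mul_pow]
    have hw := ww_le (z := z) (by rw [hzr]; norm_num) β
    have hw2 : ‖ww z β‖ ^ 2 ≤ 1 := pow_le_one₀ (norm_nonneg _) hw
    calc ‖ww z β‖ ^ 2 * (‖2 * z‖ ^ 2 * ‖D β‖ ^ 2) ≤ 1 * (4 * Y ^ 2 * ‖D β‖ ^ 2) := by gcongr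
      _ = _ := one_mul _
  refine (lintegral_mono hlast).trans ?_
  rw [lintegral_const_mul' _ _ ENNReal.ofReal_ne_top]
  calc ENNReal.ofReal (4 * Y ^ 2) * ∫⁻ β in Gd k A, ENNReal.ofReal (‖D β‖ ^ 2) ∂(mS k A)
      ≤ ENNReal.ofReal (4 * Y ^ 2) * ENNReal.ofReal (2 * (3 * 2 ^ k * (C2 ^ 2 * 2) * 2 ^ k * Real.log A ^ k *
        A ^ (k - 1 / (8 * m) : ℝ)) + 2 * (C1 * Real.log A ^ k * A ^ (k - 1 / (8 * m) : ℝ))) := by
        gcongr
    _ ≤ _ := by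
        rw [← ENNReal.ofReal_mul (by positivity)]
        apply ENNReal.ofReal_le_ofReal
        have u4 : Y ^ 2 ≤ Y ^ (k + 4) := pow_le_pow_right₀ (by linarith) (by omega)
        have hl0 : 0 ≤ Real.log A := by linarith
        calc 4 * Y ^ 2 * (2 * (3 * 2 ^ k * (C2 ^ 2 * 2) * 2 ^ k * Real.log A ^ k *
              A ^ (k - 1 / (8 * m) : ℝ)) + 2 * (C1 * Real.log A ^ k * A ^ (k - 1 / (8 * m) : ℝ)))
            = 4 * (2 * (3 * 2 ^ k * (C2 ^ 2 * 2) * 2 ^ k) + 2 * C1) * Real.log A ^ k *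
                A ^ (k - 1 / (8 * m) : ℝ) * Y ^ 2 := by ring
          _ ≤ _ := by gcongr

end

end Pool.Agent.V8H6.CB
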