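import Pool.Agent.V8H6.CB.Msq

set_option autoImplicit false

/-! Closeness in mean square at all points near the centre. -/

namespace Pool.Agent.V8H6.CB

open Complex hiding im
open Filter Topology MeasureTheory Set
open Pool.Agent.N879.QM Pool.Agent.V8H6.RW
open Pool.Agent.H306R2 (Zt Zt_norm_le zeta_eq_pos Zt_differentiableAt)
open scoped BigOperators

noncomputable section

variable {k : ℕ}

lemma fin_mS' (k : ℕ) (T : ℝ) : IsFiniteMeasure (mS k T) := by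
  unfold mS
  infer_instance

lemma Gd_big {A : ℝ} {β : Fin k → ℝ} (hβ : β ∈ Gd k A) (j : Fin k) : A ^ (1 / 2 : ℝ) ≤ |β j| := by
  have h := hβ.2 ⟨(j, j), le_rfl⟩
  simp only at h
  have e : β j + β j = 2 * β j := by ring
  rw [e, abs_mul, abs_of_pos (by norm_num : (0 : ℝ) < 2)] at h
  linarith

lemma ww_big {A : ℝ} (hA : 16 ≤ A) {β : Fin k → ℝ} (hβ : β ∈ Gd k A) {p : ℂ} (hp' : |p.im| ≤ 1) :
    (∀ j, p + im β j ≠ 0) ∧ 1 ≤ 2 ^ k * ‖ww p β‖ := by
  have h4 : (4 : ℝ) ≤ A ^ (1 / 2 : ℝ) := by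
    rw [← Real.sqrt_eq_rpow]
    exact Real.le_sqrt_of_sq_le (by linarith)
  have h3 : ∀ j, 3 ≤ ‖p + im β j‖ := by
    intro j
    have h1 := Gd_big hβ j
    have h2 := Complex.abs_im_le_norm (p + im β j)
    rw [add_im, im_im] at h2
    have h5 := abs_sub_abs_le_abs_sub (β j) (-p.im)
    rw [abs_neg, sub_neg_eq_add, add_comm (β j)] at h5
    linarith
  have h5 : ∀ j, p + im β j ≠ 0 := by
    intro j h
    have := h3 j
    rw [h, norm_zero] at this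
    linarith
  refine ⟨h5, ?_⟩
  unfold ww
  rw [norm_prod]
  have h6 : (2 : ℝ) ^ k = ∏ _j : Fin k, 2 := by rw [Finset.prod_const, Finset.card_univ, Fintype.card_fin]
  rw [h6, ← Finset.prod_mul_distrib]
  rw [← Finset.prod_const_one (s := (Finset.univ : Finset (Fin k))) (M := ℝ)]
  refine Finset.prod_le_prod (fun _ _ => zero_le_one) fun j _ => ?_
  rw [norm_div]
  have h7 : ‖p + im β j + 2‖ ≤ 2 * ‖p + im β j‖ := by
    refine (norm_add_le _ _).trans ?_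
    rw [RCLike.norm_ofNat]
    linarith [h3 j]
  have h8 : 0 < ‖p + im β j + 2‖ := by
    have := norm_sub_norm_le (p + im β j) (-2)
    rw [sub_neg_eq_add, norm_neg, RCLike.norm_ofNat] at this
    linarith [h3 j]
  rw [← mul_div_assoc, one_le_div h8]
  exact h7

theorem msq (hfl : S_FL) (hz : S_ZET) (k : ℕ) (hk : 1 ≤ k) : ∃ m₀ : ℕ, ∀ m : ℕ, m₀ ≤ m → 1 ≤ m → ∃ C A₀ : ℝ,
    0 < C ∧ 3 ≤ A₀ ∧ ∀ (A : ℝ) (N : ℕ) (p : ℂ), A₀ ≤ A → A ^ (1 / m : ℝ) / 2 ≤ N → (N : ℝ) ≤ A ^ (1 / m : ℝ) →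
    1 ≤ N → |p.re| ≤ 1 / 64 → |p.im| ≤ 1 →
    ∫⁻ β in Gd k A, ENNReal.ofReal (‖Zt (1 + 2 * p) * (S0 N p β - B0 p β)‖ ^ 2) ∂(mS k A) ≤
      ENNReal.ofReal (C * A ^ (k - 1 / (1024 * m) : ℝ)) := by
  obtain ⟨m₁, hm₁⟩ := right_line hfl k hk
  obtain ⟨Ca, A1, B, hCa, hA1, hl⟩ := left_line hfl hz k
  obtain ⟨Ci, hCi, hint⟩ := interp (k + 4)
  refine ⟨max m₁ (2 * k + 1), fun m hm hm1 => ?_⟩
  obtain ⟨Cb, A2, hCb, hA2, hr⟩ := hm₁ m ((le_max_left _ _).trans hm) hm1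
  have hm0 : (0 : ℝ) < m := by exact_mod_cast hm1
  obtain ⟨A3, hA3⟩ := eventually_atTop.1 (log_small (k + B) (θ := 1) one_pos (ρ := 1 / (1024 * m)) (by positivity))
  refine ⟨4 ^ k * (Ci * (Cb + Ca)), max (max A1 A2) (max A3 16), by positivity,
    (hA1.trans (le_max_left _ _)).trans (le_max_left _ _), fun A N p hA hN1 hN2 hN hp hp' => ?_⟩
  have hAA1 : A1 ≤ A := (le_max_left _ _).trans ((le_max_left _ _).trans hA)
  have hAA2 : A2 ≤ A := (le_max_right _ _).trans ((le_max_left _ _).trans hA)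
  have hAA3 : A3 ≤ A := (le_max_left _ _).trans ((le_max_right _ _).trans hA)
  have hA16 : 16 ≤ A := (le_max_right _ _).trans ((le_max_right _ _).trans hA)
  have hA0 : 0 < A := by linarith
  have hA1' : 1 ≤ A := by linarith
  have hlog := log_ge (hA1.trans hAA1)
  have hl0 : 0 ≤ Real.log A := by linarith
  have hN1' : (1 : ℝ) ≤ N := by exact_mod_cast hN
  have hNA : (N : ℝ) ^ (2 * k + 1) ≤ A := by
    calc (N : ℝ) ^ (2 * k + 1) ≤ (A ^ (1 / m : ℝ)) ^ (2 * k + 1) := pow_le_pow_left₀ (by linarith) hN2 _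
      _ = A ^ (1 / m * (2 * k + 1 : ℕ) : ℝ) := by rw [← Real.rpow_natCast, ← Real.rpow_mul hA0.le]
      _ ≤ A ^ (1 : ℝ) := by
          apply Real.rpow_le_rpow_of_exponent_le hA1'
          rw [one_div, inv_mul_le_iff₀ hm0, mul_one]
          exact_mod_cast (le_max_right _ _).trans hm
      _ = A := Real.rpow_one A
  have := fin_mS' k A
  have hlg := hA3 A hAA3
  rw [one_mul] at hlg
  set Eb : ℝ := Cb * Real.log A ^ k * A ^ (k - 1 / (8 * m) : ℝ) with hEb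
  set Ea : ℝ := Ca * Real.log A ^ B * A ^ k with hEa
  have hK : (1 : ℝ) ≤ A ^ (1 / (16 * m) : ℝ) := Real.one_le_rpow hA1' (by positivity)
  have main := hint ((mS k A).restrict (Gd k A)) (fun β z => Ph N β z)
    (fun β z h1 _ => Ph_diff N β (by linarith)) (fun β => Ph_gr N β)
    (Ph_meas N (fun y : ℝ => ((1 / 4 : ℝ) : ℂ) + y * I) (by fun_prop) (fun y => by rw [re_line]; norm_num))
    (Ph_meas N (fun y : ℝ => ((-1 / 32 : ℝ) : ℂ) + y * I) (by fun_prop) (fun y => by rw [re_line]; norm_num))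
    Eb Ea (by positivity) (by positivity)
    (fun y => hr A N y hAA2 hN1 hN2 hN hNA) (fun y => hl A N y hAA1 hN hNA)
    (A ^ (1 / (16 * m) : ℝ)) p hK hp hp'
  have hpt : ∀ β ∈ Gd k A, ENNReal.ofReal (‖Zt (1 + 2 * p) * (S0 N p β - B0 p β)‖ ^ 2) ≤
      ENNReal.ofReal (4 ^ k) * ENNReal.ofReal (‖Ph N β p‖ ^ 2) := by
    intro β hβ
    obtain ⟨h1, h2⟩ := ww_big hA16 hβ hp'
    rw [← ENNReal.ofReal_mul (by positivity)]
    apply ENNReal.ofReal_le_ofReal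
    have hpr := abs_le.1 hp
    rw [Ph_eq N (by linarith) β h1, norm_mul (ww p β), mul_pow]
    set x := ‖Zt (1 + 2 * p) * (S0 N p β - B0 p β)‖
    have h3 : (1 : ℝ) ≤ (2 ^ k * ‖ww p β‖) ^ 2 := one_le_pow₀ h2
    calc x ^ 2 ≤ (2 ^ k * ‖ww p β‖) ^ 2 * x ^ 2 := le_mul_of_one_le_left (sq_nonneg _) h3
      _ = 4 ^ k * (‖ww p β‖ ^ 2 * x ^ 2) := by
          rw [mul_pow, ← pow_mul, mul_comm k 2, pow_mul]
          norm_num
          ring
  refine (setLIntegral_mono' (Gd_meas k A) hpt).trans ?_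
  rw [lintegral_const_mul' _ _ ENNReal.ofReal_ne_top]
  refine (mul_le_mul_right main _).trans ?_
  rw [← ENNReal.ofReal_mul (by positivity)]
  apply ENNReal.ofReal_le_ofReal
  have hk0 : (0 : ℝ) ≤ k := Nat.cast_nonneg k
  have b1 : A ^ (1 / (16 * m) : ℝ) * Eb ≤ Cb * A ^ (k - 1 / (1024 * m) : ℝ) := by
    have g1 : Real.log A ^ k ≤ A ^ (1 / (1024 * m) : ℝ) :=
      (pow_le_pow_right₀ hlog (by omega)).trans hlg
    calc A ^ (1 / (16 * m) : ℝ) * Eb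
        ≤ A ^ (1 / (16 * m) : ℝ) * (Cb * A ^ (1 / (1024 * m) : ℝ) * A ^ (k - 1 / (8 * m) : ℝ)) := by
          rw [hEb]
          gcongr
      _ = Cb * (A ^ (1 / (16 * m) : ℝ) * A ^ (1 / (1024 * m) : ℝ) * A ^ (k - 1 / (8 * m) : ℝ)) := by ring
      _ ≤ Cb * A ^ (k - 1 / (1024 * m) : ℝ) := by
          apply mul_le_mul_of_nonneg_left _ hCb.le
          rw [← Real.rpow_add hA0, ← Real.rpow_add hA0]
          apply Real.rpow_le_rpow_of_exponent_le hA1'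
          have e1 : 1 / (16 * (m : ℝ)) = 64 * (1 / (1024 * m)) := by field_simp; norm_num
          have e2 : 1 / (8 * (m : ℝ)) = 128 * (1 / (1024 * m)) := by field_simp; norm_num
          have e3 : 0 < 1 / (1024 * (m : ℝ)) := by positivity
          rw [e1, e2]
          linarith
  have b2 : (A ^ (1 / (16 * m) : ℝ)) ^ (-(1 / 32) : ℝ) * Ea ≤ Ca * A ^ (k - 1 / (1024 * m) : ℝ) := by
    have g1 : Real.log A ^ B ≤ A ^ (1 / (1024 * m) : ℝ) :=
      (pow_le_pow_right₀ hlog (by omega)).trans hlg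
    calc (A ^ (1 / (16 * m) : ℝ)) ^ (-(1 / 32) : ℝ) * Ea
        ≤ (A ^ (1 / (16 * m) : ℝ)) ^ (-(1 / 32) : ℝ) * (Ca * A ^ (1 / (1024 * m) : ℝ) * A ^ k) := by
          rw [hEa]
          gcongr
      _ = Ca * (A ^ (1 / (16 * m) * -(1 / 32) : ℝ) * A ^ (1 / (1024 * m) : ℝ) * A ^ (k : ℝ)) := by
          rw [← Real.rpow_mul hA0.le, Real.rpow_natCast]
          ring
      _ ≤ Ca * A ^ (k - 1 / (1024 * m) : ℝ) := by
          apply mul_le_mul_of_nonneg_left _ hCa.le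
          rw [← Real.rpow_add hA0, ← Real.rpow_add hA0]
          apply Real.rpow_le_rpow_of_exponent_le hA1'
          have e1 : 1 / (16 * (m : ℝ)) * -(1 / 32) = -(2 * (1 / (1024 * m))) := by field_simp; norm_num
          rw [e1]
          linarith
  calc 4 ^ k * (Ci * (A ^ (1 / (16 * m) : ℝ) * Eb + (A ^ (1 / (16 * m) : ℝ)) ^ (-(1 / 32) : ℝ) * Ea))
      ≤ 4 ^ k * (Ci * (Cb * A ^ (k - 1 / (1024 * m) : ℝ) + Ca * A ^ (k - 1 / (1024 * m) : ℝ))) := by gcongr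
    _ = _ := by ring

end

end Pool.Agent.V8H6.CB
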