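import Pool.Agent.V8H6.CB.Lf
import Pool.Agent.Helper240.ZU.A4

set_option autoImplicit false

/-! The second moment of the zeta function on the line `Re = 31/32`. -/

namespace Pool.Agent.V8H6.CB

open Complex hiding im
open Filter Topology MeasureTheory Set
open Pool.Agent.N879.QM
open scoped BigOperators ComplexConjugate

noncomputable section

/-- the square on the line -/
def gz (u : ℝ) : ℝ := ‖riemannZeta (((31 / 32 : ℝ) : ℂ) + u * Complex.I)‖ ^ 2

lemma re_line (a u : ℝ) : ((a : ℂ) + u * Complex.I).re = a := by simp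

lemma line_ne (u : ℝ) : ((31 / 32 : ℝ) : ℂ) + u * Complex.I ≠ 1 := by
  intro h
  have := congrArg Complex.re h
  rw [re_line, Complex.one_re] at this
  norm_num at this

lemma zline_cont : Continuous fun u : ℝ => riemannZeta (((31 / 32 : ℝ) : ℂ) + u * Complex.I) := by
  rw [continuous_iff_continuousAt]
  intro u
  refine ContinuousAt.comp (g := riemannZeta) (f := fun u : ℝ => ((31 / 32 : ℝ) : ℂ) + u * Complex.I) ?_
    (by fun_prop)
  exact (differentiableAt_riemannZeta (line_ne u)).continuousAt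

lemma gz_cont : Continuous gz := by
  unfold gz
  exact (zline_cont.norm).pow 2

lemma gz_nonneg (u : ℝ) : 0 ≤ gz u := sq_nonneg _

lemma gz_even (u : ℝ) : gz (-u) = gz u := by
  unfold gz
  have : (((31 / 32 : ℝ) : ℂ) + ((-u : ℝ) : ℂ) * Complex.I) = conj (((31 / 32 : ℝ) : ℂ) + u * Complex.I) := by
    rw [map_add, map_mul, Complex.conj_ofReal, Complex.conj_ofReal, Complex.conj_I]
    push_cast
    ring
  rw [this, riemannZeta_conj, Complex.norm_conj]

lemma gz_int : ∃ C : ℝ, 0 < C ∧ ∀ T : ℝ, 1 ≤ T → ∫ u in (-T)..T, gz u ≤ C * T := by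
  obtain ⟨N, hN⟩ := _root_.ZU.zeta_meansq (31 / 32) (31 / 32) (by norm_num) le_rfl (by norm_num) 1
    one_pos 1 one_pos
  obtain ⟨T0, hT0, h⟩ := hN N le_rfl
  have key : ∀ T : ℝ, T0 ≤ T → 1 ≤ T → ∫ u in (-T)..T, gz u ≤ (4 + 12 * (N : ℝ) ^ 2) * T := by
    intro T hT hT1
    have h1 := h T hT (31 / 32) ⟨le_rfl, le_rfl⟩
    have e1 : ∫ u in (-T)..T, gz u = 2 * ∫ u in (0 : ℝ)..T, gz u := by
      rw [← intervalIntegral.integral_add_adjacent_intervals (b := 0) (gz_cont.intervalIntegrable _ _)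
        (gz_cont.intervalIntegrable _ _)]
      have : ∫ u in (-T)..0, gz u = ∫ u in (0 : ℝ)..T, gz u := by
        have h2 := intervalIntegral.integral_comp_neg (f := gz) (a := 0) (b := T)
        rw [neg_zero] at h2
        rw [← h2]
        simp only [gz_even]
      rw [this]
      ring
    have cDN : Continuous fun t : ℝ => _root_.ZU.DN N (((31 / 32 : ℝ) : ℂ) + t * Complex.I) := by
      unfold _root_.ZU.DN
      refine continuous_finsetSum _ fun n hn => ?_
      have hn0 : (n : ℂ) ≠ 0 := by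
        have := (Finset.mem_Icc.1 hn).1
        exact_mod_cast (by omega : n ≠ 0)
      exact Continuous.const_cpow (by fun_prop) (Or.inl hn0)
    have cd : Continuous fun t : ℝ => ‖riemannZeta (((31 / 32 : ℝ) : ℂ) + t * Complex.I) -
        _root_.ZU.DN N (((31 / 32 : ℝ) : ℂ) + t * Complex.I)‖ ^ 2 :=
      ((zline_cont.sub cDN).norm).pow 2
    have hDN : ∀ t : ℝ, ‖_root_.ZU.DN N (((31 / 32 : ℝ) : ℂ) + t * Complex.I)‖ ≤ N := by
      intro t
      unfold _root_.ZU.DN
      refine (norm_sum_le _ _).trans ?_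
      calc ∑ n ∈ Finset.Icc 1 N, ‖(n : ℂ) ^ (-(((31 / 32 : ℝ) : ℂ) + t * Complex.I))‖
          ≤ ∑ n ∈ Finset.Icc 1 N, (1 : ℝ) := by
            refine Finset.sum_le_sum fun n hn => ?_
            have hn1 := (Finset.mem_Icc.1 hn).1
            rw [Complex.norm_natCast_cpow_of_pos (by omega)]
            apply Real.rpow_le_one_of_one_le_of_nonpos (by exact_mod_cast hn1)
            rw [Complex.neg_re, re_line]
            norm_num
        _ = N := by simp
    have e2 : ∫ u in (0 : ℝ)..T, gz u ≤ ∫ u in (-1 : ℝ)..(T + 1), (2 * ‖riemannZeta (((31 / 32 : ℝ) : ℂ) + u * Complex.I) -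
        _root_.ZU.DN N (((31 / 32 : ℝ) : ℂ) + u * Complex.I)‖ ^ 2 + 2 * (N : ℝ) ^ 2) := by
      calc ∫ u in (0 : ℝ)..T, gz u ≤ ∫ u in (-1 : ℝ)..(T + 1), gz u := by
            apply intervalIntegral.integral_mono_interval (by norm_num) (by linarith) (by linarith)
              (Eventually.of_forall fun u => gz_nonneg u) (gz_cont.intervalIntegrable _ _)
        _ ≤ _ := by
            apply intervalIntegral.integral_mono_on (by linarith) (gz_cont.intervalIntegrable _ _)
              (((cd.const_mul 2).add continuous_const).intervalIntegrable _ _)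
            intro u _
            unfold gz
            set a := riemannZeta (((31 / 32 : ℝ) : ℂ) + u * Complex.I)
            set b := _root_.ZU.DN N (((31 / 32 : ℝ) : ℂ) + u * Complex.I)
            have h3 : ‖a‖ ≤ ‖a - b‖ + N := by
              calc ‖a‖ = ‖(a - b) + b‖ := by rw [sub_add_cancel]
                _ ≤ ‖a - b‖ + ‖b‖ := norm_add_le _ _
                _ ≤ _ := by linarith [hDN u]
            have h4 : ‖a‖ ^ 2 ≤ (‖a - b‖ + N) ^ 2 := pow_le_pow_left₀ (norm_nonneg _) h3 2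
            show ‖a‖ ^ 2 ≤ 2 * ‖a - b‖ ^ 2 + 2 * (N : ℝ) ^ 2
            nlinarith [sq_nonneg (‖a - b‖ - N)]
    have e3 : ∫ u in (-1 : ℝ)..(T + 1), (2 * ‖riemannZeta (((31 / 32 : ℝ) : ℂ) + u * Complex.I) -
        _root_.ZU.DN N (((31 / 32 : ℝ) : ℂ) + u * Complex.I)‖ ^ 2 + 2 * (N : ℝ) ^ 2) ≤
        2 * T + 2 * (N : ℝ) ^ 2 * (T + 2) := by
      rw [intervalIntegral.integral_add ((cd.const_mul 2).intervalIntegrable _ _)
        (continuous_const.intervalIntegrable _ _), intervalIntegral.integral_const_mul,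
        intervalIntegral.integral_const, smul_eq_mul]
      have : (T + 1 - -1) * (2 * (N : ℝ) ^ 2) = 2 * (N : ℝ) ^ 2 * (T + 2) := by ring
      rw [this]
      linarith
    rw [e1]
    have hNN : 0 ≤ (N : ℝ) ^ 2 := sq_nonneg _
    nlinarith [e2.trans e3]
  refine ⟨(4 + 12 * (N : ℝ) ^ 2) * (T0 + 1), by positivity, fun T hT => ?_⟩
  calc ∫ u in (-T)..T, gz u ≤ ∫ u in (-((T0 + 1) * T))..((T0 + 1) * T), gz u := by
        have : T ≤ (T0 + 1) * T := by nlinarith
        apply intervalIntegral.integral_mono_interval (by linarith) (by linarith) this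
          (Eventually.of_forall fun u => gz_nonneg u) (gz_cont.intervalIntegrable _ _)
    _ ≤ (4 + 12 * (N : ℝ) ^ 2) * ((T0 + 1) * T) := key _ (by nlinarith) (by nlinarith)
    _ = _ := by ring

theorem zs : ∃ C : ℝ, 0 < C ∧ ∀ A y : ℝ, 1 ≤ A →
    ∫⁻ t, ENNReal.ofReal (‖riemannZeta (((31 / 32 : ℝ) : ℂ) + ((y + t : ℝ) : ℂ) * Complex.I)‖ ^ 2)
      ∂(volume.restrict (Icc (-A) A)) ≤ ENNReal.ofReal (C * (A + |y|)) := by
  obtain ⟨C, hC, h⟩ := gz_int
  refine ⟨C, hC, fun A y hA => ?_⟩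
  have hc : Continuous fun t : ℝ => gz (y + t) := gz_cont.comp (by fun_prop)
  have h1 := Tel.lint1 (A := -A) (B := A) (by linarith) hc (fun t => gz_nonneg _)
  have e : ∀ t : ℝ, ‖riemannZeta (((31 / 32 : ℝ) : ℂ) + ((y + t : ℝ) : ℂ) * Complex.I)‖ ^ 2 = gz (y + t) :=
    fun t => rfl
  simp only [e]
  rw [h1]
  apply ENNReal.ofReal_le_ofReal
  rw [intervalIntegral.integral_comp_add_left (fun u => gz u) y]
  calc ∫ u in (y + -A)..(y + A), gz u ≤ ∫ u in (-(A + |y|))..(A + |y|), gz u := by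
        have h2 := neg_abs_le y
        have h3 := le_abs_self y
        apply intervalIntegral.integral_mono_interval (by linarith) (by linarith) (by linarith)
          (Eventually.of_forall fun u => gz_nonneg u) (gz_cont.intervalIntegrable _ _)
    _ ≤ _ := h _ (by linarith [abs_nonneg y])

/-- product form -/
theorem zsk (k : ℕ) : ∃ C : ℝ, 0 < C ∧ ∀ A y : ℝ, 1 ≤ A →
    ∫⁻ β, ENNReal.ofReal (‖∏ j, riemannZeta (((31 / 32 : ℝ) : ℂ) + ((y + β j : ℝ) : ℂ) * Complex.I)‖ ^ 2)
      ∂(mS k A) ≤ ENNReal.ofReal (C * (A + |y|) ^ k) := by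
  obtain ⟨C, hC, h⟩ := zs
  refine ⟨C ^ k, by positivity, fun A y hA => ?_⟩
  have hc : Continuous fun t : ℝ => riemannZeta (((31 / 32 : ℝ) : ℂ) + ((y + t : ℝ) : ℂ) * Complex.I) :=
    zline_cont.comp (by fun_prop)
  have h1 := Tel.pmom (A := A) (V := C * (A + |y|)) (by positivity) hc (h A y hA) k
  rwa [mul_pow] at h1

end

end Pool.Agent.V8H6.CB
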