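import Pool.Agent.V8H6.CB.Im
import Pool.Agent.V8H6.CB.Zs

set_option autoImplicit false

/-! The function which is interpolated. -/

namespace Pool.Agent.V8H6.CB

open Complex hiding im
open Filter Topology MeasureTheory Set
open Pool.Agent.N879.QM Pool.Agent.V8H6.RW
open Pool.Agent.H306R2 (Zt Zt_norm_le zeta_eq_pos Zt_differentiableAt)
open scoped BigOperators

noncomputable section

variable {k : ℕ}

/-- the sum without zeta factor -/
def S0 (N : ℕ) (z : ℂ) (β : Fin k → ℝ) : ℂ := ∑ n ∈ tup k N, Fz (∏ j, n j) z * cx n β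

/-- the product of zeta values over the pairs -/
def ZP (β : Fin k → ℝ) : ℂ := ∏ r : Pr k, riemannZeta (1 + im β r.1.1 + im β r.1.2)

/-- its limit -/
def B0 (z : ℂ) (β : Fin k → ℝ) : ℂ := Ak (cn z β) * (∏ j, riemannZeta (1 + z + im β j)) * ZP β

/-- the auxiliary factor -/
def ww (z : ℂ) (β : Fin k → ℝ) : ℂ := ∏ j, (z + im β j) / (z + im β j + 2)

/-- the interpolated function -/
def Ph (N : ℕ) (β : Fin k → ℝ) (z : ℂ) : ℂ :=
  Zt (1 + 2 * z) * (S0 N z β * ww z β - Ak (cn z β) * (∏ j, Zt (1 + z + im β j) / (z + im β j + 2)) * ZP β)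

lemma im_re (β : Fin k → ℝ) (j : Fin k) : (im β j).re = 0 := by simp [im]

lemma im_im (β : Fin k → ℝ) (j : Fin k) : (im β j).im = β j := by simp [im]

lemma den_bd {z : ℂ} (hz : -1 ≤ z.re) (β : Fin k → ℝ) (j : Fin k) : 1 ≤ ‖z + im β j + 2‖ := by
  have h := (le_abs_self _).trans (Complex.abs_re_le_norm (z + im β j + 2))
  simp only [add_re, im_re, re_ofNat] at h
  linarith

lemma den_ne {z : ℂ} (hz : -1 ≤ z.re) (β : Fin k → ℝ) (j : Fin k) : z + im β j + 2 ≠ 0 := by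
  intro h
  have := den_bd hz β j
  rw [h, norm_zero] at this
  linarith

lemma frac_le {z : ℂ} (hz : -1 ≤ z.re) (β : Fin k → ℝ) (j : Fin k) : ‖(z + im β j) / (z + im β j + 2)‖ ≤ 1 := by
  rw [norm_div, div_le_one (by linarith [den_bd hz β j])]
  have e : ∀ w : ℂ, ‖w‖ ^ 2 = w.re ^ 2 + w.im ^ 2 := fun w => by
    rw [Complex.sq_norm, Complex.normSq_apply]; ring
  refine le_of_sq_le_sq ?_ (norm_nonneg _)
  rw [e, e]
  simp only [add_re, add_im, im_re, im_im, re_ofNat, im_ofNat]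
  nlinarith

lemma ww_le {z : ℂ} (hz : -1 ≤ z.re) (β : Fin k → ℝ) : ‖ww z β‖ ≤ 1 := by
  unfold ww
  rw [norm_prod]
  exact Finset.prod_le_one (fun _ _ => norm_nonneg _) fun j _ => frac_le hz β j

lemma quot_eq {z : ℂ} (hz : -1 < z.re) (β : Fin k → ℝ) (hne : ∀ j, z + im β j ≠ 0) :
    (∏ j, Zt (1 + z + im β j) / (z + im β j + 2)) = ww z β * ∏ j, riemannZeta (1 + z + im β j) := by
  unfold ww
  rw [← Finset.prod_mul_distrib]
  refine Finset.prod_congr rfl fun j _ => ?_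
  rw [← zeta_eq_pos (s := 1 + z + im β j) (by simp [im_re]; linarith) (by
    intro h
    apply hne j
    linear_combination h)]
  have := den_ne hz.le β j
  field_simp
  ring

lemma Ph_eq {z : ℂ} (N : ℕ) (hz : -1 < z.re) (β : Fin k → ℝ) (hne : ∀ j, z + im β j ≠ 0) :
    Ph N β z = ww z β * (Zt (1 + 2 * z) * (S0 N z β - B0 z β)) := by
  unfold Ph B0
  rw [quot_eq hz β hne]
  ring

lemma tup_prod {N : ℕ} {n : Fin k → ℕ} (hn : n ∈ tup k N) : 1 ≤ ∏ j, n j := by
  apply Nat.one_le_iff_ne_zero.2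
  refine Finset.prod_ne_zero_iff.2 fun j _ => ?_
  have := (Finset.mem_Icc.1 (Fintype.mem_piFinset.1 hn j)).1
  omega

lemma S0_diff (N : ℕ) (β : Fin k → ℝ) {z : ℂ} (hz : -1 / 2 < z.re) : DifferentiableAt ℂ (fun z => S0 N z β) z := by
  unfold S0
  refine DifferentiableAt.fun_sum fun n hn => ?_
  exact (Fz_diff (tup_prod hn) hz).mul (differentiableAt_const _)

lemma cn_diff_Zt {z : ℂ} (hz : -1 < z.re) (w : ℂ) (hw : w.re = 0) :
    DifferentiableAt ℂ (fun z => Zt (1 + z + w)) z := by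
  refine DifferentiableAt.comp (g := Zt) (f := fun z : ℂ => 1 + z + w) z (Zt_differentiableAt ?_) (by fun_prop)
  simp [hw]
  linarith

lemma Ph_diff (N : ℕ) (β : Fin k → ℝ) {z : ℂ} (hz : -1 / 16 < z.re) : DifferentiableAt ℂ (Ph N β) z := by
  unfold Ph
  have h1 : DifferentiableAt ℂ (fun z : ℂ => Zt (1 + 2 * z)) z :=
    DifferentiableAt.comp (g := Zt) (f := fun z : ℂ => 1 + 2 * z) z (Zt_differentiableAt (by
      simp
      linarith)) (by fun_prop)
  have h2 : DifferentiableAt ℂ (fun z : ℂ => ww z β) z := by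
    unfold ww
    refine DifferentiableAt.fun_finsetProd fun j _ => ?_
    exact DifferentiableAt.div (by fun_prop) (by fun_prop) (den_ne (by linarith) β j)
  have h3 : DifferentiableAt ℂ (fun z : ℂ => Ak (cn z β)) z :=
    (Ak_diff β).differentiableAt ((isOpen_lt continuous_const Complex.continuous_re).mem_nhds hz)
  have h4 : DifferentiableAt ℂ (fun z : ℂ => ∏ j, Zt (1 + z + im β j) / (z + im β j + 2)) z := by
    refine DifferentiableAt.fun_finsetProd fun j _ => ?_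
    exact DifferentiableAt.div (cn_diff_Zt (by linarith) _ (im_re β j)) (by fun_prop) (den_ne (by linarith) β j)
  exact h1.mul (((S0_diff N β (by linarith)).mul h2).sub ((h3.mul h4).mul (differentiableAt_const _)))

lemma norm_lin (a b : ℂ) (z : ℂ) : ‖a + b * z‖ + 1 ≤ (1 + ‖a‖ + ‖b‖) * (1 + ‖z‖) := by
  have h := norm_add_le a (b * z)
  rw [norm_mul] at h
  nlinarith [norm_nonneg a, norm_nonneg b, norm_nonneg z, mul_nonneg (norm_nonneg a) (norm_nonneg z)]

lemma Zt_gr {a b : ℂ} {x y : ℝ} (h : ∀ z : ℂ, x ≤ z.re → z.re ≤ y → 1 / 2 ≤ (a + b * z).re) :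
    Gr (fun z => Zt (a + b * z)) x y := by
  refine Gr.of_norm (C := 3 * (1 + ‖a‖ + ‖b‖) ^ 2) (K := 2) (by positivity) fun z h1 h2 => ?_
  refine (Zt_norm_le (h z h1 h2)).trans ?_
  rw [mul_assoc, ← mul_pow]
  have := norm_lin a b z
  gcongr

lemma S0_gr (N : ℕ) (β : Fin k → ℝ) : Gr (fun z => S0 N z β) (-1 / 32) (1 / 4) := by
  obtain ⟨C, hC, h⟩ := Fz_bd
  refine Gr.of_bd (C := ∑ n ∈ tup k N, C * ‖cx n β‖) (Finset.sum_nonneg fun n _ => by positivity) fun z h1 _ => ?_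
  unfold S0
  refine (norm_sum_le _ _).trans (Finset.sum_le_sum fun n hn => ?_)
  rw [norm_mul]
  exact mul_le_mul_of_nonneg_right (h _ z (tup_prod hn) (by linarith)) (norm_nonneg _)

lemma Ph_gr (N : ℕ) (β : Fin k → ℝ) : Gr (Ph N β) (-1 / 32) (1 / 4) := by
  unfold Ph
  refine Gr.mul (Zt_gr fun z h1 _ => by simp; linarith) (Gr.sub ((S0_gr N β).mul ?_) (((?_ : Gr _ _ _).mul ?_).mul
    (Gr.const _ _ _)))
  · exact Gr.of_bd zero_le_one fun z h1 _ => ww_le (by linarith) β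
  · obtain ⟨C, hC, h⟩ := Ak_bd (k + 1)
    exact Gr.of_bd hC.le fun z h1 _ => h _ (fun j => cn_re (by linarith) β j)
  · refine Gr.prod _ _ fun j => ?_
    have e : (fun z : ℂ => Zt (1 + z + im β j) / (z + im β j + 2)) =
      fun z => Zt ((1 + im β j) + 1 * z) * (z + im β j + 2)⁻¹ := by
      funext z
      rw [div_eq_mul_inv]
      congr 2
      ring
    rw [e]
    refine Gr.mul (Zt_gr fun z h1 _ => by simp [im_re]; linarith) ?_
    refine Gr.of_bd zero_le_one fun z h1 _ => ?_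
    rw [norm_inv]
    exact inv_le_one_of_one_le₀ (den_bd (by linarith) β j)

/-! measurability -/

lemma Zt_contOn : ContinuousOn Zt {s : ℂ | 0 < s.re} := fun _ hs =>
  (Zt_differentiableAt hs).continuousAt.continuousWithinAt

lemma meas_ZP : Measurable fun β : Fin k → ℝ => ZP β := by
  unfold ZP
  refine Finset.measurable_prod _ fun r _ => meas_zeta.comp ?_
  unfold im
  fun_prop

lemma im_cont (j : Fin k) : Continuous fun β : Fin k → ℝ => im β j := by
  unfold im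
  fun_prop

/-- joint measurability along a continuous family of points in the strip -/
lemma Ph_meas (N : ℕ) (g : ℝ → ℂ) (hg : Continuous g) (hr : ∀ ω, -1 / 16 < (g ω).re) :
    Measurable fun w : (Fin k → ℝ) × ℝ => Ph N w.1 (g w.2) := by
  unfold Ph
  have cg : Continuous fun w : (Fin k → ℝ) × ℝ => g w.2 := hg.comp continuous_snd
  have ci : ∀ j, Continuous fun w : (Fin k → ℝ) × ℝ => im w.1 j := fun j => (im_cont j).comp continuous_fst
  have m1 : Measurable fun w : (Fin k → ℝ) × ℝ => Zt (1 + 2 * g w.2) := by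
    have : Continuous fun ω : ℝ => Zt (1 + 2 * g ω) :=
      Zt_contOn.comp_continuous (by fun_prop) (fun w => by
        have := hr w
        simp
        linarith)
    exact this.measurable.comp measurable_snd
  have m2 : Measurable fun w : (Fin k → ℝ) × ℝ => S0 N (g w.2) w.1 := by
    unfold S0
    refine Finset.measurable_sum _ fun n hn => Measurable.mul ?_ ((meas_cx n).comp measurable_fst)
    have : Continuous fun ω : ℝ => Fz (∏ j, n j) (g ω) := by
      rw [continuous_iff_continuousAt]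
      intro ω
      exact ContinuousAt.comp (g := Fz (∏ j, n j)) (Fz_diff (tup_prod hn) (by linarith [hr ω])).continuousAt
        hg.continuousAt
    exact this.measurable.comp measurable_snd
  have m3 : Measurable fun w : (Fin k → ℝ) × ℝ => ww (g w.2) w.1 := by
    unfold ww
    exact Finset.measurable_prod _ fun j _ => (cg.add (ci j)).measurable.div (((cg.add (ci j)).measurable).add_const _)
  have m4 : Measurable fun w : (Fin k → ℝ) × ℝ => Ak (cn (g w.2) w.1) := by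
    have h := (Ak_cont k).comp_continuous (f := fun w : (Fin k → ℝ) × ℝ => (g w.2, w.1))
      (cg.prodMk continuous_fst) (fun w => hr w.2)
    exact h.measurable
  have m5 : Measurable fun w : (Fin k → ℝ) × ℝ => ∏ j, Zt (1 + g w.2 + im w.1 j) / (g w.2 + im w.1 j + 2) := by
    refine Finset.measurable_prod _ fun j _ => Measurable.div ?_ (((cg.add (ci j)).measurable).add_const _)
    have h : Continuous fun w : (Fin k → ℝ) × ℝ => Zt (1 + g w.2 + im w.1 j) :=
      Zt_contOn.comp_continuous ((continuous_const.add cg).add (ci j)) (fun w => by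
        have := hr w.2
        simp [im_re]
        linarith)
    exact h.measurable
  exact m1.mul ((m2.mul m3).sub ((m4.mul m5).mul (meas_ZP.comp measurable_fst)))

/-- the same for one point -/
lemma Ph_meas' (N : ℕ) {z : ℂ} (hz : -1 / 16 < z.re) : Measurable fun β : Fin k → ℝ => Ph N β z := by
  have h := Ph_meas (k := k) N (fun _ => z) continuous_const (fun _ => hz)
  have h2 : Measurable fun β : Fin k → ℝ => (β, (0 : ℝ)) := measurable_id.prodMk measurable_const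
  have h3 := h.comp h2
  exact h3

/-! bounds for sums over tuples -/

lemma fl_bd (hfl : S_FL) (k : ℕ) (A δ : ℝ) (N : ℕ) (e : (Fin k → ℕ) → ℂ) (hA : 1 ≤ A) (hN : 1 ≤ N)
    (hNA : (N : ℝ) ^ (2 * k + 1) ≤ A) (hδ : 0 ≤ δ) (he : ∀ n ∈ tup k N, ‖e n‖ ≤ δ) :
    ∫⁻ β, ENNReal.ofReal (‖∑ n ∈ tup k N, e n * cx n β‖ ^ 2) ∂(mS k A) ≤
      ENNReal.ofReal (3 * 2 ^ k * δ ^ 2 * A ^ k * (1 + Real.log N) ^ k) := by
  have hA0 : 0 < A := by linarith
  have hN0 : (0 : ℝ) < N := by exact_mod_cast hN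
  have hN1 : (1 : ℝ) ≤ N := by exact_mod_cast hN
  have hl : 0 ≤ Real.log N := Real.log_nonneg hN1
  set c : (Fin k → ℕ) → ℂ := fun n => e n * ∏ j, (n j : ℂ) ^ (-(1 / 2) : ℂ) with hc
  have hcx : ∀ n ∈ tup k N, ∀ β : Fin k → ℝ, e n * cx n β = c n * ∏ j, (n j : ℂ) ^ (-(I * (β j : ℂ))) := by
    intro n hn β
    rw [hc]
    simp only
    rw [mul_assoc, ← Finset.prod_mul_distrib]
    congr 1
    unfold cx pt
    refine Finset.prod_congr rfl fun j _ => ?_
    have h1 := (Finset.mem_Icc.1 (Fintype.mem_piFinset.1 hn j)).1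
    have h2 : (n j : ℂ) ≠ 0 := by exact_mod_cast (by omega : n j ≠ 0)
    rw [← Complex.cpow_add _ _ h2]
    congr 1
    ring
  have hcn : ∀ n ∈ tup k N, ‖∏ j, (n j : ℂ) ^ (-(1 / 2) : ℂ)‖ ^ 2 = ∏ j, (n j : ℝ)⁻¹ := by
    intro n hn
    rw [norm_prod, ← Finset.prod_pow]
    refine Finset.prod_congr rfl fun j _ => ?_
    have h1 := (Finset.mem_Icc.1 (Fintype.mem_piFinset.1 hn j)).1
    have h2 : (0 : ℝ) < n j := by exact_mod_cast h1
    rw [Complex.norm_natCast_cpow_of_pos (by omega), ← Real.rpow_natCast, ← Real.rpow_mul h2.le,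
      ← Real.rpow_neg_one]
    congr 1
    norm_num
  have hcn1 : ∀ n ∈ tup k N, ‖∏ j, (n j : ℂ) ^ (-(1 / 2) : ℂ)‖ ≤ 1 := by
    intro n hn
    rw [norm_prod]
    refine Finset.prod_le_one (fun _ _ => norm_nonneg _) fun j _ => ?_
    have h1 := (Finset.mem_Icc.1 (Fintype.mem_piFinset.1 hn j)).1
    rw [Complex.norm_natCast_cpow_of_pos (by omega)]
    apply Real.rpow_le_one_of_one_le_of_nonpos (by exact_mod_cast h1)
    norm_num
  have e1 : ∀ β : Fin k → ℝ, ∑ n ∈ tup k N, e n * cx n β =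
      ∑ n ∈ tup k N, c n * ∏ j, (n j : ℂ) ^ (-(I * (β j : ℂ))) := fun β =>
    Finset.sum_congr rfl fun n hn => hcx n hn β
  simp only [e1]
  refine (hfl k N A c hN hA0).trans (ENNReal.ofReal_le_ofReal ?_)
  have s1 : ∑ n ∈ tup k N, ‖c n‖ ^ 2 ≤ δ ^ 2 * (1 + Real.log N) ^ k := by
    calc ∑ n ∈ tup k N, ‖c n‖ ^ 2 ≤ ∑ n ∈ tup k N, δ ^ 2 * ∏ j, (n j : ℝ)⁻¹ := by
          refine Finset.sum_le_sum fun n hn => ?_
          rw [hc]
          simp only
          rw [norm_mul, mul_pow, hcn n hn]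
          have h1 : (0 : ℝ) ≤ ∏ j, (n j : ℝ)⁻¹ := Finset.prod_nonneg fun j _ => by positivity
          exact mul_le_mul_of_nonneg_right (pow_le_pow_left₀ (norm_nonneg _) (he n hn) 2) h1
      _ = δ ^ 2 * ∏ _j : Fin k, ∑ l ∈ Finset.Icc 1 N, (l : ℝ)⁻¹ := by
          rw [← Finset.mul_sum, Finset.prod_univ_sum]
          rfl
      _ ≤ δ ^ 2 * (1 + Real.log N) ^ k := by
          rw [Finset.prod_const, Finset.card_univ, Fintype.card_fin]
          have h2 : ∑ l ∈ Finset.Icc 1 N, (l : ℝ)⁻¹ ≤ 1 + Real.log N := by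
            have := harmonic_le_one_add_log N
            rw [harmonic_eq_sum_Icc] at this
            push_cast at this
            exact this
          have h3 : 0 ≤ ∑ l ∈ Finset.Icc 1 N, (l : ℝ)⁻¹ := Finset.sum_nonneg fun l _ => by positivity
          gcongr
  have s2 : ∑ n ∈ tup k N, ‖c n‖ ≤ δ * (N : ℝ) ^ k := by
    calc ∑ n ∈ tup k N, ‖c n‖ ≤ ∑ n ∈ tup k N, δ := by
          refine Finset.sum_le_sum fun n hn => ?_
          rw [hc]
          simp only
          rw [norm_mul]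
          calc ‖e n‖ * ‖∏ j, (n j : ℂ) ^ (-(1 / 2) : ℂ)‖ ≤ δ * 1 :=
                mul_le_mul (he n hn) (hcn1 n hn) (norm_nonneg _) hδ
            _ = δ := mul_one _
      _ = δ * (N : ℝ) ^ k := by
          have hcard : (tup k N).card = N ^ k := by
            unfold tup
            rw [Fintype.card_piFinset, Finset.prod_const, Finset.card_univ, Fintype.card_fin, Nat.card_Icc]
            simp
          rw [Finset.sum_const, nsmul_eq_mul, hcard]
          push_cast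
          ring
  have h2A : (2 * A) ^ (k - 1 : ℝ) = (2 * A) ^ k / (2 * A) := by
    rw [Real.rpow_sub_one (by positivity), Real.rpow_natCast]
  have h4 : 4 * N * (2 * A) ^ (k - 1 : ℝ) * (∑ n ∈ tup k N, ‖c n‖) ^ 2 ≤ 2 * ((2 * A) ^ k * δ ^ 2) := by
    have h5 : 0 ≤ ∑ n ∈ tup k N, ‖c n‖ := Finset.sum_nonneg fun _ _ => norm_nonneg _
    calc 4 * N * (2 * A) ^ (k - 1 : ℝ) * (∑ n ∈ tup k N, ‖c n‖) ^ 2
        ≤ 4 * N * ((2 * A) ^ k / (2 * A)) * (δ * (N : ℝ) ^ k) ^ 2 := by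
          rw [h2A]
          gcongr
      _ = 2 * ((2 * A) ^ k * δ ^ 2) * ((N : ℝ) ^ (2 * k + 1) / A) := by
          field_simp
          ring
      _ ≤ 2 * ((2 * A) ^ k * δ ^ 2) * 1 := by
          apply mul_le_mul_of_nonneg_left _ (by positivity)
          rw [div_le_one hA0]
          exact hNA
      _ = _ := mul_one _
  have h6 : (1 : ℝ) ≤ (1 + Real.log N) ^ k := one_le_pow₀ (by linarith)
  calc (2 * A) ^ k * ∑ n ∈ tup k N, ‖c n‖ ^ 2 + 4 * N * (2 * A) ^ (k - 1 : ℝ) * (∑ n ∈ tup k N, ‖c n‖) ^ 2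
      ≤ (2 * A) ^ k * (δ ^ 2 * (1 + Real.log N) ^ k) + 2 * ((2 * A) ^ k * δ ^ 2) := by
        gcongr
    _ ≤ (2 * A) ^ k * (δ ^ 2 * (1 + Real.log N) ^ k) + 2 * ((2 * A) ^ k * δ ^ 2) * (1 + Real.log N) ^ k := by
        have : 0 ≤ 2 * ((2 * A) ^ k * δ ^ 2) := by positivity
        nlinarith
    _ = _ := by
        rw [mul_pow]
        ring

/-- zeta values over the pairs on good vectors -/
lemma ZP_bd (hz : S_ZET) (k : ℕ) : ∃ (C A₀ : ℝ) (B : ℕ), 0 < C ∧ 3 ≤ A₀ ∧ ∀ (A : ℝ) (β : Fin k → ℝ), A₀ ≤ A →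
    β ∈ Gd k A → ‖ZP β‖ ^ 2 ≤ C * Real.log A ^ B := by
  obtain ⟨C, T₀, hC, hT₀, h⟩ := hz
  refine ⟨((C * 2) ^ Fintype.card (Pr k)) ^ 2, T₀, Fintype.card (Pr k) * 2, by positivity, hT₀,
    fun A β hA hβ => ?_⟩
  have hA3 : 3 ≤ A := hT₀.trans hA
  have h1 := (h (2 * A) 1 (by linarith) le_rfl (by
    rw [Nat.cast_one]
    exact Real.one_le_rpow (by linarith) (by norm_num))).1
  have hlA : 0 < Real.log A := Real.log_pos (by linarith)
  have hl2 : Real.log (2 * A) ≤ 2 * Real.log A := by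
    rw [Real.log_mul (by norm_num) (by linarith)]
    have := Real.log_le_log (by norm_num : (0 : ℝ) < 2) (by linarith : (2 : ℝ) ≤ A)
    linarith
  have h2 : ∀ r : Pr k, ‖riemannZeta (1 + im β r.1.1 + im β r.1.2)‖ ≤ C * 2 * Real.log A := by
    intro r
    have e : 1 + im β r.1.1 + im β r.1.2 = 1 + I * ((β r.1.1 + β r.1.2 : ℝ) : ℂ) := by
      unfold im
      push_cast
      ring
    rw [e]
    have h3 := hβ.2 r
    have h4 : 1 ≤ A ^ (1 / 2 : ℝ) := Real.one_le_rpow (by linarith) (by norm_num)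
    have h5 : |β r.1.1 + β r.1.2| ≤ 2 * A := by
      refine (abs_add_le _ _).trans ?_
      linarith [hβ.1 r.1.1, hβ.1 r.1.2]
    refine (h1 _ (by linarith) h5).trans ?_
    calc C * Real.log (2 * A) ≤ C * (2 * Real.log A) := mul_le_mul_of_nonneg_left hl2 hC.le
      _ = _ := by ring
  have h6 : ‖ZP β‖ ≤ (C * 2 * Real.log A) ^ Fintype.card (Pr k) := by
    unfold ZP
    rw [norm_prod]
    calc ∏ r : Pr k, ‖riemannZeta (1 + im β r.1.1 + im β r.1.2)‖ ≤ ∏ _r : Pr k, (C * 2 * Real.log A) :=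
          Finset.prod_le_prod (fun _ _ => norm_nonneg _) fun r _ => h2 r
      _ = _ := by rw [Finset.prod_const, Finset.card_univ]
  calc ‖ZP β‖ ^ 2 ≤ ((C * 2 * Real.log A) ^ Fintype.card (Pr k)) ^ 2 := pow_le_pow_left₀ (norm_nonneg _) h6 2
    _ = _ := by
        rw [mul_pow, mul_pow, ← pow_mul (Real.log A)]

/-! the right line -/

lemma tup_one (N : ℕ) (F : (Fin 1 → ℕ) → ℂ) : ∑ m ∈ tup 1 N, F m = ∑ l ∈ Finset.Icc 1 N, F (fun _ => l) := by
  refine Finset.sum_nbij' (fun m => m 0) (fun l _ => l) ?_ ?_ ?_ ?_ ?_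
  · intro m hm
    exact Fintype.mem_piFinset.1 hm 0
  · intro l hl
    exact Fintype.mem_piFinset.2 fun _ => hl
  · intro m _
    funext i
    rw [Subsingleton.elim i 0]
  · intro l _
    rfl
  · intro m _
    congr 1
    funext i
    rw [Subsingleton.elim i 0]

lemma sg_eq (N : ℕ) (z : ℂ) (β : Fin k → ℝ) : SG (gW (u1 z) v0) N β =
    ∑ n ∈ tup k N, (∑ l ∈ (Finset.Icc 1 N).filter (fun l => IsSquare (l * ∏ j, n j)),
      (af (l * ∏ j, n j) : ℂ) * (l : ℂ) ^ (-(1 / 2 + z))) * cx n β := by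
  classical
  unfold SG
  refine Finset.sum_congr rfl fun n _ => ?_
  refine (tup_one N (fun m => if IsSquare ((∏ j, n j) * ∏ i, m i) then
    (af ((∏ j, n j) * ∏ i, m i) : ℂ) * cx n β * ∏ i, gW (u1 z) v0 i (m i) else 0)).trans ?_
  rw [Finset.sum_filter, Finset.sum_mul]
  refine Finset.sum_congr rfl fun l hl => ?_
  have hl1 := (Finset.mem_Icc.1 hl).1
  have e1 : ∏ _i : Fin 1, l = l := by simp
  have e2 : ∏ i : Fin (1 + 0), gW (u1 z) v0 i l = (l : ℂ) ^ (-(1 / 2 + z)) := by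
    refine (Fin.prod_univ_one (fun i : Fin 1 => (gW (u1 z) v0 : Fin (1 + 0) → ArithmeticFunction ℂ) i l)).trans ?_
    have : gW (u1 z) v0 (0 : Fin 1) = Eul.pw (-(u1 z 0)) :=
      Fin.append_left (fun i => Eul.pw (-(u1 z i))) (fun l => muA (v0 l)) 0
    rw [this, Eul.pw_apply _ (by omega)]
    rfl
  simp only
  rw [e1, e2, mul_comm (∏ j, n j) l]
  split_ifs
  · ring
  · rw [zero_mul]

end

end Pool.Agent.V8H6.CB
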