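import Pool.Agent.V8H6.CB.Fe

set_option autoImplicit false

/-! Partial summation. -/

namespace Pool.Agent.V8H6.CB

open Complex hiding im
open Filter Topology MeasureTheory Set
open Pool.Agent.N879.QM Pool.Agent.V8H6.RW
open scoped BigOperators

noncomputable section

lemma mem_Q {s : ℤ} {X : ℝ} {q : ℕ} : q ∈ Q s X ↔ Is s q ∧ (q : ℝ) < X := by
  classical
  constructor
  · exact Q_is
  · rintro ⟨h1, h2⟩
    unfold Q
    rw [Finset.mem_filter, Finset.mem_Ico]
    exact ⟨⟨h1.1, Nat.lt_ceil.2 h2⟩, h1⟩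

theorem ps {s : ℤ} {X σ R : ℝ} {a : ℕ → ℂ} {c z : ℂ} (hX : 1 ≤ X) (hσ : 0 < σ) (hz : z.re = -σ) (hR : 0 ≤ R)
    (h : ∀ x : ℝ, 1 ≤ x → x ≤ X → ‖(∑ q ∈ Q s x, a q) - c * x‖ ≤ R) :
    ‖(∑ q ∈ Q s X, (q : ℂ) ^ (-z) * a q) - c * (X : ℂ) ^ (1 - z) / (1 - z)‖ ≤
      X ^ σ * R * (1 + ‖z‖ / σ) + ‖c‖ := by
  classical
  have hX0 : 0 < X := by linarith
  have hz0 : z ≠ 0 := by
    rintro rfl
    simp at hz
    linarith
  have hXc : (X : ℂ) ≠ 0 := by exact_mod_cast hX0.ne'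
  have hq : ∀ q ∈ Q s X, (1 : ℝ) ≤ q ∧ (q : ℝ) < X := by
    intro q hq
    have h1 := Q_is hq
    have : (2 : ℝ) ≤ q := by exact_mod_cast h1.1.1
    exact ⟨by linarith, h1.2⟩
  have hint : ∀ u v : ℝ, 1 ≤ u → 1 ≤ v → IntervalIntegrable (fun t : ℝ => (t : ℂ) ^ (-z - 1)) volume u v := by
    intro u v hu hv
    apply intervalIntegral.intervalIntegrable_cpow
    right
    rw [mem_uIcc]
    rintro (h1 | h1) <;> linarith [h1.1]
  have hpow : ∀ u : ℝ, 1 ≤ u → (u : ℂ) ^ (-z) = (X : ℂ) ^ (-z) + z * ∫ t in u..X, (t : ℂ) ^ (-z - 1) := by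
    intro u hu
    rw [integral_cpow]
    · have e : -z - 1 + 1 = -z := by ring
      rw [e]
      field_simp
      ring
    · right
      refine ⟨?_, ?_⟩
      · intro h1
        apply hz0
        linear_combination -h1
      · rw [mem_uIcc]
        rintro (h1 | h1) <;> linarith [h1.1]
  have hind : ∀ q ∈ Q s X, ∫ t in (q : ℝ)..X, (t : ℂ) ^ (-z - 1) =
      ∫ t in Ioc (1 : ℝ) X, (Ioc (q : ℝ) X).indicator (fun t : ℝ => (t : ℂ) ^ (-z - 1)) t := by
    intro q hq1
    obtain ⟨h1, h2⟩ := hq q hq1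
    rw [intervalIntegral.integral_of_le h2.le, setIntegral_indicator measurableSet_Ioc]
    congr 2
    rw [inter_eq_self_of_subset_right]
    exact Ioc_subset_Ioc_left h1
  have hio : IntegrableOn (fun t : ℝ => (t : ℂ) ^ (-z - 1)) (Ioc 1 X) :=
    (intervalIntegrable_iff_integrableOn_Ioc_of_le hX).1 (hint 1 X le_rfl hX)
  have hintq : ∀ q : ℕ, Integrable (fun t => (Ioc (q : ℝ) X).indicator (fun t : ℝ => (t : ℂ) ^ (-z - 1)) t)
      (volume.restrict (Ioc 1 X)) := fun q => hio.indicator measurableSet_Ioc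
  obtain ⟨T, hT⟩ : ∃ T : ℝ → ℂ, T = fun x => ∑ q ∈ Q s x, a q := ⟨_, rfl⟩
  have e1 : ∑ q ∈ Q s X, (q : ℂ) ^ (-z) * a q = (X : ℂ) ^ (-z) * T X +
      z * ∫ t in Ioc (1 : ℝ) X, (t : ℂ) ^ (-z - 1) * T t := by
    have e2 : ∀ t ∈ Ioc (1 : ℝ) X, (t : ℂ) ^ (-z - 1) * T t =
        ∑ q ∈ Q s X, a q * (Ioc (q : ℝ) X).indicator (fun t : ℝ => (t : ℂ) ^ (-z - 1)) t := by
      intro t ht
      rw [hT]
      simp only
      have e3 : Q s t = (Q s X).filter (fun q : ℕ => (q : ℝ) < t) := by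
        ext q
        rw [Finset.mem_filter, mem_Q, mem_Q]
        constructor
        · rintro ⟨k1, k2⟩
          exact ⟨⟨k1, k2.trans_le ht.2⟩, k2⟩
        · rintro ⟨⟨k1, _⟩, k2⟩
          exact ⟨k1, k2⟩
      rw [e3, Finset.sum_filter, Finset.mul_sum]
      refine Finset.sum_congr rfl fun q _ => ?_
      by_cases hqt : (q : ℝ) < t
      · rw [if_pos hqt, indicator_of_mem (show t ∈ Ioc (q : ℝ) X from ⟨hqt, ht.2⟩)]
        ring
      · rw [if_neg hqt, indicator_of_notMem (fun hh : t ∈ Ioc (q : ℝ) X => hqt hh.1)]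
        ring
    rw [setIntegral_congr_fun measurableSet_Ioc e2, integral_finsetSum _ fun q _ => (hintq q).const_mul _,
      Finset.mul_sum, hT]
    simp only
    rw [Finset.mul_sum, ← Finset.sum_add_distrib]
    refine Finset.sum_congr rfl fun q hq1 => ?_
    rw [integral_const_mul, ← hind q hq1]
    have := hpow q (hq q hq1).1
    rw [Complex.ofReal_natCast] at this
    rw [this]
    ring
  -- the main term
  have e4 : ∫ t in Ioc (1 : ℝ) X, (t : ℂ) ^ (-z) = ((X : ℂ) ^ (1 - z) - 1) / (1 - z) := by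
    rw [← intervalIntegral.integral_of_le hX, integral_cpow]
    · rw [Complex.ofReal_one, Complex.one_cpow]
      have e : -z + 1 = 1 - z := by ring
      rw [e]
    · left
      rw [neg_re, hz]
      linarith
  have h1z : 1 - z ≠ 0 := by
    intro h0
    have := congrArg Complex.re h0
    rw [sub_re, one_re, hz, zero_re] at this
    linarith
  have hioc : IntegrableOn (fun t : ℝ => (t : ℂ) ^ (-z)) (Ioc 1 X) := by
    rw [← intervalIntegrable_iff_integrableOn_Ioc_of_le hX]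
    apply intervalIntegral.intervalIntegrable_cpow
    right
    rw [mem_uIcc]
    rintro (h1 | h1) <;> linarith [h1.1]
  have hTi : IntegrableOn (fun t : ℝ => (t : ℂ) ^ (-z - 1) * T t) (Ioc 1 X) := by
    have e2 : ∀ t ∈ Ioc (1 : ℝ) X, ∑ q ∈ Q s X, a q * (Ioc (q : ℝ) X).indicator (fun t : ℝ => (t : ℂ) ^ (-z - 1)) t =
        (t : ℂ) ^ (-z - 1) * T t := by
      intro t ht
      rw [hT]
      simp only
      have e3 : Q s t = (Q s X).filter (fun q : ℕ => (q : ℝ) < t) := by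
        ext q
        rw [Finset.mem_filter, mem_Q, mem_Q]
        constructor
        · rintro ⟨k1, k2⟩
          exact ⟨⟨k1, k2.trans_le ht.2⟩, k2⟩
        · rintro ⟨⟨k1, _⟩, k2⟩
          exact ⟨k1, k2⟩
      rw [e3, Finset.sum_filter, Finset.mul_sum]
      refine Finset.sum_congr rfl fun q _ => ?_
      by_cases hqt : (q : ℝ) < t
      · rw [if_pos hqt, indicator_of_mem (show t ∈ Ioc (q : ℝ) X from ⟨hqt, ht.2⟩)]
        ring
      · rw [if_neg hqt, indicator_of_notMem (fun hh : t ∈ Ioc (q : ℝ) X => hqt hh.1)]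
        ring
    refine (integrableOn_congr_fun e2 measurableSet_Ioc).1 ?_
    exact integrable_finsetSum _ fun q _ => (hintq q).const_mul _
  have e5 : (∑ q ∈ Q s X, (q : ℂ) ^ (-z) * a q) - c * (X : ℂ) ^ (1 - z) / (1 - z) =
      (X : ℂ) ^ (-z) * (T X - c * X) + z * (∫ t in Ioc (1 : ℝ) X, (t : ℂ) ^ (-z - 1) * (T t - c * t)) -
        c * (z / (1 - z)) := by
    have e6 : ∫ t in Ioc (1 : ℝ) X, (t : ℂ) ^ (-z - 1) * (T t - c * t) =
        (∫ t in Ioc (1 : ℝ) X, (t : ℂ) ^ (-z - 1) * T t) - c * (((X : ℂ) ^ (1 - z) - 1) / (1 - z)) := by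
      rw [← e4, ← integral_const_mul, ← integral_sub hTi (hioc.const_mul c)]
      refine setIntegral_congr_fun measurableSet_Ioc fun t ht => ?_
      have ht0 : (t : ℂ) ≠ 0 := by
        have : (0 : ℝ) < t := by linarith [ht.1]
        exact_mod_cast this.ne'
      have e7 : (t : ℂ) ^ (-z) = (t : ℂ) ^ (-z - 1) * t := by
        rw [Complex.cpow_sub _ _ ht0, Complex.cpow_one]
        field_simp
      rw [e7]
      ring
    rw [e1, e6]
    have e8 : (X : ℂ) ^ (1 - z) = (X : ℂ) ^ (-z) * X := by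
      rw [show (1 - z : ℂ) = -z + 1 by ring, Complex.cpow_add _ _ hXc, Complex.cpow_one]
    rw [e8]
    field_simp
    ring
  rw [e5]
  have b1 : ‖(X : ℂ) ^ (-z) * (T X - c * X)‖ ≤ X ^ σ * R := by
    rw [norm_mul, Complex.norm_cpow_eq_rpow_re_of_pos hX0, neg_re, hz, neg_neg, hT]
    exact mul_le_mul_of_nonneg_left (h X hX le_rfl) (by positivity)
  have b2 : ‖∫ t in Ioc (1 : ℝ) X, (t : ℂ) ^ (-z - 1) * (T t - c * t)‖ ≤ X ^ σ * R / σ := by
    have k1 : ∫ t in Ioc (1 : ℝ) X, R * t ^ (σ - 1) ≤ X ^ σ * R / σ := by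
      rw [integral_const_mul, ← intervalIntegral.integral_of_le hX, integral_rpow (Or.inl (by linarith))]
      have : σ - 1 + 1 = σ := by ring
      rw [this, Real.one_rpow]
      rw [mul_div_assoc']
      apply div_le_div_of_nonneg_right _ hσ.le
      nlinarith
    refine le_trans ?_ k1
    refine norm_integral_le_of_norm_le ?_ ?_
    · refine Integrable.const_mul ?_ _
      rw [← IntegrableOn, ← intervalIntegrable_iff_integrableOn_Ioc_of_le hX]
      exact intervalIntegral.intervalIntegrable_rpow' (by linarith)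
    · rw [ae_restrict_iff' measurableSet_Ioc]
      refine Eventually.of_forall fun t ht => ?_
      have ht0 : 0 < t := by linarith [ht.1]
      rw [norm_mul, Complex.norm_cpow_eq_rpow_re_of_pos ht0, sub_re, neg_re, hz, neg_neg, one_re, mul_comm]
      apply mul_le_mul_of_nonneg_right _ (by positivity)
      rw [hT]
      exact h t ht.1.le ht.2
  have b3 : ‖c * (z / (1 - z))‖ ≤ ‖c‖ := by
    rw [norm_mul, norm_div]
    apply mul_le_of_le_one_right (norm_nonneg _)
    rw [div_le_one (norm_pos_iff.2 h1z)]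
    rw [← sq_le_sq₀ (norm_nonneg _) (norm_nonneg _), ← Complex.normSq_eq_norm_sq, ← Complex.normSq_eq_norm_sq,
      Complex.normSq_apply, Complex.normSq_apply, sub_re, sub_im, one_re, one_im, hz]
    nlinarith
  calc ‖(X : ℂ) ^ (-z) * (T X - c * X) + z * (∫ t in Ioc (1 : ℝ) X, (t : ℂ) ^ (-z - 1) * (T t - c * t)) -
        c * (z / (1 - z))‖
      ≤ ‖(X : ℂ) ^ (-z) * (T X - c * X)‖ + ‖z‖ * ‖∫ t in Ioc (1 : ℝ) X, (t : ℂ) ^ (-z - 1) * (T t - c * t)‖ +
        ‖c * (z / (1 - z))‖ := by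
        refine (norm_sub_le _ _).trans (add_le_add ((norm_add_le _ _).trans ?_) le_rfl)
        rw [norm_mul z]
    _ ≤ X ^ σ * R + ‖z‖ * (X ^ σ * R / σ) + ‖c‖ := by gcongr
    _ = _ := by ring

end

end Pool.Agent.V8H6.CB
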