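import Pool.Agent.V8H6.CB.Hz

set_option autoImplicit false

/-! The twisted first moment on the lines to the right of the centre. -/

namespace Pool.Agent.V8H6.CB

open Complex hiding im
open Filter Topology MeasureTheory Set
open Pool.Agent.N879.QM Pool.Agent.V8H6.RW
open scoped BigOperators

noncomputable section

/-- averages of the characters at numbers whose odd part is not a square -/
def S_AV : Prop := ∃ C : ℝ, 0 < C ∧ ∀ (s : ℤ) (X : ℝ) (n : ℕ), s = 1 ∨ s = -1 → 1 ≤ X → 1 ≤ n →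
  ¬ IsSquare n → ¬ IsSquare (2 * n) → ‖∑ q ∈ Q s X, vl s q n‖ ≤ C * √X * (n : ℝ) ^ (3 / 8 : ℝ)

lemma sum_pow {a : ℝ} (ha : 0 ≤ a) (ha1 : a ≤ 1 / 2) (L : ℕ) :
    ∑ n ∈ Finset.Icc 1 L, (n : ℝ) ^ (-a) ≤ 2 * (L : ℝ) ^ (1 - a) := by
  induction L with
  | zero =>
    simp
    positivity
  | succ L ih =>
    rw [Finset.sum_Icc_succ_top (by omega)]
    have hL0 : (0 : ℝ) < ((L + 1 : ℕ) : ℝ) := by positivity
    have h1 : (L : ℝ) ^ (1 - a) ≤ ((L + 1 : ℕ) : ℝ) ^ (1 - a) * (1 - (1 - a) / ((L + 1 : ℕ) : ℝ)) := by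
      have h2 : (L : ℝ) = ((L + 1 : ℕ) : ℝ) * (1 + -(1 / ((L + 1 : ℕ) : ℝ))) := by
        field_simp
        push_cast
        ring
      have h3 : -1 ≤ -(1 / ((L + 1 : ℕ) : ℝ)) := by
        rw [neg_le_neg_iff, div_le_one hL0]
        push_cast
        have : (0 : ℝ) ≤ L := Nat.cast_nonneg L
        linarith
      have h4 := rpow_one_add_le_one_add_mul_self h3 (p := 1 - a) (by linarith) (by linarith)
      have h5 : (L : ℝ) ^ (1 - a) = ((L + 1 : ℕ) : ℝ) ^ (1 - a) * (1 + -(1 / ((L + 1 : ℕ) : ℝ))) ^ (1 - a) := by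
        conv_lhs => rw [h2]
        rw [Real.mul_rpow hL0.le (by linarith)]
      rw [h5]
      apply mul_le_mul_of_nonneg_left _ (by positivity)
      refine h4.trans (le_of_eq ?_)
      ring
    have h6 : ((L + 1 : ℕ) : ℝ) ^ (1 - a) * ((1 - a) / ((L + 1 : ℕ) : ℝ)) = (1 - a) * ((L + 1 : ℕ) : ℝ) ^ (-a) := by
      have : ((L + 1 : ℕ) : ℝ) ^ (1 - a) = ((L + 1 : ℕ) : ℝ) ^ (-a) * ((L + 1 : ℕ) : ℝ) := by
        rw [show (1 - a : ℝ) = -a + 1 by ring, Real.rpow_add hL0, Real.rpow_one]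
      rw [this]
      field_simp
    have h7 : 0 ≤ ((L + 1 : ℕ) : ℝ) ^ (-a) := by positivity
    have h8 : 1 / 2 * ((L + 1 : ℕ) : ℝ) ^ (-a) ≤ (1 - a) * ((L + 1 : ℕ) : ℝ) ^ (-a) :=
      mul_le_mul_of_nonneg_right (by linarith) h7
    have h9 : ((L + 1 : ℕ) : ℝ) ^ (1 - a) * (1 - (1 - a) / ((L + 1 : ℕ) : ℝ)) =
      ((L + 1 : ℕ) : ℝ) ^ (1 - a) - (1 - a) * ((L + 1 : ℕ) : ℝ) ^ (-a) := by
      rw [← h6]; ring
    linarith

lemma card_sq {m : ℕ} (hm : 1 ≤ m) (L : ℕ) :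
    (((Finset.Icc 1 L).filter (fun l => IsSquare (l * m))).card : ℝ) ≤ √L := by
  classical
  have h1 : (Finset.Icc 1 L).filter (fun l => IsSquare (l * m)) ⊆
      (Finset.Icc 1 (Nat.sqrt L)).image (fun t => sp m * t ^ 2) := by
    intro l hl
    rw [Finset.mem_filter, Finset.mem_Icc] at hl
    obtain ⟨t, ht, hlt⟩ := (sq_iff_sp hm hl.1.1).1 hl.2
    rw [Finset.mem_image]
    refine ⟨t, ?_, hlt.symm⟩
    rw [Finset.mem_Icc]
    refine ⟨ht, Nat.le_sqrt'.2 ?_⟩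
    calc t ^ 2 ≤ sp m * t ^ 2 := Nat.le_mul_of_pos_left _ (sp_pos hm)
      _ = l := hlt.symm
      _ ≤ L := hl.1.2
  have h2 := (Finset.card_le_card h1).trans Finset.card_image_le
  rw [Nat.card_Icc, Nat.add_sub_cancel] at h2
  calc (((Finset.Icc 1 L).filter (fun l => IsSquare (l * m))).card : ℝ) ≤ (Nat.sqrt L : ℝ) := by exact_mod_cast h2
    _ ≤ √L := Real.nat_sqrt_le_real_sqrt

lemma hb2 {τ ε : ℝ} (hτ : 0 < τ) (hε : 0 < ε) : ∃ C : ℝ, 0 < C ∧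
    ∀ (s : ℤ) (X σ : ℝ) (K N : ℕ) (y : ℕ → ℂ), s = 1 ∨ s = -1 → 1 ≤ X → 1 ≤ K → (K : ℝ) ≤ X → 1 ≤ N → τ ≤ 2 * σ →
      (∀ n : ℕ, 1 ≤ n → ‖y n‖ ≤ (n : ℝ) ^ (-(1 / 2 + σ))) → (∀ n : ℕ, 1 ≤ n → n < N → y n = 0) →
      ∑ q ∈ Q s X, ‖∑ n ∈ Finset.Icc 1 K, vl s q n * y n‖ ^ 2 ≤ C * X ^ (1 + ε) * (N : ℝ) ^ (-(2 * σ - τ)) := by
  obtain ⟨C1, hC1, h1⟩ := t_HBG (ε / 2) (by positivity)
  obtain ⟨C2, hC2, h2⟩ := wq_sum hτ
  refine ⟨2 * C1 * C2, by positivity, ?_⟩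
  intro s X σ K N y hs hX hK hKX hN hσ hy hy0
  have hX0 : 0 < X := by linarith
  have hN0 : (0 : ℝ) < N := by exact_mod_cast hN
  refine (h1 s X K y hs hX hK).trans ?_
  have h3 : ∑ n ∈ Finset.Icc 1 K, wq n * ‖y n‖ ^ 2 ≤ (N : ℝ) ^ (-(2 * σ - τ)) * C2 := by
    have h4 : ∀ n ∈ Finset.Icc 1 K, wq n * ‖y n‖ ^ 2 ≤
        ((N : ℝ) ^ (-(2 * σ - τ))) * (wq n * (n : ℝ) ^ (-(1 + τ))) := by
      intro n hn
      rw [Finset.mem_Icc] at hn
      have hn0 : (0 : ℝ) < n := by exact_mod_cast hn.1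
      have hw := Mbaux.wq_nonneg n
      by_cases hnN : n < N
      · rw [hy0 n hn.1 hnN, norm_zero]
        have : 0 ≤ ((N : ℝ) ^ (-(2 * σ - τ))) * (wq n * (n : ℝ) ^ (-(1 + τ))) := by positivity
        simpa using this
      · have h5 : (n : ℝ) ^ (-(2 * σ - τ)) ≤ (N : ℝ) ^ (-(2 * σ - τ)) :=
          Real.rpow_le_rpow_of_nonpos hN0 (by exact_mod_cast not_lt.1 hnN) (by linarith)
        have h6 : ‖y n‖ ^ 2 ≤ ((n : ℝ) ^ (-(2 * σ - τ)) * (n : ℝ) ^ (-(1 + τ))) := by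
          calc ‖y n‖ ^ 2 ≤ ((n : ℝ) ^ (-(1 / 2 + σ))) ^ 2 :=
                pow_le_pow_left₀ (norm_nonneg _) (hy n hn.1) 2
            _ = ((n : ℝ) ^ (-(2 * σ - τ)) * (n : ℝ) ^ (-(1 + τ))) := by
                rw [← Real.rpow_natCast ((n : ℝ) ^ (-(1 / 2 + σ))), ← Real.rpow_mul hn0.le,
                  ← Real.rpow_add hn0]
                congr 1
                push_cast
                ring
        calc wq n * ‖y n‖ ^ 2 ≤ wq n * ((n : ℝ) ^ (-(2 * σ - τ)) * (n : ℝ) ^ (-(1 + τ))) :=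
              mul_le_mul_of_nonneg_left h6 hw
          _ ≤ wq n * ((N : ℝ) ^ (-(2 * σ - τ)) * (n : ℝ) ^ (-(1 + τ))) :=
              mul_le_mul_of_nonneg_left (mul_le_mul_of_nonneg_right h5 (by positivity)) hw
          _ = _ := by ring
    refine (Finset.sum_le_sum h4).trans ?_
    rw [← Finset.mul_sum]
    exact mul_le_mul_of_nonneg_left (h2 K) (by positivity)
  have h5 : (X * K) ^ (ε / 2) ≤ X ^ ε := by
    calc (X * K) ^ (ε / 2) ≤ (X * X) ^ (ε / 2) :=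
          Real.rpow_le_rpow (by positivity) (mul_le_mul_of_nonneg_left hKX hX0.le) (by positivity)
      _ = X ^ ε := by
          rw [Real.mul_rpow hX0.le hX0.le, ← Real.rpow_add hX0]
          congr 1
          ring
  have h6 : X + K ≤ 2 * X := by linarith
  have h7 : 0 ≤ ∑ n ∈ Finset.Icc 1 K, wq n * ‖y n‖ ^ 2 :=
    Finset.sum_nonneg fun n _ => mul_nonneg (Mbaux.wq_nonneg n) (by positivity)
  calc C1 * (X * K) ^ (ε / 2) * (X + K) * ∑ n ∈ Finset.Icc 1 K, wq n * ‖y n‖ ^ 2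
      ≤ C1 * X ^ ε * (2 * X) * ((N : ℝ) ^ (-(2 * σ - τ)) * C2) := by gcongr
    _ = 2 * C1 * C2 * (X ^ (1 : ℝ) * X ^ ε) * (N : ℝ) ^ (-(2 * σ - τ)) := by rw [Real.rpow_one]; ring
    _ = _ := by rw [← Real.rpow_add hX0]

lemma norm_w {z : ℂ} (h0 : -1 ≤ z.re) (h1 : z.re ≤ 1) : ‖(1 / 2 + z : ℂ)‖ ≤ 2 + |z.im| := by
  refine (Complex.norm_le_abs_re_add_abs_im _).trans ?_
  have h2 : (1 / 2 + z : ℂ).re = 1 / 2 + z.re := by simp
  have h3 : (1 / 2 + z : ℂ).im = z.im := by simp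
  rw [h2, h3]
  have : |1 / 2 + z.re| ≤ 2 := by rw [abs_le]; constructor <;> linarith
  linarith

theorem tail_ms {τ ε : ℝ} (hτ : 0 < τ) (hε : 0 < ε) : ∃ C : ℝ, 0 < C ∧
    ∀ (s : ℤ) (X : ℝ) (L : ℕ) (z : ℂ), s = 1 ∨ s = -1 → 1 ≤ X → 1 ≤ L → (L : ℝ) ≤ X → τ ≤ 2 * z.re → z.re ≤ 1 →
      ∑ q ∈ Q s X, ‖LL s q (1 / 2 + z) - ∑ l ∈ Finset.Icc 1 L, vl s q l * (l : ℂ) ^ (-(1 / 2 + z))‖ ^ 2 ≤
        C * (2 + |z.im|) ^ 2 * X ^ (1 + ε) * (L : ℝ) ^ (-(2 * z.re - τ)) := by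
  obtain ⟨C1, hC1, h1⟩ := hb2 hτ hε
  obtain ⟨C2, hC2, h2⟩ := pv_approx
  refine ⟨2 * C1 + 2 * (C2 * (4 / ε) * 4) ^ 2, by positivity, ?_⟩
  intro s X L z hs hX hL hLX hz hz1
  have hX0 : 0 < X := by linarith
  have hL0 : (0 : ℝ) < L := by exact_mod_cast hL
  obtain ⟨K, hK⟩ : ∃ K : ℕ, K = ⌊X⌋₊ := ⟨_, rfl⟩
  obtain ⟨f1, f2, f3⟩ := floor_half hX
  rw [← hK] at f1 f2 f3
  have hK0 : (0 : ℝ) < K := by exact_mod_cast f3
  have hLK : L ≤ K := by rw [hK]; exact Nat.le_floor hLX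
  have hσ0 : 0 < z.re := by linarith
  obtain ⟨y, hy⟩ : ∃ y : ℕ → ℂ, y = fun n => if n ≤ L then 0 else (n : ℂ) ^ (-(1 / 2 + z)) := ⟨_, rfl⟩
  have e1 : ∀ q, LL s q (1 / 2 + z) - ∑ l ∈ Finset.Icc 1 L, vl s q l * (l : ℂ) ^ (-(1 / 2 + z)) =
      (LL s q (1 / 2 + z) - ∑ l ∈ Finset.Icc 1 K, vl s q l * (l : ℂ) ^ (-(1 / 2 + z))) +
        ∑ l ∈ Finset.Icc 1 K, vl s q l * y l := by
    intro q
    have h3 : ∑ l ∈ Finset.Icc 1 K, vl s q l * (l : ℂ) ^ (-(1 / 2 + z)) =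
        ∑ l ∈ Finset.Icc 1 K, vl s q l * y l + ∑ l ∈ Finset.Icc 1 L, vl s q l * (l : ℂ) ^ (-(1 / 2 + z)) := by
      have h4 : ∑ l ∈ Finset.Icc 1 L, vl s q l * (l : ℂ) ^ (-(1 / 2 + z)) =
          ∑ l ∈ Finset.Icc 1 K, if l ≤ L then vl s q l * (l : ℂ) ^ (-(1 / 2 + z)) else 0 := by
        rw [← Finset.sum_filter]
        refine Finset.sum_congr ?_ fun _ _ => rfl
        ext l
        rw [Finset.mem_filter, Finset.mem_Icc, Finset.mem_Icc]
        omega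
      rw [h4, ← Finset.sum_add_distrib]
      refine Finset.sum_congr rfl fun l _ => ?_
      rw [hy]
      simp only
      split_ifs <;> ring
    rw [h3]
    ring
  have hy1 : ∀ n : ℕ, 1 ≤ n → ‖y n‖ ≤ (n : ℝ) ^ (-(1 / 2 + z.re)) := by
    intro n hn
    rw [hy]
    simp only
    split_ifs
    · rw [norm_zero]; positivity
    · rw [Complex.norm_natCast_cpow_of_pos hn]
      simp
  have hy2 : ∀ n : ℕ, 1 ≤ n → n < L → y n = 0 := by
    intro n _ hn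
    rw [hy]
    simp only
    rw [if_pos hn.le]
  have h3 := h1 s X z.re K L y hs hX f3 f2 hL hz hy1 hy2
  have h4 : ∀ q ∈ Q s X, ‖LL s q (1 / 2 + z) - ∑ l ∈ Finset.Icc 1 K, vl s q l * (l : ℂ) ^ (-(1 / 2 + z))‖ ^ 2 ≤
      (C2 * (4 / ε) * 4) ^ 2 * (2 + |z.im|) ^ 2 * X ^ (ε - 2 * z.re) := by
    intro q hq
    obtain ⟨hq1, hq2⟩ := Q_is hq
    have hqr : (2 : ℝ) ≤ q := by exact_mod_cast hq1.1
    have h5 := h2 s q K (1 / 2 + z) hq1 f3 (by simp; linarith)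
    have hw : (1 / 2 + z : ℂ).re = 1 / 2 + z.re := by simp
    rw [hw] at h5
    have h6 : √(q : ℝ) * Real.log q ≤ X ^ (1 / 2 : ℝ) * (X ^ (ε / 2) * (4 / ε)) := by
      apply mul_le_mul
      · rw [Real.sqrt_eq_rpow]
        exact Real.rpow_le_rpow (by positivity) hq2.le (by norm_num)
      · calc Real.log q ≤ Real.log X := Real.log_le_log (by linarith) hq2.le
          _ ≤ X ^ (ε / 2) / (ε / 2) := Real.log_le_rpow_div hX0.le (by positivity)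
          _ = X ^ (ε / 2) * (2 / ε) := by field_simp
          _ ≤ X ^ (ε / 2) * (4 / ε) := by
              apply mul_le_mul_of_nonneg_left _ (by positivity)
              exact div_le_div_of_nonneg_right (by norm_num) hε.le
      · exact Real.log_nonneg (by linarith)
      · positivity
    have h7 : (K : ℝ) ^ (-(1 / 2 + z.re)) ≤ 4 * X ^ (-(1 / 2 + z.re)) := by
      calc (K : ℝ) ^ (-(1 / 2 + z.re)) ≤ (X / 2) ^ (-(1 / 2 + z.re)) :=
            Real.rpow_le_rpow_of_nonpos (by positivity) f1 (by linarith)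
        _ = X ^ (-(1 / 2 + z.re)) * 2 ^ (1 / 2 + z.re) := by
            rw [Real.div_rpow hX0.le (by norm_num), Real.rpow_neg (by norm_num : (0 : ℝ) ≤ 2), div_inv_eq_mul]
        _ ≤ X ^ (-(1 / 2 + z.re)) * 4 := by
            apply mul_le_mul_of_nonneg_left _ (by positivity)
            calc (2 : ℝ) ^ (1 / 2 + z.re) ≤ 2 ^ (2 : ℝ) :=
                  Real.rpow_le_rpow_of_exponent_le (by norm_num) (by linarith)
              _ = 4 := by norm_num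
        _ = _ := by ring
    have h8 : ‖LL s q (1 / 2 + z) - ∑ l ∈ Finset.Icc 1 K, vl s q l * (l : ℂ) ^ (-(1 / 2 + z))‖ ≤
        (C2 * (4 / ε) * 4) * (2 + |z.im|) * X ^ (ε / 2 - z.re) := by
      refine h5.trans ?_
      calc C2 * ‖(1 / 2 + z : ℂ)‖ * (√(q : ℝ) * Real.log q) * (K : ℝ) ^ (-(1 / 2 + z.re))
          ≤ C2 * (2 + |z.im|) * (X ^ (1 / 2 : ℝ) * (X ^ (ε / 2) * (4 / ε))) * (4 * X ^ (-(1 / 2 + z.re))) := by
            have := norm_w (z := z) (by linarith) hz1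
            gcongr
        _ = (C2 * (4 / ε) * 4) * (2 + |z.im|) * (X ^ (1 / 2 : ℝ) * (X ^ (ε / 2) * X ^ (-(1 / 2 + z.re)))) := by
            ring
        _ = _ := by
            rw [← Real.rpow_add hX0, ← Real.rpow_add hX0]
            congr 2
            ring
    calc ‖LL s q (1 / 2 + z) - ∑ l ∈ Finset.Icc 1 K, vl s q l * (l : ℂ) ^ (-(1 / 2 + z))‖ ^ 2
        ≤ ((C2 * (4 / ε) * 4) * (2 + |z.im|) * X ^ (ε / 2 - z.re)) ^ 2 :=
          pow_le_pow_left₀ (norm_nonneg _) h8 2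
      _ = _ := by
          rw [mul_pow, mul_pow, ← Real.rpow_natCast (X ^ (ε / 2 - z.re)), ← Real.rpow_mul hX0.le]
          congr 2
          push_cast
          ring
  have h5 : ∑ q ∈ Q s X, ‖LL s q (1 / 2 + z) - ∑ l ∈ Finset.Icc 1 K, vl s q l * (l : ℂ) ^ (-(1 / 2 + z))‖ ^ 2 ≤
      (C2 * (4 / ε) * 4) ^ 2 * (2 + |z.im|) ^ 2 * (X ^ (1 + ε) * (L : ℝ) ^ (-(2 * z.re - τ))) := by
    calc _ ≤ ∑ q ∈ Q s X, (C2 * (4 / ε) * 4) ^ 2 * (2 + |z.im|) ^ 2 * X ^ (ε - 2 * z.re) := Finset.sum_le_sum h4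
      _ = ((Q s X).card : ℝ) * ((C2 * (4 / ε) * 4) ^ 2 * (2 + |z.im|) ^ 2 * X ^ (ε - 2 * z.re)) := by
          rw [Finset.sum_const, nsmul_eq_mul]
      _ ≤ X * ((C2 * (4 / ε) * 4) ^ 2 * (2 + |z.im|) ^ 2 * X ^ (ε - 2 * z.re)) :=
          mul_le_mul_of_nonneg_right (Q_card hX) (by positivity)
      _ = (C2 * (4 / ε) * 4) ^ 2 * (2 + |z.im|) ^ 2 * (X ^ (1 : ℝ) * X ^ (ε - 2 * z.re)) := by
          rw [Real.rpow_one]; ring
      _ ≤ _ := by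
          apply mul_le_mul_of_nonneg_left _ (by positivity)
          rw [← Real.rpow_add hX0]
          calc X ^ (1 + (ε - 2 * z.re)) ≤ X ^ ((1 + ε) + (-(2 * z.re - τ))) :=
                Real.rpow_le_rpow_of_exponent_le hX (by linarith)
            _ = X ^ (1 + ε) * X ^ (-(2 * z.re - τ)) := Real.rpow_add hX0 _ _
            _ ≤ _ := mul_le_mul_of_nonneg_left (Real.rpow_le_rpow_of_nonpos hL0 hLX (by linarith)) (by positivity)
  calc ∑ q ∈ Q s X, ‖LL s q (1 / 2 + z) - ∑ l ∈ Finset.Icc 1 L, vl s q l * (l : ℂ) ^ (-(1 / 2 + z))‖ ^ 2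
      ≤ ∑ q ∈ Q s X, (2 * ‖LL s q (1 / 2 + z) - ∑ l ∈ Finset.Icc 1 K, vl s q l * (l : ℂ) ^ (-(1 / 2 + z))‖ ^ 2 +
          2 * ‖∑ l ∈ Finset.Icc 1 K, vl s q l * y l‖ ^ 2) := by
        refine Finset.sum_le_sum fun q _ => ?_
        rw [e1 q]
        have h6 := norm_add_le (LL s q (1 / 2 + z) - ∑ l ∈ Finset.Icc 1 K, vl s q l * (l : ℂ) ^ (-(1 / 2 + z)))
          (∑ l ∈ Finset.Icc 1 K, vl s q l * y l)
        have h7 := pow_le_pow_left₀ (norm_nonneg _) h6 2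
        nlinarith [sq_nonneg (‖LL s q (1 / 2 + z) - ∑ l ∈ Finset.Icc 1 K, vl s q l * (l : ℂ) ^ (-(1 / 2 + z))‖ -
          ‖∑ l ∈ Finset.Icc 1 K, vl s q l * y l‖)]
    _ = 2 * ∑ q ∈ Q s X, ‖LL s q (1 / 2 + z) - ∑ l ∈ Finset.Icc 1 K, vl s q l * (l : ℂ) ^ (-(1 / 2 + z))‖ ^ 2 +
          2 * ∑ q ∈ Q s X, ‖∑ l ∈ Finset.Icc 1 K, vl s q l * y l‖ ^ 2 := by
        rw [Finset.sum_add_distrib, Finset.mul_sum, Finset.mul_sum]
    _ ≤ 2 * ((C2 * (4 / ε) * 4) ^ 2 * (2 + |z.im|) ^ 2 * (X ^ (1 + ε) * (L : ℝ) ^ (-(2 * z.re - τ)))) +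
          2 * (C1 * X ^ (1 + ε) * (L : ℝ) ^ (-(2 * z.re - τ))) := by gcongr
    _ ≤ _ := by
        have h8 : 1 ≤ (2 + |z.im|) ^ 2 := one_le_pow₀ (by linarith [abs_nonneg z.im])
        have h9 : 0 ≤ C1 * X ^ (1 + ε) * (L : ℝ) ^ (-(2 * z.re - τ)) := by positivity
        nlinarith

/-- the twisted first moment to the right of the centre -/
theorem rl (hAV : S_AV) {σ : ℝ} (hσ : 0 < σ) (hσ1 : σ ≤ 1 / 8) : ∃ C : ℝ, 0 < C ∧
    ∀ (s : ℤ) (X x : ℝ) (m : ℕ) (z : ℂ), s = 1 ∨ s = -1 → 1 ≤ x → x ≤ X → 1 ≤ m → z.re = σ →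
      ‖(∑ q ∈ Q s x, LL s q (1 / 2 + z) * vl s q m) - ((c0 * x : ℝ) : ℂ) * hz m z‖ ≤
        C * (2 + |z.im|) * m * X ^ (1 - 27 / 50 * σ) := by
  classical
  obtain ⟨τ, hτ⟩ : ∃ τ : ℝ, τ = σ / 50 := ⟨_, rfl⟩
  have hτ0 : 0 < τ := by rw [hτ]; positivity
  obtain ⟨C1, hC1, h1⟩ := tail_ms hτ0 hτ0
  obtain ⟨C2, hC2, h2⟩ := trunc hτ0
  obtain ⟨C3, hC3, h3⟩ := t_AVG t_UNI
  obtain ⟨C4, hC4, h4⟩ := hAV
  have hc0 : 0 < c0 := by unfold c0; positivity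
  refine ⟨2 * √C1 + c0 * (2 * C2) + 4 * C3 + 2 * C4, by positivity, ?_⟩
  intro s X x m z hs hx hxX hm hzσ
  have hX : 1 ≤ X := hx.trans hxX
  have hX0 : 0 < X := by linarith
  have hx0 : 0 < x := by linarith
  have hmR : (1 : ℝ) ≤ m := by exact_mod_cast hm
  have hm0 : (0 : ℝ) < m := by linarith
  obtain ⟨L, hL⟩ : ∃ L : ℕ, L = ⌊X ^ (4 / 7 : ℝ)⌋₊ := ⟨_, rfl⟩
  obtain ⟨f1, f2, f3⟩ := floor_half (Real.one_le_rpow hX (by norm_num : (0 : ℝ) ≤ 4 / 7) : 1 ≤ X ^ (4 / 7 : ℝ))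
  rw [← hL] at f1 f2 f3
  have hL0 : (0 : ℝ) < L := by exact_mod_cast f3
  have hL1 : (1 : ℝ) ≤ L := by exact_mod_cast f3
  have hLX : (L : ℝ) ≤ X := by
    refine f2.trans ?_
    calc X ^ (4 / 7 : ℝ) ≤ X ^ (1 : ℝ) := Real.rpow_le_rpow_of_exponent_le hX (by norm_num)
      _ = X := Real.rpow_one X
  have hLneg : ∀ e : ℝ, 0 ≤ e → e ≤ 1 → (L : ℝ) ^ (-e) ≤ 2 * X ^ (-(4 / 7 * e)) := by
    intro e he he1
    calc (L : ℝ) ^ (-e) ≤ (X ^ (4 / 7 : ℝ) / 2) ^ (-e) :=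
          Real.rpow_le_rpow_of_nonpos (by positivity) f1 (by linarith)
      _ = X ^ (-(4 / 7 * e)) * 2 ^ e := by
          rw [Real.div_rpow (by positivity) (by norm_num), Real.rpow_neg (by norm_num : (0 : ℝ) ≤ 2), div_inv_eq_mul,
            ← Real.rpow_mul hX0.le]
          congr 2
          ring
      _ ≤ X ^ (-(4 / 7 * e)) * 2 := by
          apply mul_le_mul_of_nonneg_left _ (by positivity)
          calc (2 : ℝ) ^ e ≤ 2 ^ (1 : ℝ) := Real.rpow_le_rpow_of_exponent_le (by norm_num) he1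
            _ = 2 := by norm_num
      _ = _ := by ring
  have him : 1 ≤ 2 + |z.im| := by linarith [abs_nonneg z.im]
  obtain ⟨w, hw⟩ : ∃ w : ℂ, w = 1 / 2 + z := ⟨_, rfl⟩
  have hwre : w.re = 1 / 2 + σ := by rw [hw, ← hzσ]; simp
  -- the tail
  obtain ⟨P, hP⟩ : ∃ P : ℕ → ℂ, P = fun q => ∑ l ∈ Finset.Icc 1 L, vl s q l * (l : ℂ) ^ (-w) := ⟨_, rfl⟩
  have hQsub : Q s x ⊆ Q s X := by
    intro q hq
    unfold Q at hq ⊢
    rw [Finset.mem_filter, Finset.mem_Ico] at hq ⊢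
    exact ⟨⟨hq.1.1, hq.1.2.trans_le (Nat.ceil_mono hxX)⟩, hq.2⟩
  have g1 : ‖∑ q ∈ Q s x, (LL s q w - P q) * vl s q m‖ ≤ 2 * √C1 * (2 + |z.im|) * X ^ (1 - 27 / 50 * σ) := by
    have k1 := h1 s X L z hs hX f3 hLX (by rw [hzσ, hτ]; linarith) (by rw [hzσ]; linarith)
    rw [← hw] at k1
    have k2 : (∑ q ∈ Q s X, ‖LL s q w - P q‖) ^ 2 ≤ X * (C1 * (2 + |z.im|) ^ 2 * X ^ (1 + τ) *
        (L : ℝ) ^ (-(2 * z.re - τ))) := by
      refine (sq_sum_le_card_mul_sum_sq).trans ?_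
      rw [hP]
      exact mul_le_mul (Q_card hX) k1 (Finset.sum_nonneg fun _ _ => by positivity) hX0.le
    have k3 : (L : ℝ) ^ (-(2 * z.re - τ)) ≤ 2 * X ^ (-(4 / 7 * (2 * z.re - τ))) :=
      hLneg _ (by rw [hzσ, hτ]; linarith) (by rw [hzσ, hτ]; linarith)
    have k4 : (∑ q ∈ Q s X, ‖LL s q w - P q‖) ^ 2 ≤ (2 * √C1 * (2 + |z.im|) * X ^ (1 - 27 / 50 * σ)) ^ 2 := by
      refine k2.trans ?_
      calc X * (C1 * (2 + |z.im|) ^ 2 * X ^ (1 + τ) * (L : ℝ) ^ (-(2 * z.re - τ)))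
          ≤ X * (C1 * (2 + |z.im|) ^ 2 * X ^ (1 + τ) * (2 * X ^ (-(4 / 7 * (2 * z.re - τ))))) := by gcongr
        _ = 2 * C1 * (2 + |z.im|) ^ 2 * (X ^ (1 : ℝ) * (X ^ (1 + τ) * X ^ (-(4 / 7 * (2 * z.re - τ))))) := by
            rw [Real.rpow_one]; ring
        _ ≤ 4 * C1 * (2 + |z.im|) ^ 2 * (X ^ (1 - 27 / 50 * σ) * X ^ (1 - 27 / 50 * σ)) := by
            rw [← Real.rpow_add hX0, ← Real.rpow_add hX0, ← Real.rpow_add hX0]
            apply mul_le_mul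
            · have : 0 ≤ C1 * (2 + |z.im|) ^ 2 := by positivity
              nlinarith
            · apply Real.rpow_le_rpow_of_exponent_le hX
              rw [hzσ, hτ]
              linarith
            · positivity
            · positivity
        _ = _ := by
            rw [mul_pow, mul_pow, mul_pow, Real.sq_sqrt hC1.le]
            ring
    have k5 := abs_le_of_sq_le_sq k4 (by positivity)
    calc ‖∑ q ∈ Q s x, (LL s q w - P q) * vl s q m‖ ≤ ∑ q ∈ Q s x, ‖(LL s q w - P q) * vl s q m‖ :=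
          norm_sum_le _ _
      _ ≤ ∑ q ∈ Q s x, ‖LL s q w - P q‖ := by
          refine Finset.sum_le_sum fun q _ => ?_
          rw [norm_mul]
          exact mul_le_of_le_one_right (norm_nonneg _) (DirichletCharacter.norm_le_one _ _)
      _ ≤ ∑ q ∈ Q s X, ‖LL s q w - P q‖ :=
          Finset.sum_le_sum_of_subset_of_nonneg hQsub fun _ _ _ => norm_nonneg _
      _ ≤ _ := (le_abs_self _).trans k5
  -- the sums over q
  obtain ⟨S1, hS1⟩ : ∃ S : Finset ℕ, S = (Finset.Icc 1 L).filter (fun l => IsSquare (l * m)) := ⟨_, rfl⟩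
  obtain ⟨S2, hS2⟩ : ∃ S : Finset ℕ, S = (Finset.Icc 1 L).filter (fun l => IsSquare (l * (2 * m))) := ⟨_, rfl⟩
  obtain ⟨T, hT⟩ : ∃ T : ℕ → ℂ, T = fun l => (∑ q ∈ Q s x, vl s q (l * m)) -
    if l ∈ S1 then ((c0 * x * af (l * m) : ℝ) : ℂ) else 0 := ⟨_, rfl⟩
  have g2 : ∀ l ∈ Finset.Icc 1 L, ‖T l * (l : ℂ) ^ (-w)‖ ≤ (if l ∈ S1 then C3 * √X * √m else 0) +
      (if l ∈ S2 then C3 * √X * √m else 0) + C4 * √X * (m : ℝ) ^ (3 / 8 : ℝ) * (l : ℝ) ^ (-(1 / 8 + σ)) := by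
    intro l hl
    have hl2 := Finset.mem_Icc.1 hl
    have hlR : (1 : ℝ) ≤ l := by exact_mod_cast hl2.1
    have hl0 : (0 : ℝ) < l := by linarith
    have hlm : 1 ≤ l * m := Nat.mul_pos hl2.1 hm
    have hsx : √x ≤ √X := Real.sqrt_le_sqrt hxX
    have hnl : ‖(l : ℂ) ^ (-w)‖ = (l : ℝ) ^ (-(1 / 2 + σ)) := by
      rw [Complex.norm_natCast_cpow_of_pos hl2.1, Complex.neg_re, hwre]
    have hcm : √((l * m : ℕ) : ℝ) = √l * √m := by
      rw [Nat.cast_mul, Real.sqrt_mul (by positivity)]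
    have hll : √(l : ℝ) * (l : ℝ) ^ (-(1 / 2 + σ)) ≤ 1 := by
      rw [Real.sqrt_eq_rpow, ← Real.rpow_add hl0]
      apply Real.rpow_le_one_of_one_le_of_nonpos hlR
      linarith
    have hsq : ∀ t : ℝ, t ≤ C3 * √x * √((l * m : ℕ) : ℝ) → 0 ≤ t → t * ‖(l : ℂ) ^ (-w)‖ ≤ C3 * √X * √m := by
      intro t ht ht0
      rw [hnl]
      calc t * (l : ℝ) ^ (-(1 / 2 + σ)) ≤ (C3 * √X * √((l * m : ℕ) : ℝ)) * (l : ℝ) ^ (-(1 / 2 + σ)) := by
            apply mul_le_mul_of_nonneg_right _ (by positivity)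
            refine ht.trans ?_
            gcongr
        _ = C3 * √X * √m * (√(l : ℝ) * (l : ℝ) ^ (-(1 / 2 + σ))) := by rw [hcm]; ring
        _ ≤ C3 * √X * √m * 1 := by gcongr
        _ = _ := mul_one _
    have n1 : 0 ≤ (if l ∈ S1 then C3 * √X * √m else 0) := by split_ifs <;> positivity
    have n2 : 0 ≤ (if l ∈ S2 then C3 * √X * √m else 0) := by split_ifs <;> positivity
    have n3 : 0 ≤ C4 * √X * (m : ℝ) ^ (3 / 8 : ℝ) * (l : ℝ) ^ (-(1 / 8 + σ)) := by positivity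
    rw [norm_mul]
    by_cases c1 : l ∈ S1
    · have c1' : IsSquare (l * m) := by
        rw [hS1, Finset.mem_filter] at c1
        exact c1.2
      have := (h3 s x (l * m) hs hx hlm).1 c1'
      have k1 : ‖T l‖ ≤ C3 * √x * √((l * m : ℕ) : ℝ) := by
        rw [hT]
        simp only
        rw [if_pos c1]
        exact this
      have k2 := hsq _ k1 (norm_nonneg _)
      rw [if_pos c1] at n1 ⊢
      linarith
    · have c1' : ¬ IsSquare (l * m) := by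
        intro h
        apply c1
        rw [hS1, Finset.mem_filter]
        exact ⟨hl, h⟩
      have hTl : T l = ∑ q ∈ Q s x, vl s q (l * m) := by
        rw [hT]
        simp only
        rw [if_neg c1, sub_zero]
      by_cases c2 : l ∈ S2
      · have k1 : ‖T l‖ ≤ C3 * √x * √((l * m : ℕ) : ℝ) := by
          rw [hTl]
          exact (h3 s x (l * m) hs hx hlm).2 c1'
        have k2 := hsq _ k1 (norm_nonneg _)
        rw [if_pos c2] at n2 ⊢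
        linarith
      · have c2' : ¬ IsSquare (2 * (l * m)) := by
          intro h
          apply c2
          rw [hS2, Finset.mem_filter]
          refine ⟨hl, ?_⟩
          have e : l * (2 * m) = 2 * (l * m) := by ring
          rw [e]
          exact h
        have k1 : ‖T l‖ ≤ C4 * √X * ((l * m : ℕ) : ℝ) ^ (3 / 8 : ℝ) := by
          rw [hTl]
          refine (h4 s x (l * m) hs hx hlm c1' c2').trans ?_
          gcongr
        rw [hnl]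
        have k2 : ‖T l‖ * (l : ℝ) ^ (-(1 / 2 + σ)) ≤
            C4 * √X * (m : ℝ) ^ (3 / 8 : ℝ) * (l : ℝ) ^ (-(1 / 8 + σ)) := by
          calc ‖T l‖ * (l : ℝ) ^ (-(1 / 2 + σ)) ≤
                (C4 * √X * ((l * m : ℕ) : ℝ) ^ (3 / 8 : ℝ)) * (l : ℝ) ^ (-(1 / 2 + σ)) :=
                mul_le_mul_of_nonneg_right k1 (by positivity)
            _ = C4 * √X * (m : ℝ) ^ (3 / 8 : ℝ) * ((l : ℝ) ^ (3 / 8 : ℝ) * (l : ℝ) ^ (-(1 / 2 + σ))) := by
                rw [Nat.cast_mul, Real.mul_rpow hl0.le hm0.le]; ring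
            _ = _ := by
                rw [← Real.rpow_add hl0]
                congr 2
                ring
        linarith
  have g3 : ‖∑ l ∈ Finset.Icc 1 L, T l * (l : ℂ) ^ (-w)‖ ≤ (4 * C3 + 2 * C4) * m * X ^ (1 - 27 / 50 * σ) := by
    refine (norm_sum_le _ _).trans ((Finset.sum_le_sum g2).trans ?_)
    rw [Finset.sum_add_distrib, Finset.sum_add_distrib, ← Finset.mul_sum]
    have q1 : ∑ l ∈ Finset.Icc 1 L, (if l ∈ S1 then C3 * √X * √m else 0) ≤ √L * (C3 * √X * √m) := by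
      rw [← Finset.sum_filter, Finset.sum_const, nsmul_eq_mul]
      apply mul_le_mul_of_nonneg_right _ (by positivity)
      have : (Finset.Icc 1 L).filter (fun l => l ∈ S1) = S1 := by
        rw [hS1]
        ext l
        simp only [Finset.mem_filter]
        tauto
      rw [this, hS1]
      exact card_sq hm L
    have q2 : ∑ l ∈ Finset.Icc 1 L, (if l ∈ S2 then C3 * √X * √m else 0) ≤ √L * (C3 * √X * √m) := by
      rw [← Finset.sum_filter, Finset.sum_const, nsmul_eq_mul]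
      apply mul_le_mul_of_nonneg_right _ (by positivity)
      have : (Finset.Icc 1 L).filter (fun l => l ∈ S2) = S2 := by
        rw [hS2]
        ext l
        simp only [Finset.mem_filter]
        tauto
      rw [this, hS2]
      exact card_sq (m := 2 * m) (by omega) L
    have q3 := sum_pow (a := 1 / 8 + σ) (by positivity) (by linarith) L
    have hsm : √(m : ℝ) ≤ m := by
      rw [Real.sqrt_le_left (by positivity)]
      nlinarith
    have hm38 : (m : ℝ) ^ (3 / 8 : ℝ) ≤ m := by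
      calc (m : ℝ) ^ (3 / 8 : ℝ) ≤ (m : ℝ) ^ (1 : ℝ) := Real.rpow_le_rpow_of_exponent_le hmR (by norm_num)
        _ = m := Real.rpow_one _
    have q4 : √(L : ℝ) * √X ≤ X ^ (1 - 27 / 50 * σ) := by
      calc √(L : ℝ) * √X ≤ √(X ^ (4 / 7 : ℝ)) * √X :=
            mul_le_mul_of_nonneg_right (Real.sqrt_le_sqrt f2) (by positivity)
        _ = X ^ (4 / 7 * (1 / 2) + 1 / 2 : ℝ) := by
            rw [Real.sqrt_eq_rpow, Real.sqrt_eq_rpow, ← Real.rpow_mul hX0.le, ← Real.rpow_add hX0]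
        _ ≤ _ := Real.rpow_le_rpow_of_exponent_le hX (by linarith)
    have q5 : √X * (L : ℝ) ^ (1 - (1 / 8 + σ)) ≤ X ^ (1 - 27 / 50 * σ) := by
      calc √X * (L : ℝ) ^ (1 - (1 / 8 + σ)) ≤ √X * (X ^ (4 / 7 : ℝ)) ^ (1 - (1 / 8 + σ)) := by
            apply mul_le_mul_of_nonneg_left _ (by positivity)
            exact Real.rpow_le_rpow hL0.le f2 (by linarith)
        _ = X ^ (1 / 2 + 4 / 7 * (1 - (1 / 8 + σ)) : ℝ) := by
            rw [Real.sqrt_eq_rpow, ← Real.rpow_mul hX0.le, ← Real.rpow_add hX0]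
        _ ≤ _ := Real.rpow_le_rpow_of_exponent_le hX (by linarith)
    have hXp : 0 ≤ X ^ (1 - 27 / 50 * σ) := by positivity
    have r1 : √(L : ℝ) * (C3 * √X * √m) ≤ C3 * m * X ^ (1 - 27 / 50 * σ) := by
      calc √(L : ℝ) * (C3 * √X * √m) = C3 * √m * (√(L : ℝ) * √X) := by ring
        _ ≤ C3 * m * X ^ (1 - 27 / 50 * σ) := by gcongr
    have r2 : C4 * √X * (m : ℝ) ^ (3 / 8 : ℝ) * ∑ l ∈ Finset.Icc 1 L, (l : ℝ) ^ (-(1 / 8 + σ)) ≤
        2 * C4 * m * X ^ (1 - 27 / 50 * σ) := by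
      calc C4 * √X * (m : ℝ) ^ (3 / 8 : ℝ) * ∑ l ∈ Finset.Icc 1 L, (l : ℝ) ^ (-(1 / 8 + σ))
          ≤ C4 * √X * (m : ℝ) ^ (3 / 8 : ℝ) * (2 * (L : ℝ) ^ (1 - (1 / 8 + σ))) := by gcongr
        _ = 2 * C4 * (m : ℝ) ^ (3 / 8 : ℝ) * (√X * (L : ℝ) ^ (1 - (1 / 8 + σ))) := by ring
        _ ≤ 2 * C4 * m * X ^ (1 - 27 / 50 * σ) := by gcongr
    have r3 : 0 ≤ C3 * m * X ^ (1 - 27 / 50 * σ) := by positivity
    linarith
  -- the diagonal
  have g4 := h2 m L z hm f3 (by rw [hzσ, hτ]; linarith)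
  rw [← hw, ← hS1, hzσ] at g4
  have g5 : ‖((c0 * x : ℝ) : ℂ) * ((∑ l ∈ S1, (af (l * m) : ℂ) * (l : ℂ) ^ (-w)) - hz m z)‖ ≤
      c0 * (2 * C2) * X ^ (1 - 27 / 50 * σ) := by
    rw [norm_mul, Complex.norm_real, Real.norm_of_nonneg (by positivity)]
    calc c0 * x * ‖(∑ l ∈ S1, (af (l * m) : ℂ) * (l : ℂ) ^ (-w)) - hz m z‖
        ≤ c0 * X * (C2 * (2 * X ^ (-(4 / 7 * (σ - τ))))) := by
          have := hLneg (σ - τ) (by rw [hτ]; linarith) (by linarith)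
          have k := g4.trans (mul_le_mul_of_nonneg_left this hC2.le)
          gcongr
      _ = c0 * (2 * C2) * (X ^ (1 : ℝ) * X ^ (-(4 / 7 * (σ - τ)))) := by rw [Real.rpow_one]; ring
      _ ≤ _ := by
          rw [← Real.rpow_add hX0]
          apply mul_le_mul_of_nonneg_left _ (by positivity)
          apply Real.rpow_le_rpow_of_exponent_le hX
          rw [hτ]
          linarith
  -- the identity
  have e : (∑ q ∈ Q s x, LL s q (1 / 2 + z) * vl s q m) - ((c0 * x : ℝ) : ℂ) * hz m z =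
      (∑ q ∈ Q s x, (LL s q w - P q) * vl s q m) + (∑ l ∈ Finset.Icc 1 L, T l * (l : ℂ) ^ (-w)) +
        ((c0 * x : ℝ) : ℂ) * ((∑ l ∈ S1, (af (l * m) : ℂ) * (l : ℂ) ^ (-w)) - hz m z) := by
    have e1 : ∑ q ∈ Q s x, P q * vl s q m = ∑ l ∈ Finset.Icc 1 L, (∑ q ∈ Q s x, vl s q (l * m)) * (l : ℂ) ^ (-w) := by
      rw [hP]
      simp only [Finset.sum_mul]
      rw [Finset.sum_comm]
      refine Finset.sum_congr rfl fun l _ => Finset.sum_congr rfl fun q _ => ?_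
      rw [vl_mul]
      ring
    have e2 : ∑ l ∈ Finset.Icc 1 L, T l * (l : ℂ) ^ (-w) =
        (∑ l ∈ Finset.Icc 1 L, (∑ q ∈ Q s x, vl s q (l * m)) * (l : ℂ) ^ (-w)) -
          ((c0 * x : ℝ) : ℂ) * ∑ l ∈ S1, (af (l * m) : ℂ) * (l : ℂ) ^ (-w) := by
      have e3 : ((c0 * x : ℝ) : ℂ) * ∑ l ∈ S1, (af (l * m) : ℂ) * (l : ℂ) ^ (-w) =
          ∑ l ∈ Finset.Icc 1 L, (if l ∈ S1 then ((c0 * x * af (l * m) : ℝ) : ℂ) else 0) * (l : ℂ) ^ (-w) := by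
        rw [Finset.mul_sum]
        have : S1 = (Finset.Icc 1 L).filter (fun l => l ∈ S1) := by
          rw [hS1]
          ext l
          simp only [Finset.mem_filter]
          tauto
        rw [this, Finset.sum_filter]
        refine Finset.sum_congr rfl fun l _ => ?_
        rw [← this]
        split_ifs
        · push_cast; ring
        · ring
      rw [e3, ← Finset.sum_sub_distrib]
      refine Finset.sum_congr rfl fun l _ => ?_
      rw [hT]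
      ring
    rw [e2, ← e1, ← hw]
    simp only [sub_mul, Finset.sum_sub_distrib, mul_sub]
    ring
  rw [e]
  refine (norm_add₃_le).trans ?_
  have hXp : 0 ≤ X ^ (1 - 27 / 50 * σ) := by positivity
  have hbig : (2 * √C1 + c0 * (2 * C2) + 4 * C3 + 2 * C4) * (2 + |z.im|) * m * X ^ (1 - 27 / 50 * σ) =
      2 * √C1 * (2 + |z.im|) * X ^ (1 - 27 / 50 * σ) * m + (4 * C3 + 2 * C4) * m * X ^ (1 - 27 / 50 * σ) *
        (2 + |z.im|) + c0 * (2 * C2) * X ^ (1 - 27 / 50 * σ) * ((2 + |z.im|) * m) := by ring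
  rw [hbig]
  have t1 : 2 * √C1 * (2 + |z.im|) * X ^ (1 - 27 / 50 * σ) ≤
      2 * √C1 * (2 + |z.im|) * X ^ (1 - 27 / 50 * σ) * m := le_mul_of_one_le_right (by positivity) hmR
  have t2 : (4 * C3 + 2 * C4) * m * X ^ (1 - 27 / 50 * σ) ≤
      (4 * C3 + 2 * C4) * m * X ^ (1 - 27 / 50 * σ) * (2 + |z.im|) := le_mul_of_one_le_right (by positivity) him
  have t3 : c0 * (2 * C2) * X ^ (1 - 27 / 50 * σ) ≤ c0 * (2 * C2) * X ^ (1 - 27 / 50 * σ) * ((2 + |z.im|) * m) :=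
    le_mul_of_one_le_right (by positivity) (one_le_mul_of_one_le_of_one_le him hmR)
  linarith

end

end Pool.Agent.V8H6.CB
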