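import Pool.Agent.V8H6.CB.Ps

set_option autoImplicit false

/-! The twisted first moment near the centre. -/

namespace Pool.Agent.V8H6.CB

open Complex hiding im
open Filter Topology MeasureTheory Set
open Pool.Agent.N879.QM Pool.Agent.V8H6.RW
open Pool.Agent.H306R2 (Zt Zt_norm_le zeta_eq_pos Zt_differentiableAt)
open scoped BigOperators

noncomputable section

lemma int_poly (K : ℕ) : Integrable fun y : ℝ => Real.exp (-(y ^ 2) / 2) * (2 + |y|) ^ K := by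
  have h0 := integrable_exp_neg_mul_sq (b := 1 / 2) (by norm_num)
  have h1 := integrable_rpow_mul_exp_neg_mul_sq (b := 1 / 2) (by norm_num) (s := (K : ℝ))
    (by have : (0 : ℝ) ≤ K := Nat.cast_nonneg K; linarith)
  have h2 := (h0.const_mul (4 ^ K)).add (h1.norm.const_mul (2 ^ K))
  refine h2.mono' ?_ ?_
  · apply Continuous.aestronglyMeasurable
    fun_prop
  · filter_upwards with y
    have e1 : Real.exp (-(y ^ 2) / 2) = Real.exp (-(1 / 2) * y ^ 2) := by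
      congr 1; ring
    rw [norm_mul, Real.norm_of_nonneg (Real.exp_pos _).le, Real.norm_of_nonneg (by positivity), e1]
    simp only [Pi.add_apply]
    rw [norm_mul, Real.rpow_natCast, norm_pow, Real.norm_eq_abs, Real.norm_of_nonneg (Real.exp_pos _).le]
    have e2 : (2 + |y|) ^ K ≤ 4 ^ K + 2 ^ K * |y| ^ K := by
      rcases le_total |y| 2 with h | h
      · calc (2 + |y|) ^ K ≤ 4 ^ K := pow_le_pow_left₀ (by positivity) (by linarith) K
          _ ≤ _ := by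
            have : 0 ≤ 2 ^ K * |y| ^ K := by positivity
            linarith
      · calc (2 + |y|) ^ K ≤ (2 * |y|) ^ K := pow_le_pow_left₀ (by positivity) (by linarith) K
          _ = 2 ^ K * |y| ^ K := mul_pow _ _ _
          _ ≤ _ := by
            have : (0 : ℝ) ≤ 4 ^ K := by positivity
            linarith
    have e3 := (Real.exp_pos (-(1 / 2) * y ^ 2)).le
    nlinarith

/-- the twisted first moment -/
def TM (s : ℤ) (X : ℝ) (m : ℕ) (z : ℂ) : ℂ := ∑ q ∈ Q s X, LL s q (1 / 2 + z) * vl s q m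

/-- the second factor -/
def YX (s : ℤ) (X : ℝ) (z : ℂ) : ℂ := Yf s z * (X : ℂ) ^ (1 - z) / (1 - z)

/-- its main term -/
def mn (s : ℤ) (X : ℝ) (m : ℕ) (z : ℂ) : ℂ := (c0 : ℂ) * (X * hz m z + YX s X z * hz m (-z))

/-- the difference without the pole -/
def Gf (s : ℤ) (X : ℝ) (m : ℕ) (z : ℂ) : ℂ := z * TM s X m z - (c0 : ℂ) * (X * (1 / 2 * Zt (1 + 2 * z) * Fz m z) -
  YX s X z * (1 / 2 * Zt (1 - 2 * z) * Fz m (-z)))

lemma z_hz {m : ℕ} {z : ℂ} (hz0 : z ≠ 0) (hzr : -1 / 4 < z.re) : z * hz m z = 1 / 2 * Zt (1 + 2 * z) * Fz m z := by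
  unfold hz
  rw [← zeta_eq_pos (s := 1 + 2 * z) (by simp; linarith) (by
    intro h
    apply hz0
    linear_combination h / 2)]
  ring

lemma Gf_eq {s : ℤ} {X : ℝ} {m : ℕ} {z : ℂ} (hz0 : z ≠ 0) (h1 : |z.re| < 1 / 4) :
    Gf s X m z = z * (TM s X m z - mn s X m z) := by
  rw [abs_lt] at h1
  have e1 := z_hz (m := m) hz0 (by linarith)
  have e2 := z_hz (m := m) (z := -z) (neg_ne_zero.2 hz0) (by rw [neg_re]; linarith)
  have e3 : (1 : ℂ) + 2 * -z = 1 - 2 * z := by ring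
  rw [e3] at e2
  unfold Gf mn
  rw [← e1, ← e2]
  ring

lemma zt_bd {z : ℂ} (h : |z.re| ≤ 1 / 8) : ‖Zt (1 + 2 * z)‖ ≤ 12 * (2 + |z.im|) ^ 2 := by
  have h' := abs_le.1 h
  refine (Zt_norm_le (by simp; linarith)).trans ?_
  have h1 : ‖z‖ ≤ 1 + |z.im| := (Complex.norm_le_abs_re_add_abs_im z).trans (by linarith)
  have h2 : ‖(1 + 2 * z : ℂ)‖ + 1 ≤ 2 * (2 + |z.im|) := by
    have h3 := norm_add_le (1 : ℂ) (2 * z)
    rw [norm_one, norm_mul, RCLike.norm_ofNat] at h3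
    linarith
  calc 3 * (‖(1 + 2 * z : ℂ)‖ + 1) ^ 2 ≤ 3 * (2 * (2 + |z.im|)) ^ 2 := by gcongr
    _ = _ := by ring

lemma zt_bd' {z : ℂ} (h : |z.re| ≤ 1 / 8) : ‖Zt (1 - 2 * z)‖ ≤ 12 * (2 + |z.im|) ^ 2 := by
  have := zt_bd (z := -z) (by rwa [neg_re, abs_neg])
  rw [neg_im, abs_neg, show (1 : ℂ) + 2 * -z = 1 - 2 * z by ring] at this
  exact this

lemma YX_bd : ∃ C : ℝ, 0 < C ∧ ∀ (s : ℤ) (X : ℝ) (z : ℂ), 1 ≤ X → |z.re| ≤ 1 / 8 →
    ‖YX s X z‖ ≤ C * (2 + |z.im|) * X ^ (1 - z.re) := by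
  obtain ⟨C, hC, h⟩ := Yf_bd
  refine ⟨2 * C, by positivity, fun s X z hX hz => ?_⟩
  have hX0 : 0 < X := by linarith
  have h' := abs_le.1 hz
  unfold YX
  rw [norm_div, norm_mul, Complex.norm_cpow_eq_rpow_re_of_pos hX0]
  have h1 : 1 / 2 ≤ ‖(1 - z : ℂ)‖ := by
    have := (le_abs_self _).trans (Complex.abs_re_le_norm (1 - z))
    simp at this
    linarith
  have h2 := h s z hz
  have h3 : (1 - z : ℂ).re = 1 - z.re := by simp
  rw [h3, div_le_iff₀ (by linarith)]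
  calc ‖Yf s z‖ * X ^ (1 - z.re) ≤ (C * (1 + |z.im|)) * X ^ (1 - z.re) := by gcongr
    _ ≤ (2 * C * (2 + |z.im|) * X ^ (1 - z.re)) * (1 / 2) := by
        have : 0 ≤ C * X ^ (1 - z.re) := by positivity
        nlinarith
    _ ≤ _ := mul_le_mul_of_nonneg_left h1 (by positivity)

lemma YX_diff (s : ℤ) {X : ℝ} (hX : 0 < X) {z : ℂ} (hz : |z.re| < 1 / 2) : DifferentiableAt ℂ (YX s X) z := by
  unfold YX
  refine DifferentiableAt.div (DifferentiableAt.mul (Yf_diff s hz) ?_) (by fun_prop) ?_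
  · exact DifferentiableAt.const_cpow (by fun_prop) (Or.inl (by exact_mod_cast hX.ne'))
  · intro h
    have := congrArg Complex.re h
    rw [sub_re, one_re, zero_re] at this
    rw [abs_lt] at hz
    linarith

lemma TM_diff {s : ℤ} (X : ℝ) (m : ℕ) : Differentiable ℂ (TM s X m) := by
  unfold TM
  intro z
  refine DifferentiableAt.fun_sum fun q hq => ?_
  refine DifferentiableAt.mul ?_ (differentiableAt_const _)
  exact DifferentiableAt.comp (f := fun z : ℂ => 1 / 2 + z) z ((LL_diff (Q_is hq).1) _) (by fun_prop)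

lemma Gf_diff {s : ℤ} {X : ℝ} {m : ℕ} (hX : 0 < X) (hm : 1 ≤ m) {z : ℂ} (hz : |z.re| < 1 / 4) :
    DifferentiableAt ℂ (Gf s X m) z := by
  have h' := abs_lt.1 hz
  unfold Gf
  have d1 : DifferentiableAt ℂ (fun z : ℂ => Zt (1 + 2 * z)) z :=
    DifferentiableAt.comp (f := fun z : ℂ => 1 + 2 * z) z (Zt_differentiableAt (by simp; linarith)) (by fun_prop)
  have d2 : DifferentiableAt ℂ (fun z : ℂ => Zt (1 - 2 * z)) z :=
    DifferentiableAt.comp (f := fun z : ℂ => 1 - 2 * z) z (Zt_differentiableAt (by simp; linarith)) (by fun_prop)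
  have d3 : DifferentiableAt ℂ (Fz m) z := Fz_diff hm (by linarith)
  have d4 : DifferentiableAt ℂ (fun z : ℂ => Fz m (-z)) z :=
    DifferentiableAt.comp (f := fun z : ℂ => -z) z (Fz_diff hm (by rw [neg_re]; linarith)) (by fun_prop)
  have d5 := YX_diff s hX (z := z) (by linarith)
  have d6 := TM_diff (s := s) X m z
  fun_prop

lemma TM_gr {s : ℤ} (hs : s = 1 ∨ s = -1) (X : ℝ) (m : ℕ) : ∃ C : ℝ, 0 ≤ C ∧ ∀ z : ℂ, |z.re| ≤ 1 / 8 →
    ‖TM s X m z‖ ≤ C * (1 + |z.im|) ^ 2 := by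
  obtain ⟨C, hC, h⟩ := LL_gr
  refine ⟨∑ q ∈ Q s X, C * q ^ 2, Finset.sum_nonneg fun _ _ => by positivity, fun z hz => ?_⟩
  unfold TM
  refine (norm_sum_le _ _).trans ?_
  rw [Finset.sum_mul]
  refine Finset.sum_le_sum fun q hq => ?_
  rw [norm_mul]
  calc ‖LL s q (1 / 2 + z)‖ * ‖vl s q m‖ ≤ ‖LL s q (1 / 2 + z)‖ :=
        mul_le_of_le_one_right (norm_nonneg _) (DirichletCharacter.norm_le_one _ _)
    _ ≤ _ := h s q z hs (Q_is hq).1 hz

theorem tw (hAV : S_AV) {σ : ℝ} (hσ : 0 < σ) (hσ1 : σ ≤ 1 / 8) : ∃ C : ℝ, 0 < C ∧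
    ∀ (s : ℤ) (X : ℝ) (m : ℕ) (z : ℂ), s = 1 ∨ s = -1 → 1 ≤ X → 1 ≤ m → |z.re| ≤ σ / 50 → |z.im| ≤ 1 →
      ‖Gf s X m z‖ ≤ C * m * X ^ (1 - 3 / 100 * σ) := by
  obtain ⟨C1, hC1, h1⟩ := rl hAV hσ hσ1
  obtain ⟨C2, hC2, h2⟩ := Yf_bd
  obtain ⟨C3, hC3, h3⟩ := YX_bd
  obtain ⟨C4, hC4, h4⟩ := Fz_bd
  have hc0 : 0 < c0 := by unfold c0; positivity
  -- a bound for both lines
  obtain ⟨D, hD⟩ : ∃ D : ℝ, D = C1 + c0 * (C3 * (6 * C4)) + C2 * (C1 * (1 + 1 / σ) + c0 * (6 / σ * C4)) +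
    c0 * (6 * C4) := ⟨_, rfl⟩
  have hD0 : 0 < D := by rw [hD]; positivity
  obtain ⟨J0, hI⟩ : ∃ J0 : ℝ, J0 = ∫ y : ℝ, Real.exp (-(y ^ 2) / 2) * (2 + |y|) ^ 6 := ⟨_, rfl⟩
  have hI0 : 0 ≤ J0 := by rw [hI]; exact integral_nonneg fun y => by positivity
  refine ⟨Real.exp (2 ^ 2 + 1) * (D * J0 * (2 / σ) + D * J0 * (2 / σ)) + 1, by positivity, ?_⟩
  intro s X m p hs hX hm hp1 hp2
  have hX0 : 0 < X := by linarith
  have hXc : (X : ℂ) ≠ 0 := by exact_mod_cast hX0.ne'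
  have hmR : (1 : ℝ) ≤ m := by exact_mod_cast hm
  have hp1' := abs_le.1 hp1
  have nz : ∀ z : ℂ, |z.re| ≤ 1 / 8 → ‖z‖ ≤ 2 + |z.im| := fun z hz =>
    (Complex.norm_le_abs_re_add_abs_im z).trans (by linarith)
  have hn1 : ∀ z : ℂ, |z.re| ≤ 1 / 8 → ‖(1 / 2 : ℂ) * Zt (1 + 2 * z) * Fz m z‖ ≤ 6 * C4 * (2 + |z.im|) ^ 2 := by
    intro z hz
    have hz' := abs_le.1 hz
    rw [norm_mul, norm_mul]
    have e : ‖(1 / 2 : ℂ)‖ = 1 / 2 := by norm_num
    rw [e]
    calc 1 / 2 * ‖Zt (1 + 2 * z)‖ * ‖Fz m z‖ ≤ 1 / 2 * (12 * (2 + |z.im|) ^ 2) * C4 := by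
          have k1 := zt_bd hz
          have k2 := h4 m z hm (by linarith)
          gcongr
      _ = _ := by ring
  have hn2 : ∀ z : ℂ, |z.re| ≤ 1 / 8 → ‖(1 / 2 : ℂ) * Zt (1 - 2 * z) * Fz m (-z)‖ ≤ 6 * C4 * (2 + |z.im|) ^ 2 := by
    intro z hz
    have k := hn1 (-z) (by rwa [neg_re, abs_neg])
    rw [neg_im, abs_neg, show (1 : ℂ) + 2 * -z = 1 - 2 * z by ring] at k
    exact k
  have hc0n : ‖(c0 : ℂ)‖ = c0 := by rw [Complex.norm_real, Real.norm_of_nonneg hc0.le]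
  -- right line
  have hright : ∀ y : ℝ, ‖Gf s X m (σ + y * I)‖ ≤ D * m * (2 + |y|) ^ 6 * X ^ (1 - 27 / 50 * σ) := by
    intro y
    obtain ⟨z, hzd⟩ : ∃ z : ℂ, z = σ + y * I := ⟨_, rfl⟩
    have hre : z.re = σ := by rw [hzd]; simp
    have him : z.im = y := by rw [hzd]; simp
    have hz8 : |z.re| ≤ 1 / 8 := by rw [hre, abs_of_pos hσ]; exact hσ1
    have hz0 : z ≠ 0 := by
      intro h0
      rw [h0] at hre
      simp at hre
      linarith
    rw [← hzd]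
    have e1 : Gf s X m z = z * ((TM s X m z) - ((c0 * X : ℝ) : ℂ) * hz m z) +
        (c0 : ℂ) * (YX s X z * (1 / 2 * Zt (1 - 2 * z) * Fz m (-z))) := by
      have e2 := z_hz (m := m) hz0 (by rw [hre]; linarith)
      unfold Gf
      rw [← e2]
      push_cast
      ring
    have k1 := h1 s X X m z hs hX le_rfl hm hre
    have k2 := nz z hz8
    have k3 := h3 s X z hX hz8
    have k4 := hn2 z hz8
    rw [him] at k1 k2 k3 k4
    rw [hre] at k3
    have hy : 1 ≤ 2 + |y| := by linarith [abs_nonneg y]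
    rw [e1]
    refine (norm_add_le _ _).trans ?_
    rw [norm_mul, norm_mul, norm_mul, hc0n]
    have t1 : ‖z‖ * ‖(TM s X m z) - ((c0 * X : ℝ) : ℂ) * hz m z‖ ≤
        C1 * m * (2 + |y|) ^ 6 * X ^ (1 - 27 / 50 * σ) := by
      calc ‖z‖ * ‖(TM s X m z) - ((c0 * X : ℝ) : ℂ) * hz m z‖
          ≤ (2 + |y|) * (C1 * (2 + |y|) * m * X ^ (1 - 27 / 50 * σ)) := mul_le_mul k2 k1 (norm_nonneg _) (by positivity)
        _ = C1 * m * (2 + |y|) ^ 2 * X ^ (1 - 27 / 50 * σ) := by ring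
        _ ≤ _ := by
            gcongr 1
            exact mul_le_mul_of_nonneg_left (pow_le_pow_right₀ hy (by norm_num)) (by positivity)
    have t2 : c0 * (‖YX s X z‖ * ‖1 / 2 * Zt (1 - 2 * z) * Fz m (-z)‖) ≤
        c0 * (C3 * (6 * C4)) * m * (2 + |y|) ^ 6 * X ^ (1 - 27 / 50 * σ) := by
      calc c0 * (‖YX s X z‖ * ‖1 / 2 * Zt (1 - 2 * z) * Fz m (-z)‖)
          ≤ c0 * ((C3 * (2 + |y|) * X ^ (1 - σ)) * (6 * C4 * (2 + |y|) ^ 2)) := by gcongr
        _ = c0 * (C3 * (6 * C4)) * 1 * (2 + |y|) ^ 3 * X ^ (1 - σ) := by ring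
        _ ≤ _ := by
            apply mul_le_mul
            · apply mul_le_mul
              · exact mul_le_mul_of_nonneg_left hmR (by positivity)
              · exact pow_le_pow_right₀ hy (by norm_num)
              · positivity
              · positivity
            · exact Real.rpow_le_rpow_of_exponent_le hX (by linarith)
            · positivity
            · positivity
    have t3 : (C1 + c0 * (C3 * (6 * C4))) * (m * (2 + |y|) ^ 6 * X ^ (1 - 27 / 50 * σ)) ≤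
        D * (m * (2 + |y|) ^ 6 * X ^ (1 - 27 / 50 * σ)) := by
      apply mul_le_mul_of_nonneg_right _ (by positivity)
      rw [hD]
      have : 0 ≤ C2 * (C1 * (1 + 1 / σ) + c0 * (6 / σ * C4)) + c0 * (6 * C4) := by positivity
      linarith
    linarith
  -- left line
  have hleft : ∀ y : ℝ, ‖Gf s X m (((-σ : ℝ) : ℂ) + y * I)‖ ≤ D * m * (2 + |y|) ^ 6 * X ^ (1 + 23 / 50 * σ) := by
    intro y
    obtain ⟨z, hzd⟩ : ∃ z : ℂ, z = ((-σ : ℝ) : ℂ) + y * I := ⟨_, rfl⟩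
    have hre : z.re = -σ := by rw [hzd]; simp
    have him : z.im = y := by rw [hzd]; simp
    have hz8 : |z.re| ≤ 1 / 8 := by rw [hre, abs_neg, abs_of_pos hσ]; exact hσ1
    have hz0 : z ≠ 0 := by
      intro h0
      rw [h0] at hre
      simp at hre
      linarith
    rw [← hzd]
    have hy : 1 ≤ 2 + |y| := by linarith [abs_nonneg y]
    obtain ⟨R, hR⟩ : ∃ R : ℝ, R = C1 * (2 + |y|) * m * X ^ (1 - 27 / 50 * σ) := ⟨_, rfl⟩
    have hR0 : 0 ≤ R := by rw [hR]; positivity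
    have k0 : ∀ x : ℝ, 1 ≤ x → x ≤ X →
        ‖(∑ q ∈ Q s x, LL s q (1 / 2 - z) * vl s q m) - ((c0 : ℂ) * hz m (-z)) * x‖ ≤ R := by
      intro x hx1 hx2
      have := h1 s X x m (-z) hs hx1 hx2 hm (by rw [neg_re, hre, neg_neg])
      rw [neg_im, abs_neg, him, ← sub_eq_add_neg, ← hR] at this
      refine le_trans (le_of_eq ?_) this
      congr 1
      push_cast
      ring
    have k1 := ps (s := s) hX hσ hre hR0 k0
    have e2 : TM s X m z = Yf s z * ∑ q ∈ Q s X, (q : ℂ) ^ (-z) * (LL s q (1 / 2 - z) * vl s q m) := by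
      unfold TM
      rw [Finset.mul_sum]
      refine Finset.sum_congr rfl fun q hq => ?_
      rw [fe hs (Q_is hq).1 (by linarith : |z.re| < 1 / 2)]
      ring
    have e1 : Gf s X m z = z * (Yf s z * ((∑ q ∈ Q s X, (q : ℂ) ^ (-z) * (LL s q (1 / 2 - z) * vl s q m)) -
        (c0 : ℂ) * hz m (-z) * (X : ℂ) ^ (1 - z) / (1 - z))) -
        (c0 : ℂ) * (X * (1 / 2 * Zt (1 + 2 * z) * Fz m z)) := by
      have e3 := z_hz (m := m) (z := -z) (neg_ne_zero.2 hz0) (by rw [neg_re, hre]; linarith)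
      rw [show (1 : ℂ) + 2 * -z = 1 - 2 * z by ring] at e3
      unfold Gf
      rw [← e3, e2]
      unfold YX
      ring
    have k2 := nz z hz8
    have k3 := h2 s z hz8
    have k4 := hn1 z hz8
    have k5 : ‖(c0 : ℂ) * hz m (-z)‖ ≤ c0 * (6 / σ * C4) * (2 + |y|) ^ 2 := by
      have k6 := hn2 z hz8
      have e3 := z_hz (m := m) (z := -z) (neg_ne_zero.2 hz0) (by rw [neg_re, hre]; linarith)
      rw [show (1 : ℂ) + 2 * -z = 1 - 2 * z by ring] at e3
      rw [← e3, norm_mul, norm_neg, him] at k6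
      have k7 : σ ≤ ‖z‖ := by
        have := Complex.abs_re_le_norm z
        rw [hre, abs_neg, abs_of_pos hσ] at this
        exact this
      have k8 : σ * ‖hz m (-z)‖ ≤ 6 * C4 * (2 + |y|) ^ 2 :=
        (mul_le_mul_of_nonneg_right k7 (norm_nonneg _)).trans k6
      rw [norm_mul, hc0n]
      calc c0 * ‖hz m (-z)‖ = c0 * ((σ * ‖hz m (-z)‖) / σ) := by field_simp
        _ ≤ c0 * ((6 * C4 * (2 + |y|) ^ 2) / σ) := by gcongr
        _ = _ := by ring
    rw [him] at k2 k3 k4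
    have hk3 : ‖Yf s z‖ ≤ C2 * (2 + |y|) := k3.trans (by nlinarith)
    have hzσ : ‖z‖ / σ ≤ (2 + |y|) * (1 / σ) := by
      rw [mul_one_div]
      exact div_le_div_of_nonneg_right k2 hσ.le
    rw [e1]
    refine (norm_sub_le _ _).trans ?_
    rw [norm_mul, norm_mul, norm_mul, norm_mul, hc0n, Complex.norm_real, Real.norm_of_nonneg hX0.le]
    have hX27 : X ^ σ * X ^ (1 - 27 / 50 * σ) = X ^ (1 + 23 / 50 * σ) := by
      rw [← Real.rpow_add hX0]
      congr 1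
      ring
    have t0 : X ^ σ * R * (1 + ‖z‖ / σ) + ‖(c0 : ℂ) * hz m (-z)‖ ≤
        (C1 * (1 + 1 / σ) + c0 * (6 / σ * C4)) * m * (2 + |y|) ^ 4 * X ^ (1 + 23 / 50 * σ) := by
      have q1 : 1 + ‖z‖ / σ ≤ (1 + 1 / σ) * (2 + |y|) := by nlinarith
      have q2 : X ^ σ * R * (1 + ‖z‖ / σ) ≤ C1 * (1 + 1 / σ) * m * (2 + |y|) ^ 4 * X ^ (1 + 23 / 50 * σ) := by
        calc X ^ σ * R * (1 + ‖z‖ / σ) ≤ X ^ σ * R * ((1 + 1 / σ) * (2 + |y|)) := by gcongr
          _ = C1 * (1 + 1 / σ) * m * (2 + |y|) ^ 2 * (X ^ σ * X ^ (1 - 27 / 50 * σ)) := by rw [hR]; ring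
          _ ≤ _ := by
              rw [hX27]
              gcongr 1
              exact mul_le_mul_of_nonneg_left (pow_le_pow_right₀ hy (by norm_num)) (by positivity)
      have q3 : ‖(c0 : ℂ) * hz m (-z)‖ ≤ (c0 * (6 / σ * C4)) * m * (2 + |y|) ^ 4 * X ^ (1 + 23 / 50 * σ) := by
        refine k5.trans ?_
        calc c0 * (6 / σ * C4) * (2 + |y|) ^ 2 = c0 * (6 / σ * C4) * 1 * (2 + |y|) ^ 2 * 1 := by ring
          _ ≤ _ := by
              apply mul_le_mul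
              · apply mul_le_mul
                · exact mul_le_mul_of_nonneg_left hmR (by positivity)
                · exact pow_le_pow_right₀ hy (by norm_num)
                · positivity
                · positivity
              · exact Real.one_le_rpow hX (by positivity)
              · norm_num
              · positivity
      linarith
    have t1 : ‖z‖ * (‖Yf s z‖ * ‖(∑ q ∈ Q s X, (q : ℂ) ^ (-z) * (LL s q (1 / 2 - z) * vl s q m)) -
        (c0 : ℂ) * hz m (-z) * (X : ℂ) ^ (1 - z) / (1 - z)‖) ≤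
        C2 * (C1 * (1 + 1 / σ) + c0 * (6 / σ * C4)) * m * (2 + |y|) ^ 6 * X ^ (1 + 23 / 50 * σ) := by
      calc _ ≤ (2 + |y|) * ((C2 * (2 + |y|)) * ((C1 * (1 + 1 / σ) + c0 * (6 / σ * C4)) * m * (2 + |y|) ^ 4 *
            X ^ (1 + 23 / 50 * σ))) := by
            have := k1.trans t0
            gcongr
        _ = _ := by ring
    have t2 : c0 * (X * ‖(1 / 2 : ℂ) * Zt (1 + 2 * z) * Fz m z‖) ≤
        c0 * (6 * C4) * m * (2 + |y|) ^ 6 * X ^ (1 + 23 / 50 * σ) := by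
      calc c0 * (X * ‖(1 / 2 : ℂ) * Zt (1 + 2 * z) * Fz m z‖) ≤ c0 * (X * (6 * C4 * (2 + |y|) ^ 2)) := by gcongr
        _ = c0 * (6 * C4) * 1 * (2 + |y|) ^ 2 * X ^ (1 : ℝ) := by rw [Real.rpow_one]; ring
        _ ≤ _ := by
            apply mul_le_mul
            · apply mul_le_mul
              · exact mul_le_mul_of_nonneg_left hmR (by positivity)
              · exact pow_le_pow_right₀ hy (by norm_num)
              · positivity
              · positivity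
            · exact Real.rpow_le_rpow_of_exponent_le hX (by linarith [hσ])
            · positivity
            · positivity
    rw [norm_mul, norm_mul] at t2
    have t3 : (C2 * (C1 * (1 + 1 / σ) + c0 * (6 / σ * C4)) + c0 * (6 * C4)) *
        (m * (2 + |y|) ^ 6 * X ^ (1 + 23 / 50 * σ)) ≤ D * (m * (2 + |y|) ^ 6 * X ^ (1 + 23 / 50 * σ)) := by
      apply mul_le_mul_of_nonneg_right _ (by positivity)
      rw [hD]
      have : 0 ≤ C1 + c0 * (C3 * (6 * C4)) := by positivity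
      linarith
    rw [norm_mul, norm_mul]
    linarith
  -- growth
  obtain ⟨CT, hCT, hT⟩ := TM_gr hs X m
  have hGr : Gr (Gf s X m) (-σ) σ := by
    refine ⟨CT * 2 + c0 * (X * (6 * C4 * 4)) + c0 * (C3 * 8 * X ^ (2 : ℝ) * (6 * C4)), 3, by positivity, ?_⟩
    intro z hz1 hz2
    have hz8 : |z.re| ≤ 1 / 8 := by rw [abs_le]; constructor <;> linarith
    have t0 := abs_nonneg z.im
    have k1 := nz z hz8
    have k2 := hT z hz8
    have k3 := h3 s X z hX hz8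
    have k4 := hn1 z hz8
    have k5 := hn2 z hz8
    have k6 : 2 + |z.im| ≤ 2 * (1 + |z.im|) := by linarith
    have k7 : X ^ (1 - z.re) ≤ X ^ (2 : ℝ) := Real.rpow_le_rpow_of_exponent_le hX (by linarith)
    have k8 : (1 + |z.im|) ^ 2 ≤ (1 + |z.im|) ^ 3 := pow_le_pow_right₀ (by linarith) (by norm_num)
    unfold Gf
    refine (norm_sub_le _ _).trans ?_
    rw [norm_mul z, norm_mul (c0 : ℂ), hc0n]
    have t1 : ‖z‖ * ‖TM s X m z‖ ≤ CT * 2 * (1 + |z.im|) ^ 3 := by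
      calc ‖z‖ * ‖TM s X m z‖ ≤ (2 * (1 + |z.im|)) * (CT * (1 + |z.im|) ^ 2) :=
            mul_le_mul (k1.trans k6) k2 (norm_nonneg _) (by positivity)
        _ = _ := by ring
    have t2 : ‖(X : ℂ) * (1 / 2 * Zt (1 + 2 * z) * Fz m z)‖ ≤ (X * (6 * C4 * 4)) * (1 + |z.im|) ^ 3 := by
      rw [norm_mul (X : ℂ), Complex.norm_real, Real.norm_of_nonneg hX0.le]
      calc X * ‖1 / 2 * Zt (1 + 2 * z) * Fz m z‖ ≤ X * (6 * C4 * (2 * (1 + |z.im|)) ^ 2) := by
            refine mul_le_mul_of_nonneg_left (k4.trans ?_) hX0.le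
            gcongr
        _ = (X * (6 * C4 * 4)) * (1 + |z.im|) ^ 2 := by ring
        _ ≤ _ := mul_le_mul_of_nonneg_left k8 (by positivity)
    have t3 : ‖YX s X z * (1 / 2 * Zt (1 - 2 * z) * Fz m (-z))‖ ≤
        (C3 * 8 * X ^ (2 : ℝ) * (6 * C4)) * (1 + |z.im|) ^ 3 := by
      rw [norm_mul (YX s X z)]
      calc ‖YX s X z‖ * ‖1 / 2 * Zt (1 - 2 * z) * Fz m (-z)‖
          ≤ (C3 * (2 * (1 + |z.im|)) * X ^ (2 : ℝ)) * (6 * C4 * (2 * (1 + |z.im|)) ^ 2) := by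
            apply mul_le_mul
            · refine k3.trans ?_
              gcongr
            · refine k5.trans ?_
              gcongr
            · positivity
            · positivity
        _ = _ := by ring
    have t4 := norm_sub_le ((X : ℂ) * (1 / 2 * Zt (1 + 2 * z) * Fz m z)) (YX s X z * (1 / 2 * Zt (1 - 2 * z) * Fz m (-z)))
    have t5 : c0 * ‖(X : ℂ) * (1 / 2 * Zt (1 + 2 * z) * Fz m z) - YX s X z * (1 / 2 * Zt (1 - 2 * z) * Fz m (-z))‖ ≤
        c0 * ((X * (6 * C4 * 4)) * (1 + |z.im|) ^ 3 + (C3 * 8 * X ^ (2 : ℝ) * (6 * C4)) * (1 + |z.im|) ^ 3) :=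
      mul_le_mul_of_nonneg_left (t4.trans (add_le_add t2 t3)) hc0.le
    linarith
  obtain ⟨F, hF⟩ : ∃ F : ℂ → ℂ, F = fun z => Gf s X m z * (X : ℂ) ^ ((z - p) / 2) := ⟨_, rfl⟩
  have hnX : ∀ z : ℂ, ‖(X : ℂ) ^ ((z - p) / 2)‖ = X ^ ((z.re - p.re) / 2) := by
    intro z
    rw [Complex.norm_cpow_eq_rpow_re_of_pos hX0]
    congr 1
    simp
  have hFp : F p = Gf s X m p := by
    rw [hF]
    simp
  have hFd : ∀ z : ℂ, -σ ≤ z.re → z.re ≤ σ → DifferentiableAt ℂ F z := by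
    intro z hz1 hz2
    rw [hF]
    refine DifferentiableAt.mul (Gf_diff hX0 hm (by rw [abs_lt]; constructor <;> linarith)) ?_
    exact DifferentiableAt.const_cpow (by fun_prop) (Or.inl hXc)
  have hFg : Gr F (-σ) σ := by
    rw [hF]
    refine hGr.mul (Gr.of_bd (C := X) hX0.le fun z hz1 hz2 => ?_)
    rw [hnX]
    calc X ^ ((z.re - p.re) / 2) ≤ X ^ (1 : ℝ) := Real.rpow_le_rpow_of_exponent_le hX (by linarith)
      _ = X := Real.rpow_one X
  obtain ⟨E, hE⟩ : ∃ E : ℝ, E = D * m * X ^ (1 - 3 / 100 * σ) := ⟨_, rfl⟩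
  have hE0 : 0 ≤ E := by rw [hE]; positivity
  have q1 : ∀ y : ℝ, ‖F (σ + y * I)‖ ≤ E * (2 + |y|) ^ 6 := by
    intro y
    rw [hF]
    simp only
    rw [norm_mul, hnX]
    have hre : ((σ : ℂ) + y * I).re = σ := by simp
    rw [hre]
    calc ‖Gf s X m (σ + y * I)‖ * X ^ ((σ - p.re) / 2)
        ≤ (D * m * (2 + |y|) ^ 6 * X ^ (1 - 27 / 50 * σ)) * X ^ ((σ - p.re) / 2) :=
          mul_le_mul_of_nonneg_right (hright y) (by positivity)
      _ = D * m * (2 + |y|) ^ 6 * (X ^ (1 - 27 / 50 * σ) * X ^ ((σ - p.re) / 2)) := by ring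
      _ ≤ D * m * (2 + |y|) ^ 6 * X ^ (1 - 3 / 100 * σ) := by
          rw [← Real.rpow_add hX0]
          apply mul_le_mul_of_nonneg_left _ (by positivity)
          apply Real.rpow_le_rpow_of_exponent_le hX
          linarith
      _ = _ := by rw [hE]; ring
  have q2 : ∀ y : ℝ, ‖F (((-σ : ℝ) : ℂ) + y * I)‖ ≤ E * (2 + |y|) ^ 6 := by
    intro y
    rw [hF]
    simp only
    rw [norm_mul, hnX]
    have hre : (((-σ : ℝ) : ℂ) + y * I).re = -σ := by simp
    rw [hre]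
    calc ‖Gf s X m (((-σ : ℝ) : ℂ) + y * I)‖ * X ^ ((-σ - p.re) / 2)
        ≤ (D * m * (2 + |y|) ^ 6 * X ^ (1 + 23 / 50 * σ)) * X ^ ((-σ - p.re) / 2) :=
          mul_le_mul_of_nonneg_right (hleft y) (by positivity)
      _ = D * m * (2 + |y|) ^ 6 * (X ^ (1 + 23 / 50 * σ) * X ^ ((-σ - p.re) / 2)) := by ring
      _ ≤ D * m * (2 + |y|) ^ 6 * X ^ (1 - 3 / 100 * σ) := by
          rw [← Real.rpow_add hX0]
          apply mul_le_mul_of_nonneg_left _ (by positivity)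
          apply Real.rpow_le_rpow_of_exponent_le hX
          linarith
      _ = _ := by rw [hE]; ring
  have ii : Integrable fun y : ℝ => Real.exp (-(y ^ 2) / 2) * (E * (2 + |y|) ^ 6) := by
    have := (int_poly 6).const_mul E
    refine this.congr (Eventually.of_forall fun y => ?_)
    simp only
    ring
  have q3 := two_lines (F := F) (a := -σ) (b := σ) p (by linarith) (by linarith) hFd hFg
    (fun y => E * (2 + |y|) ^ 6) (fun y => E * (2 + |y|) ^ 6) q1 (fun y => q2 y) ii ii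
  have q4 : ∫ y : ℝ, Real.exp (-(y ^ 2) / 2) * (E * (2 + |y|) ^ 6) = E * J0 := by
    rw [hI, ← integral_const_mul]
    refine integral_congr_ae (Eventually.of_forall fun y => ?_)
    simp only
    ring
  rw [q4, hFp] at q3
  have q5 : E * J0 / (σ - p.re) ≤ E * J0 * (2 / σ) := by
    rw [div_eq_mul_inv]
    apply mul_le_mul_of_nonneg_left _ (by positivity)
    rw [← one_div, div_le_div_iff₀ (by linarith) hσ]
    linarith
  have q6 : E * J0 / (p.re - -σ) ≤ E * J0 * (2 / σ) := by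
    rw [div_eq_mul_inv]
    apply mul_le_mul_of_nonneg_left _ (by positivity)
    rw [← one_div, div_le_div_iff₀ (by linarith) hσ]
    linarith
  have q7 : Real.exp ((σ - -σ) ^ 2 + p.im ^ 2) ≤ Real.exp (2 ^ 2 + 1) := by
    apply Real.exp_le_exp.2
    have : p.im ^ 2 ≤ 1 := by rw [← sq_abs]; nlinarith [abs_nonneg p.im]
    nlinarith
  calc ‖Gf s X m p‖ ≤ Real.exp ((σ - -σ) ^ 2 + p.im ^ 2) * (E * J0 / (σ - p.re) + E * J0 / (p.re - -σ)) := q3
    _ ≤ Real.exp (2 ^ 2 + 1) * (E * J0 * (2 / σ) + E * J0 * (2 / σ)) := by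
        apply mul_le_mul q7 (add_le_add q5 q6) _ (by positivity)
        have : 0 < σ - p.re := by linarith
        have : 0 < p.re - -σ := by linarith
        positivity
    _ = (Real.exp (2 ^ 2 + 1) * (D * J0 * (2 / σ) + D * J0 * (2 / σ))) * m * X ^ (1 - 3 / 100 * σ) := by
        rw [hE]; ring
    _ ≤ _ := by
        apply mul_le_mul_of_nonneg_right _ (by positivity)
        apply mul_le_mul_of_nonneg_right _ (by positivity)
        linarith

end

end Pool.Agent.V8H6.CB
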