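import Pool.Agent.V8H6.CB.Msr
import Pool.Agent.V8H6.CB.Cc

set_option autoImplicit false

/-! The difference between the moment and its main term. -/

namespace Pool.Agent.V8H6.CB

open Complex hiding im
open Filter Topology MeasureTheory Set
open Pool.Agent.N879.QM Pool.Agent.V8H6.RW
open Pool.Agent.H306R2 (Zt Zt_norm_le zeta_eq_pos Zt_differentiableAt)
open scoped BigOperators

noncomputable section

variable {k : ℕ}

/-- the moment -/
def LD (s : ℤ) (D : Finset ℕ) (z : ℂ) (β : Fin k → ℝ) : ℂ := ∑ q ∈ D, LL s q (1 / 2 + z) * ∏ j, LL s q (pt (β j))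

/-- half of the numerator -/
def Rz (z : ℂ) (β : Fin k → ℝ) : ℂ := 1 / 2 * (Zt (1 + 2 * z) * B0 z β)

/-- the main term times `z` -/
def Hm (s : ℤ) (X : ℝ) (z : ℂ) (β : Fin k → ℝ) : ℂ := (c0 : ℂ) * (X * Rz z β - YX s X z * Rz (-z) β)

/-- the difference times `z` -/
def Up (s : ℤ) (X : ℝ) (D : Finset ℕ) (β : Fin k → ℝ) (z : ℂ) : ℂ := z * LD s D z β - Hm s X z β

lemma Yf_zero (s : ℤ) : Yf s 0 = 1 := by
  unfold Yf
  rw [sub_zero, add_zero]
  exact div_self (gam_ne (by norm_num))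

lemma YX_zero (s : ℤ) (X : ℝ) : YX s X 0 = X := by
  unfold YX
  rw [Yf_zero, sub_zero, Complex.cpow_one]
  ring

lemma Up_zero (s : ℤ) (X : ℝ) (D : Finset ℕ) (β : Fin k → ℝ) : Up s X D β 0 = 0 := by
  unfold Up Hm
  rw [YX_zero, neg_zero]
  ring

/-! differentiability -/

lemma LD_diff (s : ℤ) {X : ℝ} {D : Finset ℕ} (hD : D ⊆ Q s X) (β : Fin k → ℝ) (z : ℂ) :
    DifferentiableAt ℂ (fun z => LD s D z β) z := by
  unfold LD
  refine DifferentiableAt.fun_sum fun q hq => DifferentiableAt.mul ?_ (differentiableAt_const _)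
  exact DifferentiableAt.comp (f := fun z : ℂ => 1 / 2 + z) z ((LL_diff (Q_is (hD hq)).1) _) (by fun_prop)

lemma B0_diff {β : Fin k → ℝ} {z : ℂ} (hz : -1 / 16 < z.re) (hne : ∀ j, z + im β j ≠ 0) :
    DifferentiableAt ℂ (fun z => B0 z β) z := by
  unfold B0
  refine DifferentiableAt.mul (DifferentiableAt.mul ?_ ?_) (differentiableAt_const _)
  · exact (Ak_diff β).differentiableAt ((isOpen_lt continuous_const Complex.continuous_re).mem_nhds hz)
  · refine DifferentiableAt.fun_finsetProd fun j _ => ?_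
    refine DifferentiableAt.comp (g := riemannZeta) (f := fun z : ℂ => 1 + z + im β j) z
      (differentiableAt_riemannZeta ?_) (by fun_prop)
    intro h
    apply hne j
    linear_combination h

lemma Rz_diff {β : Fin k → ℝ} {z : ℂ} (hz : -1 / 16 < z.re) (hne : ∀ j, z + im β j ≠ 0) :
    DifferentiableAt ℂ (fun z => Rz z β) z := by
  unfold Rz
  refine (differentiableAt_const _).mul (DifferentiableAt.mul ?_ (B0_diff hz hne))
  exact DifferentiableAt.comp (g := Zt) (f := fun z : ℂ => 1 + 2 * z) z (Zt_differentiableAt (by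
    simp
    linarith)) (by fun_prop)

lemma small_pt {A : ℝ} (hA : 16 ≤ A) {β : Fin k → ℝ} (hβ : β ∈ Gd k A) {z : ℂ} (hz : ‖z‖ ≤ 1 / 64) :
    |z.re| ≤ 1 / 64 ∧ |z.im| ≤ 1 ∧ (∀ j, z + im β j ≠ 0) := by
  have h1 := (Complex.abs_re_le_norm z).trans hz
  have h2 : |z.im| ≤ 1 := ((Complex.abs_im_le_norm z).trans hz).trans (by norm_num)
  exact ⟨h1, h2, (ww_big hA hβ h2).1⟩

lemma Hm_diff (s : ℤ) {X A : ℝ} (hX : 0 < X) (hA : 16 ≤ A) {β : Fin k → ℝ} (hβ : β ∈ Gd k A) {z : ℂ}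
    (hz : ‖z‖ ≤ 1 / 64) : DifferentiableAt ℂ (fun z => Hm s X z β) z := by
  obtain ⟨h1, h2, h3⟩ := small_pt hA hβ hz
  obtain ⟨h1', h2', h3'⟩ := small_pt hA hβ (z := -z) (by rwa [norm_neg])
  have h4 := abs_le.1 h1
  have h4' := abs_le.1 h1'
  unfold Hm
  refine (differentiableAt_const _).mul (((differentiableAt_const _).mul (Rz_diff (by linarith) h3)).sub
    ((YX_diff s hX (by linarith)).mul ?_))
  exact DifferentiableAt.comp (g := fun z => Rz z β) (f := fun z : ℂ => -z) z (Rz_diff (by linarith) h3')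
    (by fun_prop)

lemma Up_diff (s : ℤ) {X A : ℝ} (hX : 0 < X) (hA : 16 ≤ A) {D : Finset ℕ} (hD : D ⊆ Q s X) {β : Fin k → ℝ}
    (hβ : β ∈ Gd k A) {r : ℝ} (hr : r ≤ 1 / 64) : DifferentiableOn ℂ (Up s X D β) (Metric.closedBall 0 r) := by
  intro z hz
  rw [mem_closedBall_zero_iff] at hz
  unfold Up
  exact ((differentiableAt_id.mul (LD_diff s hD β z)).sub (Hm_diff s hX hA hβ (hz.trans hr))).differentiableWithinAt

/-! measurability -/

lemma B0_meas (g : ℝ → ℂ) (hg : Continuous g) (hr : ∀ ω, -1 / 16 < (g ω).re) :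
    Measurable fun w : (Fin k → ℝ) × ℝ => B0 (g w.2) w.1 := by
  unfold B0
  have cg : Continuous fun w : (Fin k → ℝ) × ℝ => g w.2 := hg.comp continuous_snd
  have ci : ∀ j, Continuous fun w : (Fin k → ℝ) × ℝ => im w.1 j := fun j => (im_cont j).comp continuous_fst
  have m4 : Measurable fun w : (Fin k → ℝ) × ℝ => Ak (cn (g w.2) w.1) := by
    have h := (Ak_cont k).comp_continuous (f := fun w : (Fin k → ℝ) × ℝ => (g w.2, w.1))
      (cg.prodMk continuous_fst) (fun w => hr w.2)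
    exact h.measurable
  have m5 : Measurable fun w : (Fin k → ℝ) × ℝ => ∏ j, riemannZeta (1 + g w.2 + im w.1 j) := by
    refine Finset.measurable_prod _ fun j _ => meas_zeta.comp ?_
    exact ((continuous_const.add cg).add (ci j)).measurable
  exact (m4.mul m5).mul (meas_ZP.comp measurable_fst)

lemma Rz_meas (g : ℝ → ℂ) (hg : Continuous g) (hr : ∀ ω, -1 / 16 < (g ω).re) :
    Measurable fun w : (Fin k → ℝ) × ℝ => Rz (g w.2) w.1 := by
  unfold Rz
  have m1 : Measurable fun w : (Fin k → ℝ) × ℝ => Zt (1 + 2 * g w.2) := by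
    have : Continuous fun ω : ℝ => Zt (1 + 2 * g ω) :=
      Zt_contOn.comp_continuous (by fun_prop) (fun w => by
        have := hr w
        simp
        linarith)
    exact this.measurable.comp measurable_snd
  exact measurable_const.mul (m1.mul (B0_meas g hg hr))

lemma LD_meas (s : ℤ) {X : ℝ} {D : Finset ℕ} (hD : D ⊆ Q s X) (g : ℝ → ℂ) (hg : Continuous g) :
    Measurable fun w : (Fin k → ℝ) × ℝ => LD s D (g w.2) w.1 := by
  unfold LD
  refine Finset.measurable_sum _ fun q hq => Measurable.mul ?_ ?_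
  · have h1 : Continuous fun ω : ℝ => LL s q (1 / 2 + g ω) :=
      (LL_diff (Q_is (hD hq)).1).continuous.comp (by fun_prop)
    exact h1.measurable.comp measurable_snd
  · refine Finset.measurable_prod _ fun j _ => ?_
    have h1 : Continuous fun β : Fin k → ℝ => LL s q (pt (β j)) :=
      (t_CTS s q (Q_is (hD hq)).1).comp (continuous_apply j)
    exact h1.measurable.comp measurable_fst

lemma Up_meas (s : ℤ) {X : ℝ} (hX : 0 < X) {D : Finset ℕ} (hD : D ⊆ Q s X) (g : ℝ → ℂ) (hg : Continuous g)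
    (hr : ∀ ω, |(g ω).re| ≤ 1 / 64) : Measurable fun w : (Fin k → ℝ) × ℝ => Up s X D w.1 (g w.2) := by
  unfold Up Hm
  have hr1 : ∀ ω, -1 / 16 < (g ω).re := fun ω => by
    have := (abs_le.1 (hr ω)).1
    linarith
  have hr2 : ∀ ω, -1 / 16 < (-(g ω)).re := fun ω => by
    have := (abs_le.1 (hr ω)).2
    rw [neg_re]
    linarith
  have m1 : Measurable fun w : (Fin k → ℝ) × ℝ => g w.2 := hg.measurable.comp measurable_snd
  have m2 : Measurable fun w : (Fin k → ℝ) × ℝ => YX s X (g w.2) := by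
    have h1 : Continuous fun ω : ℝ => YX s X (g ω) := by
      rw [continuous_iff_continuousAt]
      intro ω
      exact ContinuousAt.comp (g := YX s X) (YX_diff s hX (by linarith [hr ω])).continuousAt hg.continuousAt
    exact h1.measurable.comp measurable_snd
  have m3 := Rz_meas (k := k) g hg hr1
  have m4 := Rz_meas (k := k) (fun ω => -(g ω)) hg.neg hr2
  exact (m1.mul (LD_meas s hD g hg)).sub (measurable_const.mul ((measurable_const.mul m3).sub (m2.mul m4)))

/-! the expansion -/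

lemma sumQ_eq (s : ℤ) (X : ℝ) (N : ℕ) (z : ℂ) (β : Fin k → ℝ) :
    ∑ q ∈ Q s X, LL s q (1 / 2 + z) * ∏ j, PN s q N (β j) = ∑ n ∈ tup k N, TM s X (∏ j, n j) z * cx n β := by
  have e1 : ∀ q, LL s q (1 / 2 + z) * ∏ j, PN s q N (β j) =
      ∑ n ∈ tup k N, LL s q (1 / 2 + z) * vl s q (∏ j, n j) * cx n β := by
    intro q
    rw [DiagA.expand, Finset.mul_sum]
    exact Finset.sum_congr rfl fun n _ => by ring
  simp only [e1]
  rw [Finset.sum_comm]
  refine Finset.sum_congr rfl fun n _ => ?_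
  unfold TM
  rw [Finset.sum_mul]

/-- the sum of the remainders -/
def Gs (s : ℤ) (X : ℝ) (N : ℕ) (z : ℂ) (β : Fin k → ℝ) : ℂ := ∑ n ∈ tup k N, Gf s X (∏ j, n j) z * cx n β

lemma zsumQ_eq (s : ℤ) (X : ℝ) (N : ℕ) (z : ℂ) (β : Fin k → ℝ) :
    z * ∑ q ∈ Q s X, LL s q (1 / 2 + z) * ∏ j, PN s q N (β j) = Gs s X N z β +
      (c0 : ℂ) * (X * (1 / 2 * (Zt (1 + 2 * z) * S0 N z β)) -
        YX s X z * (1 / 2 * (Zt (1 + 2 * (-z)) * S0 N (-z) β))) := by
  have e0 : (1 : ℂ) + 2 * (-z) = 1 - 2 * z := by ring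
  rw [sumQ_eq, e0]
  unfold Gs S0 Gf
  simp only [Finset.mul_sum]
  rw [← Finset.sum_sub_distrib, Finset.mul_sum, ← Finset.sum_add_distrib]
  exact Finset.sum_congr rfl fun n _ => by ring

/-- the first difference -/
def D1 (s : ℤ) (D : Finset ℕ) (N : ℕ) (z : ℂ) (β : Fin k → ℝ) : ℂ :=
  ∑ q ∈ D, LL s q (1 / 2 + z) * (∏ j, LL s q (pt (β j)) - ∏ j, PN s q N (β j))

/-- the removed conductors -/
def D3 (s : ℤ) (E : Finset ℕ) (N : ℕ) (z : ℂ) (β : Fin k → ℝ) : ℂ :=
  ∑ q ∈ E, LL s q (1 / 2 + z) * ∏ j, PN s q N (β j)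

/-- the difference between the diagonal sum and its limit -/
def Df (N : ℕ) (z : ℂ) (β : Fin k → ℝ) : ℂ := Zt (1 + 2 * z) * (S0 N z β - B0 z β)

lemma Up_eq (s : ℤ) (X : ℝ) (N : ℕ) {E : Finset ℕ} (hE : E ⊆ Q s X) (z : ℂ) (β : Fin k → ℝ) :
    Up s X (Q s X \ E) β z = (((z * D1 s (Q s X \ E) N z β + (-z) * D3 s E N z β) + Gs s X N z β) +
      (c0 * X / 2 : ℂ) * Df N z β) + (-(c0 * YX s X z / 2) : ℂ) * Df N (-z) β := by
  have e1 : ∑ q ∈ Q s X, LL s q (1 / 2 + z) * ∏ j, PN s q N (β j) =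
      (∑ q ∈ Q s X \ E, LL s q (1 / 2 + z) * ∏ j, PN s q N (β j)) + D3 s E N z β := by
    unfold D3
    exact (Finset.sum_sdiff hE).symm
  have e2 : LD s (Q s X \ E) z β = D1 s (Q s X \ E) N z β +
      ∑ q ∈ Q s X \ E, LL s q (1 / 2 + z) * ∏ j, PN s q N (β j) := by
    unfold LD D1
    rw [← Finset.sum_add_distrib]
    exact Finset.sum_congr rfl fun q _ => by ring
  have e3 := zsumQ_eq s X N z β
  rw [e1] at e3
  unfold Up Hm Rz Df
  rw [e2]
  linear_combination e3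

end

end Pool.Agent.V8H6.CB
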